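import Mathlib

/-!
# Parseval on the two-dimensional torus and unfolding over the integer lattice
-/

open MeasureTheory Set UnitAddTorus
open scoped ComplexConjugate Real

attribute [local instance] instMeasureSpaceUnitAddCircle

namespace Pool.Agent.Helper22.GC

noncomputable section

local instance : IsProbabilityMeasure (volume : Measure UnitAddCircle) :=
  inferInstanceAs (IsProbabilityMeasure AddCircle.haarAddCircle)

/-- The fundamental cube `(-1/2, 1/2]²`. -/
def cube : Set (Fin 2 → ℝ) := {x | ∀ i, x i ∈ Ioc (-(1 / 2) : ℝ) (-(1 / 2) + 1)}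

lemma measurableSet_cube : MeasurableSet cube := by
  have : cube = Set.pi Set.univ (fun _ : Fin 2 => Ioc (-(1 / 2) : ℝ) (-(1 / 2) + 1)) := by
    ext x; simp [cube]
  rw [this]
  exact MeasurableSet.univ_pi fun _ => measurableSet_Ioc

/-- The exponential `e(k·x)`. -/
def ek (k : Fin 2 → ℤ) (x : Fin 2 → ℝ) : ℂ :=
  Complex.exp (2 * π * Complex.I * ((k 0 : ℂ) * x 0 + (k 1 : ℂ) * x 1))

lemma mFourier_coe (k : Fin 2 → ℤ) (x : Fin 2 → ℝ) :
    mFourier k (fun i => (x i : UnitAddCircle)) = ek k x := by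
  simp only [mFourier, ContinuousMap.coe_mk, Fin.prod_univ_two, fourier_coe_apply, ek,
    ← Complex.exp_add]
  congr 1
  push_cast
  ring

lemma norm_ek (k : Fin 2 → ℤ) (x : Fin 2 → ℝ) : ‖ek k x‖ = 1 := by
  rw [ek, Complex.norm_exp]
  simp

lemma continuous_ek (k : Fin 2 → ℤ) : Continuous (ek k) := by
  unfold ek
  fun_prop

/-- The representative of a point of the torus in the fundamental cube. -/
def rep (t : UnitAddTorus (Fin 2)) : Fin 2 → ℝ :=
  fun i => (AddCircle.equivIoc (1 : ℝ) (-(1 / 2) : ℝ) (t i) : ℝ)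

lemma rep_coe {x : Fin 2 → ℝ} (hx : x ∈ cube) :
    rep (fun i => (x i : UnitAddCircle)) = x := by
  funext i
  have h := AddCircle.equivIoc_coe_of_mem (p := (1 : ℝ)) (a := -(1 / 2)) (y := x i) (hx i)
  simp only [rep]
  rw [h]

lemma measurable_rep : Measurable rep := by
  refine measurable_pi_lambda _ fun i => ?_
  have h := (AddCircle.measurableEquivIoc (1 : ℝ) (-(1 / 2) : ℝ)).measurable
  exact measurable_subtype_coe.comp (h.comp (measurable_pi_apply i))

/-- Fourier coefficient over the cube. -/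
def cubeCoeff (f : (Fin 2 → ℝ) → ℂ) (k : Fin 2 → ℤ) : ℂ := ∫ x in cube, ek (-k) x * f x

lemma mFourierCoeff_rep (f : (Fin 2 → ℝ) → ℂ) (k : Fin 2 → ℤ) :
    mFourierCoeff (fun t => f (rep t)) k = cubeCoeff f k := by
  rw [mFourierCoeff_eq_integral _ _ (fun _ => (-(1 / 2) : ℝ)), cubeCoeff]
  refine setIntegral_congr_fun measurableSet_cube fun x hx => ?_
  simp only [smul_eq_mul]
  rw [mFourier_coe, rep_coe hx]

/-- Parseval on the cube. -/
theorem parseval_cube {f g : (Fin 2 → ℝ) → ℂ} (hf : Measurable f) (hg : Measurable g)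
    {Cf Cg : ℝ} (hCf : ∀ x, ‖f x‖ ≤ Cf) (hCg : ∀ x, ‖g x‖ ≤ Cg) :
    HasSum (fun k => conj (cubeCoeff f k) * cubeCoeff g k) (∫ x in cube, conj (f x) * g x) := by
  have hf' : MemLp (fun t => f (rep t)) 2 (volume : Measure (UnitAddTorus (Fin 2))) :=
    MemLp.of_bound (hf.comp measurable_rep).aestronglyMeasurable Cf
      (Filter.Eventually.of_forall fun t => hCf _)
  have hg' : MemLp (fun t => g (rep t)) 2 (volume : Measure (UnitAddTorus (Fin 2))) :=
    MemLp.of_bound (hg.comp measurable_rep).aestronglyMeasurable Cg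
      (Filter.Eventually.of_forall fun t => hCg _)
  have h := hasSum_prod_mFourierCoeff (hf'.toLp _) (hg'.toLp _)
  have h1 : ∀ k, mFourierCoeff (hf'.toLp _) k = cubeCoeff f k := by
    intro k
    rw [← mFourierCoeff_rep, mFourierCoeff, mFourierCoeff]
    refine integral_congr_ae ?_
    filter_upwards [hf'.coeFn_toLp] with t ht
    rw [ht]
  have h2 : ∀ k, mFourierCoeff (hg'.toLp _) k = cubeCoeff g k := by
    intro k
    rw [← mFourierCoeff_rep, mFourierCoeff, mFourierCoeff]
    refine integral_congr_ae ?_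
    filter_upwards [hg'.coeFn_toLp] with t ht
    rw [ht]
  have h3 : ∫ t, conj ((hf'.toLp _ : _ → ℂ) t) * (hg'.toLp _ : _ → ℂ) t
      = ∫ x in cube, conj (f x) * g x := by
    have : ∫ t, conj ((hf'.toLp _ : _ → ℂ) t) * (hg'.toLp _ : _ → ℂ) t
        = ∫ t : UnitAddTorus (Fin 2), conj (f (rep t)) * g (rep t) := by
      refine integral_congr_ae ?_
      filter_upwards [hf'.coeFn_toLp, hg'.coeFn_toLp] with t ht ht'
      rw [ht, ht']
    rw [this, integral_preimage _ (fun _ => (-(1 / 2) : ℝ))]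
    refine setIntegral_congr_fun measurableSet_cube fun x hx => ?_
    rw [rep_coe hx]
  rw [h3] at h
  simpa only [h1, h2] using h

/-- The integer part relative to the cube. -/
def fl (x : Fin 2 → ℝ) : Fin 2 → ℤ := fun i => ⌈x i - 1 / 2⌉

lemma sub_mem_cube_iff (x : Fin 2 → ℝ) (v : Fin 2 → ℤ) :
    (fun i => x i - v i) ∈ cube ↔ v = fl x := by
  constructor
  · intro h
    funext i
    obtain ⟨h1, h2⟩ := h i
    symm
    rw [fl, Int.ceil_eq_iff]
    constructor <;> [skip; skip] <;> simp only at h1 h2 <;> linarith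
  · rintro rfl i
    simp only [fl, mem_Ioc]
    have h1 := Int.le_ceil (x i - 1 / 2)
    have h2 := Int.ceil_lt_add_one (x i - 1 / 2)
    constructor <;> linarith

/-- Unfolding. -/
theorem unfold_cube {F : (Fin 2 → ℝ) → ℂ} (hF : Integrable F) (V : Finset (Fin 2 → ℤ))
    (hV : ∀ x ∈ cube, ∀ v ∉ V, F (fun i => x i + v i) = 0) :
    ∫ x in cube, ∑ v ∈ V, F (fun i => x i + v i) = ∫ x, F x := by
  have hint : ∀ v : Fin 2 → ℤ, Integrable (fun x : Fin 2 → ℝ => F (fun i => x i + v i)) := by
    intro v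
    exact hF.comp_add_right (fun i => (v i : ℝ))
  rw [integral_finsetSum _ fun v _ => (hint v).integrableOn]
  have h1 : ∀ v : Fin 2 → ℤ, ∫ x in cube, F (fun i => x i + v i)
      = ∫ x, ({x : Fin 2 → ℝ | (fun i => x i - v i) ∈ cube}.indicator F) x := by
    intro v
    rw [← integral_indicator measurableSet_cube]
    rw [← integral_add_right_eq_self
      ({x : Fin 2 → ℝ | (fun i => x i - v i) ∈ cube}.indicator F) (fun i => (v i : ℝ))]
    congr 1
    funext x
    by_cases hx : x ∈ cube
    · rw [indicator_of_mem hx, indicator_of_mem]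
      · rfl
      · simpa using hx
    · rw [indicator_of_notMem hx, indicator_of_notMem]
      simpa using hx
  have hmeas : ∀ v : Fin 2 → ℤ, MeasurableSet {x : Fin 2 → ℝ | (fun i => x i - v i) ∈ cube} := by
    intro v
    have : Measurable (fun x : Fin 2 → ℝ => (fun i => x i - (v i : ℝ))) := by fun_prop
    exact this measurableSet_cube
  simp_rw [h1]
  rw [← integral_finsetSum _ fun v _ => hF.indicator (hmeas v)]
  congr 1
  funext x
  have h2 : ∀ v : Fin 2 → ℤ,
      ({x : Fin 2 → ℝ | (fun i => x i - v i) ∈ cube}.indicator F) x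
        = if v = fl x then F x else 0 := by
    intro v
    by_cases h : v = fl x
    · rw [if_pos h, indicator_of_mem]
      exact (sub_mem_cube_iff x v).mpr h
    · rw [if_neg h, indicator_of_notMem]
      exact fun h' => h ((sub_mem_cube_iff x v).mp h')
  simp_rw [h2]
  rw [Finset.sum_ite_eq']
  split_ifs with h
  · rfl
  · have h3 := hV (fun i => x i - fl x i) ((sub_mem_cube_iff x _).mpr rfl) (fl x) h
    have h4 : (fun i => x i - (fl x i : ℝ) + (fl x i : ℝ)) = x := by
      funext i; ring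
    rw [h4] at h3
    exact h3.symm

end

end Pool.Agent.Helper22.GC
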