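import Mathlib
import Pool.Agent.Helper22.GC.Torus

/-!
# Counting lattice points in (shifted) discs and the sandwich with a tent kernel
-/

open MeasureTheory Set
open scoped ComplexConjugate Real

namespace Pool.Agent.Helper22.GC

noncomputable section

/-- The lattice points `v` with `|x + v| ≤ |R|`. -/
def cntSet (R : ℝ) (x : Fin 2 → ℝ) : Set (Fin 2 → ℤ) :=
  {v | (x 0 + v 0) ^ 2 + (x 1 + v 1) ^ 2 ≤ R ^ 2}

/-- The number of lattice points `v` with `|x + v| ≤ |R|`. -/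
def cnt (R : ℝ) (x : Fin 2 → ℝ) : ℕ := (cntSet R x).ncard

/-- The indicator of the disc. -/
def ball (R : ℝ) (y : Fin 2 → ℝ) : ℂ := if y 0 ^ 2 + y 1 ^ 2 ≤ R ^ 2 then 1 else 0

/-- A box of lattice points. -/
def box (n : ℕ) : Finset (Fin 2 → ℤ) := Fintype.piFinset fun _ => Finset.Icc (-(n : ℤ)) n

lemma mem_box {n : ℕ} {v : Fin 2 → ℤ} : v ∈ box n ↔ ∀ i, -(n : ℤ) ≤ v i ∧ v i ≤ n := by
  simp [box, Fintype.mem_piFinset]

lemma abs_le_of_mem_cube {x : Fin 2 → ℝ} (hx : x ∈ cube) (i : Fin 2) : |x i| ≤ 1 / 2 := by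
  obtain ⟨h1, h2⟩ := hx i
  rw [abs_le]
  constructor <;> linarith

lemma box_of_le {R : ℝ} {x : Fin 2 → ℝ} (hx : ∀ i, |x i| ≤ 1 / 2) {n : ℕ} (hn : |R| ≤ n)
    {v : Fin 2 → ℤ} (hv : (x 0 + v 0) ^ 2 + (x 1 + v 1) ^ 2 ≤ R ^ 2) : v ∈ box (n + 1) := by
  rw [mem_box]
  have key : ∀ i, (x i + v i) ^ 2 ≤ R ^ 2 := by
    intro i
    fin_cases i
    · show (x 0 + v 0) ^ 2 ≤ R ^ 2
      nlinarith [sq_nonneg (x 1 + v 1)]
    · show (x 1 + v 1) ^ 2 ≤ R ^ 2
      nlinarith [sq_nonneg (x 0 + v 0)]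
  intro i
  have h1 := abs_le.mp (sq_le_sq.mp (key i))
  have h2 := abs_le.mp (hx i)
  have h3 : (v i : ℝ) ≤ (n : ℝ) + 1 := by linarith
  have h4 : -((n : ℝ) + 1) ≤ (v i : ℝ) := by linarith
  constructor
  · have : ((-((n : ℤ) + 1) : ℤ) : ℝ) ≤ ((v i : ℤ) : ℝ) := by push_cast; linarith
    have := Int.cast_le.mp this
    push_cast
    linarith
  · have : ((v i : ℤ) : ℝ) ≤ (((n : ℤ) + 1 : ℤ) : ℝ) := by push_cast; linarith
    have := Int.cast_le.mp this
    push_cast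
    linarith

lemma cntSet_finite (R : ℝ) (x : Fin 2 → ℝ) (hx : ∀ i, |x i| ≤ 1 / 2) : (cntSet R x).Finite := by
  refine (box (⌈|R|⌉₊ + 1)).finite_toSet.subset fun v hv => ?_
  exact box_of_le hx (Nat.le_ceil _) hv

lemma cnt_eq_sum {R : ℝ} {x : Fin 2 → ℝ} (hx : ∀ i, |x i| ≤ 1 / 2) {n : ℕ} (hn : |R| ≤ n) :
    (cnt R x : ℂ) = ∑ v ∈ box (n + 1), ball R (fun i => x i + v i) := by
  classical
  have h1 : cntSet R x = ((box (n + 1)).filter
      (fun v => (x 0 + v 0) ^ 2 + (x 1 + v 1) ^ 2 ≤ R ^ 2) : Finset (Fin 2 → ℤ)) := by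
    ext v
    simp only [cntSet, mem_ofPred_eq, Finset.coe_filter]
    exact ⟨fun h => ⟨box_of_le hx hn h, h⟩, fun h => h.2⟩
  rw [cnt, h1, Set.ncard_coe_finset, Finset.card_filter]
  push_cast
  rfl

lemma measurable_ball (R : ℝ) : Measurable (ball R) := by
  unfold ball
  refine Measurable.ite ?_ measurable_const measurable_const
  exact measurableSet_le (by fun_prop) measurable_const

lemma norm_ball_le (R : ℝ) (y : Fin 2 → ℝ) : ‖ball R y‖ ≤ 1 := by
  unfold ball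
  split_ifs <;> simp

/-- The disc is contained in a cube. -/
lemma ball_support (R : ℝ) (y : Fin 2 → ℝ) (h : ball R y ≠ 0) : ∀ i, y i ∈ Icc (-|R|) |R| := by
  have h1 : y 0 ^ 2 + y 1 ^ 2 ≤ R ^ 2 := by
    by_contra hcon
    exact h (by simp [ball, hcon])
  intro i
  rw [mem_Icc]
  rw [← abs_le]
  apply sq_le_sq.mp
  fin_cases i
  · show y 0 ^ 2 ≤ R ^ 2
    nlinarith [sq_nonneg (y 1)]
  · show y 1 ^ 2 ≤ R ^ 2
    nlinarith [sq_nonneg (y 0)]

/-- Integrability of bounded measurable functions times the disc indicator. -/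
lemma integrable_mul_ball {f : (Fin 2 → ℝ) → ℂ} (hf : Measurable f) {C : ℝ}
    (hC : ∀ x, ‖f x‖ ≤ C) (R : ℝ) : Integrable (fun x => f x * ball R x) := by
  have hsupp : Function.support (fun x => f x * ball R x) ⊆
      Set.pi Set.univ (fun _ : Fin 2 => Icc (-|R|) |R|) := by
    intro x hx i _
    exact ball_support R x (right_ne_zero_of_mul hx) i
  have hm : MeasurableSet (Set.pi Set.univ (fun _ : Fin 2 => Icc (-|R|) |R|)) :=
    MeasurableSet.univ_pi fun _ => measurableSet_Icc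
  rw [← integrableOn_iff_integrable_of_support_subset hsupp]
  refine Measure.integrableOn_of_bounded (M := C * 1) ?_
    (hf.mul (measurable_ball R)).aestronglyMeasurable ?_
  · exact (isCompact_univ_pi fun _ => isCompact_Icc).measure_lt_top.ne
  · refine Filter.Eventually.of_forall fun x => ?_
    rw [norm_mul]
    exact mul_le_mul (hC x) (norm_ball_le R x) (norm_nonneg _) ((norm_nonneg _).trans (hC x))

/-- The Fourier transform of the disc at integer frequencies. -/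
def D (R : ℝ) (k : Fin 2 → ℤ) : ℂ := ∫ x, ek (-k) x * ball R x

lemma ek_add_int (k v : Fin 2 → ℤ) (x : Fin 2 → ℝ) :
    ek k (fun i => x i + v i) = ek k x := by
  unfold ek
  have : 2 * π * Complex.I * ((k 0 : ℂ) * ((x 0 + v 0 : ℝ) : ℂ) + (k 1 : ℂ) * ((x 1 + v 1 : ℝ) : ℂ))
      = 2 * π * Complex.I * ((k 0 : ℂ) * x 0 + (k 1 : ℂ) * x 1)
        + ((k 0 * v 0 + k 1 * v 1 : ℤ) : ℂ) * (2 * π * Complex.I) := by
    push_cast
    ring
  rw [this, Complex.exp_add, Complex.exp_int_mul_two_pi_mul_I, mul_one]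

lemma ball_eq_zero_of_notMem {R : ℝ} {n : ℕ} (hn : |R| ≤ n) {x : Fin 2 → ℝ} (hx : x ∈ cube)
    {v : Fin 2 → ℤ} (hv : v ∉ box (n + 1)) : ball R (fun i => x i + v i) = 0 := by
  unfold ball
  rw [if_neg]
  exact fun h => hv (box_of_le (abs_le_of_mem_cube hx) hn h)

lemma cubeCoeff_cnt (R : ℝ) (k : Fin 2 → ℤ) :
    cubeCoeff (fun x => (∑ v ∈ box (⌈|R|⌉₊ + 1), ball R (fun i => x i + v i))) k = D R k := by
  have hn : |R| ≤ (⌈|R|⌉₊ : ℝ) := Nat.le_ceil _
  rw [cubeCoeff, D, ← unfold_cube (F := fun x => ek (-k) x * ball R x)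
    (integrable_mul_ball (continuous_ek _).measurable (fun x => (norm_ek _ x).le) R)
    (box (⌈|R|⌉₊ + 1))]
  · refine setIntegral_congr_fun measurableSet_cube fun x _ => ?_
    simp only [ek_add_int, Finset.mul_sum]
  · intro x hx v hv
    rw [ball_eq_zero_of_notMem hn hx hv, mul_zero]

/-! ### The tent kernel -/

/-- The tent of width `δ`. -/
def tent (δ y : ℝ) : ℝ := max 0 (1 - |y| / δ) / δ

lemma tent_nonneg {δ : ℝ} (hδ : 0 < δ) (y : ℝ) : 0 ≤ tent δ y :=
  div_nonneg (le_max_left _ _) hδ.le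

lemma continuous_tent (δ : ℝ) : Continuous (tent δ) := by
  unfold tent
  fun_prop

lemma tent_le {δ : ℝ} (hδ : 0 < δ) (y : ℝ) : tent δ y ≤ 1 / δ := by
  unfold tent
  apply div_le_div_of_nonneg_right _ hδ.le
  refine max_le zero_le_one ?_
  have : 0 ≤ |y| / δ := by positivity
  linarith

lemma tent_eq_zero {δ : ℝ} (hδ : 0 < δ) {y : ℝ} (hy : δ ≤ |y|) : tent δ y = 0 := by
  unfold tent
  have : 1 ≤ |y| / δ := by rwa [one_le_div hδ]
  rw [max_eq_left (by linarith), zero_div]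

/-- Fourier coefficients of the tent. -/
def tcoef (δ : ℝ) (m : ℤ) : ℂ :=
  ∫ y in Ioc (-(1 / 2) : ℝ) (-(1 / 2) + 1), Complex.exp (2 * π * Complex.I * (m * y)) * tent δ y

/-- The Fejér-type weight. -/
def wt (δ : ℝ) (m : ℤ) : ℝ := if m = 0 then 1 else (Real.sin (π * δ * m) / (π * δ * m)) ^ 2

lemma wt_nonneg (δ : ℝ) (m : ℤ) : 0 ≤ wt δ m := by
  unfold wt
  split_ifs <;> positivity

lemma wt_le_one (δ : ℝ) (m : ℤ) : wt δ m ≤ 1 := by
  unfold wt
  split_ifs
  · exact le_rfl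
  · rw [sq_le_one_iff_abs_le_one, abs_div]
    apply div_le_one_of_le₀ Real.abs_sin_le_abs (abs_nonneg _)

lemma wt_le {δ : ℝ} {m : ℤ} (hm : m ≠ 0) : wt δ m ≤ 1 / (π * δ * m) ^ 2 := by
  unfold wt
  rw [if_neg hm, div_pow]
  apply div_le_div_of_nonneg_right _ (sq_nonneg _)
  rw [sq_le_one_iff_abs_le_one]
  exact Real.abs_sin_le_one _

lemma tent_integral_pos {δ : ℝ} (hδ : 0 < δ) {a : ℝ} (ha : a ≠ 0) :
    ∫ y in (0 : ℝ)..δ, 2 * Real.cos (a * y) * ((1 - y / δ) / δ)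
      = (Real.sin (a * δ / 2) / (a * δ / 2)) ^ 2 := by
  have hder : ∀ y ∈ uIcc (0 : ℝ) δ, HasDerivAt
      (fun y => 2 / δ * ((1 - y / δ) * (Real.sin (a * y) / a) - Real.cos (a * y) / (δ * a ^ 2)))
      (2 * Real.cos (a * y) * ((1 - y / δ) / δ)) y := by
    intro y _
    have h0 : HasDerivAt (fun y : ℝ => a * y) a y := by
      simpa using (hasDerivAt_id y).const_mul a
    have h1 : HasDerivAt (fun y : ℝ => 1 - y / δ) (-(1 / δ)) y := by
      simpa using ((hasDerivAt_id y).div_const δ).const_sub 1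
    have h2 : HasDerivAt (fun y => Real.sin (a * y) / a) (Real.cos (a * y) * a / a) y :=
      h0.sin.div_const a
    have h3 : HasDerivAt (fun y => Real.cos (a * y) / (δ * a ^ 2))
      (-Real.sin (a * y) * a / (δ * a ^ 2)) y := h0.cos.div_const _
    have h4 := ((h1.mul h2).sub h3).const_mul (2 / δ)
    have h6 : 2 * Real.cos (a * y) * ((1 - y / δ) / δ) = 2 / δ * (-(1 / δ) * (Real.sin (a * y) / a)
        + (1 - y / δ) * (Real.cos (a * y) * a / a) - -Real.sin (a * y) * a / (δ * a ^ 2)) := by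
      field_simp
      ring
    rw [h6]
    exact h4
  rw [intervalIntegral.integral_eq_sub_of_hasDerivAt hder]
  · have h5 : Real.cos (a * δ) = 1 - 2 * Real.sin (a * δ / 2) ^ 2 := by
      have h7 : a * δ = 2 * (a * δ / 2) := by ring
      rw [h7, Real.cos_two_mul']
      have h6 := Real.sin_sq_add_cos_sq (a * δ / 2)
      rw [← h7]
      linarith
    simp only [mul_zero, Real.sin_zero, zero_div, Real.cos_zero, div_self hδ.ne', sub_self]
    rw [h5]
    field_simp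
    ring
  · apply Continuous.intervalIntegrable
    fun_prop

lemma tent_integral_zero {δ : ℝ} (hδ : 0 < δ) :
    ∫ y in (0 : ℝ)..δ, 2 * ((1 - y / δ) / δ) = 1 := by
  have hder : ∀ y ∈ uIcc (0 : ℝ) δ, HasDerivAt
      (fun y => 2 / δ * (y - y ^ 2 / (2 * δ))) (2 * ((1 - y / δ) / δ)) y := by
    intro y _
    have h2 : HasDerivAt (fun y : ℝ => y ^ 2 / (2 * δ)) (2 * y / (2 * δ)) y := by
      simpa using (hasDerivAt_pow 2 y).div_const (2 * δ)
    have h4 := ((hasDerivAt_id y).sub h2).const_mul (2 / δ)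
    have h6 : 2 * ((1 - y / δ) / δ) = 2 / δ * (1 - 2 * y / (2 * δ)) := by
      field_simp
    rw [h6]
    exact h4
  rw [intervalIntegral.integral_eq_sub_of_hasDerivAt hder]
  · field_simp
    ring
  · apply Continuous.intervalIntegrable
    fun_prop

lemma tcoef_eq {δ : ℝ} (hδ : 0 < δ) (hδ' : δ ≤ 1 / 2) (m : ℤ) : tcoef δ m = wt δ m := by
  have h0 : tcoef δ m = ∫ y in (-(1 / 2) : ℝ)..(1 / 2),
      Complex.exp (2 * π * Complex.I * (m * y)) * tent δ y := by
    rw [tcoef, intervalIntegral.integral_of_le (by norm_num)]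
    norm_num
  have hcont : Continuous (fun y : ℝ => Complex.exp (2 * π * Complex.I * (m * y)) * tent δ y) := by
    have := continuous_tent δ
    fun_prop
  have h1 : ∫ y in (-(1 / 2) : ℝ)..(1 / 2), Complex.exp (2 * π * Complex.I * (m * y)) * tent δ y
      = ∫ y in (0 : ℝ)..(1 / 2), ((2 * Real.cos (2 * π * m * y) * tent δ y : ℝ) : ℂ) := by
    rw [← intervalIntegral.integral_add_adjacent_intervals
      (hcont.intervalIntegrable (-(1 / 2)) 0) (hcont.intervalIntegrable 0 (1 / 2))]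
    have h2 : ∫ y in (-(1 / 2) : ℝ)..0, Complex.exp (2 * π * Complex.I * (m * y)) * tent δ y
        = ∫ y in (0 : ℝ)..(1 / 2), Complex.exp (-(2 * π * Complex.I * (m * y))) * tent δ y := by
      have := intervalIntegral.integral_comp_neg (a := 0) (b := 1 / 2)
        (fun y : ℝ => Complex.exp (2 * π * Complex.I * (m * y)) * (tent δ y : ℂ))
      rw [neg_zero] at this
      rw [← this]
      congr 1
      funext y
      have : tent δ (-y) = tent δ y := by simp [tent]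
      rw [this]
      push_cast
      congr 2
      ring
    rw [h2, ← intervalIntegral.integral_add]
    · congr 1
      funext y
      rw [← add_mul]
      push_cast
      congr 1
      rw [Complex.cos]
      rw [show (2 * π * m * y : ℂ) * Complex.I = 2 * π * Complex.I * (m * y) by ring,
        show -(2 * π * m * y : ℂ) * Complex.I = -(2 * π * Complex.I * (m * y)) by ring]
      ring
    · apply Continuous.intervalIntegrable
      have := continuous_tent δ
      fun_prop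
    · exact hcont.intervalIntegrable _ _
  have h3 : ∫ y in (0 : ℝ)..(1 / 2), (2 * Real.cos (2 * π * m * y) * tent δ y : ℝ)
      = ∫ y in (0 : ℝ)..δ, 2 * Real.cos (2 * π * m * y) * ((1 - y / δ) / δ) := by
    have hc : Continuous (fun y : ℝ => 2 * Real.cos (2 * π * m * y) * tent δ y) := by
      have := continuous_tent δ
      fun_prop
    rw [← intervalIntegral.integral_add_adjacent_intervals
      (hc.intervalIntegrable 0 δ) (hc.intervalIntegrable δ (1 / 2))]
    have h4 : ∫ y in δ..(1 / 2), (2 * Real.cos (2 * π * m * y) * tent δ y : ℝ) = 0 := by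
      rw [intervalIntegral.integral_congr (g := fun _ => (0 : ℝ))]
      · simp
      · intro y hy
        rw [uIcc_of_le hδ'] at hy
        show 2 * Real.cos (2 * π * m * y) * tent δ y = 0
        rw [tent_eq_zero hδ (hy.1.trans (le_abs_self y)), mul_zero]
    rw [h4, add_zero]
    refine intervalIntegral.integral_congr fun y hy => ?_
    rw [uIcc_of_le hδ.le] at hy
    show 2 * Real.cos (2 * π * m * y) * tent δ y = 2 * Real.cos (2 * π * m * y) * ((1 - y / δ) / δ)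
    unfold tent
    rw [abs_of_nonneg hy.1, max_eq_right]
    have : y / δ ≤ 1 := by rw [div_le_one hδ]; exact hy.2
    linarith
  rw [h0, h1, intervalIntegral.integral_ofReal, h3, wt]
  split_ifs with hm
  · subst hm
    have := tent_integral_zero hδ
    simp only [Int.cast_zero, mul_zero, zero_mul, Real.cos_zero, mul_one]
    rw [this]
  · have ha : (2 * π * m : ℝ) ≠ 0 := by
      have : (m : ℝ) ≠ 0 := by exact_mod_cast hm
      positivity
    rw [tent_integral_pos hδ ha]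
    rw [show 2 * π * (m : ℝ) * δ / 2 = π * δ * m by ring]

/-- The two-dimensional kernel. -/
def phi (δ : ℝ) (x : Fin 2 → ℝ) : ℝ := tent δ (x 0) * tent δ (x 1)

lemma phi_nonneg {δ : ℝ} (hδ : 0 < δ) (x : Fin 2 → ℝ) : 0 ≤ phi δ x :=
  mul_nonneg (tent_nonneg hδ _) (tent_nonneg hδ _)

lemma continuous_phi (δ : ℝ) : Continuous (phi δ) := by
  unfold phi
  exact ((continuous_tent δ).comp (continuous_apply 0)).mul
    ((continuous_tent δ).comp (continuous_apply 1))

lemma phi_le {δ : ℝ} (hδ : 0 < δ) (x : Fin 2 → ℝ) : phi δ x ≤ 1 / δ * (1 / δ) :=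
  mul_le_mul (tent_le hδ _) (tent_le hδ _) (tent_nonneg hδ _) (by positivity)

lemma restrict_cube : (volume : Measure (Fin 2 → ℝ)).restrict cube =
    Measure.pi (fun _ : Fin 2 => (volume : Measure ℝ).restrict (Ioc (-(1 / 2) : ℝ) (-(1 / 2) + 1))) := by
  have : cube = Set.pi Set.univ (fun _ : Fin 2 => Ioc (-(1 / 2) : ℝ) (-(1 / 2) + 1)) := by
    ext x; simp [cube]
  rw [this, volume_pi, Measure.restrict_pi_pi]

lemma cubeCoeff_phi {δ : ℝ} (hδ : 0 < δ) (hδ' : δ ≤ 1 / 2) (k : Fin 2 → ℤ) :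
    cubeCoeff (fun x => (phi δ x : ℂ)) k = ((wt δ (k 0) * wt δ (k 1) : ℝ) : ℂ) := by
  rw [cubeCoeff, restrict_cube]
  have h1 : ∀ x : Fin 2 → ℝ, ek (-k) x * (phi δ x : ℂ) = ∏ i : Fin 2,
      (Complex.exp (2 * π * Complex.I * (((-k i : ℤ) : ℂ) * x i)) * (tent δ (x i) : ℂ)) := by
    intro x
    rw [Fin.prod_univ_two, ek, phi]
    push_cast
    rw [show (2 * π * Complex.I * ((-k) 0 * (x 0 : ℂ) + (-k) 1 * (x 1 : ℂ)) : ℂ)
      = 2 * π * Complex.I * (-(k 0 : ℂ) * x 0) + 2 * π * Complex.I * (-(k 1 : ℂ) * x 1) by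
        simp only [Pi.neg_apply, Int.cast_neg]; ring, Complex.exp_add]
    ring
  simp_rw [h1]
  rw [integral_fintype_prod_eq_prod (𝕜 := ℂ) (fun i (y : ℝ) =>
    Complex.exp (2 * π * Complex.I * (((-k i : ℤ) : ℂ) * y)) * (tent δ y : ℂ))]
  rw [Fin.prod_univ_two]
  have h2 : ∀ m : ℤ, wt δ (-m) = wt δ m := by
    intro m
    unfold wt
    simp only [neg_eq_zero, Int.cast_neg, mul_neg, Real.sin_neg, neg_div_neg_eq]
  have h3 := tcoef_eq hδ hδ' (-k 0)
  have h4 := tcoef_eq hδ hδ' (-k 1)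
  rw [tcoef] at h3 h4
  rw [h3, h4, h2, h2]
  push_cast
  rfl

lemma norm_sum_ball_le (R : ℝ) (n : ℕ) (x : Fin 2 → ℝ) :
    ‖∑ v ∈ box n, ball R (fun i => x i + v i)‖ ≤ (box n).card := by
  refine (norm_sum_le _ _).trans ?_
  refine (Finset.sum_le_card_nsmul _ _ 1 fun v _ => norm_ball_le R _).trans ?_
  simp

/-- The smoothed lattice point count as an absolutely convergent Fourier sum. -/
theorem smooth_hasSum {δ : ℝ} (hδ : 0 < δ) (hδ' : δ ≤ 1 / 2) (R : ℝ) :
    HasSum (fun k : Fin 2 → ℤ => ((wt δ (k 0) * wt δ (k 1) : ℝ) : ℂ) * D R k)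
      ((∫ x in cube, phi δ x * (cnt R x : ℝ) : ℝ) : ℂ) := by
  have hmg : Measurable (fun x : Fin 2 → ℝ =>
      ∑ v ∈ box (⌈|R|⌉₊ + 1), ball R (fun i => x i + v i)) := by
    refine Finset.measurable_sum _ fun v _ => ?_
    exact (measurable_ball R).comp (by fun_prop)
  have h := parseval_cube (f := fun x => (phi δ x : ℂ))
    (g := fun x => ∑ v ∈ box (⌈|R|⌉₊ + 1), ball R (fun i => x i + v i))
    (Complex.continuous_ofReal.measurable.comp (continuous_phi δ).measurable) hmg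
    (Cf := 1 / δ * (1 / δ)) (Cg := (box (⌈|R|⌉₊ + 1)).card)
    (fun x => by
      rw [Complex.norm_real, Real.norm_eq_abs, abs_of_nonneg (phi_nonneg hδ x)]
      exact phi_le hδ x)
    (fun x => norm_sum_ball_le R _ x)
  simp only [cubeCoeff_phi hδ hδ', cubeCoeff_cnt, Complex.conj_ofReal] at h
  convert h using 1
  rw [← integral_complex_ofReal]
  refine setIntegral_congr_fun measurableSet_cube fun x hx => ?_
  rw [← cnt_eq_sum (abs_le_of_mem_cube hx) (Nat.le_ceil _)]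
  push_cast
  rfl

lemma integral_phi {δ : ℝ} (hδ : 0 < δ) (hδ' : δ ≤ 1 / 2) : ∫ x in cube, phi δ x = 1 := by
  have h := cubeCoeff_phi hδ hδ' 0
  rw [cubeCoeff] at h
  have h1 : ∀ x : Fin 2 → ℝ, ek (-0) x * (phi δ x : ℂ) = ((phi δ x : ℝ) : ℂ) := by
    intro x; simp [ek]
  simp_rw [h1] at h
  rw [integral_complex_ofReal] at h
  have h2 : wt δ 0 = 1 := by simp [wt]
  simp only [Pi.zero_apply, h2, mul_one] at h
  exact_mod_cast h

lemma integrableOn_phi_cnt {δ : ℝ} (hδ : 0 < δ) (R : ℝ) :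
    IntegrableOn (fun x => phi δ x * (cnt R x : ℝ)) cube := by
  have hcube : volume cube ≠ ⊤ := by
    have : cube ⊆ Set.pi Set.univ (fun _ : Fin 2 => Icc (-(1 / 2) : ℝ) (-(1 / 2) + 1)) := by
      intro x hx i _
      exact Ioc_subset_Icc_self (hx i)
    exact ((measure_mono this).trans_lt
      (isCompact_univ_pi fun _ => isCompact_Icc).measure_lt_top).ne
  have hmg : Measurable (fun x : Fin 2 → ℝ =>
      ∑ v ∈ box (⌈|R|⌉₊ + 1), ball R (fun i => x i + v i)) := by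
    refine Finset.measurable_sum _ fun v _ => ?_
    exact (measurable_ball R).comp (by fun_prop)
  have h1 : IntegrableOn (fun x => phi δ x *
      (∑ v ∈ box (⌈|R|⌉₊ + 1), ball R (fun i => x i + v i)).re) cube := by
    refine Measure.integrableOn_of_bounded (M := 1 / δ * (1 / δ) * (box (⌈|R|⌉₊ + 1)).card)
      hcube ?_ ?_
    · exact ((continuous_phi δ).measurable.mul
        (Complex.measurable_re.comp hmg)).aestronglyMeasurable
    · refine Filter.Eventually.of_forall fun x => ?_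
      rw [norm_mul]
      refine mul_le_mul ?_ ?_ (norm_nonneg _) (by positivity)
      · rw [Real.norm_eq_abs, abs_of_nonneg (phi_nonneg hδ x)]
        exact phi_le hδ x
      · exact (Complex.abs_re_le_norm _).trans (norm_sum_ball_le R _ x)
  refine h1.congr_fun (fun x hx => ?_) measurableSet_cube
  show phi δ x * (∑ v ∈ box (⌈|R|⌉₊ + 1), ball R (fun i => x i + v i)).re = phi δ x * (cnt R x : ℝ)
  rw [← cnt_eq_sum (abs_le_of_mem_cube hx) (Nat.le_ceil _)]
  simp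

/-- Sandwich: if `a ≤ cnt R x` on the support of the kernel then `a ≤ ∫ φ cnt`. -/
lemma le_integral_phi_cnt {δ : ℝ} (hδ : 0 < δ) (hδ' : δ ≤ 1 / 2) (R a : ℝ)
    (h : ∀ x ∈ cube, |x 0| ≤ δ → |x 1| ≤ δ → a ≤ cnt R x) :
    a ≤ ∫ x in cube, phi δ x * (cnt R x : ℝ) := by
  have h1 : a = ∫ x in cube, phi δ x * a := by
    rw [integral_mul_const, integral_phi hδ hδ', one_mul]
  have h0 := integrableOn_phi_cnt hδ 0
  have hint : IntegrableOn (fun x => phi δ x * a) cube := by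
    have h2 : IntegrableOn (phi δ) cube := by
      by_contra hcon
      have := integral_undef hcon
      rw [integral_phi hδ hδ'] at this
      exact one_ne_zero this
    exact h2.mul_const a
  rw [h1]
  refine setIntegral_mono_on hint (integrableOn_phi_cnt hδ R) measurableSet_cube fun x hx => ?_
  by_cases hx0 : |x 0| ≤ δ
  · by_cases hx1 : |x 1| ≤ δ
    · exact mul_le_mul_of_nonneg_left (h x hx hx0 hx1) (phi_nonneg hδ x)
    · rw [phi, tent_eq_zero hδ (not_le.mp hx1).le]; simp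
  · rw [phi, tent_eq_zero hδ (not_le.mp hx0).le]; simp

lemma integral_phi_cnt_le {δ : ℝ} (hδ : 0 < δ) (hδ' : δ ≤ 1 / 2) (R a : ℝ)
    (h : ∀ x ∈ cube, |x 0| ≤ δ → |x 1| ≤ δ → (cnt R x : ℝ) ≤ a) :
    ∫ x in cube, phi δ x * (cnt R x : ℝ) ≤ a := by
  have h1 : a = ∫ x in cube, phi δ x * a := by
    rw [integral_mul_const, integral_phi hδ hδ', one_mul]
  have hint : IntegrableOn (fun x => phi δ x * a) cube := by
    have h2 : IntegrableOn (phi δ) cube := by
      by_contra hcon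
      have := integral_undef hcon
      rw [integral_phi hδ hδ'] at this
      exact one_ne_zero this
    exact h2.mul_const a
  rw [h1]
  refine setIntegral_mono_on (integrableOn_phi_cnt hδ R) hint measurableSet_cube fun x hx => ?_
  by_cases hx0 : |x 0| ≤ δ
  · by_cases hx1 : |x 1| ≤ δ
    · exact mul_le_mul_of_nonneg_left (h x hx hx0 hx1) (phi_nonneg hδ x)
    · rw [phi, tent_eq_zero hδ (not_le.mp hx1).le]; simp
  · rw [phi, tent_eq_zero hδ (not_le.mp hx0).le]; simp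

lemma disc_shift {a b p q R h : ℝ} (hR : 0 ≤ R) (hh : 0 ≤ h) (hpq : p ^ 2 + q ^ 2 ≤ h ^ 2)
    (hab : a ^ 2 + b ^ 2 ≤ R ^ 2) : (p + a) ^ 2 + (q + b) ^ 2 ≤ (R + h) ^ 2 := by
  have h1 : p * a + q * b ≤ R * h := by
    apply le_of_sq_le_sq _ (mul_nonneg hR hh)
    · nlinarith [sq_nonneg (p * b - q * a), mul_nonneg (sub_nonneg.mpr hpq) (sq_nonneg R),
        mul_nonneg (add_nonneg (sq_nonneg p) (sq_nonneg q)) (sub_nonneg.mpr hab)]
  nlinarith

/-- The number of lattice points in the closed disc of radius `|R|` centred at the origin. -/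
def F (R : ℝ) : ℕ := cnt R 0

lemma F_le_cnt {R δ : ℝ} (hR : 0 ≤ R) (hδ : 0 < δ) {x : Fin 2 → ℝ} (hx : x ∈ cube)
    (h0 : |x 0| ≤ δ) (h1 : |x 1| ≤ δ) : F R ≤ cnt (R + 2 * δ) x := by
  refine Set.ncard_le_ncard ?_ (cntSet_finite _ _ (abs_le_of_mem_cube hx))
  intro v hv
  simp only [cntSet, mem_ofPred_eq, Pi.zero_apply, zero_add] at hv ⊢
  refine disc_shift hR (by positivity) ?_ hv
  have h2 : x 0 ^ 2 ≤ δ ^ 2 := by rw [sq_le_sq, abs_of_pos hδ]; exact h0
  have h3 : x 1 ^ 2 ≤ δ ^ 2 := by rw [sq_le_sq, abs_of_pos hδ]; exact h1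
  nlinarith [sq_nonneg δ]

lemma cnt_le_F {R δ : ℝ} (hR : 2 * δ ≤ R) (hδ : 0 < δ) {x : Fin 2 → ℝ}
    (h0 : |x 0| ≤ δ) (h1 : |x 1| ≤ δ) : cnt (R - 2 * δ) x ≤ F R := by
  refine Set.ncard_le_ncard ?_ (cntSet_finite _ _ (by simp))
  intro v hv
  simp only [cntSet, mem_ofPred_eq, Pi.zero_apply, zero_add] at hv ⊢
  have h2 : x 0 ^ 2 ≤ δ ^ 2 := by rw [sq_le_sq, abs_of_pos hδ]; exact h0
  have h3 : x 1 ^ 2 ≤ δ ^ 2 := by rw [sq_le_sq, abs_of_pos hδ]; exact h1
  have h4 := disc_shift (p := -x 0) (q := -x 1) (h := 2 * δ) (sub_nonneg.mpr hR) (by positivity)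
    (by nlinarith [sq_nonneg δ]) hv
  have e0 : -x 0 + (x 0 + (v 0 : ℝ)) = v 0 := by ring
  have e1 : -x 1 + (x 1 + (v 1 : ℝ)) = v 1 := by ring
  rw [e0, e1] at h4
  calc (v 0 : ℝ) ^ 2 + (v 1 : ℝ) ^ 2 ≤ (R - 2 * δ + 2 * δ) ^ 2 := h4
    _ = R ^ 2 := by ring

/-- The smoothed count. -/
def Sm (δ R : ℝ) : ℝ := ∫ x in cube, phi δ x * (cnt R x : ℝ)

theorem F_le_Sm {R δ : ℝ} (hR : 0 ≤ R) (hδ : 0 < δ) (hδ' : δ ≤ 1 / 2) :
    (F R : ℝ) ≤ Sm δ (R + 2 * δ) :=
  le_integral_phi_cnt hδ hδ' _ _ fun x hx h0 h1 => by exact_mod_cast F_le_cnt hR hδ hx h0 h1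

theorem Sm_le_F {R δ : ℝ} (hR : 2 * δ ≤ R) (hδ : 0 < δ) (hδ' : δ ≤ 1 / 2) :
    Sm δ (R - 2 * δ) ≤ (F R : ℝ) :=
  integral_phi_cnt_le hδ hδ' _ _ fun x _ h0 h1 => by exact_mod_cast cnt_le_F hR hδ h0 h1

end

end Pool.Agent.Helper22.GC
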