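import Mathlib
import Pool.Agent.Helper22.GC.Count

/-!
# The Fourier transform of the disc as a one-dimensional integral
-/

open MeasureTheory Set
open scoped ComplexConjugate Real

namespace Pool.Agent.Helper22.GC

noncomputable section

/-- Euclidean length of an integer vector. -/
def kn (k : Fin 2 → ℤ) : ℝ := √((k 0 : ℝ) ^ 2 + (k 1 : ℝ) ^ 2)

lemma kn_sq (k : Fin 2 → ℤ) : kn k ^ 2 = (k 0 : ℝ) ^ 2 + (k 1 : ℝ) ^ 2 :=
  Real.sq_sqrt (by positivity)

lemma kn_pos {k : Fin 2 → ℤ} (hk : k ≠ 0) : 0 < kn k := by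
  apply Real.sqrt_pos.mpr
  by_contra hcon
  apply hk
  have h0 : (k 0 : ℝ) ^ 2 = 0 := by nlinarith [sq_nonneg (k 0 : ℝ), sq_nonneg (k 1 : ℝ)]
  have h1 : (k 1 : ℝ) ^ 2 = 0 := by nlinarith [sq_nonneg (k 0 : ℝ), sq_nonneg (k 1 : ℝ)]
  funext i
  fin_cases i
  · simpa using h0
  · simpa using h1

/-- The rotation taking `k` to a multiple of the first basis vector. -/
def rotM (k : Fin 2 → ℤ) : Matrix (Fin 2) (Fin 2) ℝ :=
  !![(k 0 : ℝ) / kn k, (k 1 : ℝ) / kn k; -((k 1 : ℝ) / kn k), (k 0 : ℝ) / kn k]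

lemma rotM_det {k : Fin 2 → ℤ} (hk : k ≠ 0) : (rotM k).det = 1 := by
  have h := kn_pos hk
  have h2 := kn_sq k
  rw [rotM, Matrix.det_fin_two_of]
  field_simp
  linarith

lemma rotM_mp {k : Fin 2 → ℤ} (hk : k ≠ 0) :
    MeasurePreserving (Matrix.toLin' (rotM k)) (volume : Measure (Fin 2 → ℝ)) volume := by
  refine ⟨(LinearMap.continuous_of_finiteDimensional _).measurable, ?_⟩
  have h := Real.map_matrix_volume_pi_eq_smul_volume_pi (M := rotM k) (by rw [rotM_det hk]; simp)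
  rw [h, rotM_det hk]
  simp

lemma rotM_apply_zero (k : Fin 2 → ℤ) (x : Fin 2 → ℝ) :
    Matrix.toLin' (rotM k) x 0 = ((k 0 : ℝ) * x 0 + (k 1 : ℝ) * x 1) / kn k := by
  simp [rotM, Matrix.toLin'_apply, Matrix.mulVec, dotProduct, Fin.sum_univ_two]
  ring

lemma rotM_apply_one (k : Fin 2 → ℤ) (x : Fin 2 → ℝ) :
    Matrix.toLin' (rotM k) x 1 = (-(k 1 : ℝ) * x 0 + (k 0 : ℝ) * x 1) / kn k := by
  simp [rotM, Matrix.toLin'_apply, Matrix.mulVec, dotProduct, Fin.sum_univ_two]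
  ring

lemma rotM_norm {k : Fin 2 → ℤ} (hk : k ≠ 0) (x : Fin 2 → ℝ) :
    (Matrix.toLin' (rotM k) x 0) ^ 2 + (Matrix.toLin' (rotM k) x 1) ^ 2 = x 0 ^ 2 + x 1 ^ 2 := by
  have h := kn_pos hk
  have h2 := kn_sq k
  rw [rotM_apply_zero, rotM_apply_one]
  rw [div_pow, div_pow, ← add_div, div_eq_iff (by positivity), h2]
  ring

/-- The Fourier transform of the disc after the rotation. -/
def E0 (R s : ℝ) (y : Fin 2 → ℝ) : ℂ := Complex.exp (-(2 * π * Complex.I * (s * y 0))) * ball R y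

lemma measurable_E0 (R s : ℝ) : Measurable (E0 R s) := by
  unfold E0
  refine Measurable.mul ?_ (measurable_ball R)
  fun_prop

lemma norm_exp_I (t : ℝ) : ‖Complex.exp (-(2 * π * Complex.I * t))‖ = 1 := by
  rw [Complex.norm_exp]
  simp

lemma integrable_E0 (R s : ℝ) : Integrable (E0 R s) := by
  unfold E0
  refine integrable_mul_ball (C := 1) (by fun_prop) (fun x => ?_) R
  have := norm_exp_I (s * x 0)
  push_cast at this
  exact this.le

lemma D_eq_E0 {R : ℝ} {k : Fin 2 → ℤ} (hk : k ≠ 0) : D R k = ∫ y, E0 R (kn k) y := by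
  have h1 : ∫ y, E0 R (kn k) y = ∫ x, E0 R (kn k) (Matrix.toLin' (rotM k) x) := by
    conv_lhs => rw [← (rotM_mp hk).map_eq]
    exact integral_map (rotM_mp hk).measurable.aemeasurable
      (measurable_E0 R (kn k)).aestronglyMeasurable
  rw [h1, D]
  congr 1
  funext x
  unfold E0 ek
  have hb : ball R (Matrix.toLin' (rotM k) x) = ball R x := by
    unfold ball
    rw [rotM_norm hk]
  rw [hb, rotM_apply_zero]
  congr 2
  have h := (kn_pos hk).ne'
  push_cast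
  rw [mul_div_cancel₀ _ (by exact_mod_cast h)]
  simp only [Pi.neg_apply, Int.cast_neg]
  ring

lemma inner_integral (R u : ℝ) :
    ∫ v : ℝ, (if u ^ 2 + v ^ 2 ≤ R ^ 2 then (1 : ℂ) else 0) = (2 * √(R ^ 2 - u ^ 2) : ℝ) := by
  have h1 : (fun v : ℝ => if u ^ 2 + v ^ 2 ≤ R ^ 2 then (1 : ℂ) else 0)
      = ({v : ℝ | u ^ 2 + v ^ 2 ≤ R ^ 2}).indicator (fun _ => (1 : ℂ)) := by
    funext v
    simp [Set.indicator_apply]
  rw [h1, integral_indicator_const]
  · by_cases hu : 0 ≤ R ^ 2 - u ^ 2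
    · have h2 : {v : ℝ | u ^ 2 + v ^ 2 ≤ R ^ 2} = Icc (-√(R ^ 2 - u ^ 2)) (√(R ^ 2 - u ^ 2)) := by
        ext v
        simp only [mem_ofPred_eq, mem_Icc]
        rw [← abs_le, ← Real.sqrt_sq_eq_abs]
        rw [Real.sqrt_le_sqrt_iff hu]
        constructor <;> intro h <;> linarith
      rw [h2, measureReal_def, Real.volume_Icc, ENNReal.toReal_ofReal]
      · rw [Complex.real_smul, mul_one]
        congr 1
        ring
      · have := Real.sqrt_nonneg (R ^ 2 - u ^ 2)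
        linarith
    · have h2 : {v : ℝ | u ^ 2 + v ^ 2 ≤ R ^ 2} = ∅ := by
        ext v
        simp only [mem_ofPred_eq, mem_empty_iff_false, iff_false, not_le]
        nlinarith [sq_nonneg v]
      rw [h2, Real.sqrt_eq_zero_of_nonpos (not_le.mp hu).le]
      simp
  · exact measurableSet_le (by fun_prop) measurable_const

lemma integral_E0 (R s : ℝ) :
    ∫ y, E0 R s y
      = ∫ u : ℝ, Complex.exp (-(2 * π * Complex.I * (s * u))) * (2 * √(R ^ 2 - u ^ 2) : ℝ) := by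
  have hmp := (volume_preserving_finTwoArrow ℝ)
  have h1 : ∫ y, E0 R s y = ∫ p : ℝ × ℝ, Complex.exp (-(2 * π * Complex.I * (s * p.1))) *
      (if p.1 ^ 2 + p.2 ^ 2 ≤ R ^ 2 then (1 : ℂ) else 0) := by
    rw [← hmp.integral_comp (MeasurableEquiv.finTwoArrow.measurableEmbedding)]
    rfl
  have hint : Integrable (fun p : ℝ × ℝ => Complex.exp (-(2 * π * Complex.I * (s * p.1))) *
      (if p.1 ^ 2 + p.2 ^ 2 ≤ R ^ 2 then (1 : ℂ) else 0)) := by
    rw [← hmp.integrable_comp_emb (MeasurableEquiv.finTwoArrow.measurableEmbedding)]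
    exact integrable_E0 R s
  rw [Measure.volume_eq_prod] at h1 hint
  rw [h1, integral_prod _ hint]
  congr 1
  funext u
  show ∫ v : ℝ, Complex.exp (-(2 * π * Complex.I * (s * u))) *
      (if u ^ 2 + v ^ 2 ≤ R ^ 2 then (1 : ℂ) else 0) = _
  rw [integral_const_mul, inner_integral]

/-- The Fourier transform of the disc at frequency `s`. -/
def Ds (R s : ℝ) : ℂ :=
  ∫ u in (-R)..R, Complex.exp (-(2 * π * Complex.I * (s * u))) * (2 * √(R ^ 2 - u ^ 2) : ℝ)

lemma Ds_eq {R : ℝ} (hR : 0 ≤ R) (s : ℝ) :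
    ∫ u : ℝ, Complex.exp (-(2 * π * Complex.I * (s * u))) * (2 * √(R ^ 2 - u ^ 2) : ℝ) = Ds R s := by
  rw [Ds, intervalIntegral.integral_of_le (by linarith), ← integral_indicator measurableSet_Ioc]
  congr 1
  funext u
  by_cases hu : u ∈ Ioc (-R) R
  · rw [indicator_of_mem hu]
  · rw [indicator_of_notMem hu]
    have : R ^ 2 - u ^ 2 ≤ 0 := by
      have h2 : R ≤ |u| := by
        by_contra hcon
        rw [not_le, abs_lt] at hcon
        exact hu ⟨hcon.1, hcon.2.le⟩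
      have := sq_le_sq' (by linarith [abs_nonneg u]) h2
      rw [sq_abs] at this
      linarith
    rw [Real.sqrt_eq_zero_of_nonpos this]
    simp

theorem D_eq_Ds {R : ℝ} (hR : 0 ≤ R) {k : Fin 2 → ℤ} (hk : k ≠ 0) : D R k = Ds R (kn k) := by
  rw [D_eq_E0 hk, integral_E0, Ds_eq hR]

/-- The normalised profile. -/
def J (z : ℝ) : ℂ := ∫ t in (-1 : ℝ)..1, Complex.exp (-(2 * π * Complex.I * (z * t))) * (√(1 - t ^ 2) : ℝ)

lemma Ds_scale {R : ℝ} (hR : 0 < R) (s : ℝ) : Ds R s = 2 * R ^ 2 * J (R * s) := by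
  have h1 := intervalIntegral.smul_integral_comp_mul_left (a := -1) (b := 1)
    (fun u : ℝ => Complex.exp (-(2 * π * Complex.I * (s * u))) *
      ((2 * √(R ^ 2 - u ^ 2) : ℝ) : ℂ)) R
  rw [mul_neg_one, mul_one] at h1
  rw [Ds, ← h1, J, ← intervalIntegral.integral_const_mul, Complex.real_smul,
    ← intervalIntegral.integral_const_mul]
  congr 1
  funext t
  have h2 : √(R ^ 2 - (R * t) ^ 2) = R * √(1 - t ^ 2) := by
    rw [show R ^ 2 - (R * t) ^ 2 = R ^ 2 * (1 - t ^ 2) by ring, Real.sqrt_mul (sq_nonneg R),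
      Real.sqrt_sq hR.le]
  rw [h2, show (2 * π * Complex.I * (s * ((R * t : ℝ) : ℂ)) : ℂ)
    = 2 * π * Complex.I * (((R * s : ℝ) : ℂ) * t) by push_cast; ring]
  push_cast
  ring

lemma J_zero : J 0 = π / 2 := by
  have h := integral_sqrt_one_sub_sq
  rw [J]
  simp only [Complex.ofReal_zero, zero_mul, mul_zero, neg_zero, Complex.exp_zero, one_mul]
  rw [intervalIntegral.integral_ofReal, h]
  push_cast
  rfl

theorem D_zero {R : ℝ} (hR : 0 < R) : D R 0 = (π * R ^ 2 : ℝ) := by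
  have h1 : D R 0 = ∫ y, E0 R 0 y := by
    rw [D]
    congr 1
    funext x
    simp [ek, E0]
  rw [h1, integral_E0, Ds_eq hR.le, Ds_scale hR, mul_zero, J_zero]
  push_cast
  ring

theorem D_eq {R : ℝ} (hR : 0 < R) {k : Fin 2 → ℤ} (hk : k ≠ 0) :
    D R k = 2 * R ^ 2 * J (R * kn k) := by
  rw [D_eq_Ds hR.le hk, Ds_scale hR]

end

end Pool.Agent.Helper22.GC
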