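import Mathlib
import Pool.Agent.Helper22.GC.Disk

/-!
# Contour shift for the profile `J`
-/

open MeasureTheory Set Filter
open scoped ComplexConjugate Real Topology

namespace Pool.Agent.Helper22.GC

noncomputable section

lemma norm_cpow_half (w : ℂ) : ‖w ^ (1 / 2 : ℂ)‖ = √‖w‖ := by
  by_cases hw : w = 0
  · subst hw
    rw [Complex.zero_cpow (by norm_num)]
    simp
  · rw [Complex.norm_cpow_of_ne_zero hw, Real.sqrt_eq_rpow]
    have h1 : (1 / 2 : ℂ).re = 1 / 2 := by norm_num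
    have h2 : (1 / 2 : ℂ).im = 0 := by norm_num
    rw [h1, h2]
    simp

/-- The integrand. -/
def ff (z : ℝ) (w : ℂ) : ℂ :=
  (1 - w ^ 2) ^ (1 / 2 : ℂ) * Complex.exp (-(2 * π * Complex.I * (z * w)))

lemma ff_real (z : ℝ) {t : ℝ} (ht : t ∈ Icc (-1 : ℝ) 1) :
    ff z t = Complex.exp (-(2 * π * Complex.I * (z * t))) * (√(1 - t ^ 2) : ℝ) := by
  have h1 : 0 ≤ 1 - t ^ 2 := by
    obtain ⟨h1, h2⟩ := ht
    nlinarith
  rw [ff, mul_comm]
  congr 1
  rw [Real.sqrt_eq_rpow, Complex.ofReal_cpow h1]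
  push_cast
  rfl

lemma re_one_sub_sq (x y : ℝ) : (1 - ((x : ℂ) + y * Complex.I) ^ 2).re = 1 - x ^ 2 + y ^ 2 := by
  simp [pow_two]
  ring

lemma continuousAt_ff (z : ℝ) {w : ℂ} (hw : 0 ≤ (1 - w ^ 2).re) : ContinuousAt (ff z) w := by
  unfold ff
  refine ContinuousAt.mul ?_ (by fun_prop)
  have h1 : ContinuousAt (fun x : ℂ => x ^ (1 / 2 : ℂ)) (1 - w ^ 2) :=
    Complex.continuousAt_cpow_const_of_re_pos (Or.inl hw) (by norm_num)
  exact ContinuousAt.comp (f := fun w : ℂ => 1 - w ^ 2) h1 (by fun_prop)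

lemma differentiableAt_ff (z : ℝ) {w : ℂ} (hw : 0 < (1 - w ^ 2).re) :
    DifferentiableAt ℂ (ff z) w := by
  unfold ff
  refine DifferentiableAt.mul ?_ (by fun_prop)
  exact DifferentiableAt.cpow_const (by fun_prop) (Or.inl hw)

lemma contour (z : ℝ) {Y : ℝ} (hY : 0 < Y) :
    J z = (∫ x in (-1 : ℝ)..1, ff z (x + (-Y : ℝ) * Complex.I))
      + Complex.I * (∫ y in (-Y)..0, ff z ((1 : ℝ) + y * Complex.I))
      - Complex.I * (∫ y in (-Y)..0, ff z ((-1 : ℝ) + y * Complex.I)) := by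
  have hre : ((-1 : ℝ) + (-Y : ℝ) * Complex.I : ℂ).re = -1 := by simp
  have him : ((-1 : ℝ) + (-Y : ℝ) * Complex.I : ℂ).im = -Y := by simp
  have h1re : ((1 : ℝ) + (0 : ℝ) * Complex.I : ℂ).re = 1 := by simp
  have h1im : ((1 : ℝ) + (0 : ℝ) * Complex.I : ℂ).im = 0 := by simp
  have h := Complex.integral_boundary_rect_eq_zero_of_continuousOn_of_differentiableOn (ff z)
    ((-1 : ℝ) + (-Y : ℝ) * Complex.I) ((1 : ℝ) + (0 : ℝ) * Complex.I) ?_ ?_
  · rw [hre, him, h1re, h1im] at h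
    have hJ : ∫ x in (-1 : ℝ)..1, ff z (x + (0 : ℝ) * Complex.I) = J z := by
      rw [J]
      refine intervalIntegral.integral_congr fun t ht => ?_
      rw [uIcc_of_le (by norm_num)] at ht
      show ff z (t + (0 : ℝ) * Complex.I) = _
      rw [Complex.ofReal_zero, zero_mul, add_zero, ff_real z ht]
    rw [hJ] at h
    simp only [smul_eq_mul] at h
    linear_combination (-1 : ℂ) * h
  · rw [hre, him, h1re, h1im, uIcc_of_le (by norm_num), uIcc_of_le (by linarith)]
    intro w hw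
    refine (continuousAt_ff z ?_).continuousWithinAt
    obtain ⟨⟨h1, h2⟩, h3, h4⟩ := hw
    have := re_one_sub_sq w.re w.im
    rw [Complex.re_add_im] at this
    rw [this]
    nlinarith [sq_nonneg w.im]
  · rw [hre, him, h1re, h1im, min_eq_left (by norm_num), max_eq_right (by norm_num),
      min_eq_left (by linarith), max_eq_right (by linarith)]
    intro w hw
    refine (differentiableAt_ff z ?_).differentiableWithinAt
    obtain ⟨⟨h1, h2⟩, h3, h4⟩ := hw
    have := re_one_sub_sq w.re w.im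
    rw [Complex.re_add_im] at this
    rw [this]
    nlinarith [sq_nonneg w.im]

/-- The amplitude density. -/
def q (y : ℝ) : ℂ := ((y : ℂ) ^ 2 - 2 * y * Complex.I) ^ (1 / 2 : ℂ)

lemma norm_q_le {y : ℝ} (hy : 0 ≤ y) : ‖q y‖ ≤ √2 * √y + y := by
  rw [q, norm_cpow_half]
  have h1 : ‖((y : ℂ) ^ 2 - 2 * y * Complex.I)‖ ≤ y ^ 2 + 2 * y := by
    refine (norm_sub_le _ _).trans ?_
    have h2 : ‖(y : ℂ) ^ 2‖ = y ^ 2 := by
      rw [norm_pow, Complex.norm_real, Real.norm_eq_abs, sq_abs]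
    have h3 : ‖(2 * y * Complex.I : ℂ)‖ = 2 * y := by
      simp [abs_of_nonneg hy]
    rw [h2, h3]
  apply Real.sqrt_le_iff.mpr
  have hs := Real.sqrt_nonneg y
  have h2s := Real.sqrt_nonneg 2
  refine ⟨by positivity, h1.trans ?_⟩
  have e1 : √2 ^ 2 = 2 := Real.sq_sqrt (by norm_num)
  have e2 : √y ^ 2 = y := Real.sq_sqrt hy
  have : (√2 * √y + y) ^ 2 = √2 ^ 2 * √y ^ 2 + 2 * (√2 * √y) * y + y ^ 2 := by ring
  rw [this, e1, e2]
  have : 0 ≤ 2 * (√2 * √y) * y := by positivity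
  linarith

lemma continuousOn_q : ContinuousOn q (Ici 0) := by
  intro y hy
  unfold q
  have h1 : ContinuousAt (fun x : ℂ => x ^ (1 / 2 : ℂ)) ((y : ℂ) ^ 2 - 2 * y * Complex.I) :=
    Complex.continuousAt_cpow_const_of_re_pos (Or.inl (by simp [pow_two]; nlinarith)) (by norm_num)
  exact (ContinuousAt.comp (f := fun y : ℝ => ((y : ℂ) ^ 2 - 2 * y * Complex.I)) h1
    (by fun_prop)).continuousWithinAt

lemma ff_right (z : ℝ) {y : ℝ} (hy : 0 ≤ y) : ff z ((1 : ℝ) + (-y : ℝ) * Complex.I)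
    = Complex.exp (-(2 * π * Complex.I * z)) * (conj (q y) * Real.exp (-(2 * π * z * y))) := by
  have h1 : (1 - (((1 : ℝ) : ℂ) + ((-y : ℝ) : ℂ) * Complex.I) ^ 2)
      = conj ((y : ℂ) ^ 2 - 2 * y * Complex.I) := by
    simp only [map_sub, map_pow, Complex.conj_ofReal, map_mul, Complex.conj_I, map_ofNat]
    push_cast
    ring_nf
    rw [Complex.I_sq]
    ring
  have h2 : ((y : ℂ) ^ 2 - 2 * y * Complex.I).arg ≠ π := by
    intro harg
    rw [Complex.arg_eq_pi_iff] at harg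
    have : ((y : ℂ) ^ 2 - 2 * y * Complex.I).re = y ^ 2 := by simp [pow_two]
    rw [this] at harg
    nlinarith [harg.1, sq_nonneg y]
  rw [ff, h1, Complex.conj_cpow _ _ h2, q]
  have h3 : (starRingEnd ℂ) (1 / 2 : ℂ) = 1 / 2 := by
    have : (1 / 2 : ℂ) = ((1 / 2 : ℝ) : ℂ) := by push_cast; rfl
    rw [this, Complex.conj_ofReal]
  rw [h3]
  have h4 : Complex.exp (-(2 * π * Complex.I * (z * (((1 : ℝ) : ℂ) + ((-y : ℝ) : ℂ) * Complex.I))))
      = Complex.exp (-(2 * π * Complex.I * z)) * Real.exp (-(2 * π * z * y)) := by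
    rw [Complex.ofReal_exp, ← Complex.exp_add]
    congr 1
    push_cast
    ring_nf
    rw [Complex.I_sq]
    ring
  rw [h4]
  ring

lemma ff_left (z : ℝ) {y : ℝ} (hy : 0 ≤ y) : ff z ((-1 : ℝ) + (-y : ℝ) * Complex.I)
    = Complex.exp (2 * π * Complex.I * z) * (q y * Real.exp (-(2 * π * z * y))) := by
  have h1 : (1 - (((-1 : ℝ) : ℂ) + ((-y : ℝ) : ℂ) * Complex.I) ^ 2)
      = ((y : ℂ) ^ 2 - 2 * y * Complex.I) := by
    push_cast
    ring_nf
    rw [Complex.I_sq]
    ring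
  rw [ff, h1, q]
  have h4 : Complex.exp (-(2 * π * Complex.I * (z * (((-1 : ℝ) : ℂ) + ((-y : ℝ) : ℂ) * Complex.I))))
      = Complex.exp (2 * π * Complex.I * z) * Real.exp (-(2 * π * z * y)) := by
    rw [Complex.ofReal_exp, ← Complex.exp_add]
    congr 1
    push_cast
    ring_nf
    rw [Complex.I_sq]
    ring
  rw [h4]
  ring

/-- Integrability of powers against an exponential. -/
lemma integrableOn_rpow_exp {a p : ℝ} (ha : 0 < a) (hp : -1 < p) :
    IntegrableOn (fun y : ℝ => y ^ p * Real.exp (-(a * y))) (Ioi 0) := by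
  have := integrableOn_rpow_mul_exp_neg_mul_rpow (p := 1) (s := p) (b := a) hp zero_lt_one ha
  simpa using this

lemma integral_rpow_exp {a p : ℝ} (ha : 0 < a) (hp : -1 < p) :
    ∫ y in Ioi (0 : ℝ), y ^ p * Real.exp (-(a * y)) = a ^ (-(p + 1)) * Real.Gamma (p + 1) := by
  have := Real.integral_rpow_mul_exp_neg_mul_Ioi (a := p + 1) (r := a) (by linarith) ha
  simp only [add_sub_cancel_right] at this
  rw [this, one_div, Real.inv_rpow ha.le, Real.rpow_neg ha.le]

lemma re_cpow_half_nonneg (w : ℂ) : 0 ≤ (w ^ (1 / 2 : ℂ)).re := by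
  by_cases hw : w = 0
  · subst hw
    rw [Complex.zero_cpow (by norm_num)]
    simp
  · rw [Complex.cpow_def_of_ne_zero hw, Complex.exp_re]
    have h1 : (Complex.log w * (1 / 2)).im = w.arg / 2 := by
      have : (1 / 2 : ℂ) = ((1 / 2 : ℝ) : ℂ) := by push_cast; rfl
      rw [this, Complex.im_mul_ofReal, Complex.log_im]
      ring
    rw [h1]
    refine mul_nonneg (Real.exp_nonneg _) (Real.cos_nonneg_of_mem_Icc ⟨?_, ?_⟩)
    · linarith [Complex.neg_pi_lt_arg w]
    · linarith [Complex.arg_le_pi w]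

lemma cpow_half_sq (w : ℂ) : (w ^ (1 / 2 : ℂ)) ^ 2 = w := by
  rw [← Complex.cpow_nat_mul]
  norm_num

/-- The main term of the amplitude density. -/
lemma norm_q_sub_le {y : ℝ} (hy : 0 ≤ y) :
    ‖q y - (1 - Complex.I) * (√y : ℝ)‖ ≤ y ^ (3 / 2 : ℝ) := by
  rcases hy.eq_or_lt with rfl | hy'
  · simp [q]
  set a := q y with ha
  set b : ℂ := (1 - Complex.I) * (√y : ℝ) with hb
  have ha2 : a ^ 2 = (y : ℂ) ^ 2 - 2 * y * Complex.I := by rw [ha, q, cpow_half_sq]
  have hsq : ((√y : ℝ) : ℂ) ^ 2 = y := by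
    rw [← Complex.ofReal_pow, Real.sq_sqrt hy]
  have hb2 : b ^ 2 = - (2 * y * Complex.I) := by
    rw [hb, mul_pow, hsq]
    linear_combination (y : ℂ) * Complex.I_sq
  have hmul : (a - b) * (a + b) = (y : ℂ) ^ 2 := by
    linear_combination ha2 - hb2
  have hre : √y ≤ ‖a + b‖ := by
    refine le_trans ?_ (Complex.re_le_norm _)
    have h1 : b.re = √y := by simp [hb]
    rw [Complex.add_re, h1]
    have := re_cpow_half_nonneg ((y : ℂ) ^ 2 - 2 * y * Complex.I)
    have h2 : 0 ≤ a.re := this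
    linarith
  have hs : 0 < √y := Real.sqrt_pos.mpr hy'
  have hn : ‖a - b‖ * ‖a + b‖ = y ^ 2 := by
    rw [← norm_mul, hmul, norm_pow, Complex.norm_real, Real.norm_eq_abs, sq_abs]
  have h3 : ‖a - b‖ * √y ≤ y ^ 2 := by
    rw [← hn]
    exact mul_le_mul_of_nonneg_left hre (norm_nonneg _)
  have h4 : y ^ (3 / 2 : ℝ) * √y = y ^ 2 := by
    rw [Real.sqrt_eq_rpow, ← Real.rpow_add hy']
    norm_num
  have h5 : ‖a - b‖ * √y ≤ y ^ (3 / 2 : ℝ) * √y := by rw [h4]; exact h3
  exact le_of_mul_le_mul_right h5 hs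

lemma norm_q_le' {y : ℝ} (hy : 0 ≤ y) :
    ‖q y‖ ≤ 2 * y ^ (1 / 2 : ℝ) + y ^ (1 : ℝ) := by
  refine (norm_q_le hy).trans ?_
  rw [Real.rpow_one, Real.sqrt_eq_rpow, Real.sqrt_eq_rpow y]
  have h1 : (2 : ℝ) ^ (1 / 2 : ℝ) ≤ 2 := by
    calc (2 : ℝ) ^ (1 / 2 : ℝ) ≤ (2 : ℝ) ^ (1 : ℝ) :=
          Real.rpow_le_rpow_of_exponent_le (by norm_num) (by norm_num)
      _ = 2 := by norm_num
  have h2 : 0 ≤ y ^ (1 / 2 : ℝ) := Real.rpow_nonneg hy _
  nlinarith

/-- Integrability of the amplitude density against an exponential. -/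
lemma integrableOn_q {a : ℝ} (ha : 0 < a) :
    IntegrableOn (fun y => q y * Real.exp (-(2 * π * a * y))) (Ioi 0) := by
  have h2a : 0 < 2 * π * a := by positivity
  have hg : IntegrableOn (fun y : ℝ => 2 * (y ^ (1 / 2 : ℝ) * Real.exp (-(2 * π * a * y)))
      + y ^ (1 : ℝ) * Real.exp (-(2 * π * a * y))) (Ioi 0) :=
    ((integrableOn_rpow_exp h2a (by norm_num)).const_mul 2).add
      (integrableOn_rpow_exp h2a (by norm_num))
  refine Integrable.mono' hg ?_ ?_
  · refine ContinuousOn.aestronglyMeasurable ?_ measurableSet_Ioi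
    refine ContinuousOn.mul (continuousOn_q.mono Ioi_subset_Ici_self) ?_
    fun_prop
  · refine (ae_restrict_iff' measurableSet_Ioi).mpr (Eventually.of_forall fun y hy => ?_)
    rw [norm_mul, Complex.norm_real, Real.norm_eq_abs, Real.abs_exp]
    have := norm_q_le' (le_of_lt (mem_Ioi.mp hy))
    have he := Real.exp_nonneg (-(2 * π * a * y))
    nlinarith

/-- The amplitude. -/
def G (z : ℝ) : ℂ := -Complex.I * ∫ y in Ioi (0 : ℝ), q y * Real.exp (-(2 * π * z * y))

/-- The constant in the main term of the amplitude. -/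
def g0 : ℂ := (-1 - Complex.I) / (4 * √2 * π : ℝ)

lemma G_asymp {z : ℝ} (hz : 0 < z) : ‖G z - g0 * (z ^ (-(3 / 2) : ℝ) : ℝ)‖ ≤ z ^ (-(5 / 2) : ℝ) := by
  have h2z : 0 < 2 * π * z := by positivity
  have hmain : ∫ y in Ioi (0 : ℝ), (1 - Complex.I) * ((√y * Real.exp (-(2 * π * z * y)) : ℝ) : ℂ)
      = (1 - Complex.I) * (((2 * π * z) ^ (-(3 / 2) : ℝ) * (√π / 2) : ℝ) : ℂ) := by
    rw [integral_const_mul, integral_complex_ofReal]
    congr 2
    have h1 := integral_rpow_exp (a := 2 * π * z) (p := 1 / 2) h2z (by norm_num)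
    have h2 : Real.Gamma (1 / 2 + 1) = √π / 2 := by
      rw [Real.Gamma_add_one (by norm_num), Real.Gamma_one_half_eq]
      ring
    rw [h2] at h1
    have h3 : (-(3 / 2) : ℝ) = -(1 / 2 + 1) := by norm_num
    rw [h3, ← h1]
    refine setIntegral_congr_fun measurableSet_Ioi fun y _ => ?_
    simp only [Real.sqrt_eq_rpow]
  have hint1 : IntegrableOn (fun y => (1 - Complex.I) * ((√y * Real.exp (-(2 * π * z * y)) : ℝ) : ℂ))
      (Ioi 0) := by
    have h := integrableOn_rpow_exp (a := 2 * π * z) (p := 1 / 2) h2z (by norm_num)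
    simp only [← Real.sqrt_eq_rpow] at h
    exact (h.ofReal (𝕜 := ℂ)).const_mul _
  have hg0 : g0 * (z ^ (-(3 / 2) : ℝ) : ℝ) = -Complex.I * ∫ y in Ioi (0 : ℝ),
      (1 - Complex.I) * ((√y * Real.exp (-(2 * π * z * y)) : ℝ) : ℂ) := by
    rw [hmain, g0, Real.mul_rpow (by positivity) hz.le]
    have h1 : (2 * π) ^ (-(3 / 2) : ℝ) * (√π / 2) = 1 / (4 * √2 * π) := by
      rw [Real.mul_rpow (by norm_num) Real.pi_pos.le]
      have h2 : (2 : ℝ) ^ (-(3 / 2) : ℝ) = 1 / (2 * √2) := by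
        rw [Real.rpow_neg (by norm_num), one_div]
        congr 1
        rw [Real.sqrt_eq_rpow]
        have : (3 / 2 : ℝ) = 1 + 1 / 2 := by norm_num
        rw [this, Real.rpow_add (by norm_num), Real.rpow_one]
      have h3 : π ^ (-(3 / 2) : ℝ) * √π = 1 / π := by
        rw [Real.sqrt_eq_rpow, ← Real.rpow_add Real.pi_pos]
        norm_num [Real.rpow_neg_one]
      rw [h2]
      calc 1 / (2 * √2) * π ^ (-(3 / 2) : ℝ) * (√π / 2)
          = (π ^ (-(3 / 2) : ℝ) * √π) * (1 / (4 * √2)) := by ring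
        _ = 1 / π * (1 / (4 * √2)) := by rw [h3]
        _ = 1 / (4 * √2 * π) := by ring
    have h4 : (2 * π) ^ (-(3 / 2) : ℝ) * z ^ (-(3 / 2) : ℝ) * (√π / 2)
        = z ^ (-(3 / 2) : ℝ) * (1 / (4 * √2 * π)) := by
      rw [← h1]; ring
    rw [h4]
    push_cast
    linear_combination (-(1 / (4 * (√2 : ℂ) * π)) * ((z ^ (-(3 / 2) : ℝ) : ℝ) : ℂ)) * Complex.I_sq
  have hE : G z - g0 * (z ^ (-(3 / 2) : ℝ) : ℝ) = -Complex.I * ∫ y in Ioi (0 : ℝ),
      (q y * Real.exp (-(2 * π * z * y))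
        - (1 - Complex.I) * ((√y * Real.exp (-(2 * π * z * y)) : ℝ) : ℂ)) := by
    rw [hg0, G, integral_sub (integrableOn_q hz) hint1]
    ring
  rw [hE, norm_mul, norm_neg, Complex.norm_I, one_mul]
  have hint2 := integrableOn_rpow_exp (a := 2 * π * z) (p := 3 / 2) h2z (by norm_num)
  calc ‖∫ y in Ioi (0 : ℝ), (q y * Real.exp (-(2 * π * z * y))
        - (1 - Complex.I) * ((√y * Real.exp (-(2 * π * z * y)) : ℝ) : ℂ))‖
      ≤ ∫ y in Ioi (0 : ℝ), y ^ (3 / 2 : ℝ) * Real.exp (-(2 * π * z * y)) := by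
        refine norm_integral_le_of_norm_le hint2 ?_
        refine (ae_restrict_iff' measurableSet_Ioi).mpr (Eventually.of_forall fun y hy => ?_)
        have h1 : q y * Real.exp (-(2 * π * z * y))
            - (1 - Complex.I) * ((√y * Real.exp (-(2 * π * z * y)) : ℝ) : ℂ)
            = (q y - (1 - Complex.I) * (√y : ℝ)) * (Real.exp (-(2 * π * z * y)) : ℝ) := by
          push_cast
          ring
        rw [h1, norm_mul, Complex.norm_real, Real.norm_eq_abs, Real.abs_exp]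
        exact mul_le_mul_of_nonneg_right (norm_q_sub_le (le_of_lt (mem_Ioi.mp hy)))
          (Real.exp_nonneg _)
    _ = (2 * π * z) ^ (-(3 / 2 + 1) : ℝ) * Real.Gamma (3 / 2 + 1) :=
        integral_rpow_exp h2z (by norm_num)
    _ ≤ z ^ (-(5 / 2) : ℝ) := by
        have h1 : Real.Gamma (3 / 2 + 1) = 3 / 4 * √π := by
          rw [Real.Gamma_add_one (by norm_num)]
          have : (3 / 2 : ℝ) = 1 / 2 + 1 := by norm_num
          rw [this, Real.Gamma_add_one (by norm_num), Real.Gamma_one_half_eq]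
          ring
        have h2 : (-(3 / 2 + 1) : ℝ) = -(5 / 2) := by norm_num
        rw [h1, h2, Real.mul_rpow (by positivity) hz.le]
        have h3 : (2 * π) ^ (-(5 / 2) : ℝ) * (3 / 4 * √π) ≤ 1 := by
          have h4 : (2 * π) ^ (-(5 / 2) : ℝ) ≤ (2 * π) ^ (-1 : ℝ) :=
            Real.rpow_le_rpow_of_exponent_le (by linarith [Real.pi_gt_three]) (by norm_num)
          rw [Real.rpow_neg_one] at h4
          have h5 : √π ≤ 2 := by
            rw [Real.sqrt_le_left (by norm_num)]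
            linarith [Real.pi_lt_four]
          have h6 : (2 * π)⁻¹ ≤ 1 / 6 := by
            rw [inv_eq_one_div]
            apply one_div_le_one_div_of_le (by norm_num)
            linarith [Real.pi_gt_three]
          have h7 : 0 ≤ (2 * π) ^ (-(5 / 2) : ℝ) := by positivity
          nlinarith [Real.sqrt_nonneg π]
        have h8 : 0 ≤ z ^ (-(5 / 2) : ℝ) := by positivity
        nlinarith

lemma norm_ff_le {z x Y : ℝ} (hx : |x| ≤ 1) :
    ‖ff z (x + (-Y : ℝ) * Complex.I)‖ ≤ (2 + Y ^ 2 + 2 * |Y|) * Real.exp (-(2 * π * z * Y)) := by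
  rw [ff, norm_mul, norm_cpow_half, Complex.norm_exp]
  have h1 : (-(2 * π * Complex.I * (z * (x + (-Y : ℝ) * Complex.I))) : ℂ).re = -(2 * π * z * Y) := by
    simp
    ring
  rw [h1]
  refine mul_le_mul_of_nonneg_right ?_ (Real.exp_nonneg _)
  have h2 : ‖(1 - ((x : ℂ) + (-Y : ℝ) * Complex.I) ^ 2)‖ ≤ (1 + |Y|) ^ 2 + 1 := by
    refine (norm_sub_le _ _).trans ?_
    rw [norm_one, norm_pow, add_comm]
    have h3 : ‖((x : ℂ) + (-Y : ℝ) * Complex.I)‖ ≤ 1 + |Y| := by
      refine (norm_add_le _ _).trans ?_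
      rw [norm_mul, Complex.norm_I, Complex.norm_real, Complex.norm_real, Real.norm_eq_abs,
        Real.norm_eq_abs, abs_neg, mul_one]
      linarith
    have := pow_le_pow_left₀ (norm_nonneg _) h3 2
    linarith
  have h4 : (1 + |Y|) ^ 2 + 1 ≤ (2 + Y ^ 2 + 2 * |Y|) ^ 2 := by
    have e1 : |Y| ^ 2 = Y ^ 2 := sq_abs Y
    nlinarith [abs_nonneg Y, sq_nonneg Y]
  calc √‖(1 - ((x : ℂ) + (-Y : ℝ) * Complex.I) ^ 2)‖ ≤ √((2 + Y ^ 2 + 2 * |Y|) ^ 2) :=
        Real.sqrt_le_sqrt (h2.trans h4)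
    _ = 2 + Y ^ 2 + 2 * |Y| := Real.sqrt_sq (by positivity)

lemma tendsto_poly_exp {a : ℝ} (ha : 0 < a) :
    Tendsto (fun Y : ℝ => (2 + Y ^ 2 + 2 * |Y|) * Real.exp (-(a * Y))) atTop (𝓝 0) := by
  have h (n : ℕ) : Tendsto (fun Y : ℝ => Y ^ n * Real.exp (-(a * Y))) atTop (𝓝 0) := by
    have h1 := Real.tendsto_pow_mul_exp_neg_atTop_nhds_zero n
    have h2 : Tendsto (fun Y : ℝ => a * Y) atTop atTop := tendsto_id.const_mul_atTop ha
    have h3 := (h1.comp h2).const_mul ((a ^ n)⁻¹)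
    rw [mul_zero] at h3
    refine h3.congr fun Y => ?_
    simp only [Function.comp]
    rw [mul_pow]
    field_simp
  have h0 := ((h 0).const_mul 2).add ((h 2).add ((h 1).const_mul 2))
  simp only [mul_zero, add_zero] at h0
  refine h0.congr' ?_
  filter_upwards [eventually_ge_atTop 0] with Y hY
  rw [abs_of_nonneg hY]
  ring

theorem J_eq {z : ℝ} (hz : 0 < z) :
    J z = Complex.exp (2 * π * Complex.I * z) * G z
      + conj (Complex.exp (2 * π * Complex.I * z) * G z) := by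
  have hint := integrableOn_q hz
  set Q : ℝ → ℂ := fun y => q y * Real.exp (-(2 * π * z * y)) with hQ
  set Qc : ℝ → ℂ := fun y => conj (q y) * Real.exp (-(2 * π * z * y)) with hQc
  have hQc' : Qc = fun y => conj (Q y) := by
    funext y
    simp only [hQ, hQc, map_mul, Complex.conj_ofReal]
  have hintc : IntegrableOn Qc (Ioi 0) := by
    rw [hQc']
    exact (Complex.conjLIE.toContinuousLinearEquiv.toContinuousLinearMap.integrable_comp hint)
  have hstep : ∀ Y : ℝ, 0 < Y → J z = (∫ x in (-1 : ℝ)..1, ff z (x + (-Y : ℝ) * Complex.I))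
      + Complex.I * (Complex.exp (-(2 * π * Complex.I * z)) * ∫ y in (0 : ℝ)..Y, Qc y)
      - Complex.I * (Complex.exp (2 * π * Complex.I * z) * ∫ y in (0 : ℝ)..Y, Q y) := by
    intro Y hY
    rw [contour z hY]
    have e1 : ∫ y in (-Y)..0, ff z ((1 : ℝ) + y * Complex.I)
        = Complex.exp (-(2 * π * Complex.I * z)) * ∫ y in (0 : ℝ)..Y, Qc y := by
      have := intervalIntegral.integral_comp_neg (a := 0) (b := Y)
        (fun y : ℝ => ff z ((1 : ℝ) + y * Complex.I))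
      rw [neg_zero] at this
      rw [← this, ← intervalIntegral.integral_const_mul]
      refine intervalIntegral.integral_congr fun y hy => ?_
      rw [uIcc_of_le hY.le] at hy
      exact ff_right z hy.1
    have e2 : ∫ y in (-Y)..0, ff z ((-1 : ℝ) + y * Complex.I)
        = Complex.exp (2 * π * Complex.I * z) * ∫ y in (0 : ℝ)..Y, Q y := by
      have := intervalIntegral.integral_comp_neg (a := 0) (b := Y)
        (fun y : ℝ => ff z ((-1 : ℝ) + y * Complex.I))
      rw [neg_zero] at this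
      rw [← this, ← intervalIntegral.integral_const_mul]
      refine intervalIntegral.integral_congr fun y hy => ?_
      rw [uIcc_of_le hY.le] at hy
      exact ff_left z hy.1
    rw [e1, e2]
  have l1 : Tendsto (fun Y : ℝ => ∫ x in (-1 : ℝ)..1, ff z (x + (-Y : ℝ) * Complex.I)) atTop (𝓝 0) := by
    have h2 := (tendsto_poly_exp (a := 2 * π * z) (by positivity)).mul_const 2
    rw [zero_mul] at h2
    refine squeeze_zero_norm' ?_ h2
    refine Eventually.of_forall fun Y => ?_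
    have := intervalIntegral.norm_integral_le_of_norm_le_const (a := -1) (b := 1)
      (f := fun x : ℝ => ff z (x + (-Y : ℝ) * Complex.I))
      (C := (2 + Y ^ 2 + 2 * |Y|) * Real.exp (-(2 * π * z * Y))) (fun x hx => by
        rw [uIoc_of_le (by norm_num)] at hx
        exact norm_ff_le (abs_le.mpr ⟨hx.1.le, hx.2⟩))
    refine this.trans (le_of_eq ?_)
    norm_num
  have l2 := intervalIntegral_tendsto_integral_Ioi (μ := volume) (f := Q) 0 hint tendsto_id
  have l3 := intervalIntegral_tendsto_integral_Ioi (μ := volume) (f := Qc) 0 hintc tendsto_id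
  have l4 := (l1.add ((l3.const_mul (Complex.exp (-(2 * π * Complex.I * z)))).const_mul
    Complex.I)).sub ((l2.const_mul (Complex.exp (2 * π * Complex.I * z))).const_mul Complex.I)
  have l5 : Tendsto (fun _ : ℝ => J z) atTop (𝓝 (J z)) := tendsto_const_nhds
  have key := tendsto_nhds_unique_of_eventuallyEq l5 l4 (by
    filter_upwards [eventually_gt_atTop 0] with Y hY
    exact hstep Y hY)
  rw [key, G]
  have hconj : ∫ y in Ioi (0 : ℝ), Qc y = conj (∫ y in Ioi (0 : ℝ), Q y) := by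
    rw [hQc', integral_conj]
  rw [hconj]
  simp only [map_mul, map_neg, Complex.conj_I, ← Complex.exp_conj, Complex.conj_ofReal, map_ofNat]
  have e3 : (2 * (π : ℂ) * -Complex.I * z) = -(2 * π * Complex.I * z) := by ring
  rw [e3]
  ring

end

end Pool.Agent.Helper22.GC
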