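import Mathlib

/-!
# Kusmin-Landau and the second derivative test for exponential sums
-/

open Set
open scoped Real

namespace Pool.Agent.Helper22.GC

noncomputable section

/-- `ee t = exp(2 π i t)`. -/
def ee (t : ℝ) : ℂ := Complex.exp (2 * π * Complex.I * t)

lemma ee_add (s t : ℝ) : ee (s + t) = ee s * ee t := by
  rw [ee, ee, ee, ← Complex.exp_add]
  congr 1
  push_cast
  ring

lemma norm_ee (t : ℝ) : ‖ee t‖ = 1 := by
  rw [ee, Complex.norm_exp]
  simp

lemma ee_zero : ee 0 = 1 := by simp [ee]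

lemma ee_int (m : ℤ) : ee m = 1 := by
  rw [ee, Complex.exp_eq_one_iff]
  exact ⟨m, by push_cast; ring⟩

lemma conj_ee (t : ℝ) : (starRingEnd ℂ) (ee t) = ee (-t) := by
  rw [ee, ee, ← Complex.exp_conj]
  congr 1
  simp only [map_mul, map_ofNat, Complex.conj_ofReal, Complex.conj_I]
  push_cast
  ring

lemma ee_ne_zero (t : ℝ) : ee t ≠ 0 := Complex.exp_ne_zero _

/-- The Kusmin-Landau multiplier. -/
def klc (u : ℝ) : ℂ := -1 / 2 - Complex.I / 2 * ((Real.cos (π * u) / Real.sin (π * u) : ℝ) : ℂ)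

lemma klc_mul {u : ℝ} (hu : Real.sin (π * u) ≠ 0) : (ee u - 1) * klc u = 1 := by
  have h1 : ee u = (Real.cos (π * u) + Real.sin (π * u) * Complex.I) ^ 2 := by
    have : (2 * π * Complex.I * u : ℂ) = ((2 : ℕ) : ℂ) * ((π * u : ℝ) * Complex.I) := by
      push_cast; ring
    rw [ee, this, Complex.exp_nat_mul, Complex.exp_mul_I]
    push_cast
    rfl
  have h2 : (Real.sin (π * u) : ℂ) ≠ 0 := by exact_mod_cast hu
  have h3 : (Real.cos (π * u) : ℂ) ^ 2 + (Real.sin (π * u) : ℂ) ^ 2 = 1 := by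
    exact_mod_cast Real.cos_sq_add_sin_sq (π * u)
  rw [h1, klc]
  set s : ℂ := (Real.sin (π * u) : ℂ) with hs
  set c : ℂ := (Real.cos (π * u) : ℂ) with hc
  have h4 : ((Real.cos (π * u) / Real.sin (π * u) : ℝ) : ℂ) = c / s := by
    rw [Complex.ofReal_div]
  rw [h4]
  have hI := Complex.I_sq
  have h5 : (c + s * Complex.I) ^ 2 - 1 = 2 * s * (-s + c * Complex.I) := by
    linear_combination h3 + s ^ 2 * hI
  have h6 : -1 / 2 - Complex.I / 2 * (c / s) = -(s + Complex.I * c) / (2 * s) := by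
    field_simp
    ring
  rw [h5, h6]
  have h7 : 2 * s * (-s + c * Complex.I) * (-(s + Complex.I * c) / (2 * s))
      = (s - c * Complex.I) * (s + Complex.I * c) := by
    field_simp
    ring
  rw [h7]
  linear_combination h3 - c ^ 2 * hI

lemma sin_lower {u θ : ℝ} (h1 : θ ≤ u) (h2 : u ≤ 1 - θ) (hθ : 0 < θ) :
    2 * θ ≤ Real.sin (π * u) := by
  have hpi := Real.pi_pos
  rcases le_total u (1 / 2) with h | h
  · have h3 := Real.mul_le_sin (x := π * u) (by nlinarith) (by nlinarith)
    have h4 : 2 / π * (π * u) = 2 * u := by field_simp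
    rw [h4] at h3
    linarith
  · have h3 := Real.mul_le_sin (x := π * (1 - u)) (by nlinarith) (by nlinarith)
    have h4 : 2 / π * (π * (1 - u)) = 2 * (1 - u) := by field_simp
    rw [h4] at h3
    have h5 : Real.sin (π * (1 - u)) = Real.sin (π * u) := by
      rw [mul_sub, mul_one, Real.sin_pi_sub]
    rw [h5] at h3
    linarith

lemma norm_klc_eq {u : ℝ} (hu : 0 < Real.sin (π * u)) : ‖klc u‖ = 1 / (2 * Real.sin (π * u)) := by
  have h1 := klc_mul hu.ne'
  have h2 : ‖ee u - 1‖ = 2 * Real.sin (π * u) := by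
    have h3 : ee u - 1 = ee (u / 2) * (2 * Complex.I * (Real.sin (π * u) : ℝ)) := by
      have e1 : ee u = ee (u / 2) * ee (u / 2) := by rw [← ee_add]; congr 1; ring
      have e2 : (1 : ℂ) = ee (u / 2) * ee (-(u / 2)) := by rw [← ee_add]; simp [ee_zero]
      have e3 : 2 * Complex.I * ((Real.sin (π * u) : ℝ) : ℂ) = ee (u / 2) - ee (-(u / 2)) := by
        have e4 : ∀ v : ℝ, ee v = Complex.cos (2 * π * v) + Complex.sin (2 * π * v) * Complex.I := by
          intro v
          rw [ee, ← Complex.exp_mul_I]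
          congr 1; ring
        rw [e4, e4]
        push_cast
        have e5 : 2 * (π : ℂ) * (u / 2) = π * u := by ring
        have e6 : 2 * (π : ℂ) * -(u / 2) = -(π * u) := by ring
        rw [e5, e6, Complex.cos_neg, Complex.sin_neg]
        ring
      rw [e3, mul_sub, ← e1, ← e2]
    rw [h3, norm_mul, norm_ee, norm_mul, norm_mul, Complex.norm_I, Complex.norm_real,
      Real.norm_eq_abs, abs_of_pos hu]
    simp
  have h3 : ‖ee u - 1‖ * ‖klc u‖ = 1 := by rw [← norm_mul, h1, norm_one]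
  rw [h2] at h3
  rw [eq_div_iff (by positivity)]
  linarith

lemma cot_anti {u v : ℝ} (hu : 0 < Real.sin (π * u)) (hv : 0 < Real.sin (π * v)) (huv : u ≤ v)
    (huv' : v - u ≤ 1) :
    Real.cos (π * v) / Real.sin (π * v) ≤ Real.cos (π * u) / Real.sin (π * u) := by
  rw [div_le_div_iff₀ hv hu]
  have h1 : 0 ≤ Real.sin (π * v - π * u) := by
    apply Real.sin_nonneg_of_nonneg_of_le_pi
    · nlinarith [Real.pi_pos]
    · nlinarith [Real.pi_pos]
  rw [Real.sin_sub] at h1
  linarith

/-- Kusmin-Landau, for increasing differences. -/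
theorem kusmin_landau {f : ℕ → ℝ} {a b : ℕ} {θ : ℝ} {m : ℤ} (hθ : 0 < θ)
    (hmono : ∀ n, a ≤ n → n + 1 < b → f (n + 1) - f n ≤ f (n + 2) - f (n + 1))
    (hlow : ∀ n, a ≤ n → n < b → m + θ ≤ f (n + 1) - f n)
    (hhigh : ∀ n, a ≤ n → n < b → f (n + 1) - f n ≤ m + 1 - θ) :
    ‖∑ n ∈ Finset.Ico a b, ee (f n)‖ ≤ 1 / θ := by
  rcases Nat.lt_or_ge a b with hab | hab
  swap
  · rw [Finset.Ico_eq_empty_of_le hab]
    simp
    exact hθ.le
  set u : ℕ → ℝ := fun n => f (n + 1) - f n - m with hu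
  have hulow : ∀ n, a ≤ n → n < b → θ ≤ u n := fun n h1 h2 => by
    have := hlow n h1 h2; simp only [hu]; linarith
  have huhigh : ∀ n, a ≤ n → n < b → u n ≤ 1 - θ := fun n h1 h2 => by
    have := hhigh n h1 h2; simp only [hu]; linarith
  have hsin : ∀ n, a ≤ n → n < b → 2 * θ ≤ Real.sin (π * u n) := fun n h1 h2 =>
    sin_lower (hulow n h1 h2) (huhigh n h1 h2) hθ
  have hE : ∀ n, ee (f (n + 1)) = ee (f n) * ee (u n) := by
    intro n
    rw [← ee_add]
    have : f (n + 1) = f n + u n + m := by simp only [hu]; ring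
    rw [this, ee_add _ (m : ℝ), ee_int, mul_one]
  set ct : ℕ → ℝ := fun n => Real.cos (π * u n) / Real.sin (π * u n) with hct
  have hklc : ∀ n, a ≤ n → n < b → ‖klc (u n)‖ ≤ 1 / (4 * θ) := by
    intro n h1 h2
    have h3 := hsin n h1 h2
    rw [norm_klc_eq (by linarith)]
    apply one_div_le_one_div_of_le (by linarith)
    linarith
  have hctb : ∀ n, a ≤ n → n < b → |ct n| ≤ 1 / (2 * θ) := by
    intro n h1 h2
    have h3 := hsin n h1 h2
    simp only [hct]
    rw [abs_div, abs_of_pos (a := Real.sin (π * u n)) (by linarith)]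
    exact div_le_div₀ zero_le_one (Real.abs_cos_le_one _) (by linarith) h3
  have claim : ∀ c, a + 1 ≤ c → c ≤ b →
      ‖∑ n ∈ Finset.Ico a c, ee (f n) - ee (f c) * klc (u (c - 1))‖
        ≤ 1 / (4 * θ) + 1 / 2 * (ct a - ct (c - 1)) := by
    intro c hc
    induction c, hc using Nat.le_induction with
    | base =>
      intro hb
      have h1 : a + 1 - 1 = a := by omega
      rw [h1, Finset.sum_Ico_succ_top le_rfl, Finset.Ico_self, Finset.sum_empty, zero_add, sub_self,
        mul_zero, add_zero, hE]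
      have hs := hsin a le_rfl hab
      have h2 := klc_mul (u := u a) (by linarith)
      have h3 : ee (f a) - ee (f a) * ee (u a) * klc (u a) = -(ee (f a) * klc (u a)) := by
        linear_combination (-ee (f a)) * h2
      rw [h3, norm_neg, norm_mul, norm_ee, one_mul]
      exact hklc a le_rfl hab
    | succ c hc ih =>
      intro hb
      have ih' := ih (by omega)
      have h1 : c + 1 - 1 = c := by omega
      rw [h1, Finset.sum_Ico_succ_top (by omega), hE]
      have hs := hsin c (by omega) (by omega)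
      have h2 := klc_mul (u := u c) (by linarith)
      have h3 : ∑ n ∈ Finset.Ico a c, ee (f n) + ee (f c) - ee (f c) * ee (u c) * klc (u c)
          = (∑ n ∈ Finset.Ico a c, ee (f n) - ee (f c) * klc (u (c - 1)))
            - ee (f c) * (klc (u c) - klc (u (c - 1))) := by
        linear_combination (-ee (f c)) * h2
      rw [h3]
      refine (norm_sub_le _ _).trans ?_
      rw [norm_mul, norm_ee, one_mul]
      have h4 : klc (u c) - klc (u (c - 1)) = Complex.I / 2 * ((ct (c - 1) - ct c : ℝ) : ℂ) := by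
        simp only [klc, hct]
        push_cast
        ring
      have hmon : u (c - 1) ≤ u c := by
        have := hmono (c - 1) (by omega) (by omega)
        have e1 : c - 1 + 1 = c := by omega
        have e2 : c - 1 + 2 = c + 1 := by omega
        rw [e1, e2] at this
        simp only [hu]
        rw [e1]
        linarith
      have hs' := hsin (c - 1) (by omega) (by omega)
      have h5 : ct c ≤ ct (c - 1) := by
        refine cot_anti (by linarith) (by linarith) hmon ?_
        have := hulow (c - 1) (by omega) (by omega)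
        have := huhigh c (by omega) (by omega)
        linarith
      have h6 : ‖klc (u c) - klc (u (c - 1))‖ = 1 / 2 * (ct (c - 1) - ct c) := by
        rw [h4, norm_mul, norm_div, Complex.norm_I, Complex.norm_real, Real.norm_eq_abs,
          abs_of_nonneg (by linarith)]
        norm_num
      rw [h6]
      linarith
  have hfin := claim b (by omega) le_rfl
  have h1 : ‖∑ n ∈ Finset.Ico a b, ee (f n)‖ ≤
      ‖∑ n ∈ Finset.Ico a b, ee (f n) - ee (f b) * klc (u (b - 1))‖ +
        ‖ee (f b) * klc (u (b - 1))‖ := by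
    have := norm_add_le (∑ n ∈ Finset.Ico a b, ee (f n) - ee (f b) * klc (u (b - 1)))
      (ee (f b) * klc (u (b - 1)))
    rwa [sub_add_cancel] at this
  rw [norm_mul, norm_ee, one_mul] at h1
  have h2 := hklc (b - 1) (by omega) (by omega)
  have h3 := abs_le.mp (hctb a le_rfl hab)
  have h4 := abs_le.mp (hctb (b - 1) (by omega) (by omega))
  have h5 : 1 / θ = 1 / (4 * θ) + 1 / 2 * (1 / (2 * θ) + 1 / (2 * θ)) + 1 / (4 * θ) := by
    field_simp; norm_num
  rw [h5]
  linarith

lemma gap_lower {g : ℕ → ℝ} {a b : ℕ} {l : ℝ}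
    (hstep : ∀ n, a ≤ n → n + 1 < b → l ≤ g (n + 1) - g n) {p q : ℕ} (hp : a ≤ p) (hpq : p ≤ q)
    (hq : q < b) : l * ((q : ℝ) - p) ≤ g q - g p := by
  induction q, hpq using Nat.le_induction with
  | base => simp
  | succ q hpq ih =>
    have h1 := ih (by omega)
    have h2 := hstep q (by omega) hq
    push_cast
    linarith

/-- Few terms have differences in a short window. -/
lemma card_window {g : ℕ → ℝ} {a b : ℕ} {l w u : ℝ} (hl : 0 < l) (hw : 0 ≤ w)
    (hstep : ∀ n, a ≤ n → n + 1 < b → l ≤ g (n + 1) - g n) (T : Finset ℕ)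
    (hT : ∀ n ∈ T, a ≤ n ∧ n < b ∧ u ≤ g n ∧ g n ≤ u + w) : (T.card : ℝ) ≤ w / l + 1 := by
  rcases T.eq_empty_or_nonempty with rfl | hne
  · simp
    positivity
  · set p := T.min' hne with hp
    set q := T.max' hne with hq
    have hpT := hT p (T.min'_mem hne)
    have hqT := hT q (T.max'_mem hne)
    have hpq : p ≤ q := T.min'_le_max' hne
    have hsub : T ⊆ Finset.Icc p q := fun n hn =>
      Finset.mem_Icc.mpr ⟨T.min'_le n hn, T.le_max' n hn⟩
    have hcard := Finset.card_le_card hsub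
    rw [Nat.card_Icc] at hcard
    have h1 := gap_lower hstep hpT.1 hpq hqT.2.1
    have h2 : ((q : ℝ) - p) ≤ w / l := by
      rw [le_div_iff₀ hl]
      linarith [hpT.2.2.1, hqT.2.2.2]
    have h3 : (T.card : ℝ) ≤ (q : ℝ) - p + 1 := by
      have : T.card + p ≤ q + 1 := by omega
      have h4 : (T.card : ℝ) + p ≤ q + 1 := by exact_mod_cast this
      linarith
    linarith

/-- Second derivative test. -/
theorem second_deriv_test {f : ℕ → ℝ} {a b : ℕ} {l V : ℝ} (hl : 0 < l) (hl' : l ≤ 1 / 4)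
    (hV0 : 0 ≤ V)
    (hstep : ∀ n, a ≤ n → n + 1 < b → l ≤ (f (n + 2) - f (n + 1)) - (f (n + 1) - f n))
    (hV : ∀ p q, a ≤ p → p ≤ q → q < b → (f (q + 1) - f q) - (f (p + 1) - f p) ≤ V) :
    ‖∑ n ∈ Finset.Ico a b, ee (f n)‖ ≤ 5 * (V + 2) / √l := by
  classical
  rcases Nat.lt_or_ge a b with hab | hab
  swap
  · rw [Finset.Ico_eq_empty_of_le hab]
    simp only [Finset.sum_empty, norm_zero]
    positivity
  set g : ℕ → ℝ := fun n => f (n + 1) - f n with hg
  have hstep' : ∀ n, a ≤ n → n + 1 < b → l ≤ g (n + 1) - g n := fun n h1 h2 => hstep n h1 h2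
  have hmono : ∀ p q, a ≤ p → p ≤ q → q < b → g p ≤ g q := by
    intro p q h1 h2 h3
    have := gap_lower hstep' h1 h2 h3
    have h4 : (0 : ℝ) ≤ (q : ℝ) - p := by
      have : (p : ℝ) ≤ q := by exact_mod_cast h2
      linarith
    nlinarith
  set θ := √l with hθ
  have hθ0 : 0 < θ := Real.sqrt_pos.mpr hl
  have hθ2 : θ ^ 2 = l := Real.sq_sqrt hl.le
  have hθ1 : θ ≤ 1 / 2 := by
    rw [hθ, Real.sqrt_le_left (by norm_num)]
    linarith
  -- split by integer part
  have hmaps : ∀ n ∈ Finset.Ico a b, ⌊g n⌋ ∈ Finset.Icc ⌊g a⌋ ⌊g (b - 1)⌋ := by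
    intro n hn
    rw [Finset.mem_Ico] at hn
    exact Finset.mem_Icc.mpr ⟨Int.floor_le_floor (hmono a n le_rfl hn.1 hn.2),
      Int.floor_le_floor (hmono n (b - 1) hn.1 (by omega) (by omega))⟩
  rw [← Finset.sum_fiberwise_of_maps_to hmaps]
  have hpiece : ∀ m ∈ Finset.Icc ⌊g a⌋ ⌊g (b - 1)⌋,
      ‖∑ n ∈ (Finset.Ico a b).filter (fun n => ⌊g n⌋ = m), ee (f n)‖ ≤ 5 / θ := by
    intro m _
    set S := (Finset.Ico a b).filter (fun n => ⌊g n⌋ = m) with hS
    set A := S.filter (fun n => g n < m + θ) with hA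
    set B := S.filter (fun n => ¬ g n < m + θ) with hB
    set B1 := B.filter (fun n => g n ≤ m + 1 - θ) with hB1
    set B2 := B.filter (fun n => ¬ g n ≤ m + 1 - θ) with hB2
    have hmemS : ∀ n, n ∈ S ↔ (a ≤ n ∧ n < b) ∧ ((m : ℝ) ≤ g n ∧ g n < m + 1) := by
      intro n
      rw [hS, Finset.mem_filter, Finset.mem_Ico, Int.floor_eq_iff]
    have hcA : (A.card : ℝ) ≤ θ / l + 1 := by
      refine card_window (g := g) (a := a) (b := b) (u := m) hl hθ0.le hstep' A fun n hn => ?_
      rw [hA, Finset.mem_filter, hmemS] at hn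
      exact ⟨hn.1.1.1, hn.1.1.2, hn.1.2.1, hn.2.le⟩
    have hcB2 : (B2.card : ℝ) ≤ θ / l + 1 := by
      refine card_window (g := g) (a := a) (b := b) (u := m + 1 - θ) hl hθ0.le hstep' B2
        fun n hn => ?_
      rw [hB2, Finset.mem_filter, hB, Finset.mem_filter, hmemS] at hn
      push Not at hn
      exact ⟨hn.1.1.1.1, hn.1.1.1.2, hn.2.le, by linarith [hn.1.1.2.2]⟩
    have hB1sum : ‖∑ n ∈ B1, ee (f n)‖ ≤ 1 / θ := by
      rcases B1.eq_empty_or_nonempty with h | hne
      · rw [h]; simp; exact hθ0.le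
      · set p := B1.min' hne with hp
        set q := B1.max' hne with hq
        have hmemB1 : ∀ n, n ∈ B1 ↔ (a ≤ n ∧ n < b) ∧ ((m : ℝ) + θ ≤ g n ∧ g n ≤ m + 1 - θ) := by
          intro n
          rw [hB1, Finset.mem_filter, hB, Finset.mem_filter, hmemS]
          push Not
          constructor
          · rintro ⟨⟨⟨h1, h2⟩, h3⟩, h4⟩
            exact ⟨h1, h3, h4⟩
          · rintro ⟨h1, h3, h4⟩
            exact ⟨⟨⟨h1, by linarith, by linarith⟩, h3⟩, h4⟩
        have hpT := (hmemB1 p).mp (B1.min'_mem hne)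
        have hqT := (hmemB1 q).mp (B1.max'_mem hne)
        have hpq : p ≤ q := B1.min'_le_max' hne
        have hB1eq : B1 = Finset.Ico p (q + 1) := by
          ext n
          rw [Finset.mem_Ico]
          constructor
          · intro hn
            exact ⟨B1.min'_le n hn, Nat.lt_succ_of_le (B1.le_max' n hn)⟩
          · rintro ⟨h1, h2⟩
            rw [hmemB1]
            refine ⟨⟨by omega, by omega⟩, ?_, ?_⟩
            · exact hpT.2.1.trans (hmono p n (by omega) h1 (by omega))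
            · exact (hmono n q (by omega) (by omega) (by omega)).trans hqT.2.2
        rw [hB1eq]
        refine kusmin_landau (m := m) hθ0 ?_ ?_ ?_
        · intro n h1 h2
          have := hstep n (by omega) (by omega)
          linarith
        · intro n h1 h2
          exact hpT.2.1.trans (hmono p n (by omega) h1 (by omega))
        · intro n h1 h2
          exact (hmono n q (by omega) (by omega) (by omega)).trans hqT.2.2
    have hsplit : ∑ n ∈ S, ee (f n) = ∑ n ∈ A, ee (f n) + (∑ n ∈ B1, ee (f n) + ∑ n ∈ B2, ee (f n)) := by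
      rw [hB1, hB2, Finset.sum_filter_add_sum_filter_not, hA, hB,
        Finset.sum_filter_add_sum_filter_not]
    have htriv : ∀ T : Finset ℕ, ‖∑ n ∈ T, ee (f n)‖ ≤ T.card := by
      intro T
      refine (norm_sum_le _ _).trans ?_
      simp [norm_ee]
    rw [hsplit]
    have h1 : θ / l = 1 / θ := by
      rw [← hθ2]
      field_simp
    have h2 : 1 ≤ 1 / θ := by
      rw [le_div_iff₀ hθ0]
      linarith
    calc ‖∑ n ∈ A, ee (f n) + (∑ n ∈ B1, ee (f n) + ∑ n ∈ B2, ee (f n))‖
        ≤ ‖∑ n ∈ A, ee (f n)‖ + (‖∑ n ∈ B1, ee (f n)‖ + ‖∑ n ∈ B2, ee (f n)‖) :=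
          (norm_add_le _ _).trans (by gcongr; exact norm_add_le _ _)
      _ ≤ (θ / l + 1) + (1 / θ + (θ / l + 1)) := by
          gcongr
          · exact (htriv A).trans hcA
          · exact (htriv B2).trans hcB2
      _ ≤ 5 / θ := by
          rw [h1]
          have : 5 / θ = 5 * (1 / θ) := by ring
          rw [this]
          linarith
  refine (norm_sum_le _ _).trans ((Finset.sum_le_card_nsmul _ _ _ hpiece).trans ?_)
  rw [nsmul_eq_mul, Int.card_Icc]
  have h1 := hV a (b - 1) le_rfl (by omega) (by omega)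
  have h2 : g (b - 1) - g a ≤ V := h1
  have h3 := Int.floor_le (g (b - 1))
  have h4 := Int.sub_one_lt_floor (g a)
  have h5 : (((⌊g (b - 1)⌋ + 1 - ⌊g a⌋).toNat : ℤ) : ℝ) ≤ V + 2 := by
    have h6 : 0 ≤ ⌊g (b - 1)⌋ + 1 - ⌊g a⌋ := by
      have := Int.floor_le_floor (hmono a (b - 1) le_rfl (by omega) (by omega))
      omega
    rw [Int.toNat_of_nonneg h6]
    push_cast
    linarith
  have h6 : (((⌊g (b - 1)⌋ + 1 - ⌊g a⌋).toNat : ℕ) : ℝ) ≤ V + 2 := by exact_mod_cast h5
  calc (((⌊g (b - 1)⌋ + 1 - ⌊g a⌋).toNat : ℕ) : ℝ) * (5 / θ) ≤ (V + 2) * (5 / θ) := by gcongr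
    _ = 5 * (V + 2) / θ := by ring

lemma sqrt_diff (x : ℝ) (hx : 0 ≤ x) : √(x + 1) - √x = 1 / (√(x + 1) + √x) := by
  have h1 : 0 < √(x + 1) := Real.sqrt_pos.mpr (by linarith)
  have h2 := Real.sqrt_nonneg x
  rw [eq_div_iff (by positivity)]
  have h3 := Real.sq_sqrt hx
  have h4 := Real.sq_sqrt (show 0 ≤ x + 1 by linarith)
  nlinarith

lemma sqrt_second_diff (x : ℝ) (hx : 0 ≤ x) :
    1 / (4 * (x + 2) * √(x + 2)) ≤ (√(x + 1) - √x) - (√(x + 2) - √(x + 1)) := by
  have h1 : 0 < √(x + 1) := Real.sqrt_pos.mpr (by linarith)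
  have h2 := Real.sqrt_nonneg x
  have h3 : 0 < √(x + 2) := Real.sqrt_pos.mpr (by linarith)
  have e1 := sqrt_diff x hx
  have e2 := sqrt_diff (x + 1) (by linarith)
  have e3 : x + 1 + 1 = x + 2 := by ring
  rw [e3] at e2
  have h4 : √x ≤ √(x + 2) := Real.sqrt_le_sqrt (by linarith)
  have h5 : √(x + 1) ≤ √(x + 2) := Real.sqrt_le_sqrt (by linarith)
  have s0 := Real.sq_sqrt hx
  have s1 := Real.sq_sqrt (show 0 ≤ x + 1 by linarith)
  have s2 := Real.sq_sqrt (show 0 ≤ x + 2 by linarith)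
  rw [e1, e2]
  have e4 : 1 / (√(x + 1) + √x) - 1 / (√(x + 2) + √(x + 1))
      = 2 / ((√(x + 2) + √x) * (√(x + 1) + √x) * (√(x + 2) + √(x + 1))) := by
    rw [div_sub_div _ _ (by positivity) (by positivity), div_eq_div_iff (by positivity) (by positivity)]
    have : (√(x + 2) - √x) * (√(x + 2) + √x) = 2 := by nlinarith
    linear_combination ((√(x + 1) + √x) * (√(x + 2) + √(x + 1))) * this
  rw [e4]
  have e5 : 1 / (4 * (x + 2) * √(x + 2)) = 2 / ((2 * √(x + 2)) * (2 * √(x + 2)) * (2 * √(x + 2))) := by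
    rw [div_eq_div_iff (by positivity) (by positivity)]
    linear_combination (8 * √(x + 2)) * s2
  rw [e5]
  apply div_le_div_of_nonneg_left (by norm_num) (by positivity)
  gcongr <;> linarith

end

end Pool.Agent.Helper22.GC
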