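import Mathlib
import Pool.Agent.Helper22.GC.VdC

/-!
# Mean squares of exponential sums with frequencies `α √k` over segments of integers
-/

open Set
open scoped Real ComplexConjugate

namespace Pool.Agent.Helper22.GC

noncomputable section

/-- The exponential sum with phase `t √K` over a block. -/
lemma sqrt_sum_bound {t : ℝ} (ht : 0 < t) {K : ℕ} (hK : 1 ≤ K) :
    ‖∑ k ∈ Finset.Ico K (2 * K), ee (t * √k)‖ ^ 2
      ≤ 2400 * (t * √K + K * √K / t) := by
  have hK0 : (0 : ℝ) < K := by exact_mod_cast hK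
  have hsK : 0 < √(K : ℝ) := Real.sqrt_pos.mpr hK0
  have hsK2 : √(K : ℝ) ^ 2 = K := Real.sq_sqrt hK0.le
  have hconj : ‖∑ k ∈ Finset.Ico K (2 * K), ee (t * √k)‖
      = ‖∑ k ∈ Finset.Ico K (2 * K), ee (-(t * √k))‖ := by
    have : ∑ k ∈ Finset.Ico K (2 * K), ee (-(t * √k))
        = conj (∑ k ∈ Finset.Ico K (2 * K), ee (t * √k)) := by
      rw [map_sum]
      exact Finset.sum_congr rfl fun k _ => (conj_ee _).symm
    rw [this, Complex.norm_conj]
  rcases le_or_gt t (3 * (K * √K)) with hle | hgt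
  swap
  · have h1 : ‖∑ k ∈ Finset.Ico K (2 * K), ee (t * √k)‖ ≤ K := by
      refine (norm_sum_le _ _).trans ?_
      simp only [norm_ee, Finset.sum_const, Nat.card_Ico, nsmul_eq_mul, mul_one]
      have : 2 * K - K = K := by omega
      rw [this]
    have h2 := pow_le_pow_left₀ (norm_nonneg _) h1 2
    refine h2.trans ?_
    have h3 : 0 ≤ K * √K / t := by positivity
    have h4 : (K : ℝ) ^ 2 ≤ t * √K := by
      calc (K : ℝ) ^ 2 = K * √K * √K := by rw [mul_assoc, ← pow_two, hsK2]; ring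
        _ ≤ t * √K := by
          refine mul_le_mul_of_nonneg_right ?_ hsK.le
          nlinarith [mul_pos hK0 hsK]
    have h5 : 0 ≤ t * √K := by positivity
    nlinarith
  · rw [hconj]
    set l : ℝ := t / (12 * (K * √K)) with hl
    have hl0 : 0 < l := by positivity
    have hl1 : l ≤ 1 / 4 := by
      rw [hl, div_le_iff₀ (by positivity)]
      linarith
    set V : ℝ := t / (2 * √K) with hV
    have hV0 : 0 ≤ V := by positivity
    have key := second_deriv_test (f := fun k : ℕ => -(t * √k)) (a := K) (b := 2 * K)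
      (l := l) (V := V) hl0 hl1 hV0 ?_ ?_
    · have h1 := pow_le_pow_left₀ (norm_nonneg _) key 2
      refine h1.trans ?_
      rw [div_pow, Real.sq_sqrt hl0.le, mul_pow]
      have h2 : (V + 2) ^ 2 ≤ 2 * (V ^ 2 + 4) := by nlinarith [sq_nonneg (V - 2)]
      calc (5 : ℝ) ^ 2 * (V + 2) ^ 2 / l ≤ 5 ^ 2 * (2 * (V ^ 2 + 4)) / l := by gcongr
        _ = 150 * (t * √K) + 2400 * (K * √K / t) := by
          have hV2 : V ^ 2 = t ^ 2 / (4 * K) := by rw [hV, div_pow, mul_pow, hsK2]; norm_num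
          rw [hV2, hl]
          field_simp
          ring
        _ ≤ 2400 * (t * √K + K * √K / t) := by
          have : 0 ≤ t * √K := by positivity
          linarith
    · intro n h1 h2
      have h3 := sqrt_second_diff (n : ℝ) (Nat.cast_nonneg n)
      push_cast
      have h4 : l ≤ t * (1 / (4 * ((n : ℝ) + 2) * √((n : ℝ) + 2))) := by
        have hn2 : (n : ℝ) + 2 ≤ 2 * K := by
          have : n + 2 ≤ 2 * K := by omega
          exact_mod_cast this
        have hs : √((n : ℝ) + 2) ≤ 3 / 2 * √K := by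
          rw [show (3 / 2 : ℝ) * √K = √((3 / 2) ^ 2 * K) by
            rw [Real.sqrt_mul (by positivity), Real.sqrt_sq (by norm_num)]]
          apply Real.sqrt_le_sqrt
          linarith
        have hpos : (0 : ℝ) < (n : ℝ) + 2 := by positivity
        have hspos : 0 < √((n : ℝ) + 2) := Real.sqrt_pos.mpr hpos
        rw [hl, div_eq_mul_one_div t]
        apply mul_le_mul_of_nonneg_left _ ht.le
        apply one_div_le_one_div_of_le (by positivity)
        calc 4 * ((n : ℝ) + 2) * √((n : ℝ) + 2) ≤ 4 * (2 * K) * (3 / 2 * √K) := by gcongr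
          _ = 12 * (K * √K) := by ring
      nlinarith
    · intro p q h1 h2 h3
      push_cast
      have e1 := sqrt_diff (p : ℝ) (Nat.cast_nonneg p)
      have e2 : 0 ≤ √((q : ℝ) + 1) - √q := sub_nonneg.mpr (Real.sqrt_le_sqrt (by linarith))
      have h4 : √((p : ℝ) + 1) - √p ≤ 1 / (2 * √K) := by
        rw [e1]
        apply one_div_le_one_div_of_le (by positivity)
        have hp : (K : ℝ) ≤ p := by exact_mod_cast h1
        have i1 : √(K : ℝ) ≤ √(p : ℝ) := Real.sqrt_le_sqrt hp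
        have i2 : √(K : ℝ) ≤ √((p : ℝ) + 1) := Real.sqrt_le_sqrt (by linarith)
        linarith
      have h5 : V = t * (1 / (2 * √K)) := by rw [hV]; ring
      rw [h5]
      nlinarith

/-- The double sum identity behind the majorant principle. -/
lemma double_sum_eq {ι : Type*} (S : Finset ι) (x : ι → ℝ) (c : ι → ℂ) (N : ℕ) :
    (((∑ i ∈ Finset.range N, ∑ j ∈ Finset.range N,
      ‖∑ k ∈ S, c k * ee (((i : ℝ) - j) * x k)‖ ^ 2 : ℝ)) : ℂ)
    = ∑ k ∈ S, ∑ l ∈ S, c k * conj (c l) *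
        ((‖∑ i ∈ Finset.range N, ee ((i : ℝ) * (x k - x l))‖ ^ 2 : ℝ) : ℂ) := by
  have hsq : ∀ z : ℂ, ((‖z‖ ^ 2 : ℝ) : ℂ) = z * conj z := by
    intro z
    rw [Complex.mul_conj, Complex.normSq_eq_norm_sq]
  simp only [Complex.ofReal_sum, hsq]
  have h1 : ∀ i j : ℕ, (∑ k ∈ S, c k * ee (((i : ℝ) - j) * x k)) *
      conj (∑ k ∈ S, c k * ee (((i : ℝ) - j) * x k))
      = ∑ k ∈ S, ∑ l ∈ S, c k * conj (c l) *
        (ee ((i : ℝ) * (x k - x l)) * conj (ee ((j : ℝ) * (x k - x l)))) := by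
    intro i j
    rw [map_sum, Finset.sum_mul_sum]
    refine Finset.sum_congr rfl fun k _ => Finset.sum_congr rfl fun l _ => ?_
    rw [map_mul, conj_ee, conj_ee, ← ee_add]
    have : ee (((i : ℝ) - j) * x k) * ee (-(((i : ℝ) - j) * x l))
        = ee ((i : ℝ) * (x k - x l) + -((j : ℝ) * (x k - x l))) := by
      rw [← ee_add]
      congr 1
      ring
    rw [← this]
    ring
  simp only [h1]
  have h2 : ∀ k l : ι, (∑ i ∈ Finset.range N, ee ((i : ℝ) * (x k - x l))) *
      conj (∑ i ∈ Finset.range N, ee ((i : ℝ) * (x k - x l)))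
      = ∑ i ∈ Finset.range N, ∑ j ∈ Finset.range N,
        (ee ((i : ℝ) * (x k - x l)) * conj (ee ((j : ℝ) * (x k - x l)))) := by
    intro k l
    rw [map_sum, Finset.sum_mul_sum]
  simp only [h2, Finset.mul_sum]
  calc ∑ i ∈ Finset.range N, ∑ j ∈ Finset.range N, ∑ k ∈ S, ∑ l ∈ S, c k * conj (c l) *
        (ee ((i : ℝ) * (x k - x l)) * conj (ee ((j : ℝ) * (x k - x l))))
      = ∑ i ∈ Finset.range N, ∑ k ∈ S, ∑ j ∈ Finset.range N, ∑ l ∈ S, c k * conj (c l) *
        (ee ((i : ℝ) * (x k - x l)) * conj (ee ((j : ℝ) * (x k - x l)))) :=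
        Finset.sum_congr rfl fun i _ => Finset.sum_comm
    _ = ∑ k ∈ S, ∑ i ∈ Finset.range N, ∑ j ∈ Finset.range N, ∑ l ∈ S, c k * conj (c l) *
        (ee ((i : ℝ) * (x k - x l)) * conj (ee ((j : ℝ) * (x k - x l)))) := Finset.sum_comm
    _ = ∑ k ∈ S, ∑ i ∈ Finset.range N, ∑ l ∈ S, ∑ j ∈ Finset.range N, c k * conj (c l) *
        (ee ((i : ℝ) * (x k - x l)) * conj (ee ((j : ℝ) * (x k - x l)))) :=
        Finset.sum_congr rfl fun k _ => Finset.sum_congr rfl fun i _ => Finset.sum_comm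
    _ = _ := Finset.sum_congr rfl fun k _ => Finset.sum_comm

/-- Majorant principle in mean square. -/
theorem fejer_majorant {ι : Type*} (S : Finset ι) (x : ι → ℝ) (c : ι → ℂ) {ρ : ℝ}
    (hc : ∀ k ∈ S, ‖c k‖ ≤ ρ) (N : ℕ) :
    ∑ i ∈ Finset.range N, ∑ j ∈ Finset.range N,
      ‖∑ k ∈ S, c k * ee (((i : ℝ) - j) * x k)‖ ^ 2
    ≤ ρ ^ 2 * ∑ i ∈ Finset.range N, ∑ j ∈ Finset.range N,
      ‖∑ k ∈ S, ee (((i : ℝ) - j) * x k)‖ ^ 2 := by
  have h1 := double_sum_eq S x c N
  have h2 := double_sum_eq S x (fun _ => 1) N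
  simp only [one_mul, map_one] at h2
  set D : ι → ι → ℝ := fun k l => ‖∑ i ∈ Finset.range N, ee ((i : ℝ) * (x k - x l))‖ ^ 2 with hD
  have h3 : ∑ i ∈ Finset.range N, ∑ j ∈ Finset.range N,
      ‖∑ k ∈ S, ee (((i : ℝ) - j) * x k)‖ ^ 2 = ∑ k ∈ S, ∑ l ∈ S, D k l := by
    have : (((∑ i ∈ Finset.range N, ∑ j ∈ Finset.range N,
      ‖∑ k ∈ S, ee (((i : ℝ) - j) * x k)‖ ^ 2 : ℝ)) : ℂ) = ((∑ k ∈ S, ∑ l ∈ S, D k l : ℝ) : ℂ) := by
      rw [h2]
      simp only [hD, Complex.ofReal_sum]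
    exact_mod_cast this
  rw [h3]
  set A := ∑ i ∈ Finset.range N, ∑ j ∈ Finset.range N,
      ‖∑ k ∈ S, c k * ee (((i : ℝ) - j) * x k)‖ ^ 2 with hA
  have hA0 : 0 ≤ A := Finset.sum_nonneg fun i _ => Finset.sum_nonneg fun j _ => by positivity
  have h4 : A = ‖(A : ℂ)‖ := by rw [Complex.norm_real, Real.norm_of_nonneg hA0]
  rw [h4, h1]
  refine (norm_sum_le _ _).trans ?_
  rw [Finset.mul_sum]
  refine Finset.sum_le_sum fun k hk => ?_
  refine (norm_sum_le _ _).trans ?_
  rw [Finset.mul_sum]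
  refine Finset.sum_le_sum fun l hl => ?_
  have hD0 : 0 ≤ D k l := by positivity
  rw [norm_mul, norm_mul, Complex.norm_conj, Complex.norm_real, Real.norm_of_nonneg hD0]
  have hk' := hc k hk
  have hl' := hc l hl
  have : ‖c k‖ * ‖c l‖ ≤ ρ ^ 2 := by
    rw [pow_two]
    exact mul_le_mul hk' hl' (norm_nonneg _) ((norm_nonneg _).trans hk')
  exact mul_le_mul_of_nonneg_right this hD0

/-- Mean square over a segment of length `H`. -/
theorem segment_majorant {ι : Type*} (S : Finset ι) (x : ι → ℝ) (c : ι → ℂ) {ρ : ℝ}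
    (hc : ∀ k ∈ S, ‖c k‖ ≤ ρ) {H : ℕ} (hH : 1 ≤ H) :
    ∑ n ∈ Finset.range H, ‖∑ k ∈ S, c k * ee ((n : ℝ) * x k)‖ ^ 2
    ≤ 4 * ρ ^ 2 * ∑ m ∈ Finset.range (2 * H), ‖∑ k ∈ S, ee ((m : ℝ) * x k)‖ ^ 2 := by
  have hmaj := fejer_majorant S x c hc (2 * H)
  -- lower bound for the left side
  have hlow : (H : ℝ) * ∑ n ∈ Finset.range H, ‖∑ k ∈ S, c k * ee ((n : ℝ) * x k)‖ ^ 2
      ≤ ∑ i ∈ Finset.range (2 * H), ∑ j ∈ Finset.range (2 * H),
      ‖∑ k ∈ S, c k * ee (((i : ℝ) - j) * x k)‖ ^ 2 := by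
    rw [Finset.sum_comm]
    calc (H : ℝ) * ∑ n ∈ Finset.range H, ‖∑ k ∈ S, c k * ee ((n : ℝ) * x k)‖ ^ 2
        = ∑ j ∈ Finset.range H, ∑ n ∈ Finset.range H, ‖∑ k ∈ S, c k * ee ((n : ℝ) * x k)‖ ^ 2 := by
          rw [Finset.sum_const, Finset.card_range, nsmul_eq_mul]
      _ ≤ ∑ j ∈ Finset.range H, ∑ i ∈ Finset.range (2 * H),
            ‖∑ k ∈ S, c k * ee (((i : ℝ) - j) * x k)‖ ^ 2 := by
          refine Finset.sum_le_sum fun j hj => ?_
          rw [Finset.mem_range] at hj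
          have h1 : ∑ i ∈ Finset.Ico j (j + H), ‖∑ k ∈ S, c k * ee (((i : ℝ) - j) * x k)‖ ^ 2
              = ∑ n ∈ Finset.range H, ‖∑ k ∈ S, c k * ee ((n : ℝ) * x k)‖ ^ 2 := by
            rw [Finset.sum_Ico_eq_sum_range]
            have : j + H - j = H := by omega
            rw [this]
            refine Finset.sum_congr rfl fun n _ => ?_
            have : ((j + n : ℕ) : ℝ) - j = n := by push_cast; ring
            rw [this]
          rw [← h1]
          refine Finset.sum_le_sum_of_subset_of_nonneg ?_ fun _ _ _ => by positivity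
          intro i hi
          rw [Finset.mem_Ico] at hi
          rw [Finset.mem_range]
          omega
      _ ≤ _ := by
          refine Finset.sum_le_sum_of_subset_of_nonneg ?_ fun _ _ _ =>
            Finset.sum_nonneg fun _ _ => by positivity
          intro i hi
          rw [Finset.mem_range] at hi ⊢
          omega
  -- upper bound for the right side
  set u : ℝ → ℝ := fun t => ‖∑ k ∈ S, ee (t * x k)‖ ^ 2 with hu
  have husymm : ∀ t, u (-t) = u t := by
    intro t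
    simp only [hu]
    have : ∑ k ∈ S, ee (-t * x k) = conj (∑ k ∈ S, ee (t * x k)) := by
      rw [map_sum]
      refine Finset.sum_congr rfl fun k _ => ?_
      rw [conj_ee]
      congr 1; ring
    rw [this, Complex.norm_conj]
  have hu0 : ∀ t, 0 ≤ u t := fun t => by positivity
  have hup : ∑ i ∈ Finset.range (2 * H), ∑ j ∈ Finset.range (2 * H), u ((i : ℝ) - j)
      ≤ (2 * H : ℕ) * (2 * ∑ m ∈ Finset.range (2 * H), u m) := by
    rw [Finset.sum_comm]
    have h1 : ∀ j ∈ Finset.range (2 * H), ∑ i ∈ Finset.range (2 * H), u ((i : ℝ) - j)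
        ≤ 2 * ∑ m ∈ Finset.range (2 * H), u m := by
      intro j hj
      rw [Finset.mem_range] at hj
      rw [← Finset.sum_range_add_sum_Ico _ hj.le, two_mul (∑ m ∈ Finset.range (2 * H), u m)]
      refine add_le_add ?_ ?_
      · have h2 : ∑ i ∈ Finset.range j, u ((i : ℝ) - j) = ∑ i ∈ Finset.range j, u ((i + 1 : ℕ) : ℝ) := by
          rw [← Finset.sum_range_reflect (fun i : ℕ => u ((i + 1 : ℕ) : ℝ))]
          refine Finset.sum_congr rfl fun i hi => ?_
          rw [Finset.mem_range] at hi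
          rw [← husymm]
          congr 1
          have : j - 1 - i + 1 = j - i := by omega
          rw [this, Nat.cast_sub hi.le]
          ring
        rw [h2]
        have h3 : ∑ i ∈ Finset.range j, u ((i + 1 : ℕ) : ℝ) ≤ ∑ i ∈ Finset.range (j + 1), u (i : ℝ) := by
          rw [Finset.sum_range_succ' (fun i : ℕ => u (i : ℝ))]
          exact le_add_of_nonneg_right (hu0 _)
        refine h3.trans ?_
        exact Finset.sum_le_sum_of_subset_of_nonneg (Finset.range_mono (by omega))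
          fun _ _ _ => hu0 _
      · rw [Finset.sum_Ico_eq_sum_range]
        have h2 : ∀ i : ℕ, ((j + i : ℕ) : ℝ) - j = i := fun i => by push_cast; ring
        simp only [h2]
        exact Finset.sum_le_sum_of_subset_of_nonneg (Finset.range_mono (by omega))
          fun _ _ _ => hu0 _
    refine (Finset.sum_le_card_nsmul _ _ _ h1).trans ?_
    rw [Finset.card_range, nsmul_eq_mul]
  have hH0 : (0 : ℝ) < H := by exact_mod_cast hH
  have hfin : (H : ℝ) * ∑ n ∈ Finset.range H, ‖∑ k ∈ S, c k * ee ((n : ℝ) * x k)‖ ^ 2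
      ≤ H * (4 * ρ ^ 2 * ∑ m ∈ Finset.range (2 * H), u m) := by
    refine hlow.trans (hmaj.trans ?_)
    calc ρ ^ 2 * ∑ i ∈ Finset.range (2 * H), ∑ j ∈ Finset.range (2 * H), u ((i : ℝ) - j)
        ≤ ρ ^ 2 * ((2 * H : ℕ) * (2 * ∑ m ∈ Finset.range (2 * H), u m)) := by gcongr
      _ = _ := by push_cast; ring
  exact le_of_mul_le_mul_left hfin hH0

end

end Pool.Agent.Helper22.GC
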