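import Mathlib
import Pool.Agent.Helper22.GC.Fejer

/-!
# Block estimates
-/

open Set
open scoped Real ComplexConjugate

namespace Pool.Agent.Helper22.GC

noncomputable section

lemma harmonic_le_sqrt (N : ℕ) : ∑ m ∈ Finset.range N, (1 : ℝ) / ((m + 1 : ℕ) : ℝ) ≤ 2 * √N := by
  induction N with
  | zero => simp
  | succ N ih =>
    rw [Finset.sum_range_succ]
    have h1 : 0 < √((N : ℝ) + 1) := Real.sqrt_pos.mpr (by positivity)
    have h2 := Real.sqrt_nonneg (N : ℝ)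
    have h3 := Real.sq_sqrt (show (0 : ℝ) ≤ (N : ℝ) + 1 by positivity)
    have h4 := Real.sq_sqrt (show (0 : ℝ) ≤ (N : ℝ) by positivity)
    have h5 : √(N : ℝ) ≤ √((N : ℝ) + 1) := Real.sqrt_le_sqrt (by linarith)
    have h6 : 1 ≤ √((N : ℝ) + 1) := by
      rw [Real.one_le_sqrt]; linarith [Nat.cast_nonneg (α := ℝ) N]
    push_cast at ih ⊢
    have h7 : (1 : ℝ) / (N + 1) ≤ 2 * (√((N : ℝ) + 1) - √N) := by
      rw [div_le_iff₀ (by positivity)]
      have h8 : (√((N : ℝ) + 1) - √N) * (√((N : ℝ) + 1) + √N) = 1 := by nlinarith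
      have h9 : 0 ≤ √((N : ℝ) + 1) - √N := by linarith
      nlinarith
    linarith

/-- Block mean square for short segments. -/
lemma block_short {α : ℝ} (hα : 0 < α) : ∃ C : ℝ, 0 < C ∧ ∀ (K H : ℕ) (c : ℕ → ℂ) (ρ : ℝ), 1 ≤ K →
    1 ≤ H → (H : ℝ) ^ 2 ≤ 4 * (K * √K) → (∀ k ∈ Finset.Ico K (2 * K), ‖c k‖ ≤ ρ) →
    ∑ n ∈ Finset.range H, ‖∑ k ∈ Finset.Ico K (2 * K), c k * ee ((n : ℝ) * (α * √k))‖ ^ 2
      ≤ C * ρ ^ 2 * (K : ℝ) ^ 2 := by
  refine ⟨4 * (1 + 2400 * (16 * α + 4 / α)), by positivity, ?_⟩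
  intro K H c ρ hK hH hHK hc
  have hK0 : (1 : ℝ) ≤ K := by exact_mod_cast hK
  have hsK : 1 ≤ √(K : ℝ) := by rw [Real.one_le_sqrt]; exact hK0
  have hsK2 : √(K : ℝ) ^ 2 = K := Real.sq_sqrt (by linarith)
  refine (segment_majorant (Finset.Ico K (2 * K)) (fun k : ℕ => α * √k) c hc hH).trans ?_
  obtain ⟨N, hN⟩ : ∃ N, 2 * H = N + 1 := ⟨2 * H - 1, by omega⟩
  have h0 : ‖∑ k ∈ Finset.Ico K (2 * K), ee (((0 : ℕ) : ℝ) * (α * √(k : ℝ)))‖ ^ 2 = (K : ℝ) ^ 2 := by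
    simp only [Nat.cast_zero, zero_mul, ee_zero, Finset.sum_const, Nat.card_Ico, nsmul_eq_mul, mul_one]
    have : 2 * K - K = K := by omega
    rw [this]
    simp
  have hHK2 : (H : ℝ) ≤ 2 * K := by
    have h1 : (H : ℝ) ^ 2 ≤ (2 * K) ^ 2 := by
      have : (K : ℝ) * √K ≤ K * K := by
        refine mul_le_mul_of_nonneg_left ?_ (by linarith)
        nlinarith
      nlinarith
    exact le_of_sq_le_sq h1 (by positivity)
  have hNH : (N : ℝ) ≤ 2 * H := by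
    have : ((N + 1 : ℕ) : ℝ) = ((2 * H : ℕ) : ℝ) := by rw [hN]
    push_cast at this
    linarith
  have hsum : ∑ m ∈ Finset.range (2 * H),
      ‖∑ k ∈ Finset.Ico K (2 * K), ee ((m : ℝ) * (α * √k))‖ ^ 2
      ≤ (1 + 2400 * (16 * α + 4 / α)) * (K : ℝ) ^ 2 := by
    rw [hN, Finset.sum_range_succ', h0]
    have h1 : ∀ m ∈ Finset.range N,
        ‖∑ k ∈ Finset.Ico K (2 * K), ee (((m + 1 : ℕ) : ℝ) * (α * √k))‖ ^ 2
        ≤ 2400 * (2 * H * α * √K + K * √K / α * (1 / ((m + 1 : ℕ) : ℝ))) := by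
      intro m hm
      rw [Finset.mem_range] at hm
      have hm0 : (0 : ℝ) < ((m + 1 : ℕ) : ℝ) := by positivity
      have h2 := sqrt_sum_bound (t := ((m + 1 : ℕ) : ℝ) * α) (by positivity) hK
      have h3 : ∀ k : ℕ, ((m + 1 : ℕ) : ℝ) * α * √(k : ℝ) = ((m + 1 : ℕ) : ℝ) * (α * √k) :=
        fun k => mul_assoc _ _ _
      simp only [h3] at h2
      refine h2.trans ?_
      have h4 : (((m + 1 : ℕ) : ℝ)) ≤ 2 * H := by
        have : m + 1 ≤ N := hm
        have : ((m + 1 : ℕ) : ℝ) ≤ N := by exact_mod_cast this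
        linarith
      have h5 : K * √(K : ℝ) / (((m + 1 : ℕ) : ℝ) * α) = K * √K / α * (1 / ((m + 1 : ℕ) : ℝ)) := by
        field_simp
      rw [h5]
      have h6 : ((m + 1 : ℕ) : ℝ) * (α * √(K : ℝ)) ≤ 2 * H * α * √K := by
        rw [mul_assoc (2 * (H : ℝ))]
        exact mul_le_mul_of_nonneg_right h4 (by positivity)
      linarith
    have h2 := Finset.sum_le_sum h1
    rw [← Finset.mul_sum, Finset.sum_add_distrib, Finset.sum_const,
      Finset.card_range, nsmul_eq_mul, ← Finset.mul_sum] at h2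
    have h3 := harmonic_le_sqrt N
    have h4 : √(N : ℝ) ≤ 2 * √K := by
      rw [show (2 : ℝ) * √K = √(2 ^ 2 * K) by
        rw [Real.sqrt_mul (by positivity), Real.sqrt_sq (by norm_num)]]
      apply Real.sqrt_le_sqrt
      linarith
    have h5 : (N : ℝ) * (2 * H * α * √K) ≤ 16 * α * K ^ 2 := by
      calc (N : ℝ) * (2 * H * α * √K) ≤ 2 * H * (2 * H * α * √K) := by gcongr
        _ = 4 * (H : ℝ) ^ 2 * (α * √K) := by ring
        _ ≤ 4 * (4 * (K * √K)) * (α * √K) := by gcongr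
        _ = 16 * α * K * (√K ^ 2) := by ring
        _ = 16 * α * K ^ 2 := by rw [hsK2]; ring
    have h6 : K * √(K : ℝ) / α * ∑ m ∈ Finset.range N, (1 : ℝ) / ((m + 1 : ℕ) : ℝ)
        ≤ 4 / α * K ^ 2 := by
      calc K * √(K : ℝ) / α * ∑ m ∈ Finset.range N, (1 : ℝ) / ((m + 1 : ℕ) : ℝ)
          ≤ K * √(K : ℝ) / α * (2 * (2 * √K)) := by
            refine mul_le_mul_of_nonneg_left ?_ (by positivity)
            linarith
        _ = 4 / α * K * (√K ^ 2) := by ring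
        _ = 4 / α * K ^ 2 := by rw [hsK2]; ring
    linarith
  calc 4 * ρ ^ 2 * ∑ m ∈ Finset.range (2 * H),
      ‖∑ k ∈ Finset.Ico K (2 * K), ee ((m : ℝ) * (α * √k))‖ ^ 2
      ≤ 4 * ρ ^ 2 * ((1 + 2400 * (16 * α + 4 / α)) * (K : ℝ) ^ 2) := by gcongr
    _ = _ := by ring

lemma sum_range_mul_split (u : ℕ → ℝ) (N P : ℕ) :
    ∑ n ∈ Finset.range (N * P), u n = ∑ j ∈ Finset.range N, ∑ n ∈ Finset.range P, u (j * P + n) := by
  induction N with
  | zero => simp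
  | succ N ih =>
    rw [Nat.succ_mul, Finset.sum_range_add, ih, Finset.sum_range_succ]

/-- Block mean square over arbitrary segments. -/
theorem block_general {α : ℝ} (hα : 0 < α) : ∃ C : ℝ, 0 < C ∧ ∀ (K H : ℕ) (c : ℕ → ℂ) (ρ s : ℝ),
    1 ≤ K → (∀ k ∈ Finset.Ico K (2 * K), ‖c k‖ ≤ ρ) →
    ∑ n ∈ Finset.range H, ‖∑ k ∈ Finset.Ico K (2 * K), c k * ee ((s + α * n) * √k)‖ ^ 2
      ≤ C * ρ ^ 2 * (K : ℝ) ^ 2 * (H / √(K * √K) + 1) := by
  obtain ⟨C, hC, hblock⟩ := block_short hα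
  refine ⟨C, hC, ?_⟩
  intro K H c ρ s hK hc
  have hK0 : (1 : ℝ) ≤ K := by exact_mod_cast hK
  have hsK : 1 ≤ √(K : ℝ) := by rw [Real.one_le_sqrt]; exact hK0
  set Q : ℝ := √(K * √K) with hQ
  have hQ1 : 1 ≤ Q := by
    rw [hQ, Real.one_le_sqrt]
    nlinarith
  have hQ2 : Q ^ 2 = K * √K := Real.sq_sqrt (by positivity)
  set P : ℕ := ⌈Q⌉₊ with hP
  have hP1 : 1 ≤ P := Nat.one_le_iff_ne_zero.mpr (by
    rw [hP, Ne, Nat.ceil_eq_zero]
    linarith)
  have hPQ : Q ≤ P := Nat.le_ceil Q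
  have hPQ' : (P : ℝ) ≤ 2 * Q := by
    have := Nat.ceil_lt_add_one (show 0 ≤ Q by linarith)
    rw [← hP] at this
    linarith
  have hP2 : (P : ℝ) ^ 2 ≤ 4 * (K * √K) := by
    rw [← hQ2]
    have hP0 : (0 : ℝ) ≤ P := Nat.cast_nonneg P
    nlinarith
  set N : ℕ := H / P + 1 with hN
  have hHN : H ≤ N * P := by
    have := Nat.lt_div_mul_add (a := H) (b := P) (by omega)
    rw [hN, Nat.add_mul, one_mul]
    omega
  set u : ℕ → ℝ := fun n => ‖∑ k ∈ Finset.Ico K (2 * K), c k * ee ((s + α * n) * √k)‖ ^ 2 with hu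
  have h1 : ∑ n ∈ Finset.range H, u n ≤ ∑ n ∈ Finset.range (N * P), u n :=
    Finset.sum_le_sum_of_subset_of_nonneg (Finset.range_mono hHN) fun _ _ _ => by positivity
  rw [sum_range_mul_split] at h1
  have h2 : ∀ j ∈ Finset.range N, ∑ n ∈ Finset.range P, u (j * P + n) ≤ C * ρ ^ 2 * (K : ℝ) ^ 2 := by
    intro j _
    have h3 := hblock K P (fun k => c k * ee ((s + α * (j * P : ℕ)) * √k)) ρ hK hP1 hP2 (by
      intro k hk
      rw [norm_mul, norm_ee, mul_one]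
      exact hc k hk)
    refine le_trans (le_of_eq ?_) h3
    refine Finset.sum_congr rfl fun n _ => ?_
    simp only [hu]
    congr 2
    refine Finset.sum_congr rfl fun k _ => ?_
    rw [mul_assoc, ← ee_add]
    congr 2
    push_cast
    ring
  refine h1.trans ((Finset.sum_le_card_nsmul _ _ _ h2).trans ?_)
  rw [Finset.card_range, nsmul_eq_mul, mul_comm]
  refine mul_le_mul_of_nonneg_left ?_ (by positivity)
  rw [hN]
  push_cast
  have h4 : ((H / P : ℕ) : ℝ) ≤ H / P := Nat.cast_div_le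
  have h5 : (H : ℝ) / P ≤ H / Q := by
    apply div_le_div_of_nonneg_left (Nat.cast_nonneg H) (by linarith) hPQ
  linarith

end

end Pool.Agent.Helper22.GC
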