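import Mathlib
import Pool.Agent.Helper22.GC.Block

/-!
# The discrete `L²` norm and the sum over dyadic blocks
-/

open Set Filter
open scoped Real ComplexConjugate Topology

namespace Pool.Agent.Helper22.GC

noncomputable section

/-- The discrete `L²` norm over `range H`. -/
def N2 (H : ℕ) (u : ℕ → ℂ) : ℝ := √(∑ n ∈ Finset.range H, ‖u n‖ ^ 2)

lemma N2_nonneg (H : ℕ) (u : ℕ → ℂ) : 0 ≤ N2 H u := Real.sqrt_nonneg _

lemma N2_sq (H : ℕ) (u : ℕ → ℂ) : N2 H u ^ 2 = ∑ n ∈ Finset.range H, ‖u n‖ ^ 2 :=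
  Real.sq_sqrt (Finset.sum_nonneg fun _ _ => by positivity)

/-- The corresponding Euclidean vector. -/
def toE (H : ℕ) (u : ℕ → ℂ) : EuclideanSpace ℂ (Fin H) := WithLp.toLp 2 (fun i => u i)

lemma N2_eq_norm (H : ℕ) (u : ℕ → ℂ) : N2 H u = ‖toE H u‖ := by
  rw [N2, EuclideanSpace.norm_eq, ← Fin.sum_univ_eq_sum_range (fun n => ‖u n‖ ^ 2) H]
  rfl

lemma N2_add_le (H : ℕ) (u v : ℕ → ℂ) : N2 H (fun n => u n + v n) ≤ N2 H u + N2 H v := by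
  rw [N2_eq_norm, N2_eq_norm, N2_eq_norm]
  exact norm_add_le (toE H u) (toE H v)

lemma N2_sum_le {ι : Type*} (H : ℕ) (S : Finset ι) (u : ι → ℕ → ℂ) :
    N2 H (fun n => ∑ j ∈ S, u j n) ≤ ∑ j ∈ S, N2 H (u j) := by
  classical
  induction S using Finset.induction_on with
  | empty => simp [N2]
  | insert a S ha ih =>
    rw [Finset.sum_insert ha]
    have h1 : (fun n => ∑ j ∈ insert a S, u j n) = fun n => u a n + ∑ j ∈ S, u j n := by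
      funext n
      rw [Finset.sum_insert ha]
    rw [h1]
    exact (N2_add_le H _ _).trans (by linarith)

lemma N2_mono {H : ℕ} {u v : ℕ → ℂ} (h : ∀ n < H, ‖u n‖ ≤ ‖v n‖) : N2 H u ≤ N2 H v := by
  apply Real.sqrt_le_sqrt
  refine Finset.sum_le_sum fun n hn => ?_
  exact pow_le_pow_left₀ (norm_nonneg _) (h n (Finset.mem_range.mp hn)) 2

lemma N2_const_mul (H : ℕ) (a : ℂ) (u : ℕ → ℂ) : N2 H (fun n => a * u n) = ‖a‖ * N2 H u := by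
  rw [N2, N2]
  have : ∑ n ∈ Finset.range H, ‖a * u n‖ ^ 2 = ‖a‖ ^ 2 * ∑ n ∈ Finset.range H, ‖u n‖ ^ 2 := by
    rw [Finset.mul_sum]
    refine Finset.sum_congr rfl fun n _ => ?_
    rw [norm_mul, mul_pow]
  rw [this, Real.sqrt_mul (by positivity), Real.sqrt_sq (norm_nonneg _)]

lemma N2_const (H : ℕ) (a : ℂ) : N2 H (fun _ => a) = √H * ‖a‖ := by
  rw [N2, Finset.sum_const, Finset.card_range, nsmul_eq_mul, Real.sqrt_mul (Nat.cast_nonneg H),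
    Real.sqrt_sq (norm_nonneg _)]

lemma N2_le_of_bound {H : ℕ} {u : ℕ → ℂ} {B : ℝ} (hB : 0 ≤ B) (h : ∀ n < H, ‖u n‖ ≤ B) :
    N2 H u ≤ √H * B := by
  have : N2 H u ≤ N2 H (fun _ => (B : ℂ)) := N2_mono fun n hn => by
    rw [Complex.norm_real, Real.norm_of_nonneg hB]
    exact h n hn
  refine this.trans (le_of_eq ?_)
  rw [N2_const, Complex.norm_real, Real.norm_of_nonneg hB]

lemma tendsto_N2 {H : ℕ} {u : ℕ → ℕ → ℂ} {v : ℕ → ℂ}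
    (h : ∀ n < H, Tendsto (fun T => u T n) atTop (𝓝 (v n))) :
    Tendsto (fun T => N2 H (u T)) atTop (𝓝 (N2 H v)) := by
  unfold N2
  refine (Real.continuous_sqrt.tendsto _).comp (tendsto_finsetSum _ fun n hn => ?_)
  exact ((h n (Finset.mem_range.mp hn)).norm).pow 2

/-- The block estimate in `N2` form. -/
theorem block_N2 {α : ℝ} (hα : 0 < α) : ∃ C : ℝ, 0 < C ∧ ∀ (K H : ℕ) (c : ℕ → ℂ) (ρ s : ℝ),
    1 ≤ K → 0 ≤ ρ → (∀ k ∈ Finset.Ico K (2 * K), ‖c k‖ ≤ ρ) →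
    N2 H (fun n => ∑ k ∈ Finset.Ico K (2 * K), c k * ee ((s + α * n) * √k))
      ≤ C * ρ * (√H * (K : ℝ) ^ (5 / 8 : ℝ) + K) := by
  obtain ⟨C, hC, hb⟩ := block_general hα
  refine ⟨√C, Real.sqrt_pos.mpr hC, ?_⟩
  intro K H c ρ s hK hρ hc
  have hK0 : (0 : ℝ) < K := by exact_mod_cast hK
  have h1 := hb K H c ρ s hK hc
  have h2 : √(K * √(K : ℝ)) = (K : ℝ) ^ (3 / 4 : ℝ) := by
    rw [Real.sqrt_eq_rpow, Real.sqrt_eq_rpow]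
    have : (K : ℝ) * (K : ℝ) ^ (1 / 2 : ℝ) = (K : ℝ) ^ (3 / 2 : ℝ) := by
      conv_lhs => rw [← Real.rpow_one (K : ℝ)]
      rw [Real.rpow_one, ← Real.rpow_one_add' hK0.le (by norm_num)]
      norm_num
    rw [this, ← Real.rpow_mul hK0.le]
    norm_num
  rw [h2] at h1
  set R : ℝ := √C * ρ * (√H * (K : ℝ) ^ (5 / 8 : ℝ) + K) with hR
  have hR0 : 0 ≤ R := by positivity
  rw [N2]
  refine Real.sqrt_le_iff.mpr ⟨hR0, h1.trans ?_⟩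
  rw [hR, mul_pow, mul_pow, Real.sq_sqrt hC.le]
  have h3 : (K : ℝ) ^ 2 * (H / (K : ℝ) ^ (3 / 4 : ℝ) + 1) ≤ (√H * (K : ℝ) ^ (5 / 8 : ℝ) + K) ^ 2 := by
    have e1 : (K : ℝ) ^ 2 * (H / (K : ℝ) ^ (3 / 4 : ℝ)) = H * ((K : ℝ) ^ (5 / 8 : ℝ)) ^ 2 := by
      rw [← Real.rpow_natCast ((K : ℝ) ^ (5 / 8 : ℝ)) 2, ← Real.rpow_mul hK0.le,
        ← Real.rpow_natCast (K : ℝ) 2, mul_div_assoc', mul_comm _ (H : ℝ), mul_div_assoc,
        ← Real.rpow_sub hK0]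
      norm_num
    have e2 : √(H : ℝ) ^ 2 = H := Real.sq_sqrt (Nat.cast_nonneg H)
    have e3 : (√H * (K : ℝ) ^ (5 / 8 : ℝ) + K) ^ 2 = √(H : ℝ) ^ 2 * ((K : ℝ) ^ (5 / 8 : ℝ)) ^ 2
        + 2 * (√H * (K : ℝ) ^ (5 / 8 : ℝ)) * K + (K : ℝ) ^ 2 := by ring
    rw [e3, e2, mul_add, e1, mul_one]
    have : 0 ≤ 2 * (√H * (K : ℝ) ^ (5 / 8 : ℝ)) * K := by positivity
    linarith
  calc C * ρ ^ 2 * (K : ℝ) ^ 2 * (H / (K : ℝ) ^ (3 / 4 : ℝ) + 1)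
      = C * ρ ^ 2 * ((K : ℝ) ^ 2 * (H / (K : ℝ) ^ (3 / 4 : ℝ) + 1)) := by ring
    _ ≤ C * ρ ^ 2 * (√H * (K : ℝ) ^ (5 / 8 : ℝ) + K) ^ 2 := by gcongr

end

end Pool.Agent.Helper22.GC
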