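import Mathlib
import Pool.Agent.Helper22.GC.N2

/-!
# Summation over dyadic blocks
-/

open Set Filter
open scoped Real ComplexConjugate Topology

namespace Pool.Agent.Helper22.GC

noncomputable section

lemma two_pow_rpow (j : ℕ) (γ : ℝ) : ((2 : ℝ) ^ j) ^ γ = ((2 : ℝ) ^ γ) ^ j := by
  rw [← Real.rpow_natCast, ← Real.rpow_natCast, ← Real.rpow_mul (by norm_num),
    ← Real.rpow_mul (by norm_num), mul_comm]

lemma geo_up {γ : ℝ} (hγ : 0 < γ) : ∃ C : ℝ, 0 < C ∧ ∀ (J : ℕ) (Y : ℝ), 0 < Y →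
    ∑ j ∈ (Finset.range J).filter (fun j => (2 : ℝ) ^ j ≤ Y), ((2 : ℝ) ^ j) ^ γ ≤ C * Y ^ γ := by
  classical
  set q : ℝ := (2 : ℝ) ^ γ with hq
  have hq1 : 1 < q := Real.one_lt_rpow (by norm_num) hγ
  have hq0 : 0 < q - 1 := by linarith
  refine ⟨q / (q - 1), by positivity, fun J Y hY => ?_⟩
  have claim : (∑ j ∈ (Finset.range J).filter (fun j => (2 : ℝ) ^ j ≤ Y), ((2 : ℝ) ^ j) ^ γ
      ≤ 1 / (q - 1) * q ^ J) ∧ (∑ j ∈ (Finset.range J).filter (fun j => (2 : ℝ) ^ j ≤ Y),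
        ((2 : ℝ) ^ j) ^ γ ≤ q / (q - 1) * Y ^ γ) := by
    induction J with
    | zero =>
      refine ⟨?_, ?_⟩ <;> simp only [Finset.range_zero, Finset.filter_empty, Finset.sum_empty] <;>
        positivity
    | succ J ih =>
      rw [Finset.range_add_one, Finset.filter_insert]
      split_ifs with h
      · rw [Finset.sum_insert (by simp)]
        have h1 : ((2 : ℝ) ^ J) ^ γ = q ^ J := two_pow_rpow J γ
        have h2 : ((2 : ℝ) ^ J) ^ γ ≤ Y ^ γ := Real.rpow_le_rpow (by positivity) h hγ.le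
        have h3 : q ^ J + 1 / (q - 1) * q ^ J = 1 / (q - 1) * q ^ (J + 1) := by
          field_simp; ring
        have h4 : q ^ J + 1 / (q - 1) * q ^ J = q / (q - 1) * q ^ J := by
          field_simp; ring
        have h5 : q / (q - 1) * q ^ J ≤ q / (q - 1) * Y ^ γ := by
          rw [← h1]
          exact mul_le_mul_of_nonneg_left h2 (by positivity)
        constructor
        · rw [← h3, h1]; linarith [ih.1]
        · rw [h1]; linarith [ih.1]
      · refine ⟨ih.1.trans ?_, ih.2⟩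
        refine mul_le_mul_of_nonneg_left ?_ (by positivity)
        exact pow_le_pow_right₀ hq1.le (by omega)
  exact claim.2

lemma geo_down {γ : ℝ} (hγ : 0 < γ) : ∃ C : ℝ, 0 < C ∧ ∀ (J : ℕ) (Y : ℝ), 1 ≤ Y →
    ∑ j ∈ (Finset.range J).filter (fun j => Y < 2 * (2 : ℝ) ^ j), ((2 : ℝ) ^ j) ^ (-γ)
      ≤ C * Y ^ (-γ) := by
  classical
  set p : ℝ := (2 : ℝ) ^ (-γ) with hp
  have hp0 : 0 < p := by positivity
  have hp1 : p < 1 := Real.rpow_lt_one_of_one_lt_of_neg (by norm_num) (by linarith)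
  have h1p : 0 < 1 - p := by linarith
  refine ⟨p⁻¹ / (1 - p), by positivity, fun J Y hY => ?_⟩
  set m := Nat.log 2 ⌊Y⌋₊ with hm
  have hfl : ⌊Y⌋₊ ≠ 0 := by
    have := (Nat.one_le_floor_iff Y).mpr hY
    omega
  have hsub : (Finset.range J).filter (fun j => Y < 2 * (2 : ℝ) ^ j) ⊆ Finset.Ico m J := by
    intro j hj
    rw [Finset.mem_filter, Finset.mem_range] at hj
    rw [Finset.mem_Ico]
    refine ⟨?_, hj.1⟩
    have h1 : (⌊Y⌋₊ : ℝ) < ((2 ^ (j + 1) : ℕ) : ℝ) := by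
      refine lt_of_le_of_lt (Nat.floor_le (by linarith)) ?_
      push_cast
      rw [pow_succ]
      linarith [hj.2]
    have h2 : ⌊Y⌋₊ < 2 ^ (j + 1) := by exact_mod_cast h1
    have h3 := Nat.log_lt_of_lt_pow hfl h2
    omega
  calc ∑ j ∈ (Finset.range J).filter (fun j => Y < 2 * (2 : ℝ) ^ j), ((2 : ℝ) ^ j) ^ (-γ)
      ≤ ∑ j ∈ Finset.Ico m J, ((2 : ℝ) ^ j) ^ (-γ) :=
        Finset.sum_le_sum_of_subset_of_nonneg hsub fun _ _ _ => by positivity
    _ = ∑ j ∈ Finset.Ico m J, p ^ j := Finset.sum_congr rfl fun j _ => two_pow_rpow j (-γ)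
    _ ≤ p ^ m / (1 - p) := geom_sum_Ico_le_of_lt_one hp0.le hp1
    _ ≤ p⁻¹ / (1 - p) * Y ^ (-γ) := by
        have h1 : Y < 2 ^ (m + 1) := by
          have h2 : ⌊Y⌋₊ < 2 ^ (m + 1) := Nat.lt_pow_succ_log_self (by norm_num) _
          have h3 : (⌊Y⌋₊ : ℝ) + 1 ≤ 2 ^ (m + 1) := by exact_mod_cast h2
          linarith [Nat.lt_floor_add_one Y]
        have h4 : ((2 : ℝ) ^ (m + 1)) ^ (-γ) ≤ Y ^ (-γ) :=
          Real.rpow_le_rpow_of_nonpos (by linarith) h1.le (by linarith)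
        rw [two_pow_rpow] at h4
        have h5 : p ^ m = p⁻¹ * p ^ (m + 1) := by
          rw [pow_succ]; field_simp
        rw [h5, mul_div_right_comm]
        exact mul_le_mul_of_nonneg_left h4 (by positivity)

lemma dyadic_split {M : Type*} [AddCommMonoid M] (f : ℕ → M) (J : ℕ) :
    ∑ k ∈ Finset.Ico 1 (2 ^ J), f k
      = ∑ j ∈ Finset.range J, ∑ k ∈ Finset.Ico (2 ^ j) (2 * 2 ^ j), f k := by
  induction J with
  | zero => simp
  | succ J ih =>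
    rw [Finset.sum_range_succ, ← ih]
    have h1 : 2 ^ (J + 1) = 2 * 2 ^ J := by ring
    rw [h1]
    have h2 : 1 ≤ 2 ^ J := Nat.one_le_two_pow
    exact (Finset.sum_Ico_consecutive f h2 (by omega)).symm

/-- Mean square of a sum with dyadically decaying coefficients. -/
theorem dyadic_N2 {α ε : ℝ} (hα : 0 < α) (hε : 0 < ε) (hε' : ε < 1 / 8) :
    ∃ C : ℝ, 0 < C ∧ ∀ (J H K : ℕ) (X A s : ℝ) (c : ℕ → ℂ), 1 ≤ K → (K : ℝ) ≤ X → 0 ≤ A →
      (∀ k, 1 ≤ k → k ≤ K → ‖c k‖ ≤ A * (k : ℝ) ^ (-(3 / 4) + ε) * √(k / X)) →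
      (∀ k, K < k → ‖c k‖ ≤ A * (k : ℝ) ^ (-(3 / 4) + ε) * min 1 (X / k)) →
      N2 H (fun n => ∑ k ∈ Finset.Ico 1 (2 ^ J), c k * ee ((s + α * n) * √k))
        ≤ C * A * (√H * (K : ℝ) ^ (-(1 / 8) + ε) + X ^ (1 / 4 + ε)) := by
  obtain ⟨C0, hC0, hblock⟩ := block_N2 hα
  obtain ⟨C1, hC1, hup1⟩ := geo_up (γ := 3 / 8 + ε) (by linarith)
  obtain ⟨C2, hC2, hup2⟩ := geo_up (γ := 3 / 4 + ε) (by linarith)
  obtain ⟨C3, hC3, hup3⟩ := geo_up (γ := 1 / 4 + ε) (by linarith)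
  obtain ⟨C4, hC4, hdn1⟩ := geo_down (γ := 1 / 8 - ε) (by linarith)
  obtain ⟨C5, hC5, hdn2⟩ := geo_down (γ := 3 / 4 - ε) (by linarith)
  refine ⟨C0 * (√2 * (C1 + C2) + C4 + C3 + C5), by positivity, ?_⟩
  intro J H K X A s c hK hKX hA hc1 hc2
  have hK0 : (1 : ℝ) ≤ K := by exact_mod_cast hK
  have hKp : (0 : ℝ) < K := by linarith
  have hX1 : 1 ≤ X := hK0.trans hKX
  have hX0 : 0 < X := by linarith
  set t1 : ℕ → ℝ := fun j => if (2 : ℝ) ^ j ≤ K then ((2 : ℝ) ^ j) ^ (3 / 8 + ε) else 0 with ht1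
  set t2 : ℕ → ℝ := fun j => if (2 : ℝ) ^ j ≤ K then ((2 : ℝ) ^ j) ^ (3 / 4 + ε) else 0 with ht2
  set t3 : ℕ → ℝ := fun j => if (2 : ℝ) ^ j ≤ X then ((2 : ℝ) ^ j) ^ (1 / 4 + ε) else 0 with ht3
  set t4 : ℕ → ℝ := fun j => if (K : ℝ) < 2 * (2 : ℝ) ^ j then ((2 : ℝ) ^ j) ^ (-(1 / 8 - ε)) else 0
    with ht4
  set t5 : ℕ → ℝ := fun j => if X < 2 * (2 : ℝ) ^ j then ((2 : ℝ) ^ j) ^ (-(3 / 4 - ε)) else 0
    with ht5
  have ht10 : ∀ j, 0 ≤ t1 j := fun j => by simp only [ht1]; split_ifs <;> positivity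
  have ht20 : ∀ j, 0 ≤ t2 j := fun j => by simp only [ht2]; split_ifs <;> positivity
  have ht30 : ∀ j, 0 ≤ t3 j := fun j => by simp only [ht3]; split_ifs <;> positivity
  have ht40 : ∀ j, 0 ≤ t4 j := fun j => by simp only [ht4]; split_ifs <;> positivity
  have ht50 : ∀ j, 0 ≤ t5 j := fun j => by simp only [ht5]; split_ifs <;> positivity
  -- block bound
  have hblk : ∀ j ∈ Finset.range J,
      N2 H (fun n => ∑ k ∈ Finset.Ico (2 ^ j) (2 * 2 ^ j), c k * ee ((s + α * n) * √k))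
        ≤ C0 * A * (√2 * X ^ (-(1 / 2) : ℝ) * (√H * t1 j + t2 j) + √H * t4 j
          + (t3 j + X * t5 j)) := by
    intro j _
    set D : ℕ := 2 ^ j with hD
    have hD1 : 1 ≤ D := Nat.one_le_two_pow
    have hDr : ((D : ℕ) : ℝ) = (2 : ℝ) ^ j := by rw [hD]; push_cast; rfl
    have hD1r : (1 : ℝ) ≤ D := by exact_mod_cast hD1
    have hDp : (0 : ℝ) < D := by linarith
    have hpw : ∀ k : ℕ, D ≤ k → (k : ℝ) ^ (-(3 / 4) + ε) ≤ (D : ℝ) ^ (-(3 / 4) + ε) := fun k hk =>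
      Real.rpow_le_rpow_of_nonpos hDp (by exact_mod_cast hk) (by linarith)
    have hadd : ∀ a b : ℝ, (D : ℝ) ^ a * (D : ℝ) ^ b = (D : ℝ) ^ (a + b) := fun a b =>
      (Real.rpow_add hDp a b).symm
    rcases le_or_gt (2 * D) K with hDK | hDK
    · -- case A
      have hDK' : (D : ℝ) ≤ K := by exact_mod_cast (by omega : D ≤ K)
      have e1 : t1 j = (D : ℝ) ^ (3 / 8 + ε) := by
        simp only [ht1]; rw [← hDr, if_pos hDK']
      have e2 : t2 j = (D : ℝ) ^ (3 / 4 + ε) := by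
        simp only [ht2]; rw [← hDr, if_pos hDK']
      have hb := hblock D H c (A * (D : ℝ) ^ (-(3 / 4) + ε) * √(2 * D / X)) s hD1 (by positivity) (by
        intro k hk
        rw [Finset.mem_Ico] at hk
        refine (hc1 k (by omega) (by omega)).trans ?_
        have h1 := hpw k hk.1
        have h2 : √((k : ℝ) / X) ≤ √(2 * D / X) := by
          apply Real.sqrt_le_sqrt
          apply div_le_div_of_nonneg_right _ hX0.le
          have : k ≤ 2 * D := by omega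
          exact_mod_cast this
        gcongr)
      refine hb.trans ?_
      have h3 : √(2 * (D : ℝ) / X) = √2 * X ^ (-(1 / 2) : ℝ) * (D : ℝ) ^ (1 / 2 : ℝ) := by
        rw [Real.sqrt_div (by positivity), Real.sqrt_mul (by norm_num), Real.sqrt_eq_rpow (D : ℝ),
          Real.sqrt_eq_rpow X, Real.rpow_neg hX0.le]
        ring
      rw [h3]
      have h4 : C0 * (A * (D : ℝ) ^ (-(3 / 4) + ε) * (√2 * X ^ (-(1 / 2) : ℝ) * (D : ℝ) ^ (1 / 2 : ℝ)))
          * (√H * (D : ℝ) ^ (5 / 8 : ℝ) + D)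
          = C0 * A * (√2 * X ^ (-(1 / 2) : ℝ) * (√H * t1 j + t2 j)) := by
        rw [e1, e2]
        have h5 : (D : ℝ) ^ (3 / 8 + ε) = (D : ℝ) ^ (-(3 / 4) + ε) * (D : ℝ) ^ (1 / 2 : ℝ)
            * (D : ℝ) ^ (5 / 8 : ℝ) := by
          rw [hadd, hadd]; congr 1; ring
        have h6 : (D : ℝ) ^ (3 / 4 + ε) = (D : ℝ) ^ (-(3 / 4) + ε) * (D : ℝ) ^ (1 / 2 : ℝ)
            * (D : ℝ) ^ (1 : ℝ) := by
          rw [hadd, hadd]; congr 1; ring
        rw [h5, h6, Real.rpow_one]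
        ring
      rw [h4]
      refine mul_le_mul_of_nonneg_left ?_ (by positivity)
      have i4 := ht40 j
      have i3 := ht30 j
      have i5 := ht50 j
      have : 0 ≤ √(H : ℝ) * t4 j := by positivity
      have : 0 ≤ X * t5 j := by positivity
      linarith
    · -- case B
      have hDK' : (K : ℝ) < 2 * D := by exact_mod_cast hDK
      have e4 : t4 j = (D : ℝ) ^ (-(1 / 8 - ε)) := by
        simp only [ht4]; rw [← hDr, if_pos hDK']
      have hmin0 : 0 ≤ min 1 (X / (D : ℝ)) := by positivity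
      have hb := hblock D H c (A * (D : ℝ) ^ (-(3 / 4) + ε) * min 1 (X / D)) s hD1 (by positivity) (by
        intro k hk
        rw [Finset.mem_Ico] at hk
        have h1 := hpw k hk.1
        have hk0 : (0 : ℝ) < k := by exact_mod_cast (by omega : 0 < k)
        rcases le_or_gt k K with hkK | hkK
        · refine (hc1 k (by omega) hkK).trans ?_
          have hkX : (k : ℝ) ≤ X := le_trans (by exact_mod_cast hkK) hKX
          have hDX : (D : ℝ) ≤ X := le_trans (by exact_mod_cast hk.1) hkX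
          have h2 : √((k : ℝ) / X) ≤ 1 := by
            rw [Real.sqrt_le_one]
            exact (div_le_one hX0).mpr hkX
          have h3 : min 1 (X / (D : ℝ)) = 1 := min_eq_left ((one_le_div hDp).mpr hDX)
          rw [h3]
          gcongr
        · refine (hc2 k hkK).trans ?_
          have h2 : min 1 (X / (k : ℝ)) ≤ min 1 (X / (D : ℝ)) := by
            refine min_le_min le_rfl ?_
            apply div_le_div_of_nonneg_left hX0.le hDp
            exact_mod_cast hk.1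
          gcongr)
      refine hb.trans ?_
      have h4 : C0 * (A * (D : ℝ) ^ (-(3 / 4) + ε) * min 1 (X / D)) * (√H * (D : ℝ) ^ (5 / 8 : ℝ) + D)
          = C0 * A * (√H * t4 j * min 1 (X / D) + (D : ℝ) ^ (1 / 4 + ε) * min 1 (X / D)) := by
        rw [e4]
        have h5 : (D : ℝ) ^ (-(1 / 8 - ε)) = (D : ℝ) ^ (-(3 / 4) + ε) * (D : ℝ) ^ (5 / 8 : ℝ) := by
          rw [hadd]; congr 1; ring
        have h6 : (D : ℝ) ^ (1 / 4 + ε) = (D : ℝ) ^ (-(3 / 4) + ε) * (D : ℝ) ^ (1 : ℝ) := by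
          rw [hadd]; congr 1; ring
        rw [h5, h6, Real.rpow_one]
        ring
      rw [h4]
      refine mul_le_mul_of_nonneg_left ?_ (by positivity)
      have i1 := ht10 j
      have i2 := ht20 j
      have i4 := ht40 j
      have g1 : 0 ≤ √2 * X ^ (-(1 / 2) : ℝ) * (√H * t1 j + t2 j) := by positivity
      have g2 : √H * t4 j * min 1 (X / (D : ℝ)) ≤ √H * t4 j :=
        mul_le_of_le_one_right (by positivity) (min_le_left _ _)
      have g3 : (D : ℝ) ^ (1 / 4 + ε) * min 1 (X / (D : ℝ)) ≤ t3 j + X * t5 j := by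
        rcases le_or_gt (D : ℝ) X with hDX | hDX
        · have e3 : t3 j = (D : ℝ) ^ (1 / 4 + ε) := by
            simp only [ht3]; rw [← hDr, if_pos hDX]
          rw [e3]
          have i5 := ht50 j
          have : 0 ≤ X * t5 j := by positivity
          have g4 : (D : ℝ) ^ (1 / 4 + ε) * min 1 (X / (D : ℝ)) ≤ (D : ℝ) ^ (1 / 4 + ε) :=
            mul_le_of_le_one_right (by positivity) (min_le_left _ _)
          linarith
        · have e5 : t5 j = (D : ℝ) ^ (-(3 / 4 - ε)) := by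
            simp only [ht5]; rw [← hDr, if_pos (by linarith)]
          have i3 := ht30 j
          have g4 : (D : ℝ) ^ (1 / 4 + ε) * min 1 (X / (D : ℝ)) ≤ X * t5 j := by
            calc (D : ℝ) ^ (1 / 4 + ε) * min 1 (X / (D : ℝ)) ≤ (D : ℝ) ^ (1 / 4 + ε) * (X / D) := by
                  gcongr; exact min_le_right _ _
              _ = X * t5 j := by
                  rw [e5]
                  have : (D : ℝ) ^ (-(3 / 4 - ε)) = (D : ℝ) ^ (1 / 4 + ε) * (D : ℝ) ^ (-1 : ℝ) := by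
                    rw [hadd]; congr 1; ring
                  rw [this, Real.rpow_neg_one]
                  ring
          linarith
      linarith
  have hsplit : (fun n : ℕ => ∑ k ∈ Finset.Ico 1 (2 ^ J), c k * ee ((s + α * n) * √k))
      = fun n : ℕ => ∑ j ∈ Finset.range J,
        ∑ k ∈ Finset.Ico (2 ^ j) (2 * 2 ^ j), c k * ee ((s + α * n) * √k) := by
    funext n
    exact dyadic_split _ J
  rw [hsplit]
  refine (N2_sum_le H (Finset.range J) _).trans ((Finset.sum_le_sum hblk).trans ?_)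
  have s1 : ∑ j ∈ Finset.range J, t1 j ≤ C1 * (K : ℝ) ^ (3 / 8 + ε) := by
    rw [← Finset.sum_filter]; exact hup1 J K hKp
  have s2 : ∑ j ∈ Finset.range J, t2 j ≤ C2 * (K : ℝ) ^ (3 / 4 + ε) := by
    rw [← Finset.sum_filter]; exact hup2 J K hKp
  have s3 : ∑ j ∈ Finset.range J, t3 j ≤ C3 * X ^ (1 / 4 + ε) := by
    rw [← Finset.sum_filter]; exact hup3 J X hX0
  have s4 : ∑ j ∈ Finset.range J, t4 j ≤ C4 * (K : ℝ) ^ (-(1 / 8 - ε)) := by
    rw [← Finset.sum_filter]; exact hdn1 J K hK0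
  have s5 : ∑ j ∈ Finset.range J, t5 j ≤ C5 * X ^ (-(3 / 4 - ε)) := by
    rw [← Finset.sum_filter]; exact hdn2 J X hX1
  have hKX1 : X ^ (-(1 / 2) : ℝ) * (K : ℝ) ^ (3 / 8 + ε) ≤ (K : ℝ) ^ (-(1 / 8) + ε) := by
    have : X ^ (-(1 / 2) : ℝ) ≤ (K : ℝ) ^ (-(1 / 2) : ℝ) :=
      Real.rpow_le_rpow_of_nonpos hKp hKX (by norm_num)
    calc X ^ (-(1 / 2) : ℝ) * (K : ℝ) ^ (3 / 8 + ε) ≤ (K : ℝ) ^ (-(1 / 2) : ℝ) * (K : ℝ) ^ (3 / 8 + ε) := by
          gcongr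
      _ = (K : ℝ) ^ (-(1 / 8) + ε) := by rw [← Real.rpow_add hKp]; congr 1; ring
  have hKX2 : X ^ (-(1 / 2) : ℝ) * (K : ℝ) ^ (3 / 4 + ε) ≤ X ^ (1 / 4 + ε) := by
    have : (K : ℝ) ^ (3 / 4 + ε) ≤ X ^ (3 / 4 + ε) := Real.rpow_le_rpow hKp.le hKX (by linarith)
    calc X ^ (-(1 / 2) : ℝ) * (K : ℝ) ^ (3 / 4 + ε) ≤ X ^ (-(1 / 2) : ℝ) * X ^ (3 / 4 + ε) := by
          gcongr
      _ = X ^ (1 / 4 + ε) := by rw [← Real.rpow_add hX0]; congr 1; ring
  have hXX : X * X ^ (-(3 / 4 - ε)) = X ^ (1 / 4 + ε) := by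
    conv_lhs => rw [← Real.rpow_one X]
    rw [Real.rpow_one, ← Real.rpow_one_add' hX0.le (by linarith)]
    congr 1; ring
  have hneg : (K : ℝ) ^ (-(1 / 8 - ε)) = (K : ℝ) ^ (-(1 / 8) + ε) := by congr 1; ring
  rw [← Finset.mul_sum, Finset.sum_add_distrib, Finset.sum_add_distrib, Finset.sum_add_distrib,
    ← Finset.mul_sum, ← Finset.mul_sum, ← Finset.mul_sum, Finset.sum_add_distrib, ← Finset.mul_sum]
  have hre : C0 * (√2 * (C1 + C2) + C4 + C3 + C5) * A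
      * (√H * (K : ℝ) ^ (-(1 / 8) + ε) + X ^ (1 / 4 + ε))
      = C0 * A * ((√2 * (C1 + C2) + C4 + C3 + C5)
      * (√H * (K : ℝ) ^ (-(1 / 8) + ε) + X ^ (1 / 4 + ε))) := by ring
  rw [hre]
  refine mul_le_mul_of_nonneg_left ?_ (by positivity)
  have hsH := Real.sqrt_nonneg (H : ℝ)
  have hX2 : 0 ≤ X ^ (-(1 / 2) : ℝ) := by positivity
  have hs2 := Real.sqrt_nonneg (2 : ℝ)
  have p1 : √2 * X ^ (-(1 / 2) : ℝ) * (√H * ∑ j ∈ Finset.range J, t1 j + ∑ j ∈ Finset.range J, t2 j)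
      ≤ √2 * (C1 + C2) * (√H * (K : ℝ) ^ (-(1 / 8) + ε) + X ^ (1 / 4 + ε)) := by
    calc √2 * X ^ (-(1 / 2) : ℝ) * (√H * ∑ j ∈ Finset.range J, t1 j + ∑ j ∈ Finset.range J, t2 j)
        ≤ √2 * X ^ (-(1 / 2) : ℝ) * (√H * (C1 * (K : ℝ) ^ (3 / 8 + ε)) + C2 * (K : ℝ) ^ (3 / 4 + ε)) := by
          gcongr
      _ = √2 * (C1 * (√H * (X ^ (-(1 / 2) : ℝ) * (K : ℝ) ^ (3 / 8 + ε)))
            + C2 * (X ^ (-(1 / 2) : ℝ) * (K : ℝ) ^ (3 / 4 + ε))) := by ring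
      _ ≤ √2 * (C1 * (√H * (K : ℝ) ^ (-(1 / 8) + ε)) + C2 * X ^ (1 / 4 + ε)) := by gcongr
      _ ≤ √2 * (C1 + C2) * (√H * (K : ℝ) ^ (-(1 / 8) + ε) + X ^ (1 / 4 + ε)) := by
          have : 0 ≤ √2 * (C2 * (√H * (K : ℝ) ^ (-(1 / 8) + ε)) + C1 * X ^ (1 / 4 + ε)) := by positivity
          linarith
  have p2 : √H * ∑ j ∈ Finset.range J, t4 j ≤ C4 * (√H * (K : ℝ) ^ (-(1 / 8) + ε)) := by
    rw [hneg] at s4
    calc √H * ∑ j ∈ Finset.range J, t4 j ≤ √H * (C4 * (K : ℝ) ^ (-(1 / 8) + ε)) := by gcongr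
      _ = _ := by ring
  have p3 : ∑ j ∈ Finset.range J, t3 j + X * ∑ j ∈ Finset.range J, t5 j
      ≤ (C3 + C5) * X ^ (1 / 4 + ε) := by
    calc ∑ j ∈ Finset.range J, t3 j + X * ∑ j ∈ Finset.range J, t5 j
        ≤ C3 * X ^ (1 / 4 + ε) + X * (C5 * X ^ (-(3 / 4 - ε))) := by gcongr
      _ = C3 * X ^ (1 / 4 + ε) + C5 * (X * X ^ (-(3 / 4 - ε))) := by ring
      _ = (C3 + C5) * X ^ (1 / 4 + ε) := by rw [hXX]; ring
  have q1 : 0 ≤ (C4) * X ^ (1 / 4 + ε) := by positivity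
  have q2 : 0 ≤ (C3 + C5) * (√H * (K : ℝ) ^ (-(1 / 8) + ε)) := by positivity
  linarith

end

end Pool.Agent.Helper22.GC
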