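import Mathlib

/-!
# A pointwise bound for the number of representations as a sum of two squares
-/

open Set

namespace Pool.Agent.Helper22.GC

noncomputable section

/-- Gaussian integers of norm `n`. -/
def gS (n : ℕ) : Set GaussianInt := {z | z.norm = n}

lemma gS_finite (n : ℕ) : (gS n).Finite := by
  have h1 : gS n ⊆ (fun p : ℤ × ℤ => (⟨p.1, p.2⟩ : GaussianInt)) ''
      (Set.Icc (-(n : ℤ)) n ×ˢ Set.Icc (-(n : ℤ)) n) := by
    intro z hz
    have hz' : z.norm = n := hz
    rw [Zsqrtd.norm_def] at hz'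
    have h0 : (0 : ℤ) ≤ n := Int.natCast_nonneg n
    refine ⟨(z.re, z.im), ⟨⟨?_, ?_⟩, ⟨?_, ?_⟩⟩, rfl⟩ <;> nlinarith [sq_nonneg z.re, sq_nonneg z.im,
      sq_nonneg (z.re - 1), sq_nonneg (z.re + 1), sq_nonneg (z.im - 1), sq_nonneg (z.im + 1)]
  exact (((Set.finite_Icc _ _).prod (Set.finite_Icc _ _)).image _).subset h1

/-- The number of Gaussian integers of norm `n`. -/
def gr (n : ℕ) : ℕ := (gS n).ncard

lemma gS_mul_subset {m n : ℕ} (hm : 0 < m) (hn : 0 < n) (h : Nat.Coprime m n) :
    gS (m * n) ⊆ Set.image2 (· * ·) (gS m) (gS n) := by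
  intro z hz
  have hz' : z.norm = ((m * n : ℕ) : ℤ) := hz
  have hdvd : z ∣ (m : GaussianInt) * (n : GaussianInt) := by
    refine ⟨star z, ?_⟩
    have := Zsqrtd.norm_eq_mul_conj z
    rw [← this, hz']
    push_cast
    rfl
  obtain ⟨u, v, hu, hv, huv⟩ := exists_dvd_and_dvd_of_dvd_mul hdvd
  have hmul : u.norm * v.norm = m * n := by
    rw [← Zsqrtd.norm_mul, ← huv, hz']
    push_cast
    rfl
  have hun : 0 ≤ u.norm := GaussianInt.norm_nonneg u
  have hvn : 0 ≤ v.norm := GaussianInt.norm_nonneg v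
  obtain ⟨a, ha⟩ := Int.eq_ofNat_of_zero_le hun
  obtain ⟨b, hb⟩ := Int.eq_ofNat_of_zero_le hvn
  have hab : a * b = m * n := by
    rw [ha, hb] at hmul
    exact_mod_cast hmul
  have ham : a ∣ m ^ 2 := by
    obtain ⟨c, hc⟩ := hu
    have h1 : ((m : GaussianInt)).norm = (m : ℤ) ^ 2 := by
      rw [Zsqrtd.norm_natCast]; ring
    rw [hc, Zsqrtd.norm_mul, ha] at h1
    have : (a : ℤ) ∣ (m : ℤ) ^ 2 := ⟨c.norm, h1.symm⟩
    exact_mod_cast this
  have hbn : b ∣ n ^ 2 := by
    obtain ⟨c, hc⟩ := hv
    have h1 : ((n : GaussianInt)).norm = (n : ℤ) ^ 2 := by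
      rw [Zsqrtd.norm_natCast]; ring
    rw [hc, Zsqrtd.norm_mul, hb] at h1
    have : (b : ℤ) ∣ (n : ℤ) ^ 2 := ⟨c.norm, h1.symm⟩
    exact_mod_cast this
  have ha1 : a ∣ m := by
    have hc : Nat.Coprime a n := (Nat.Coprime.pow_left 2 h).coprime_dvd_left ham
    exact hc.dvd_of_dvd_mul_right (Dvd.intro _ hab)
  have hb1 : b ∣ n := by
    have hc : Nat.Coprime b m := (Nat.Coprime.pow_left 2 h.symm).coprime_dvd_left hbn
    exact hc.dvd_of_dvd_mul_left (Dvd.intro_left _ hab)
  have ha2 : a ≤ m := Nat.le_of_dvd hm ha1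
  have hb2 : b ≤ n := Nat.le_of_dvd hn hb1
  have ha3 : a = m := by
    by_contra hne
    have : a < m := lt_of_le_of_ne ha2 hne
    have h1 : a * b < m * n := by
      calc a * b ≤ a * n := Nat.mul_le_mul_left _ hb2
        _ < m * n := Nat.mul_lt_mul_of_pos_right this hn
    omega
  have hb3 : b = n := by
    rw [ha3] at hab
    exact Nat.eq_of_mul_eq_mul_left hm hab
  refine ⟨u, ?_, v, ?_, huv.symm⟩
  · show u.norm = m
    rw [ha, ha3]
  · show v.norm = n
    rw [hb, hb3]

lemma gr_mul_le {m n : ℕ} (hm : 0 < m) (hn : 0 < n) (h : Nat.Coprime m n) :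
    gr (m * n) ≤ gr m * gr n := by
  classical
  have h1 : gr (m * n) ≤ (Set.image2 (· * ·) (gS m) (gS n)).ncard :=
    Set.ncard_le_ncard (gS_mul_subset hm hn h) ((gS_finite m).image2 _ (gS_finite n))
  refine h1.trans ?_
  rw [← Set.image_uncurry_prod]
  refine (Set.ncard_image_le ((gS_finite m).prod (gS_finite n))).trans ?_
  rw [Set.ncard_prod]
  rfl

lemma isUnit_mem_gS {u : GaussianInt} (hu : IsUnit u) : u ∈ gS 1 := by
  have := (Zsqrtd.norm_eq_one_iff' (by norm_num) u).mpr hu
  show u.norm = ((1 : ℕ) : ℤ)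
  rw [this]; rfl

lemma gr_prime_pow_le {p : ℕ} (hp : p.Prime) (e : ℕ) : gr (p ^ e) ≤ (e + 1) * gr 1 := by
  classical
  -- it suffices to parametrise up to units
  have key : ∃ g : ℕ → GaussianInt, ∀ z ∈ gS (p ^ e), ∃ a ∈ Finset.range (e + 1),
      z ∈ (fun u => u * g a) '' gS 1 := by
    have hdvd : ∀ z ∈ gS (p ^ e), z ∣ (p : GaussianInt) ^ e := by
      intro z hz
      have hz' : z.norm = ((p ^ e : ℕ) : ℤ) := hz
      refine ⟨star z, ?_⟩
      have := Zsqrtd.norm_eq_mul_conj z
      rw [← this, hz']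
      push_cast
      rfl
    by_cases hpr : Prime (p : GaussianInt)
    · refine ⟨fun a => (p : GaussianInt) ^ a, fun z hz => ?_⟩
      obtain ⟨i, hi, hass⟩ := (dvd_prime_pow hpr e).mp (hdvd z hz)
      obtain ⟨u, hu⟩ := hass.symm
      refine ⟨i, Finset.mem_range.mpr (by omega), (u : GaussianInt), isUnit_mem_gS u.isUnit, ?_⟩
      show (u : GaussianInt) * (p : GaussianInt) ^ i = z
      rw [mul_comm]
      exact hu
    · have hirr : ¬ Irreducible (p : GaussianInt) := fun h => hpr h.prime
      have hnu : ¬ IsUnit (p : GaussianInt) := by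
        intro hu
        have h1 := isUnit_mem_gS hu
        have h2 : ((p : GaussianInt)).norm = 1 := h1
        rw [Zsqrtd.norm_natCast] at h2
        have : p * p = 1 := by exact_mod_cast h2
        nlinarith [hp.two_le]
      rw [irreducible_iff] at hirr
      push Not at hirr
      obtain ⟨x, y, hxy, hx, hy⟩ := hirr hnu
      have hnorm : x.norm * y.norm = (p : ℤ) ^ 2 := by
        rw [← Zsqrtd.norm_mul, ← hxy, Zsqrtd.norm_natCast]; ring
      obtain ⟨a, ha⟩ := Int.eq_ofNat_of_zero_le (GaussianInt.norm_nonneg x)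
      obtain ⟨b, hb⟩ := Int.eq_ofNat_of_zero_le (GaussianInt.norm_nonneg y)
      have hab : a * b = p ^ 2 := by
        rw [ha, hb] at hnorm
        exact_mod_cast hnorm
      have ha1 : a ≠ 1 := by
        intro h
        apply hx
        rw [← Zsqrtd.norm_eq_one_iff' (by norm_num), ha, h]
        rfl
      have hb1 : b ≠ 1 := by
        intro h
        apply hy
        rw [← Zsqrtd.norm_eq_one_iff' (by norm_num), hb, h]
        rfl
      have hap : a = p ∧ b = p := by
        have := (Nat.Prime.mul_eq_prime_sq_iff hp ha1 hb1).mp hab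
        exact this
      have hprime : ∀ w : GaussianInt, w.norm = p → Prime w := by
        intro w hw
        refine Irreducible.prime ⟨?_, ?_⟩
        · intro hu
          have h2 : w.norm = 1 := isUnit_mem_gS hu
          rw [hw] at h2
          have : p = 1 := by exact_mod_cast h2
          exact hp.one_lt.ne' this
        · intro s t hst
          have h3 : s.norm * t.norm = p := by rw [← Zsqrtd.norm_mul, ← hst, hw]
          obtain ⟨c, hc⟩ := Int.eq_ofNat_of_zero_le (GaussianInt.norm_nonneg s)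
          obtain ⟨d, hd⟩ := Int.eq_ofNat_of_zero_le (GaussianInt.norm_nonneg t)
          have hcd : c * d = p := by
            rw [hc, hd] at h3
            exact_mod_cast h3
          rcases (Nat.dvd_prime hp).mp (Dvd.intro _ hcd) with h | h
          · left
            rw [← Zsqrtd.norm_eq_one_iff' (by norm_num), hc, h]; rfl
          · right
            have : d = 1 := by
              rw [h] at hcd
              exact Nat.eq_of_mul_eq_mul_left hp.pos (by rw [hcd, mul_one])
            rw [← Zsqrtd.norm_eq_one_iff' (by norm_num), hd, this]; rfl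
      have hxp : x.norm = p := by rw [ha, hap.1]
      have hyp : y.norm = p := by rw [hb, hap.2]
      refine ⟨fun a => x ^ a * y ^ (e - a), fun z hz => ?_⟩
      have hd := hdvd z hz
      rw [hxy, mul_pow] at hd
      obtain ⟨s, t, hs, ht, hst⟩ := exists_dvd_and_dvd_of_dvd_mul hd
      obtain ⟨i, hi, hsi⟩ := (dvd_prime_pow (hprime x hxp) e).mp hs
      obtain ⟨j, hj, htj⟩ := (dvd_prime_pow (hprime y hyp) e).mp ht
      obtain ⟨u, hu⟩ := hsi.symm
      obtain ⟨w, hw⟩ := htj.symm
      have hz' : z.norm = ((p ^ e : ℕ) : ℤ) := hz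
      have hu1 : (u : GaussianInt).norm = 1 := isUnit_mem_gS u.isUnit
      have hw1 : (w : GaussianInt).norm = 1 := isUnit_mem_gS w.isUnit
      have hpowx : (x ^ i).norm = (p : ℤ) ^ i := by
        have : (x ^ i).norm = x.norm ^ i := map_pow (Zsqrtd.normMonoidHom) x i
        rw [this, hxp]
      have hpowy : (y ^ j).norm = (p : ℤ) ^ j := by
        have : (y ^ j).norm = y.norm ^ j := map_pow (Zsqrtd.normMonoidHom) y j
        rw [this, hyp]
      have hij : i + j = e := by
        rw [hst, ← hu, ← hw, Zsqrtd.norm_mul, Zsqrtd.norm_mul, Zsqrtd.norm_mul, hu1, hw1,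
          hpowx, hpowy, mul_one, mul_one, ← pow_add] at hz'
        have h5 : p ^ (i + j) = p ^ e := by exact_mod_cast hz'
        exact Nat.pow_right_injective hp.two_le h5
      refine ⟨i, Finset.mem_range.mpr (by omega), (u : GaussianInt) * w,
        isUnit_mem_gS (u.isUnit.mul w.isUnit), ?_⟩
      have hj' : e - i = j := by omega
      show (u : GaussianInt) * w * (x ^ i * y ^ (e - i)) = z
      rw [hj', hst, ← hu, ← hw]
      ring
  obtain ⟨g, hg⟩ := key
  have hsub : gS (p ^ e) ⊆ ⋃ a ∈ Finset.range (e + 1), (fun u => u * g a) '' gS 1 := by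
    intro z hz
    obtain ⟨a, ha, hza⟩ := hg z hz
    simp only [Set.mem_iUnion]
    exact ⟨a, ha, hza⟩
  have hfin : (⋃ a ∈ Finset.range (e + 1), (fun u => u * g a) '' gS 1).Finite :=
    (Finset.range (e + 1)).finite_toSet.biUnion fun a _ => (gS_finite 1).image _
  refine (Set.ncard_le_ncard hsub hfin).trans ?_
  refine (Finset.set_ncard_biUnion_le _ _).trans ?_
  refine (Finset.sum_le_card_nsmul _ _ (gr 1) fun a _ => Set.ncard_image_le (gS_finite 1)).trans ?_
  simp

/-- A submultiplicative function with linear growth on prime powers is `O(n ^ ε)`. -/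
lemma submul_bound {f : ℕ → ℝ} (hf0 : ∀ n, 0 ≤ f n) {B : ℝ} (hB : 1 ≤ B)
    (hmul : ∀ m n : ℕ, 0 < m → 0 < n → Nat.Coprime m n → f (m * n) ≤ f m * f n)
    (hpow : ∀ p e : ℕ, p.Prime → f (p ^ e) ≤ B * (e + 1)) {ε : ℝ} (hε : 0 < ε) :
    ∃ C : ℝ, 0 < C ∧ ∀ n : ℕ, 0 < n → f n ≤ C * (n : ℝ) ^ ε := by
  -- constant for all prime powers
  obtain ⟨D, hD1, hD⟩ : ∃ D : ℝ, 1 ≤ D ∧ ∀ e : ℕ, B * (e + 1) ≤ D * (2 : ℝ) ^ (ε * e) := by
    have hl : 0 < ε * Real.log 2 := mul_pos hε (Real.log_pos (by norm_num))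
    refine ⟨B * (1 / (ε * Real.log 2) + 1), ?_, fun e => ?_⟩
    · have : 0 < 1 / (ε * Real.log 2) := by positivity
      nlinarith
    · have h1 : (2 : ℝ) ^ (ε * e) = Real.exp (ε * Real.log 2 * e) := by
        rw [Real.rpow_def_of_pos (by norm_num)]
        congr 1; ring
      have h2 := Real.add_one_le_exp (ε * Real.log 2 * e)
      have h3 : (1 : ℝ) ≤ Real.exp (ε * Real.log 2 * e) := Real.one_le_exp (by positivity)
      have h4 : (e : ℝ) ≤ 1 / (ε * Real.log 2) * Real.exp (ε * Real.log 2 * e) := by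
        rw [one_div, inv_mul_eq_div, le_div_iff₀ hl]
        nlinarith
      rw [h1, mul_assoc]
      refine mul_le_mul_of_nonneg_left ?_ (by linarith)
      rw [add_mul, one_mul]
      linarith
  -- for large primes no constant is needed
  obtain ⟨P, hP⟩ : ∃ P : ℕ, ∀ p : ℕ, P ≤ p → 2 * B ≤ (p : ℝ) ^ ε := by
    have := (tendsto_rpow_atTop hε).comp (tendsto_natCast_atTop_atTop (R := ℝ))
    obtain ⟨P, hP⟩ := Filter.eventually_atTop.mp (this.eventually_ge_atTop (2 * B))
    exact ⟨P, hP⟩
  have hlin : ∀ e : ℕ, B * ((e + 1 : ℕ) + 1) ≤ (2 * B) ^ (e + 1) := by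
    intro e
    induction e with
    | zero => simp; linarith
    | succ e ih =>
      rw [pow_succ]
      push_cast at ih ⊢
      have h0 : (0 : ℝ) ≤ e := Nat.cast_nonneg e
      have h6 : (e : ℝ) + 1 + 1 + 1 ≤ (e + 1 + 1) * (2 * B) := by nlinarith
      have h5 : B * (e + 1 + 1 + 1) ≤ B * (e + 1 + 1) * (2 * B) := by
        rw [mul_assoc]
        exact mul_le_mul_of_nonneg_left h6 (by linarith)
      refine h5.trans ?_
      exact mul_le_mul_of_nonneg_right ih (by linarith)
  have claim : ∀ n : ℕ, 1 < n → f n ≤ (n : ℝ) ^ ε * D ^ (n.primeFactors.filter (· < P)).card := by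
    intro n
    induction n using Nat.recOnPosPrimePosCoprime with
    | prime_pow p e hp he =>
      intro _
      have hpf : (p ^ e).primeFactors = {p} := Nat.primeFactors_prime_pow he.ne' hp
      rw [hpf]
      have hcast : ((p ^ e : ℕ) : ℝ) ^ ε = ((p : ℝ) ^ ε) ^ e := by
        push_cast
        rw [← Real.rpow_natCast, ← Real.rpow_natCast, ← Real.rpow_mul (by positivity),
          ← Real.rpow_mul (by positivity), mul_comm]
      by_cases hpP : p < P
      · have : ({p} : Finset ℕ).filter (· < P) = {p} := by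
          ext q; simp; rintro rfl; exact hpP
        rw [this, Finset.card_singleton, pow_one]
        refine (hpow p e hp).trans ((hD e).trans ?_)
        rw [mul_comm]
        refine mul_le_mul_of_nonneg_right ?_ (by linarith)
        rw [hcast, Real.rpow_mul (by norm_num), Real.rpow_natCast]
        refine pow_le_pow_left₀ (by positivity) ?_ e
        exact Real.rpow_le_rpow (by norm_num) (by exact_mod_cast hp.two_le) hε.le
      · have : ({p} : Finset ℕ).filter (· < P) = ∅ := by
          ext q; simp; rintro rfl; omega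
        rw [this, Finset.card_empty, pow_zero, mul_one, hcast]
        obtain ⟨e', rfl⟩ : ∃ e', e = e' + 1 := ⟨e - 1, by omega⟩
        refine (hpow p (e' + 1) hp).trans ((hlin e').trans ?_)
        exact pow_le_pow_left₀ (by linarith) (hP p (by omega)) _
    | zero => intro h; exact absurd h (by norm_num)
    | one => intro h; exact absurd h (lt_irrefl 1)
    | coprime a b ha hb hab iha ihb =>
      intro _
      have ha0 : 0 < a := by omega
      have hb0 : 0 < b := by omega
      refine (hmul a b ha0 hb0 hab).trans ?_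
      have hpf : (a * b).primeFactors = a.primeFactors ∪ b.primeFactors :=
        Nat.Coprime.primeFactors_mul hab
      rw [hpf, Finset.filter_union, Finset.card_union_of_disjoint
        (Finset.disjoint_filter_filter (Nat.Coprime.disjoint_primeFactors hab)), pow_add]
      push_cast
      rw [Real.mul_rpow (by positivity) (by positivity)]
      calc f a * f b ≤ ((a : ℝ) ^ ε * D ^ (a.primeFactors.filter (· < P)).card) *
            ((b : ℝ) ^ ε * D ^ (b.primeFactors.filter (· < P)).card) :=
            mul_le_mul (iha ha) (ihb hb) (hf0 b) (by positivity)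
        _ = _ := by ring
  have hf1 := hf0 1
  have hDP : 0 < D ^ P := by positivity
  refine ⟨D ^ P + f 1, by positivity, fun n hn => ?_⟩
  rcases Nat.lt_or_ge 1 n with hn1 | hn1
  swap
  · have : n = 1 := by omega
    subst this
    rw [Nat.cast_one, Real.one_rpow, mul_one]
    linarith
  refine (claim n hn1).trans ?_
  rw [mul_comm]
  refine mul_le_mul_of_nonneg_right ?_ (by positivity)
  refine le_trans ?_ (le_add_of_nonneg_right hf1)
  refine pow_le_pow_right₀ hD1 ?_
  calc (n.primeFactors.filter (· < P)).card ≤ (Finset.range P).card := by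
        refine Finset.card_le_card fun q hq => ?_
        rw [Finset.mem_filter] at hq
        exact Finset.mem_range.mpr hq.2
    _ = P := Finset.card_range P

lemma gr_one_pos : 1 ≤ gr 1 := by
  have h : (1 : GaussianInt) ∈ gS 1 := isUnit_mem_gS isUnit_one
  exact Nat.one_le_iff_ne_zero.mpr (Set.ncard_ne_zero_of_mem h (gS_finite 1))

theorem gr_le {ε : ℝ} (hε : 0 < ε) :
    ∃ C : ℝ, 0 < C ∧ ∀ n : ℕ, 0 < n → (gr n : ℝ) ≤ C * (n : ℝ) ^ ε := by
  refine submul_bound (f := fun n => (gr n : ℝ)) (fun n => Nat.cast_nonneg _) (B := gr 1)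
    (by exact_mod_cast gr_one_pos) ?_ ?_ hε
  · intro m n hm hn h
    exact_mod_cast gr_mul_le hm hn h
  · intro p e hp
    rw [mul_comm]
    exact_mod_cast gr_prime_pow_le hp e

end

end Pool.Agent.Helper22.GC
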