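import Mathlib
import Pool.Agent.Helper22.GC.Contour
import Pool.Agent.Helper22.GC.Rep
import Pool.Agent.Helper22.GC.Dyadic

/-!
# The smoothed Hardy formula
-/

open MeasureTheory Set Filter
open scoped Real ComplexConjugate Topology

namespace Pool.Agent.Helper22.GC

noncomputable section

/-- Lattice vectors of squared length `K`. -/
def rep2 (K : ℕ) : Finset (Fin 2 → ℤ) := (box K).filter (fun k => k 0 ^ 2 + k 1 ^ 2 = (K : ℤ))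

lemma mem_box_of_sq {k : Fin 2 → ℤ} {K T : ℕ} (h : k 0 ^ 2 + k 1 ^ 2 = (K : ℤ)) (hKT : K ≤ T) :
    k ∈ box T := by
  rw [mem_box]
  have hT : (K : ℤ) ≤ T := by exact_mod_cast hKT
  have key : ∀ i, k i ^ 2 ≤ (K : ℤ) := by
    intro i
    fin_cases i
    · simp; nlinarith [sq_nonneg (k 1)]
    · simp; nlinarith [sq_nonneg (k 0)]
  intro i
  have h1 := key i
  constructor <;> nlinarith [sq_nonneg (k i - 1), sq_nonneg (k i + 1), sq_nonneg (k i)]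

lemma mem_rep2 {k : Fin 2 → ℤ} {K : ℕ} : k ∈ rep2 K ↔ k 0 ^ 2 + k 1 ^ 2 = (K : ℤ) := by
  rw [rep2, Finset.mem_filter]
  exact ⟨fun h => h.2, fun h => ⟨mem_box_of_sq h le_rfl, h⟩⟩

lemma card_rep2 (K : ℕ) : (rep2 K).card = gr K := by
  rw [gr, ← Set.ncard_coe_finset]
  let e : (Fin 2 → ℤ) → GaussianInt := fun k => ⟨k 0, k 1⟩
  have he : Function.Injective e := by
    intro k l h
    have h0 : k 0 = l 0 := congrArg Zsqrtd.re h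
    have h1 : k 1 = l 1 := congrArg Zsqrtd.im h
    funext i
    fin_cases i
    · exact h0
    · exact h1
  have himg : e '' (rep2 K : Set (Fin 2 → ℤ)) = gS K := by
    ext z
    constructor
    · rintro ⟨k, hk, rfl⟩
      have := mem_rep2.mp (Finset.mem_coe.mp hk)
      show (e k).norm = K
      rw [Zsqrtd.norm_def]
      simp only [e]
      linarith
    · intro hz
      have hz' : z.norm = K := hz
      rw [Zsqrtd.norm_def] at hz'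
      refine ⟨![z.re, z.im], Finset.mem_coe.mpr (mem_rep2.mpr ?_), ?_⟩
      · simp
        linarith
      · ext <;> simp [e]
  rw [← himg, Set.ncard_image_of_injective _ he]

lemma kn_of_mem {k : Fin 2 → ℤ} {K : ℕ} (h : k ∈ rep2 K) : kn k = √K := by
  rw [kn]
  congr 1
  exact_mod_cast mem_rep2.mp h

/-- The disc in frequency space without the origin. -/
def dk (T : ℕ) : Finset (Fin 2 → ℤ) := (Finset.Icc 1 T).biUnion rep2

lemma mem_dk {T : ℕ} {k : Fin 2 → ℤ} :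
    k ∈ dk T ↔ 1 ≤ k 0 ^ 2 + k 1 ^ 2 ∧ k 0 ^ 2 + k 1 ^ 2 ≤ (T : ℤ) := by
  rw [dk, Finset.mem_biUnion]
  constructor
  · rintro ⟨K, hK, hk⟩
    rw [Finset.mem_Icc] at hK
    rw [mem_rep2] at hk
    rw [hk]
    exact ⟨by exact_mod_cast hK.1, by exact_mod_cast hK.2⟩
  · rintro ⟨h1, h2⟩
    obtain ⟨K, hK⟩ := Int.eq_ofNat_of_zero_le (show 0 ≤ k 0 ^ 2 + k 1 ^ 2 by linarith)
    refine ⟨K, ?_, mem_rep2.mpr hK⟩
    rw [hK] at h1 h2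
    rw [Finset.mem_Icc]
    exact ⟨by exact_mod_cast h1, by exact_mod_cast h2⟩

lemma sum_dk {M : Type*} [AddCommMonoid M] (f : (Fin 2 → ℤ) → M) (T : ℕ) :
    ∑ k ∈ dk T, f k = ∑ K ∈ Finset.Icc 1 T, ∑ k ∈ rep2 K, f k := by
  rw [dk, Finset.sum_biUnion]
  intro K _ L _ hKL
  rw [Function.onFun, Finset.disjoint_left]
  intro k hk hl
  apply hKL
  rw [mem_rep2] at hk hl
  rw [hk] at hl
  exact_mod_cast hl

lemma tendsto_dk : Tendsto (fun T : ℕ => insert 0 (dk T)) atTop atTop := by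
  classical
  refine tendsto_atTop_finset_of_monotone ?_ ?_
  · intro S T hST
    refine Finset.insert_subset_insert _ fun k hk => ?_
    rw [mem_dk] at hk ⊢
    exact ⟨hk.1, hk.2.trans (by exact_mod_cast hST)⟩
  · intro k
    obtain ⟨K, hK⟩ := Int.eq_ofNat_of_zero_le (show 0 ≤ k 0 ^ 2 + k 1 ^ 2 by positivity)
    refine ⟨K, ?_⟩
    rw [Finset.mem_insert, mem_dk]
    by_cases hk : k = 0
    · exact Or.inl hk
    · right
      rw [hK]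
      refine ⟨?_, le_rfl⟩
      have h0 := kn_pos hk
      have h1 := kn_sq k
      have h2 : (0 : ℝ) < (k 0 : ℝ) ^ 2 + (k 1 : ℝ) ^ 2 := by rw [← h1]; positivity
      have h3 : 0 < k 0 ^ 2 + k 1 ^ 2 := by exact_mod_cast h2
      rw [hK] at h3
      exact h3

lemma zero_notMem_dk (T : ℕ) : (0 : Fin 2 → ℤ) ∉ dk T := by
  rw [mem_dk]
  simp

/-- Truncated smoothed remainder. -/
def PT (δ : ℝ) (T : ℕ) (R : ℝ) : ℂ := ∑ k ∈ dk T, ((wt δ (k 0) * wt δ (k 1) : ℝ) : ℂ) * D R k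

lemma tendsto_PT {δ R : ℝ} (hδ : 0 < δ) (hδ' : δ ≤ 1 / 2) (hR : 0 < R) :
    Tendsto (fun T => PT δ T R) atTop (𝓝 ((Sm δ R - π * R ^ 2 : ℝ) : ℂ)) := by
  have h := (smooth_hasSum hδ hδ' R).comp tendsto_dk
  have h1 : ∀ T, (∑ k ∈ insert 0 (dk T), ((wt δ (k 0) * wt δ (k 1) : ℝ) : ℂ) * D R k)
      = (π * R ^ 2 : ℝ) + PT δ T R := by
    intro T
    rw [Finset.sum_insert (zero_notMem_dk T), D_zero hR]
    simp [wt, PT]
  have h2 : Tendsto (fun T => ((π * R ^ 2 : ℝ) : ℂ) + PT δ T R) atTop (𝓝 ((Sm δ R : ℝ) : ℂ)) := by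
    refine h.congr fun T => ?_
    exact h1 T
  have h3 := h2.sub_const (((π * R ^ 2 : ℝ) : ℂ))
  have h4 : ((Sm δ R : ℝ) : ℂ) - ((π * R ^ 2 : ℝ) : ℂ) = ((Sm δ R - π * R ^ 2 : ℝ) : ℂ) := by
    push_cast; rfl
  rw [h4] at h3
  refine h3.congr fun T => ?_
  ring

/-- The smoothed representation weight. -/
def aw (δ : ℝ) (K : ℕ) : ℝ := ∑ k ∈ rep2 K, wt δ (k 0) * wt δ (k 1)

/-- The truncated Hardy sum. -/
def V (δ : ℝ) (T : ℕ) (R : ℝ) : ℂ :=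
  ∑ K ∈ Finset.Icc 1 T, ((aw δ K * (K : ℝ) ^ (-(3 / 4) : ℝ) : ℝ) : ℂ) * ee (R * √K)

lemma D_asymp {R : ℝ} (hR : 0 < R) {K : ℕ} (hK : 1 ≤ K) {k : Fin 2 → ℤ} (hk : k ∈ rep2 K) :
    ‖D R k - ((√R * (4 * (g0 * (((K : ℝ) ^ (-(3 / 4) : ℝ) : ℝ) : ℂ) * ee (R * √K)).re) : ℝ) : ℂ)‖
      ≤ 4 / √R * (K : ℝ) ^ (-(5 / 4) : ℝ) := by
  have hK0 : (0 : ℝ) < K := by exact_mod_cast hK
  have hsK : 0 < √(K : ℝ) := Real.sqrt_pos.mpr hK0
  have hk0 : k ≠ 0 := by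
    rintro rfl
    rw [mem_rep2] at hk
    simp at hk
    omega
  set z : ℝ := R * √K with hz
  have hz0 : 0 < z := by positivity
  have h1 : D R k = ((4 * R ^ 2 * (ee z * G z).re : ℝ) : ℂ) := by
    rw [D_eq hR hk0, kn_of_mem hk, J_eq hz0, Complex.add_conj]
    rw [ee]
    push_cast
    ring
  have h32 : R ^ 2 * z ^ (-(3 / 2) : ℝ) = √R * (K : ℝ) ^ (-(3 / 4) : ℝ) := by
    rw [hz, Real.mul_rpow hR.le hsK.le, Real.sqrt_eq_rpow, Real.sqrt_eq_rpow,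
      ← Real.rpow_mul hK0.le, ← Real.rpow_natCast R 2, ← mul_assoc, ← Real.rpow_add hR]
    norm_num
  have h52 : R ^ 2 * z ^ (-(5 / 2) : ℝ) = 1 / √R * (K : ℝ) ^ (-(5 / 4) : ℝ) := by
    have e0 : 1 / √R = R ^ (-(1 / 2) : ℝ) := by
      rw [Real.sqrt_eq_rpow, Real.rpow_neg hR.le, one_div (R ^ (1 / 2 : ℝ))]
    rw [e0, hz, Real.mul_rpow hR.le hsK.le, Real.sqrt_eq_rpow (K : ℝ),
      ← Real.rpow_mul hK0.le, ← Real.rpow_natCast R 2, ← mul_assoc, ← Real.rpow_add hR]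
    norm_num
  have h2 : (√R * (4 * (g0 * (((K : ℝ) ^ (-(3 / 4) : ℝ) : ℝ) : ℂ) * ee z).re) : ℝ)
      = 4 * R ^ 2 * (ee z * (g0 * (z ^ (-(3 / 2) : ℝ) : ℝ))).re := by
    have e1 : (g0 * (((K : ℝ) ^ (-(3 / 4) : ℝ) : ℝ) : ℂ) * ee z).re
        = (K : ℝ) ^ (-(3 / 4) : ℝ) * (ee z * g0).re := by
      have : g0 * (((K : ℝ) ^ (-(3 / 4) : ℝ) : ℝ) : ℂ) * ee z
          = (((K : ℝ) ^ (-(3 / 4) : ℝ) : ℝ) : ℂ) * (ee z * g0) := by ring
      rw [this, Complex.re_ofReal_mul]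
    have e2 : (ee z * (g0 * (z ^ (-(3 / 2) : ℝ) : ℝ))).re = z ^ (-(3 / 2) : ℝ) * (ee z * g0).re := by
      have : ee z * (g0 * (z ^ (-(3 / 2) : ℝ) : ℝ))
          = ((z ^ (-(3 / 2) : ℝ) : ℝ) : ℂ) * (ee z * g0) := by ring
      rw [this, Complex.re_ofReal_mul]
    rw [e1, e2]
    linear_combination (-4 * (ee z * g0).re) * h32
  rw [h1, h2, ← Complex.ofReal_sub, Complex.norm_real]
  have h3 : 4 * R ^ 2 * (ee z * G z).re - 4 * R ^ 2 * (ee z * (g0 * (z ^ (-(3 / 2) : ℝ) : ℝ))).re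
      = 4 * R ^ 2 * (ee z * (G z - g0 * (z ^ (-(3 / 2) : ℝ) : ℝ))).re := by
    rw [mul_sub (ee z), Complex.sub_re]
    ring
  rw [h3, Real.norm_eq_abs, abs_mul, abs_of_nonneg (by positivity)]
  have h4 : |(ee z * (G z - g0 * (z ^ (-(3 / 2) : ℝ) : ℝ))).re| ≤ z ^ (-(5 / 2) : ℝ) := by
    refine (Complex.abs_re_le_norm _).trans ?_
    rw [norm_mul, norm_ee, one_mul]
    exact G_asymp hz0
  calc 4 * R ^ 2 * |(ee z * (G z - g0 * (z ^ (-(3 / 2) : ℝ) : ℝ))).re|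
      ≤ 4 * R ^ 2 * z ^ (-(5 / 2) : ℝ) := by gcongr
    _ = 4 * (R ^ 2 * z ^ (-(5 / 2) : ℝ)) := by ring
    _ = 4 / √R * (K : ℝ) ^ (-(5 / 4) : ℝ) := by rw [h52]; ring

lemma aw_nonneg (δ : ℝ) (K : ℕ) : 0 ≤ aw δ K :=
  Finset.sum_nonneg fun k _ => mul_nonneg (wt_nonneg _ _) (wt_nonneg _ _)

lemma ww_le_one (δ : ℝ) (k : Fin 2 → ℤ) : wt δ (k 0) * wt δ (k 1) ≤ 1 :=
  mul_le_one₀ (wt_le_one _ _) (wt_nonneg _ _) (wt_le_one _ _)

lemma aw_le (δ : ℝ) (K : ℕ) : aw δ K ≤ gr K := by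
  rw [aw, ← card_rep2]
  refine (Finset.sum_le_card_nsmul _ _ 1 fun v _ => ww_le_one δ v).trans ?_
  simp

/-- The truncated smoothed remainder against the truncated Hardy sum. -/
theorem PT_approx : ∃ C : ℝ, 0 < C ∧ ∀ (δ : ℝ) (T : ℕ) (R : ℝ), 0 < R →
    ‖PT δ T R - ((√R * (4 * (g0 * V δ T R).re) : ℝ) : ℂ)‖ ≤ C / √R := by
  obtain ⟨C1, hC1, hgr⟩ := gr_le (ε := 1 / 8) (by norm_num)
  have hsum : Summable (fun K : ℕ => C1 * (K : ℝ) ^ (-(9 / 8) : ℝ)) :=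
    (Real.summable_nat_rpow.mpr (by norm_num)).mul_left C1
  refine ⟨4 * (∑' K : ℕ, C1 * (K : ℝ) ^ (-(9 / 8) : ℝ) + 1), ?_, ?_⟩
  · have : 0 ≤ ∑' K : ℕ, C1 * (K : ℝ) ^ (-(9 / 8) : ℝ) := tsum_nonneg fun K => by positivity
    positivity
  intro δ T R hR
  have hsR : 0 < √R := Real.sqrt_pos.mpr hR
  have h1 : ((√R * (4 * (g0 * V δ T R).re) : ℝ) : ℂ) = ∑ K ∈ Finset.Icc 1 T, ∑ k ∈ rep2 K,
      ((wt δ (k 0) * wt δ (k 1) : ℝ) : ℂ) *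
      ((√R * (4 * (g0 * (((K : ℝ) ^ (-(3 / 4) : ℝ) : ℝ) : ℂ) * ee (R * √K)).re) : ℝ) : ℂ) := by
    have e1 : (g0 * V δ T R).re = ∑ K ∈ Finset.Icc 1 T, aw δ K *
        (g0 * (((K : ℝ) ^ (-(3 / 4) : ℝ) : ℝ) : ℂ) * ee (R * √K)).re := by
      rw [V, Finset.mul_sum, Complex.re_sum]
      refine Finset.sum_congr rfl fun K _ => ?_
      rw [← Complex.re_ofReal_mul]
      congr 1
      push_cast
      ring
    rw [e1]
    simp only [aw, Finset.sum_mul, Finset.mul_sum]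
    push_cast
    refine Finset.sum_congr rfl fun K _ => Finset.sum_congr rfl fun k _ => ?_
    ring
  rw [PT, sum_dk, h1, ← Finset.sum_sub_distrib]
  refine (norm_sum_le _ _).trans ?_
  have h2 : ∀ K ∈ Finset.Icc 1 T, ‖∑ k ∈ rep2 K, ((wt δ (k 0) * wt δ (k 1) : ℝ) : ℂ) * D R k -
      ∑ k ∈ rep2 K, ((wt δ (k 0) * wt δ (k 1) : ℝ) : ℂ) *
      ((√R * (4 * (g0 * (((K : ℝ) ^ (-(3 / 4) : ℝ) : ℝ) : ℂ) * ee (R * √K)).re) : ℝ) : ℂ)‖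
      ≤ 4 / √R * (C1 * (K : ℝ) ^ (-(9 / 8) : ℝ)) := by
    intro K hK
    rw [Finset.mem_Icc] at hK
    have hK0 : (0 : ℝ) < K := by exact_mod_cast hK.1
    rw [← Finset.sum_sub_distrib]
    refine (norm_sum_le _ _).trans ?_
    refine (Finset.sum_le_card_nsmul _ _ (4 / √R * (K : ℝ) ^ (-(5 / 4) : ℝ)) fun k hk => ?_).trans ?_
    · rw [← mul_sub, norm_mul, Complex.norm_real, Real.norm_of_nonneg
        (mul_nonneg (wt_nonneg _ _) (wt_nonneg _ _))]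
      calc wt δ (k 0) * wt δ (k 1) * _ ≤ 1 * _ :=
            mul_le_mul_of_nonneg_right (ww_le_one δ k) (norm_nonneg _)
        _ ≤ _ := by rw [one_mul]; exact D_asymp hR hK.1 hk
    · rw [card_rep2, nsmul_eq_mul]
      have h3 := hgr K hK.1
      calc (gr K : ℝ) * (4 / √R * (K : ℝ) ^ (-(5 / 4) : ℝ))
          ≤ (C1 * (K : ℝ) ^ (1 / 8 : ℝ)) * (4 / √R * (K : ℝ) ^ (-(5 / 4) : ℝ)) := by gcongr
        _ = 4 / √R * (C1 * ((K : ℝ) ^ (1 / 8 : ℝ) * (K : ℝ) ^ (-(5 / 4) : ℝ))) := by ring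
        _ = _ := by rw [← Real.rpow_add hK0]; norm_num
  refine (Finset.sum_le_sum h2).trans ?_
  rw [← Finset.mul_sum]
  have h3 : ∑ K ∈ Finset.Icc 1 T, C1 * (K : ℝ) ^ (-(9 / 8) : ℝ)
      ≤ ∑' K : ℕ, C1 * (K : ℝ) ^ (-(9 / 8) : ℝ) :=
    hsum.sum_le_tsum _ fun K _ => by positivity
  calc 4 / √R * ∑ K ∈ Finset.Icc 1 T, C1 * (K : ℝ) ^ (-(9 / 8) : ℝ)
      ≤ 4 / √R * (∑' K : ℕ, C1 * (K : ℝ) ^ (-(9 / 8) : ℝ) + 1) := by
        gcongr; linarith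
    _ = _ := by ring

end

end Pool.Agent.Helper22.GC
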