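import Mathlib
import Pool.Agent.Helper22.GC.Hardy

/-!
# Mean-square approximation of the circle error along arithmetic progressions
-/

open MeasureTheory Set Filter
open scoped Real ComplexConjugate Topology

namespace Pool.Agent.Helper22.GC

noncomputable section

lemma one_sub_wt_le {δ : ℝ} (hδ : 0 < δ) (m : ℤ) : 1 - wt δ m ≤ π * δ * |(m : ℝ)| := by
  by_cases hm : m = 0
  · simp [wt, hm]
  · have hm' : (0 : ℝ) < |(m : ℝ)| := abs_pos.mpr (by exact_mod_cast hm)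
    set x : ℝ := π * δ * |(m : ℝ)| with hx
    have hx0 : 0 < x := by have := Real.pi_pos; positivity
    have hw : wt δ m = (Real.sin x / x) ^ 2 := by
      rw [wt, if_neg hm, hx]
      rcases abs_cases (m : ℝ) with ⟨h, _⟩ | ⟨h, _⟩
      · rw [h]
      · rw [h]
        have : π * δ * -(m : ℝ) = -(π * δ * m) := by ring
        rw [this, Real.sin_neg, neg_div_neg_eq]
    rcases le_or_gt 1 x with h1 | h1
    · have := wt_nonneg δ m
      linarith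
    · have h2 := Real.sin_gt_sub_cube hx0
      have h3 : 1 - x ^ 2 / 4 ≤ Real.sin x / x := by
        rw [le_div_iff₀ hx0]
        nlinarith
      have h4 : 0 ≤ 1 - x ^ 2 / 4 := by nlinarith
      have h5 := pow_le_pow_left₀ h4 h3 2
      rw [hw]
      nlinarith

lemma ww_lower {δ : ℝ} (hδ : 0 < δ) {K : ℕ} {k : Fin 2 → ℤ} (hk : k ∈ rep2 K) :
    1 - wt δ (k 0) * wt δ (k 1) ≤ 2 * π * δ * √K := by
  have h : (k 0 : ℝ) ^ 2 + (k 1 : ℝ) ^ 2 = K := by exact_mod_cast mem_rep2.mp hk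
  have h0 : |(k 0 : ℝ)| ≤ √K := by
    rw [← Real.sqrt_sq_eq_abs]
    exact Real.sqrt_le_sqrt (by nlinarith [sq_nonneg (k 1 : ℝ)])
  have h1 : |(k 1 : ℝ)| ≤ √K := by
    rw [← Real.sqrt_sq_eq_abs]
    exact Real.sqrt_le_sqrt (by nlinarith [sq_nonneg (k 0 : ℝ)])
  have e0 := one_sub_wt_le hδ (k 0)
  have e1 := one_sub_wt_le hδ (k 1)
  have hpd : 0 < π * δ := mul_pos Real.pi_pos hδ
  have f0 : π * δ * |(k 0 : ℝ)| ≤ π * δ * √K := mul_le_mul_of_nonneg_left h0 hpd.le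
  have f1 : π * δ * |(k 1 : ℝ)| ≤ π * δ * √K := mul_le_mul_of_nonneg_left h1 hpd.le
  have g0 := wt_nonneg δ (k 0)
  have g1 := wt_le_one δ (k 0)
  have g2 := wt_le_one δ (k 1)
  have g3 := wt_nonneg δ (k 1)
  nlinarith

lemma ww_upper {δ : ℝ} (hδ : 0 < δ) {K : ℕ} (hK : 1 ≤ K) {k : Fin 2 → ℤ} (hk : k ∈ rep2 K) :
    wt δ (k 0) * wt δ (k 1) ≤ 1 / δ ^ 2 / K := by
  have h : (k 0 : ℝ) ^ 2 + (k 1 : ℝ) ^ 2 = K := by exact_mod_cast mem_rep2.mp hk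
  have hK0 : (0 : ℝ) < K := by exact_mod_cast hK
  have key : ∀ m : ℤ, (K : ℝ) ≤ 2 * (m : ℝ) ^ 2 → wt δ m ≤ 1 / δ ^ 2 / K := by
    intro m hm
    have hm0 : m ≠ 0 := by
      rintro rfl
      simp at hm
      linarith
    refine (wt_le hm0).trans ?_
    rw [div_div]
    apply one_div_le_one_div_of_le (by positivity)
    have hpi : 3 ^ 2 ≤ π ^ 2 := pow_le_pow_left₀ (by norm_num) Real.pi_gt_three.le 2
    have h1 : (π * δ * m) ^ 2 = π ^ 2 * (δ ^ 2 * (m : ℝ) ^ 2) := by ring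
    rw [h1]
    have h2 : δ ^ 2 * K ≤ 2 * (δ ^ 2 * (m : ℝ) ^ 2) := by
      have := mul_le_mul_of_nonneg_left hm (sq_nonneg δ)
      linarith
    have h3 : 0 ≤ δ ^ 2 * (m : ℝ) ^ 2 := by positivity
    nlinarith
  rcases le_total ((k 0 : ℝ) ^ 2) ((k 1 : ℝ) ^ 2) with h1 | h1
  · have := key (k 1) (by linarith)
    calc wt δ (k 0) * wt δ (k 1) ≤ 1 * wt δ (k 1) :=
          mul_le_mul_of_nonneg_right (wt_le_one _ _) (wt_nonneg _ _)
      _ ≤ _ := by linarith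
  · have := key (k 0) (by linarith)
    calc wt δ (k 0) * wt δ (k 1) ≤ wt δ (k 0) * 1 :=
          mul_le_mul_of_nonneg_left (wt_le_one _ _) (wt_nonneg _ _)
      _ ≤ _ := by linarith

lemma aw_lower {δ : ℝ} (hδ : 0 < δ) (K : ℕ) : (gr K : ℝ) - aw δ K ≤ gr K * (2 * π * δ * √K) := by
  rw [← card_rep2, aw]
  have h1 : ((rep2 K).card : ℝ) = ∑ k ∈ rep2 K, (1 : ℝ) := by simp
  rw [h1, ← Finset.sum_sub_distrib]
  refine (Finset.sum_le_card_nsmul _ _ (2 * π * δ * √K) fun v hv => ww_lower hδ hv).trans ?_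
  simp

lemma aw_upper {δ : ℝ} (hδ : 0 < δ) {K : ℕ} (hK : 1 ≤ K) : aw δ K ≤ gr K * (1 / δ ^ 2 / K) := by
  rw [← card_rep2, aw]
  refine (Finset.sum_le_card_nsmul _ _ (1 / δ ^ 2 / K) fun v hv => ww_upper hδ hK hv).trans ?_
  simp

lemma norm_ee_sub_one_le (t : ℝ) : ‖ee t - 1‖ ≤ 2 * π * |t| := by
  have h := Real.norm_exp_I_mul_ofReal_sub_one_le (x := 2 * π * t)
  have h1 : Complex.exp (Complex.I * ((2 * π * t : ℝ) : ℂ)) = ee t := by
    rw [ee]; congr 1; push_cast; ring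
  rw [h1, Real.norm_eq_abs, abs_mul, abs_of_pos (by positivity : (0 : ℝ) < 2 * π)] at h
  exact h

/-- The coefficients of the comparison sum. -/
def cc (δ σ : ℝ) (K k : ℕ) : ℂ :=
  ((aw δ k * (k : ℝ) ^ (-(3 / 4) : ℝ) : ℝ) : ℂ) * ee (2 * σ * δ * √k)
    - if k ≤ K then ((gr k * (k : ℝ) ^ (-(3 / 4) : ℝ) : ℝ) : ℂ) else 0

lemma norm_cc_le {ε : ℝ} (hε : 0 < ε) : ∃ A : ℝ, 0 < A ∧ ∀ (δ σ : ℝ) (K k : ℕ), 0 < δ →
    |σ| ≤ 1 → 1 ≤ k →
    (k ≤ K → ‖cc δ σ K k‖ ≤ A * (k : ℝ) ^ (-(3 / 4) + ε) * √(k / (1 / δ ^ 2))) ∧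
    (K < k → ‖cc δ σ K k‖ ≤ A * (k : ℝ) ^ (-(3 / 4) + ε) * min 1 (1 / δ ^ 2 / k)) := by
  obtain ⟨C, hC, hgr⟩ := gr_le hε
  refine ⟨C * (6 * π), by positivity, ?_⟩
  intro δ σ K k hδ hσ hk
  have hk0 : (0 : ℝ) < k := by exact_mod_cast hk
  have hpw : (k : ℝ) ^ (-(3 / 4) + ε) = (k : ℝ) ^ (-(3 / 4) : ℝ) * (k : ℝ) ^ ε :=
    Real.rpow_add hk0 _ _
  have hg := hgr k hk
  have hk34 : 0 < (k : ℝ) ^ (-(3 / 4) : ℝ) := by positivity
  have hsk := Real.sqrt_nonneg (k : ℝ)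
  have haw0 := aw_nonneg δ k
  have haw1 := aw_le δ k
  constructor
  · intro hkK
    have hsq : √((k : ℝ) / (1 / δ ^ 2)) = δ * √k := by
      rw [div_div_eq_mul_div, div_one, Real.sqrt_mul hk0.le, Real.sqrt_sq hδ.le, mul_comm]
    rw [hsq, cc, if_pos hkK]
    have h1 : ((aw δ k * (k : ℝ) ^ (-(3 / 4) : ℝ) : ℝ) : ℂ) * ee (2 * σ * δ * √k)
        - ((gr k * (k : ℝ) ^ (-(3 / 4) : ℝ) : ℝ) : ℂ)
        = (((k : ℝ) ^ (-(3 / 4) : ℝ) : ℝ) : ℂ) * ((aw δ k : ℂ) * (ee (2 * σ * δ * √k) - 1)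
          - (((gr k : ℝ) - aw δ k : ℝ) : ℂ)) := by
      push_cast
      ring
    rw [h1, norm_mul, Complex.norm_real, Real.norm_of_nonneg hk34.le]
    have h2 : ‖(aw δ k : ℂ) * (ee (2 * σ * δ * √k) - 1) - (((gr k : ℝ) - aw δ k : ℝ) : ℂ)‖
        ≤ gr k * (6 * π * (δ * √k)) := by
      refine (norm_sub_le _ _).trans ?_
      rw [norm_mul, Complex.norm_real, Complex.norm_real, Real.norm_of_nonneg haw0,
        Real.norm_of_nonneg (by linarith : 0 ≤ (gr k : ℝ) - aw δ k)]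
      have h3 := norm_ee_sub_one_le (2 * σ * δ * √k)
      have h4 : |2 * σ * δ * √(k : ℝ)| ≤ 2 * (δ * √k) := by
        rw [abs_mul, abs_mul, abs_mul, abs_of_pos hδ, abs_of_nonneg hsk]
        norm_num
        have : |σ| * (δ * √k) ≤ 1 * (δ * √k) := mul_le_mul_of_nonneg_right hσ (by positivity)
        nlinarith
      have h5 : ‖ee (2 * σ * δ * √k) - 1‖ ≤ 4 * π * (δ * √k) := by
        refine h3.trans ?_
        calc 2 * π * |2 * σ * δ * √(k : ℝ)| ≤ 2 * π * (2 * (δ * √k)) := by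
              have := Real.pi_pos
              gcongr
          _ = _ := by ring
      have h6 := aw_lower hδ k
      have h7 : aw δ k * ‖ee (2 * σ * δ * √k) - 1‖ ≤ gr k * (4 * π * (δ * √k)) :=
        mul_le_mul haw1 h5 (norm_nonneg _) (Nat.cast_nonneg _)
      linarith
    rw [hpw]
    calc (k : ℝ) ^ (-(3 / 4) : ℝ) * ‖(aw δ k : ℂ) * (ee (2 * σ * δ * √k) - 1)
          - (((gr k : ℝ) - aw δ k : ℝ) : ℂ)‖
        ≤ (k : ℝ) ^ (-(3 / 4) : ℝ) * ((C * (k : ℝ) ^ ε) * (6 * π * (δ * √k))) := by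
          refine mul_le_mul_of_nonneg_left (h2.trans ?_) hk34.le
          exact mul_le_mul_of_nonneg_right hg (by have := Real.pi_pos; positivity)
      _ = _ := by ring
  · intro hkK
    rw [cc, if_neg (by omega), sub_zero, norm_mul, norm_ee, mul_one, Complex.norm_real,
      Real.norm_of_nonneg (by positivity), hpw]
    have h1 : aw δ k ≤ gr k * min 1 (1 / δ ^ 2 / k) := by
      rcases le_total 1 (1 / δ ^ 2 / (k : ℝ)) with h | h
      · rw [min_eq_left h, mul_one]; exact haw1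
      · rw [min_eq_right h]; exact aw_upper hδ hk
    have hmin : 0 ≤ min 1 (1 / δ ^ 2 / (k : ℝ)) := by positivity
    have hpi : 1 ≤ 6 * π := by linarith [Real.pi_gt_three]
    calc aw δ k * (k : ℝ) ^ (-(3 / 4) : ℝ)
        ≤ (C * (k : ℝ) ^ ε * min 1 (1 / δ ^ 2 / k)) * (k : ℝ) ^ (-(3 / 4) : ℝ) := by
          refine mul_le_mul_of_nonneg_right (h1.trans ?_) hk34.le
          exact mul_le_mul_of_nonneg_right hg hmin
      _ = C * 1 * ((k : ℝ) ^ (-(3 / 4) : ℝ) * (k : ℝ) ^ ε) * min 1 (1 / δ ^ 2 / k) := by ring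
      _ ≤ C * (6 * π) * ((k : ℝ) ^ (-(3 / 4) : ℝ) * (k : ℝ) ^ ε) * min 1 (1 / δ ^ 2 / k) := by
          gcongr

/-- The normalised smoothed error. -/
def Qs (δ R : ℝ) : ℝ := (Sm δ R - π * R ^ 2) / √R

/-- The error term of the circle problem. -/
def Pe (R : ℝ) : ℝ := (F R : ℝ) - π * R ^ 2

/-- The partial sum of Hardy's series with sharp cut-off. -/
def TK (K : ℕ) (R : ℝ) : ℝ :=
  4 * (g0 * ∑ k ∈ Finset.Icc 1 K, ((gr k * (k : ℝ) ^ (-(3 / 4) : ℝ) : ℝ) : ℂ) * ee (R * √k)).re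

lemma norm_g0 : ‖g0‖ = 1 / (4 * π) := by
  rw [g0, norm_div, Complex.norm_real, Real.norm_of_nonneg (by positivity)]
  have h1 : ‖(-1 - Complex.I : ℂ)‖ = √2 := by
    rw [Complex.norm_def, Complex.normSq_apply]
    congr 1
    simp
    norm_num
  rw [h1]
  have : √2 ≠ 0 := by positivity
  field_simp

lemma abs_four_re_le (z : ℂ) : |4 * (g0 * z).re| ≤ ‖z‖ := by
  rw [abs_mul, abs_of_nonneg (by norm_num : (0 : ℝ) ≤ 4)]
  have h1 := Complex.abs_re_le_norm (g0 * z)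
  rw [norm_mul, norm_g0] at h1
  have h2 : 4 * (1 / (4 * π) * ‖z‖) ≤ ‖z‖ := by
    have : 4 * (1 / (4 * π) * ‖z‖) = 1 / π * ‖z‖ := by field_simp
    rw [this]
    have : 1 / π ≤ 1 := by
      rw [div_le_one Real.pi_pos]; linarith [Real.pi_gt_three]
    exact mul_le_of_le_one_left (norm_nonneg _) this
  linarith

lemma sandwich_up {R δ S P : ℝ} (hR : 2 ≤ R) (hδ : 0 < δ) (hδ' : δ ≤ 1 / 2)
    (h : P + π * R ^ 2 ≤ S) :
    P / √R ≤ √(R + 2 * δ) / √R * ((S - π * (R + 2 * δ) ^ 2) / √(R + 2 * δ)) + 26 * δ * √R := by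
  have hR0 : 0 < R := by linarith
  have hsR : 0 < √R := Real.sqrt_pos.mpr hR0
  have hsR1 : 1 ≤ √R := by rw [Real.one_le_sqrt]; linarith
  have hsa : 0 < √(R + 2 * δ) := Real.sqrt_pos.mpr (by linarith)
  have e1 : √(R + 2 * δ) / √R * ((S - π * (R + 2 * δ) ^ 2) / √(R + 2 * δ))
      = (S - π * (R + 2 * δ) ^ 2) / √R := by field_simp
  rw [e1]
  have h1 : P ≤ (S - π * (R + 2 * δ) ^ 2) + π * (4 * δ * R + 4 * δ ^ 2) := by linarith
  have h2 : P / √R ≤ ((S - π * (R + 2 * δ) ^ 2) + π * (4 * δ * R + 4 * δ ^ 2)) / √R :=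
    div_le_div_of_nonneg_right h1 hsR.le
  refine h2.trans ?_
  have h3 : ((S - π * (R + 2 * δ) ^ 2) + π * (4 * δ * R + 4 * δ ^ 2)) / √R
      = (S - π * (R + 2 * δ) ^ 2) / √R + 4 * π * δ * (R / √R) + 4 * π * δ * (δ / √R) := by
    ring
  have h4 : R / √R = √R := Real.div_sqrt
  rw [h3, h4]
  have hδR : δ / √R ≤ √R := by
    rw [div_le_iff₀ hsR]
    nlinarith
  have hpi4 : 4 * π ≤ 13 := by linarith [Real.pi_lt_d2]
  have hpi := Real.pi_pos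
  have h5 : 4 * π * δ * √R ≤ 13 * δ * √R := by gcongr
  have h6 : 4 * π * δ * (δ / √R) ≤ 13 * δ * √R := by gcongr
  linarith

lemma sandwich_lo {R δ S P : ℝ} (hR : 2 ≤ R) (hδ : 0 < δ) (hδ' : δ ≤ 1 / 2)
    (h : S ≤ P + π * R ^ 2) :
    √(R - 2 * δ) / √R * ((S - π * (R - 2 * δ) ^ 2) / √(R - 2 * δ)) - 26 * δ * √R ≤ P / √R := by
  have hR0 : 0 < R := by linarith
  have hsR : 0 < √R := Real.sqrt_pos.mpr hR0
  have hsa : 0 < √(R - 2 * δ) := Real.sqrt_pos.mpr (by linarith)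
  have e1 : √(R - 2 * δ) / √R * ((S - π * (R - 2 * δ) ^ 2) / √(R - 2 * δ))
      = (S - π * (R - 2 * δ) ^ 2) / √R := by field_simp
  rw [e1]
  have h0 : 0 ≤ π * (4 * δ ^ 2) := by have := Real.pi_pos; positivity
  have h1 : (S - π * (R - 2 * δ) ^ 2) - π * (4 * δ * R) ≤ P := by linarith
  have h2 : ((S - π * (R - 2 * δ) ^ 2) - π * (4 * δ * R)) / √R ≤ P / √R :=
    div_le_div_of_nonneg_right h1 hsR.le
  refine le_trans ?_ h2
  have h3 : ((S - π * (R - 2 * δ) ^ 2) - π * (4 * δ * R)) / √R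
      = (S - π * (R - 2 * δ) ^ 2) / √R - 4 * π * δ * (R / √R) := by
    ring
  have h4 : R / √R = √R := Real.div_sqrt
  rw [h3, h4]
  have hpi4 : 4 * π ≤ 26 := by linarith [Real.pi_lt_d2]
  have hpi := Real.pi_pos
  have h5 : 4 * π * δ * √R ≤ 26 * δ * √R := by gcongr
  linarith

lemma comb_up {a Q T d e p : ℝ} (ha3 : 1 ≤ a) (ha2 : a ≤ 2) (ha4 : a - 1 ≤ d)
    (h : p ≤ a * Q + e) : p - T ≤ 2 * |Q - T| + d * |T| + e := by
  have e1 : a * Q - T = a * (Q - T) + (a - 1) * T := by ring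
  have i1 : a * (Q - T) ≤ 2 * |Q - T| := by
    have h1 : a * (Q - T) ≤ a * |Q - T| := mul_le_mul_of_nonneg_left (le_abs_self _) (by linarith)
    have h2 : a * |Q - T| ≤ 2 * |Q - T| := mul_le_mul_of_nonneg_right ha2 (abs_nonneg _)
    linarith
  have i2 : (a - 1) * T ≤ d * |T| := by
    have h1 : (a - 1) * T ≤ (a - 1) * |T| := mul_le_mul_of_nonneg_left (le_abs_self _) (by linarith)
    have h2 : (a - 1) * |T| ≤ d * |T| := mul_le_mul_of_nonneg_right ha4 (abs_nonneg _)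
    linarith
  linarith

lemma comb_lo {b Q T d e p : ℝ} (hb0 : 0 ≤ b) (hb3 : b ≤ 1) (hb4 : 1 - b ≤ d)
    (h : b * Q - e ≤ p) : -(2 * |Q - T| + d * |T| + e) ≤ p - T := by
  have e1 : b * Q - T = b * (Q - T) - (1 - b) * T := by ring
  have i1 : -(2 * |Q - T|) ≤ b * (Q - T) := by
    have h1 : b * (-|Q - T|) ≤ b * (Q - T) := mul_le_mul_of_nonneg_left (neg_abs_le _) hb0
    have h2 : b * |Q - T| ≤ 1 * |Q - T| := mul_le_mul_of_nonneg_right hb3 (abs_nonneg _)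
    have h3 := abs_nonneg (Q - T)
    linarith
  have i2 : (1 - b) * T ≤ d * |T| := by
    have h1 : (1 - b) * T ≤ (1 - b) * |T| := mul_le_mul_of_nonneg_left (le_abs_self _) (by linarith)
    have h2 : (1 - b) * |T| ≤ d * |T| := mul_le_mul_of_nonneg_right hb4 (abs_nonneg _)
    linarith
  linarith

/-- From the smoothed error to the error. -/
lemma sandwich {R δ : ℝ} (hR : 2 ≤ R) (hδ : 0 < δ) (hδ' : δ ≤ 1 / 2) (T : ℝ) :
    |Pe R / √R - T| ≤ 2 * (|Qs δ (R + 2 * δ) - T| + |Qs δ (R - 2 * δ) - T|)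
      + 2 * δ / R * |T| + 26 * δ * √R := by
  have hR0 : 0 < R := by linarith
  have hsR : 0 < √R := Real.sqrt_pos.mpr hR0
  have hsR2 : √R ^ 2 = R := Real.sq_sqrt hR0.le
  have ha1 : 0 < R + 2 * δ := by linarith
  have hb1 : 0 < R - 2 * δ := by linarith
  have hsa : 0 < √(R + 2 * δ) := Real.sqrt_pos.mpr ha1
  have hsb : 0 < √(R - 2 * δ) := Real.sqrt_pos.mpr hb1
  have hdR : 0 < 2 * δ / R := by positivity
  have hdR1 : 2 * δ / R ≤ 1 / 2 := by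
    rw [div_le_div_iff₀ hR0 (by norm_num)]; linarith
  have n1 := abs_nonneg (Qs δ (R + 2 * δ) - T)
  have n2 := abs_nonneg (Qs δ (R - 2 * δ) - T)
  rw [abs_le]
  constructor
  · have hb0 : 0 < √(R - 2 * δ) / √R := by positivity
    have hb2 : (√(R - 2 * δ) / √R) ^ 2 = 1 - 2 * δ / R := by
      rw [div_pow, Real.sq_sqrt hb1.le, hsR2]; field_simp
    have hb3 : √(R - 2 * δ) / √R ≤ 1 := by nlinarith
    have hb4 : 1 - √(R - 2 * δ) / √R ≤ 2 * δ / R := by nlinarith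
    have hlo := Sm_le_F (R := R) (δ := δ) (by linarith) hδ hδ'
    have h1 := sandwich_lo (P := Pe R) hR hδ hδ' (S := Sm δ (R - 2 * δ)) (by rw [Pe]; linarith)
    have h2 := comb_lo (T := T) hb0.le hb3 hb4 h1
    rw [← Qs] at h2
    linarith
  · have ha0 : 0 < √(R + 2 * δ) / √R := by positivity
    have ha2 : (√(R + 2 * δ) / √R) ^ 2 = 1 + 2 * δ / R := by
      rw [div_pow, Real.sq_sqrt ha1.le, hsR2]; field_simp
    have ha3 : 1 ≤ √(R + 2 * δ) / √R := by nlinarith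
    have ha4 : √(R + 2 * δ) / √R - 1 ≤ 2 * δ / R := by nlinarith
    have hup := F_le_Sm (R := R) (δ := δ) hR0.le hδ hδ'
    have h1 := sandwich_up (P := Pe R) hR hδ hδ' (S := Sm δ (R + 2 * δ)) (by rw [Pe]; linarith)
    have h2 := comb_up (T := T) ha3 (by linarith) ha4 h1
    rw [← Qs] at h2
    linarith

lemma V_sub_eq (δ σ : ℝ) {K J : ℕ} (hKJ : K < 2 ^ J) (R : ℝ) :
    V δ (2 ^ J - 1) (R + 2 * σ * δ)
      - ∑ k ∈ Finset.Icc 1 K, ((gr k * (k : ℝ) ^ (-(3 / 4) : ℝ) : ℝ) : ℂ) * ee (R * √k)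
    = ∑ k ∈ Finset.Ico 1 (2 ^ J), cc δ σ K k * ee (R * √k) := by
  have hI : Finset.Icc 1 (2 ^ J - 1) = Finset.Ico 1 (2 ^ J) := by
    ext n
    rw [Finset.mem_Icc, Finset.mem_Ico]
    have : 1 ≤ 2 ^ J := Nat.one_le_two_pow
    omega
  have h1 : ∑ k ∈ Finset.Icc 1 K, ((gr k * (k : ℝ) ^ (-(3 / 4) : ℝ) : ℝ) : ℂ) * ee (R * √k)
      = ∑ k ∈ Finset.Ico 1 (2 ^ J), (if k ≤ K then ((gr k * (k : ℝ) ^ (-(3 / 4) : ℝ) : ℝ) : ℂ) else 0)
        * ee (R * √k) := by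
    simp only [ite_mul, zero_mul]
    rw [← Finset.sum_filter]
    refine Finset.sum_congr ?_ fun _ _ => rfl
    ext n
    rw [Finset.mem_filter, Finset.mem_Icc, Finset.mem_Ico]
    omega
  rw [V, hI, h1, ← Finset.sum_sub_distrib]
  refine Finset.sum_congr rfl fun k _ => ?_
  have h2 : ee ((R + 2 * σ * δ) * √k) = ee (2 * σ * δ * √k) * ee (R * √k) := by
    rw [← ee_add]; congr 1; ring
  rw [cc, h2]
  ring

/-- Mean square comparison of the smoothed error with the sharp partial sums. -/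
theorem Q_bound {α ε : ℝ} (hα : 0 < α) (hε : 0 < ε) (hε' : ε < 1 / 8) :
    ∃ C : ℝ, 0 < C ∧ ∀ (H K : ℕ) (δ s σ r : ℝ), 0 < δ → δ ≤ 1 / 2 → |σ| ≤ 1 → 1 ≤ K →
      (K : ℝ) ≤ 1 / δ ^ 2 → 0 < r → (∀ n < H, r ≤ s + α * n + 2 * σ * δ) →
      N2 H (fun n => ((Qs δ (s + α * n + 2 * σ * δ) - TK K (s + α * n) : ℝ) : ℂ))
        ≤ C * (√H * (K : ℝ) ^ (-(1 / 8) + ε) + (1 / δ ^ 2) ^ (1 / 4 + ε) + √H / r) := by
  obtain ⟨C1, hC1, hdy⟩ := dyadic_N2 hα hε hε'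
  obtain ⟨A, hA, hcc⟩ := norm_cc_le hε
  obtain ⟨C2, hC2, hPT⟩ := PT_approx
  refine ⟨C1 * A + C2, by positivity, ?_⟩
  intro H K δ s σ r hδ hδ' hσ hK hKδ hr hrn
  have hX0 : 0 < 1 / δ ^ 2 := by positivity
  -- the approximants
  set u : ℕ → ℕ → ℂ := fun J n =>
    PT δ (2 ^ J - 1) (s + α * n + 2 * σ * δ) / ((√(s + α * n + 2 * σ * δ) : ℝ) : ℂ)
      - ((TK K (s + α * n) : ℝ) : ℂ) with hu
  have hTt : Tendsto (fun J : ℕ => 2 ^ J - 1) atTop atTop := by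
    refine tendsto_atTop_mono (f := fun J => J) (fun J => ?_) tendsto_id
    have : J < 2 ^ J := Nat.lt_two_pow_self
    omega
  have hlim : ∀ n < H, Tendsto (fun J => u J n) atTop
      (𝓝 ((Qs δ (s + α * n + 2 * σ * δ) - TK K (s + α * n) : ℝ) : ℂ)) := by
    intro n hn
    have hR : 0 < s + α * n + 2 * σ * δ := lt_of_lt_of_le hr (hrn n hn)
    have h1 := (tendsto_PT hδ hδ' hR).comp hTt
    have h2 := (h1.div_const (((√(s + α * n + 2 * σ * δ) : ℝ) : ℂ))).sub_const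
      ((TK K (s + α * n) : ℝ) : ℂ)
    have h3 : ((Sm δ (s + α * n + 2 * σ * δ) - π * (s + α * n + 2 * σ * δ) ^ 2 : ℝ) : ℂ)
        / ((√(s + α * n + 2 * σ * δ) : ℝ) : ℂ) - ((TK K (s + α * n) : ℝ) : ℂ)
        = ((Qs δ (s + α * n + 2 * σ * δ) - TK K (s + α * n) : ℝ) : ℂ) := by
      rw [Qs]; push_cast; rfl
    rw [h3] at h2
    exact h2
  have hN := tendsto_N2 hlim
  refine le_of_tendsto hN ?_
  filter_upwards [eventually_ge_atTop K] with J hJ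
  have hKJ : K < 2 ^ J := lt_of_le_of_lt hJ Nat.lt_two_pow_self
  set v : ℕ → ℂ := fun n => PT δ (2 ^ J - 1) (s + α * n + 2 * σ * δ)
      / ((√(s + α * n + 2 * σ * δ) : ℝ) : ℂ)
      - ((4 * (g0 * V δ (2 ^ J - 1) (s + α * n + 2 * σ * δ)).re : ℝ) : ℂ) with hv
  set w : ℕ → ℂ := fun n => ((4 * (g0 * V δ (2 ^ J - 1) (s + α * n + 2 * σ * δ)).re
      - TK K (s + α * n) : ℝ) : ℂ) with hw
  have huvw : u J = fun n => v n + w n := by
    funext n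
    simp only [hu, hv, hw]
    push_cast
    ring
  rw [huvw]
  refine (N2_add_le H v w).trans ?_
  have hvb : N2 H v ≤ √H * (C2 / r) := by
    refine N2_le_of_bound (by positivity) fun n hn => ?_
    have hR : 0 < s + α * n + 2 * σ * δ := lt_of_lt_of_le hr (hrn n hn)
    have hsR : 0 < √(s + α * n + 2 * σ * δ) := Real.sqrt_pos.mpr hR
    have h1 := hPT δ (2 ^ J - 1) (s + α * n + 2 * σ * δ) hR
    have hsC : (((√(s + α * n + 2 * σ * δ) : ℝ)) : ℂ) ≠ 0 := by exact_mod_cast hsR.ne'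
    have h2 : v n = (PT δ (2 ^ J - 1) (s + α * n + 2 * σ * δ)
        - ((√(s + α * n + 2 * σ * δ) * (4 * (g0 * V δ (2 ^ J - 1) (s + α * n + 2 * σ * δ)).re) : ℝ) : ℂ))
        / ((√(s + α * n + 2 * σ * δ) : ℝ) : ℂ) := by
      simp only [hv]
      push_cast
      field_simp
    rw [h2, norm_div, Complex.norm_real, Real.norm_of_nonneg hsR.le, div_le_iff₀ hsR]
    refine h1.trans ?_
    rw [div_mul_eq_mul_div, div_le_div_iff₀ hsR hr, mul_assoc, ← pow_two, Real.sq_sqrt hR.le]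
    exact mul_le_mul_of_nonneg_left (hrn n hn) hC2.le
  have hwb : N2 H w ≤ C1 * A * (√H * (K : ℝ) ^ (-(1 / 8) + ε) + (1 / δ ^ 2) ^ (1 / 4 + ε)) := by
    refine le_trans (N2_mono (v := fun n => ∑ k ∈ Finset.Ico 1 (2 ^ J),
      cc δ σ K k * ee ((s + α * n) * √k)) fun n _ => ?_) ?_
    · rw [← V_sub_eq δ σ hKJ (s + α * n)]
      simp only [hw]
      rw [TK, ← mul_sub, ← Complex.sub_re, ← mul_sub, Complex.norm_real, Real.norm_eq_abs]
      exact abs_four_re_le _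
    · exact hdy J H K (1 / δ ^ 2) A s (cc δ σ K) hK hKδ hA.le
        (fun k h1 h2 => (hcc δ σ K k hδ hσ h1).1 h2)
        (fun k h1 => (hcc δ σ K k hδ hσ (by omega)).2 h1)
  have h5 : √H * (C2 / r) = C2 * (√H / r) := by ring
  rw [h5] at hvb
  have g1 : 0 ≤ C2 * (√H * (K : ℝ) ^ (-(1 / 8) + ε) + (1 / δ ^ 2) ^ (1 / 4 + ε)) := by positivity
  have g2 : 0 ≤ C1 * A * (√H / r) := by positivity
  linarith

end

end Pool.Agent.Helper22.GC
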