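import Mathlib
import Pool.Agent.Helper22.GC.Approx

/-!
# The mean-square Hardy formula along arithmetic progressions in short segments
-/

open MeasureTheory Set Filter
open scoped Real ComplexConjugate Topology

namespace Pool.Agent.Helper22.GC

noncomputable section

lemma abs_TK_le {ε : ℝ} (hε : 0 < ε) (hε' : ε < 1 / 8) : ∃ A : ℝ, 0 < A ∧ ∀ (K : ℕ) (R : ℝ),
    |TK K R| ≤ A * K := by
  obtain ⟨C, hC, hgr⟩ := gr_le hε
  refine ⟨C, hC, fun K R => ?_⟩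
  rw [TK]
  refine (abs_four_re_le _).trans ((norm_sum_le _ _).trans ?_)
  refine (Finset.sum_le_card_nsmul _ _ C fun k hk => ?_).trans ?_
  · rw [Finset.mem_Icc] at hk
    have hk0 : (0 : ℝ) < k := by exact_mod_cast hk.1
    have hk1 : (1 : ℝ) ≤ k := by exact_mod_cast hk.1
    rw [norm_mul, norm_ee, mul_one, Complex.norm_real, Real.norm_of_nonneg (by positivity)]
    calc (gr k : ℝ) * (k : ℝ) ^ (-(3 / 4) : ℝ) ≤ (C * (k : ℝ) ^ ε) * (k : ℝ) ^ (-(3 / 4) : ℝ) := by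
          have := hgr k hk.1
          gcongr
      _ = C * ((k : ℝ) ^ ε * (k : ℝ) ^ (-(3 / 4) : ℝ)) := by ring
      _ = C * (k : ℝ) ^ (ε + -(3 / 4)) := by rw [← Real.rpow_add hk0]
      _ ≤ C * 1 := by
          refine mul_le_mul_of_nonneg_left ?_ hC.le
          exact Real.rpow_le_one_of_one_le_of_nonpos hk1 (by linarith)
      _ = C := mul_one C
  · rw [Nat.card_Icc, nsmul_eq_mul, mul_comm]
    simp

/-- Assembling the mean square of the error from the two smoothed ones. -/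
lemma N2_sandwich {H : ℕ} {R T : ℕ → ℝ} {δ BQ Bs : ℝ} (hR : ∀ n < H, 2 ≤ R n) (hδ : 0 < δ)
    (hδ' : δ ≤ 1 / 2) (hBs : 0 ≤ Bs)
    (hp : N2 H (fun n => ((Qs δ (R n + 2 * 1 * δ) - T n : ℝ) : ℂ)) ≤ BQ)
    (hm : N2 H (fun n => ((Qs δ (R n + 2 * (-1) * δ) - T n : ℝ) : ℂ)) ≤ BQ)
    (hs : ∀ n < H, 2 * δ / R n * |T n| + 26 * δ * √(R n) ≤ Bs) :
    N2 H (fun n => ((Pe (R n) / √(R n) - T n : ℝ) : ℂ)) ≤ 4 * BQ + √H * Bs := by
  set u : ℕ → ℂ := fun n => ((|Qs δ (R n + 2 * 1 * δ) - T n| : ℝ) : ℂ) with hu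
  set v : ℕ → ℂ := fun n => ((|Qs δ (R n + 2 * (-1) * δ) - T n| : ℝ) : ℂ) with hv
  have hu' : N2 H u ≤ BQ := by
    refine le_trans (N2_mono fun n _ => ?_) hp
    simp only [hu]
    rw [Complex.norm_real, Complex.norm_real, Real.norm_eq_abs, Real.norm_eq_abs, abs_abs]
  have hv' : N2 H v ≤ BQ := by
    refine le_trans (N2_mono fun n _ => ?_) hm
    simp only [hv]
    rw [Complex.norm_real, Complex.norm_real, Real.norm_eq_abs, Real.norm_eq_abs, abs_abs]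
  have h1 : N2 H (fun n => ((Pe (R n) / √(R n) - T n : ℝ) : ℂ))
      ≤ N2 H (fun n => (2 : ℂ) * (u n + v n) + ((Bs : ℝ) : ℂ)) := by
    refine N2_mono fun n hn => ?_
    have e : (2 : ℂ) * (u n + v n) + ((Bs : ℝ) : ℂ) =
        ((2 * (|Qs δ (R n + 2 * 1 * δ) - T n| + |Qs δ (R n + 2 * (-1) * δ) - T n|) + Bs : ℝ) : ℂ) := by
      simp only [hu, hv]; push_cast; ring
    rw [e, Complex.norm_real, Complex.norm_real, Real.norm_eq_abs, Real.norm_of_nonneg (by positivity)]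
    have h2 := sandwich (hR n hn) hδ hδ' (T n)
    have e1 : R n + 2 * 1 * δ = R n + 2 * δ := by ring
    have e2 : R n + 2 * (-1) * δ = R n - 2 * δ := by ring
    rw [e1, e2]
    linarith [hs n hn]
  have h2 := N2_add_le H (fun n => (2 : ℂ) * (u n + v n)) (fun _ => ((Bs : ℝ) : ℂ))
  have h3 := N2_add_le H u v
  rw [N2_const_mul, N2_const, Complex.norm_real, Real.norm_of_nonneg hBs] at h2
  have h4 : ‖(2 : ℂ)‖ = 2 := by simp
  rw [h4] at h2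
  linarith

/-- Properties of the parameter `y = (H M) ^ (1 / 6)`. -/
lemma param_facts {H M y : ℝ} (hH : 1 ≤ H) (hHM : H ≤ M) (hy : y = (H * M) ^ (1 / 6 : ℝ)) :
    1 ≤ y ∧ (H * M) ^ (2 / 3 : ℝ) = y ^ 4 ∧ √H * √M = y ^ 3 ∧ y ^ 2 * √H / M ≤ y ∧ √H ≤ M := by
  have hM : 1 ≤ M := hH.trans hHM
  have hP1 : 1 ≤ H * M := one_le_mul_of_one_le_of_one_le hH hM
  have hP0 : 0 < H * M := by linarith
  have hy1 : 1 ≤ y := hy ▸ Real.one_le_rpow hP1 (by norm_num)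
  have hy4 : (H * M) ^ (2 / 3 : ℝ) = y ^ 4 := by
    rw [hy, ← Real.rpow_natCast, ← Real.rpow_mul hP0.le]; norm_num
  have hy6 : y ^ 6 = H * M := by
    rw [hy, ← Real.rpow_natCast, ← Real.rpow_mul hP0.le]; norm_num
  have hy3 : √H * √M = y ^ 3 := by
    rw [← Real.sqrt_mul (by linarith), ← hy6, show y ^ 6 = (y ^ 3) ^ 2 by ring,
      Real.sqrt_sq (by positivity)]
  have hy3M : y ^ 3 ≤ M := by
    have : (y ^ 3) ^ 2 ≤ M ^ 2 := by
      rw [← pow_mul, hy6]; nlinarith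
    exact le_of_sq_le_sq this (by linarith)
  have hsH : √H ≤ M := by
    have : √H ≤ √(M ^ 2) := Real.sqrt_le_sqrt (by nlinarith)
    rwa [Real.sqrt_sq (by linarith)] at this
  refine ⟨hy1, hy4, hy3, ?_, hsH⟩
  rw [div_le_iff₀ (by linarith)]
  have h5 : y ≤ √M := by
    have : y ^ 2 ≤ √M ^ 2 := by
      rw [Real.sq_sqrt (by linarith)]
      nlinarith
    exact le_of_sq_le_sq this (Real.sqrt_nonneg _)
  have h6 : √H ≤ √M := Real.sqrt_le_sqrt hHM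
  have h7 : √M * √M = M := Real.mul_self_sqrt (by linarith)
  have h8 : y * √H ≤ √M * √M := mul_le_mul h5 h6 (Real.sqrt_nonneg _) (Real.sqrt_nonneg _)
  rw [h7] at h8
  nlinarith

lemma bound_power {P ε : ℝ} (hP : 1 ≤ P) (hε : 0 < ε) (hε' : ε < 1 / 8) :
    (4 * P ^ (2 / 3 : ℝ)) ^ (1 / 4 + ε) ≤ 2 * P ^ (1 / 6 + ε) := by
  have hP0 : 0 < P := by linarith
  rw [Real.mul_rpow (by norm_num) (by positivity), ← Real.rpow_mul hP0.le]
  have h1 : (4 : ℝ) ^ (1 / 4 + ε) ≤ 2 := by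
    calc (4 : ℝ) ^ (1 / 4 + ε) ≤ (4 : ℝ) ^ (1 / 2 : ℝ) :=
          Real.rpow_le_rpow_of_exponent_le (by norm_num) (by linarith)
      _ = 2 := by
          rw [← Real.sqrt_eq_rpow, show (4 : ℝ) = 2 ^ 2 by norm_num, Real.sqrt_sq (by norm_num)]
  have h2 : P ^ (2 / 3 * (1 / 4 + ε)) ≤ P ^ (1 / 6 + ε) :=
    Real.rpow_le_rpow_of_exponent_le hP (by linarith)
  exact mul_le_mul h1 h2 (by positivity) (by norm_num)

lemma small_bound {A α c y H M R T K : ℝ} (hA : 0 < A) (hα : 0 < α) (hc : 0 < c) (hy : 1 ≤ y)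
    (hM : 0 < M) (hRl : α * M / 2 ≤ R) (hRh : R ≤ c * M) (hT : |T| ≤ A * K) (hK : K ≤ y ^ 4)
    (hy3 : √H * √M = y ^ 3) (hy4 : y ^ 2 * √H / M ≤ y) :
    √H * (1 / y ^ 2 / (α * M / 2) * (A * y ^ 4) + 13 / y ^ 2 * (√c * √M))
      ≤ (2 * A / α + 13 * √c) * y ∧
    2 * (1 / (2 * y ^ 2)) / R * |T| + 26 * (1 / (2 * y ^ 2)) * √R
      ≤ 1 / y ^ 2 / (α * M / 2) * (A * y ^ 4) + 13 / y ^ 2 * (√c * √M) := by
  have hy0 : 0 < y := by linarith
  constructor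
  · have h2 : √H * (1 / y ^ 2 / (α * M / 2) * (A * y ^ 4) + 13 / y ^ 2 * (√c * √M))
        = 2 * A / α * (y ^ 2 * √H / M) + 13 * √c * ((√H * √M) / y ^ 2) := by
      field_simp
    have h3 : y ^ 3 / y ^ 2 = y := by field_simp
    rw [h2, hy3, h3]
    have h10 : 2 * A / α * (y ^ 2 * √H / M) ≤ 2 * A / α * y :=
      mul_le_mul_of_nonneg_left hy4 (by positivity)
    linarith
  · have i1 : 2 * (1 / (2 * y ^ 2)) = 1 / y ^ 2 := by field_simp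
    have i2 : 26 * (1 / (2 * y ^ 2)) = 13 / y ^ 2 := by field_simp; norm_num
    rw [i1, i2]
    have hαM : 0 < α * M / 2 := by positivity
    have i3 : |T| ≤ A * y ^ 4 := hT.trans (mul_le_mul_of_nonneg_left hK hA.le)
    have i4 : √R ≤ √c * √M := by
      rw [← Real.sqrt_mul hc.le]
      exact Real.sqrt_le_sqrt hRh
    have i5 : 1 / y ^ 2 / R ≤ 1 / y ^ 2 / (α * M / 2) :=
      div_le_div_of_nonneg_left (by positivity) hαM hRl
    have i6 : 0 ≤ 1 / y ^ 2 / (α * M / 2) := by positivity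
    exact add_le_add (mul_le_mul i5 i3 (abs_nonneg _) i6)
      (mul_le_mul_of_nonneg_left i4 (by positivity))

/-- The mean-square Hardy formula. -/
theorem approx_main (α β : ℝ) {ε : ℝ} (hα : 0 < α) (hε : 0 < ε) (hε' : ε < 1 / 8) :
    ∃ (C : ℝ) (M₀ : ℕ), 0 < C ∧ ∀ (M H K : ℕ), M₀ ≤ M → 1 ≤ H → H ≤ M → 1 ≤ K →
      (K : ℝ) ≤ ((H : ℝ) * M) ^ (2 / 3 : ℝ) →
      (∀ n : ℕ, 2 ≤ α * (M + 1) + β + α * n) ∧
      N2 H (fun n => ((Pe (α * (M + 1) + β + α * n) / √(α * (M + 1) + β + α * n)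
        - TK K (α * (M + 1) + β + α * n) : ℝ) : ℂ))
        ≤ C * (√H * (K : ℝ) ^ (-(1 / 8) + ε) + ((H : ℝ) * M) ^ (1 / 6 + ε)) := by
  obtain ⟨C1, hC1, hQ⟩ := Q_bound hα hε hε'
  obtain ⟨A, hA, hTK⟩ := abs_TK_le hε hε'
  obtain ⟨M₀, hM₀⟩ := exists_nat_ge ((2 * |β| + 6) / α)
  refine ⟨4 * (C1 * (2 + 2 / α)) + (2 * A / α + 13 * √(3 * α + |β|)), M₀ + 1, by positivity, ?_⟩
  intro M H K hM hH hHM hK hKM
  have hMr : (1 : ℝ) ≤ M := by exact_mod_cast (by omega : 1 ≤ M)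
  have hHr : (1 : ℝ) ≤ H := by exact_mod_cast hH
  have hHMr : (H : ℝ) ≤ M := by exact_mod_cast hHM
  have hM0r : (M₀ : ℝ) ≤ M := by exact_mod_cast (by omega : M₀ ≤ M)
  have hM2 : 2 * |β| + 6 ≤ α * M := by
    have : (2 * |β| + 6) / α ≤ M := hM₀.trans hM0r
    rw [div_le_iff₀ hα] at this
    linarith
  have hlow : ∀ n : ℕ, α * M / 2 + 3 ≤ α * (M + 1) + β + α * n := by
    intro n
    have : 0 ≤ α * n := by positivity
    have := neg_abs_le β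
    linarith
  have hhigh : ∀ n : ℕ, n < H → α * (M + 1) + β + α * n ≤ (3 * α + |β|) * M := by
    intro n hn
    have h1 : (n : ℝ) + 1 ≤ M := by
      have : n + 1 ≤ M := by omega
      exact_mod_cast this
    have h2 : α * (n + 1) ≤ α * M := mul_le_mul_of_nonneg_left h1 hα.le
    have h3 : |β| ≤ |β| * M := le_mul_of_one_le_right (abs_nonneg β) hMr
    have h4 := le_abs_self β
    have h5 : 0 ≤ α * M := by positivity
    linarith
  obtain ⟨s, hs⟩ : ∃ s : ℝ, s = α * (M + 1) + β := ⟨_, rfl⟩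
  rw [← hs] at hlow hhigh ⊢
  have hαM : 0 < α * (M : ℝ) := by positivity
  have hR2 : ∀ n : ℕ, 2 ≤ s + α * n := fun n => by linarith [hlow n]
  refine ⟨hR2, ?_⟩
  obtain ⟨y, hy⟩ : ∃ y : ℝ, y = ((H : ℝ) * M) ^ (1 / 6 : ℝ) := ⟨_, rfl⟩
  obtain ⟨hy1, hy4, hy3, hyM, hsH⟩ := param_facts hHr hHMr hy
  have hP1 : 1 ≤ (H : ℝ) * M := one_le_mul_of_one_le_of_one_le hHr hMr
  have hδ0 : 0 < 1 / (2 * y ^ 2) := by positivity
  have hδ1 : 1 / (2 * y ^ 2) ≤ 1 / 2 := by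
    apply one_div_le_one_div_of_le (by norm_num)
    nlinarith
  have hδ2 : 1 / (1 / (2 * y ^ 2)) ^ 2 = 4 * y ^ 4 := by field_simp; norm_num
  have hKy : (K : ℝ) ≤ y ^ 4 := by rw [← hy4]; exact hKM
  have hy40 : 0 < y ^ 4 := by positivity
  have hKδ : (K : ℝ) ≤ 1 / (1 / (2 * y ^ 2)) ^ 2 := by rw [hδ2]; linarith
  have hr0 : 0 < α * (M : ℝ) / 2 := by positivity
  have hQp := hQ H K (1 / (2 * y ^ 2)) s 1 (α * M / 2) hδ0 hδ1 (by norm_num) hK hKδ hr0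
    (fun n _ => by linarith [hlow n])
  have hQm := hQ H K (1 / (2 * y ^ 2)) s (-1) (α * M / 2) hδ0 hδ1 (by norm_num) hK hKδ hr0
    (fun n _ => by linarith [hlow n])
  have hyε : y ≤ ((H : ℝ) * M) ^ (1 / 6 + ε) := by
    rw [hy]; exact Real.rpow_le_rpow_of_exponent_le hP1 (by linarith)
  have hB2 : (1 / (1 / (2 * y ^ 2)) ^ 2) ^ (1 / 4 + ε) ≤ 2 * ((H : ℝ) * M) ^ (1 / 6 + ε) := by
    rw [hδ2, ← hy4]; exact bound_power hP1 hε hε'
  have hB3 : √(H : ℝ) / (α * M / 2) ≤ 2 / α * ((H : ℝ) * M) ^ (1 / 6 + ε) := by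
    have h1 : √(H : ℝ) / (α * M / 2) ≤ 2 / α := by
      rw [div_le_div_iff₀ (by positivity) hα]
      have := mul_le_mul_of_nonneg_right hsH hα.le
      linarith
    have h2 : 1 ≤ ((H : ℝ) * M) ^ (1 / 6 + ε) := hy1.trans hyε
    have h3 : 2 / α * 1 ≤ 2 / α * ((H : ℝ) * M) ^ (1 / 6 + ε) :=
      mul_le_mul_of_nonneg_left h2 (by positivity)
    linarith
  obtain ⟨P, hPdef⟩ : ∃ P : ℝ, P = ((H : ℝ) * M) ^ (1 / 6 + ε) := ⟨_, rfl⟩
  obtain ⟨Z, hZdef⟩ : ∃ Z : ℝ, Z = √H * (K : ℝ) ^ (-(1 / 8) + ε) := ⟨_, rfl⟩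
  have hZ0 : 0 ≤ Z := by rw [hZdef]; positivity
  rw [← hPdef] at hyε hB2 hB3 ⊢
  rw [← hZdef] at hQp hQm ⊢
  have hBQ : C1 * (Z + (1 / (1 / (2 * y ^ 2)) ^ 2) ^ (1 / 4 + ε) + √H / (α * M / 2))
      ≤ C1 * (2 + 2 / α) * (Z + P) := by
    rw [mul_assoc]
    refine mul_le_mul_of_nonneg_left ?_ hC1.le
    have h2 : 0 ≤ 2 / α * Z := by positivity
    linarith
  have hsm : ∀ n : ℕ, n < H → _ := fun n hn =>
    small_bound (H := H) hA hα (by positivity : 0 < 3 * α + |β|) hy1 (by linarith : (0 : ℝ) < M)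
      (R := s + α * n) (by linarith [hlow n]) (hhigh n hn) (hTK K (s + α * n)) hKy hy3 hyM
  have key := N2_sandwich (H := H) (R := fun n => s + α * n) (T := fun n => TK K (s + α * n))
    (δ := 1 / (2 * y ^ 2)) (fun n _ => hR2 n) hδ0 hδ1
    (Bs := 1 / y ^ 2 / (α * M / 2) * (A * y ^ 4) + 13 / y ^ 2 * (√(3 * α + |β|) * √M))
    (by positivity) (hQp.trans hBQ) (hQm.trans hBQ) (fun n hn => (hsm n hn).2)
  refine key.trans ?_
  have h1 := (hsm 0 (by omega)).1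
  have h2 : (2 * A / α + 13 * √(3 * α + |β|)) * y ≤ (2 * A / α + 13 * √(3 * α + |β|)) * (Z + P) :=
    mul_le_mul_of_nonneg_left (by linarith) (by positivity)
  linarith

end

end Pool.Agent.Helper22.GC
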