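import Mathlib
import Pool.Agent.Helper22.GC.Main

/-!
# Elementary restatements
-/

open MeasureTheory Set Filter
open scoped Real ComplexConjugate Topology

namespace Pool.Agent.Helper22.GC

noncomputable section

lemma F_eq_card (R : ℝ) :
    F R = Nat.card {p : ℤ × ℤ // (p.1 : ℝ) ^ 2 + (p.2 : ℝ) ^ 2 ≤ R ^ 2} := by
  have h1 : F R = (cntSet R 0).ncard := rfl
  have h2 : Nat.card {p : ℤ × ℤ // (p.1 : ℝ) ^ 2 + (p.2 : ℝ) ^ 2 ≤ R ^ 2}
      = ({p : ℤ × ℤ | (p.1 : ℝ) ^ 2 + (p.2 : ℝ) ^ 2 ≤ R ^ 2}).ncard := rfl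
  rw [h1, h2, ← Set.ncard_image_of_injective (cntSet R 0) (finTwoArrowEquiv ℤ).injective]
  congr 1
  ext p
  simp only [Set.mem_image, cntSet, Set.mem_ofPred_eq, Pi.zero_apply, zero_add]
  constructor
  · rintro ⟨v, hv, rfl⟩
    exact hv
  · intro hp
    exact ⟨![p.1, p.2], by simpa using hp, by simp [finTwoArrowEquiv]⟩

lemma gr_eq_card (k : ℕ) :
    gr k = Nat.card {p : ℤ × ℤ // p.1 ^ 2 + p.2 ^ 2 = (k : ℤ)} := by
  have h2 : Nat.card {p : ℤ × ℤ // p.1 ^ 2 + p.2 ^ 2 = (k : ℤ)}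
      = ({p : ℤ × ℤ | p.1 ^ 2 + p.2 ^ 2 = (k : ℤ)}).ncard := rfl
  rw [h2, ← card_rep2, ← Set.ncard_coe_finset,
    ← Set.ncard_image_of_injective (rep2 k : Set (Fin 2 → ℤ)) (finTwoArrowEquiv ℤ).injective]
  congr 1
  ext p
  simp only [Set.mem_image, Finset.mem_coe, mem_rep2, Set.mem_ofPred_eq]
  constructor
  · rintro ⟨v, hv, rfl⟩
    exact hv
  · intro hp
    exact ⟨![p.1, p.2], by simpa using hp, by simp [finTwoArrowEquiv]⟩

lemma Pe_eq (R : ℝ) : Pe R = (Nat.card {p : ℤ × ℤ // (p.1 : ℝ) ^ 2 + (p.2 : ℝ) ^ 2 ≤ R ^ 2} : ℝ)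
    - π * R ^ 2 := by
  rw [Pe, F_eq_card]

lemma four_re_g0_ee (t : ℝ) : 4 * (g0 * ee t).re = 1 / π * Real.cos (2 * π * t - 3 * π / 4) := by
  have h1 : ee t = Complex.cos (2 * π * t) + Complex.sin (2 * π * t) * Complex.I := by
    rw [ee, ← Complex.exp_mul_I]
    congr 1; ring
  have h2 : ee t = ((Real.cos (2 * π * t) : ℝ) : ℂ) + ((Real.sin (2 * π * t) : ℝ) : ℂ) * Complex.I := by
    rw [h1]; push_cast; rfl
  have h3 : g0 = ((1 / (4 * √2 * π) : ℝ) : ℂ) * (-1 - Complex.I) := by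
    rw [g0, div_eq_mul_one_div, mul_comm]
    push_cast
    rfl
  have h4 : (g0 * ee t).re = 1 / (4 * √2 * π) * (Real.sin (2 * π * t) - Real.cos (2 * π * t)) := by
    rw [h3, mul_assoc, Complex.re_ofReal_mul, h2]
    congr 1
    simp only [Complex.mul_re, Complex.sub_re, Complex.neg_re, Complex.one_re, Complex.I_re,
      Complex.add_re, Complex.ofReal_re, Complex.ofReal_im, Complex.I_im, Complex.sub_im,
      Complex.neg_im, Complex.one_im, Complex.add_im, Complex.mul_im]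
    ring
  rw [h4, Real.cos_sub]
  have h5 : Real.cos (3 * π / 4) = -(√2 / 2) := by
    have : 3 * π / 4 = π - π / 4 := by ring
    rw [this, Real.cos_pi_sub, Real.cos_pi_div_four]
  have h6 : Real.sin (3 * π / 4) = √2 / 2 := by
    have : 3 * π / 4 = π - π / 4 := by ring
    rw [this, Real.sin_pi_sub, Real.sin_pi_div_four]
  rw [h5, h6]
  have h7 : √2 ^ 2 = 2 := Real.sq_sqrt (by norm_num)
  have h8 : √2 ≠ 0 := by positivity
  have hpi := Real.pi_ne_zero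
  field_simp
  rw [h7]
  ring

lemma TK_eq (K : ℕ) (R : ℝ) : TK K R = 1 / π * ∑ k ∈ Finset.Icc 1 K,
    (gr k : ℝ) / (k : ℝ) ^ (3 / 4 : ℝ) * Real.cos (2 * π * √k * R - 3 * π / 4) := by
  rw [TK, Finset.mul_sum, Complex.re_sum, Finset.mul_sum, Finset.mul_sum]
  refine Finset.sum_congr rfl fun k hk => ?_
  rw [Finset.mem_Icc] at hk
  have hk0 : (0 : ℝ) < k := by exact_mod_cast hk.1
  have h1 : g0 * (((gr k * (k : ℝ) ^ (-(3 / 4) : ℝ) : ℝ) : ℂ) * ee (R * √k))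
      = ((gr k * (k : ℝ) ^ (-(3 / 4) : ℝ) : ℝ) : ℂ) * (g0 * ee (R * √k)) := by ring
  rw [h1, Complex.re_ofReal_mul]
  have h2 := four_re_g0_ee (R * √k)
  have h3 : 2 * π * (R * √k) - 3 * π / 4 = 2 * π * √k * R - 3 * π / 4 := by ring
  rw [h3] at h2
  rw [Real.rpow_neg hk0.le]
  calc 4 * (gr k * ((k : ℝ) ^ (3 / 4 : ℝ))⁻¹ * (g0 * ee (R * √k)).re)
      = gr k * ((k : ℝ) ^ (3 / 4 : ℝ))⁻¹ * (4 * (g0 * ee (R * √k)).re) := by ring
    _ = _ := by rw [h2]; ring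

end

end Pool.Agent.Helper22.GC
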