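import Mathlib

/-!
# Square roots of distinct primes
-/

open Set
open scoped Real

namespace Pool.Agent.Helper22.GC

noncomputable section

/-- The field `F(√a)` inside `ℝ`. -/
def quadExt (F : Subfield ℝ) (a : ℝ) (ha : a ∈ F) (h0 : 0 ≤ a) : Subfield ℝ where
  carrier := {z | ∃ x ∈ F, ∃ y ∈ F, z = x + y * √a}
  mul_mem' := by
    rintro z w ⟨x, hx, y, hy, rfl⟩ ⟨x', hx', y', hy', rfl⟩
    refine ⟨x * x' + a * (y * y'), F.add_mem (F.mul_mem hx hx') (F.mul_mem ha (F.mul_mem hy hy')),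
      x * y' + y * x', F.add_mem (F.mul_mem hx hy') (F.mul_mem hy hx'), ?_⟩
    have h : √a * √a = a := Real.mul_self_sqrt h0
    linear_combination (y * y') * h
  one_mem' := ⟨1, F.one_mem, 0, F.zero_mem, by ring⟩
  add_mem' := by
    rintro z w ⟨x, hx, y, hy, rfl⟩ ⟨x', hx', y', hy', rfl⟩
    exact ⟨x + x', F.add_mem hx hx', y + y', F.add_mem hy hy', by ring⟩
  zero_mem' := ⟨0, F.zero_mem, 0, F.zero_mem, by ring⟩
  neg_mem' := by
    rintro z ⟨x, hx, y, hy, rfl⟩
    exact ⟨-x, F.neg_mem hx, -y, F.neg_mem hy, by ring⟩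
  inv_mem' := by
    rintro z ⟨x, hx, y, hy, rfl⟩
    have hsq : √a * √a = a := Real.mul_self_sqrt h0
    by_cases hN : x ^ 2 - a * y ^ 2 = 0
    · by_cases hy0 : y = 0
      · subst hy0
        have hx0 : x = 0 := by
          have : x ^ 2 = 0 := by linear_combination hN
          exact pow_eq_zero_iff (two_ne_zero) |>.mp this
        subst hx0
        exact ⟨0, F.zero_mem, 0, F.zero_mem, by simp⟩
      · -- then `√a ∈ F`
        have h1 : (x - y * √a) * (x + y * √a) = 0 := by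
          linear_combination hN - y ^ 2 * hsq
        have hmem : x + y * √a ∈ F := by
          rcases mul_eq_zero.mp h1 with h | h
          · have : y * √a = x := by linarith
            rw [this]
            exact F.add_mem hx hx
          · rw [h]; exact F.zero_mem
        exact ⟨(x + y * √a)⁻¹, F.inv_mem hmem, 0, F.zero_mem, by ring⟩
    · have hNF : x ^ 2 - a * y ^ 2 ∈ F := F.sub_mem (F.pow_mem hx 2) (F.mul_mem ha (F.pow_mem hy 2))
      have hne : x + y * √a ≠ 0 := by
        intro h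
        apply hN
        have : (x - y * √a) * (x + y * √a) = 0 := by rw [h, mul_zero]
        linear_combination this + y ^ 2 * hsq
      refine ⟨x * (x ^ 2 - a * y ^ 2)⁻¹, F.mul_mem hx (F.inv_mem hNF),
        -y * (x ^ 2 - a * y ^ 2)⁻¹, F.mul_mem (F.neg_mem hy) (F.inv_mem hNF), ?_⟩
      have h2 : (x + y * √a) * ((x - y * √a) * (x ^ 2 - a * y ^ 2)⁻¹) = 1 := by
        have : (x + y * √a) * ((x - y * √a) * (x ^ 2 - a * y ^ 2)⁻¹)
            = (x ^ 2 - a * y ^ 2) * (x ^ 2 - a * y ^ 2)⁻¹ := by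
          linear_combination (-(y ^ 2) * (x ^ 2 - a * y ^ 2)⁻¹) * hsq
        rw [this, mul_inv_cancel₀ hN]
      rw [inv_eq_of_mul_eq_one_right h2]
      ring

lemma mem_quadExt {F : Subfield ℝ} {a : ℝ} {ha : a ∈ F} {h0 : 0 ≤ a} {z : ℝ} :
    z ∈ quadExt F a ha h0 ↔ ∃ x ∈ F, ∃ y ∈ F, z = x + y * √a := Iff.rfl

lemma sqrt_mem_of_mem_quadExt {F : Subfield ℝ} {a b : ℝ} {ha : a ∈ F} {h0 : 0 ≤ a} (hb : b ∈ F)
    (hb0 : 0 ≤ b) (h : √b ∈ quadExt F a ha h0) : √b ∈ F ∨ √(a * b) ∈ F := by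
  obtain ⟨x, hx, y, hy, hxy⟩ := mem_quadExt.mp h
  have hsa : √a * √a = a := Real.mul_self_sqrt h0
  have hsb : √b * √b = b := Real.mul_self_sqrt hb0
  by_cases hx0 : x = 0
  · right
    subst hx0
    rw [Real.sqrt_mul h0, hxy]
    have : √a * (0 + y * √a) = y * a := by linear_combination y * hsa
    rw [this]
    exact F.mul_mem hy ha
  by_cases hy0 : y = 0
  · left
    subst hy0
    rw [hxy, zero_mul, add_zero]
    exact hx
  · left
    have h1 : √a = (b - x ^ 2 - a * y ^ 2) / (2 * x * y) := by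
      rw [eq_div_iff (by positivity)]
      have h2 : b = (x + y * √a) * (x + y * √a) := by rw [← hxy, hsb]
      linear_combination (-1 : ℝ) * h2 - y ^ 2 * hsa
    have h3 : √a ∈ F := by
      rw [h1]
      refine F.div_mem (F.sub_mem (F.sub_mem hb (F.pow_mem hx 2)) (F.mul_mem ha (F.pow_mem hy 2)))
        (F.mul_mem (F.mul_mem ?_ hx) hy)
      exact_mod_cast natCast_mem F 2
    rw [hxy]
    exact F.add_mem hx (F.mul_mem hy h3)

/-- The field generated by the square roots of the elements of `S`. -/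
def GF (S : Finset ℕ) : Subfield ℝ := Subfield.closure ((fun q : ℕ => √(q : ℝ)) '' S)

lemma sqrt_mem_GF {S : Finset ℕ} {q : ℕ} (hq : q ∈ S) : √(q : ℝ) ∈ GF S :=
  Subfield.subset_closure ⟨q, hq, rfl⟩

lemma GF_mono {S T : Finset ℕ} (h : S ⊆ T) : GF S ≤ GF T :=
  Subfield.closure_mono (Set.image_mono (by exact_mod_cast h))

lemma natCast_mem_GF (S : Finset ℕ) (n : ℕ) : (n : ℝ) ∈ GF S := natCast_mem _ n

lemma GF_insert_le (q : ℕ) (S : Finset ℕ) :
    GF (insert q S) ≤ quadExt (GF S) q (natCast_mem_GF S q) (Nat.cast_nonneg q) := by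
  rw [GF, Subfield.closure_le]
  rintro _ ⟨r, hr, rfl⟩
  rw [Finset.coe_insert, Set.mem_insert_iff] at hr
  rcases hr with rfl | hr
  · exact ⟨0, Subfield.zero_mem _, 1, Subfield.one_mem _, by simp⟩
  · exact ⟨√(r : ℝ), sqrt_mem_GF (by exact_mod_cast hr), 0, Subfield.zero_mem _, by simp⟩

lemma prod_primes_not_square {T : Finset ℕ} (hT : ∀ q ∈ T, q.Prime) (hne : T.Nonempty) :
    ¬ IsSquare (∏ q ∈ T, q) := by
  classical
  rintro ⟨r, hr⟩
  obtain ⟨p, hp⟩ := hne
  have hpp := hT p hp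
  have hdvd : p ∣ r * r := by rw [← hr]; exact Finset.dvd_prod_of_mem _ hp
  have hpr : p ∣ r := by
    rcases (Nat.Prime.dvd_mul hpp).mp hdvd with h | h <;> exact h
  obtain ⟨t, ht⟩ := hpr
  rw [← Finset.mul_prod_erase T (fun q => q) hp, ht] at hr
  have h1 : ∏ q ∈ T.erase p, q = t * (p * t) := by
    have : p * ∏ q ∈ T.erase p, q = p * (t * (p * t)) := by rw [hr]; ring
    exact Nat.eq_of_mul_eq_mul_left hpp.pos this
  have h2 : p ∣ ∏ q ∈ T.erase p, q := by
    rw [h1]; exact ⟨t * t, by ring⟩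
  obtain ⟨q, hq, hpq⟩ := (Prime.dvd_finsetProd_iff hpp.prime _).mp h2
  rw [Finset.mem_erase] at hq
  exact hq.1 ((Nat.prime_dvd_prime_iff_eq hpp (hT q hq.2)).mp hpq).symm

/-- The square root of a nonempty product of primes outside `S` is not in the field generated by the
square roots of the elements of `S`. -/
lemma sqrt_prod_notMem (S : Finset ℕ) : ∀ T : Finset ℕ, (∀ q ∈ S, q.Prime) → (∀ q ∈ T, q.Prime) →
    Disjoint S T → T.Nonempty → √((∏ q ∈ T, q : ℕ) : ℝ) ∉ GF S := by
  classical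
  induction S using Finset.induction_on with
  | empty =>
    intro T _ hT _ hne hmem
    have hle : GF ∅ ≤ (algebraMap ℚ ℝ).fieldRange := by
      rw [GF, Subfield.closure_le]
      rintro _ ⟨r, hr, rfl⟩
      simp at hr
    obtain ⟨x, hx⟩ := RingHom.mem_fieldRange.mp (hle hmem)
    have hirr : Irrational √((∏ q ∈ T, q : ℕ) : ℝ) := by
      rw [irrational_sqrt_natCast_iff]
      exact prod_primes_not_square hT hne
    exact hirr ⟨x, by rw [← hx]; simp⟩
  | insert q S hq ih =>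
    intro T hS hT hdis hne hmem
    have hqp : q.Prime := hS q (Finset.mem_insert_self _ _)
    have hSp : ∀ r ∈ S, r.Prime := fun r hr => hS r (Finset.mem_insert_of_mem hr)
    rw [Finset.disjoint_insert_left] at hdis
    have h1 := GF_insert_le q S hmem
    rcases sqrt_mem_of_mem_quadExt (natCast_mem_GF S _) (Nat.cast_nonneg _) h1 with h | h
    · exact ih T hSp hT hdis.2 hne h
    · have h2 : (q : ℝ) * ((∏ r ∈ T, r : ℕ) : ℝ) = ((∏ r ∈ insert q T, r : ℕ) : ℝ) := by
        rw [Finset.prod_insert hdis.1]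
        push_cast
        rfl
      rw [h2] at h
      refine ih (insert q T) hSp ?_ ?_ (Finset.insert_nonempty _ _) h
      · intro r hr
        rcases Finset.mem_insert.mp hr with rfl | hr
        · exact hqp
        · exact hT r hr
      · rw [Finset.disjoint_insert_right]
        exact ⟨hq, hdis.2⟩

lemma sqrt_prime_notMem {S : Finset ℕ} {p : ℕ} (hS : ∀ q ∈ S, q.Prime) (hp : p.Prime)
    (hpS : p ∉ S) : √(p : ℝ) ∉ GF S := by
  have := sqrt_prod_notMem S {p} hS (by simpa using hp) (by simpa using hpS)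
    (Finset.singleton_nonempty p)
  simpa using this

lemma sqrt_nat_mem_GF {S : Finset ℕ} (k : ℕ) (hk : k ≠ 0) (h : k.primeFactors ⊆ S) :
    √(k : ℝ) ∈ GF S := by
  induction k using Nat.recOnMul with
  | zero => exact absurd rfl hk
  | one => simp
  | prime p hp =>
    refine sqrt_mem_GF (h ?_)
    rw [hp.primeFactors]
    exact Finset.mem_singleton_self p
  | mul a b iha ihb =>
    have ha : a ≠ 0 := left_ne_zero_of_mul hk
    have hb : b ≠ 0 := right_ne_zero_of_mul hk
    rw [Nat.primeFactors_mul ha hb] at h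
    push_cast
    rw [Real.sqrt_mul (Nat.cast_nonneg a)]
    exact Subfield.mul_mem _ (iha ha (Finset.union_subset_left h))
      (ihb hb (Finset.union_subset_right h))

/-- A resonance involving a prime `p` outside `S₀`. -/
lemma resonance_core {S₀ D : Finset ℕ} {p k : ℕ} {e : ℕ → ℤ} {x s : ℝ}
    (hS₀ : ∀ q ∈ S₀, q.Prime) (hD : ∀ q ∈ D, q.Prime) (hpS : p ∉ S₀) (hpD : p ∈ D)
    (hx : x ∈ GF S₀) (hk : k ≠ 0) (hs : s = 1 ∨ s = -1) (hep : e p = 1 ∨ e p = -1)
    (h : ∑ q ∈ D, (e q : ℝ) * √(q : ℝ) + s * √(k : ℝ) = x) : k = p ∧ (e p : ℝ) = -s := by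
  classical
  have hp := hD p hpD
  -- split off the power of `p` in `k`
  obtain ⟨v, k', hk', rfl⟩ := Nat.exists_eq_pow_mul_and_not_dvd hk p hp.ne_one
  have hk'0 : k' ≠ 0 := by rintro rfl; exact hk' (dvd_zero p)
  set S : Finset ℕ := S₀ ∪ (D.erase p) ∪ k'.primeFactors with hS
  have hSp : ∀ q ∈ S, q.Prime := by
    intro q hq
    rw [hS, Finset.mem_union, Finset.mem_union] at hq
    rcases hq with (hq | hq) | hq
    · exact hS₀ q hq
    · exact hD q (Finset.mem_of_mem_erase hq)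
    · exact Nat.prime_of_mem_primeFactors hq
  have hpS' : p ∉ S := by
    rw [hS, Finset.mem_union, Finset.mem_union]
    rintro ((hq | hq) | hq)
    · exact hpS hq
    · exact Finset.notMem_erase p D hq
    · exact hk' (Nat.dvd_of_mem_primeFactors hq)
  have hnot := sqrt_prime_notMem hSp hp hpS'
  have hxS : x ∈ GF S := GF_mono (by rw [hS]; intro q hq; simp [hq]) hx
  have hk'S : √(k' : ℝ) ∈ GF S := sqrt_nat_mem_GF k' hk'0 (by rw [hS]; intro q hq; simp [hq])
  have hrest : ∑ q ∈ D.erase p, (e q : ℝ) * √(q : ℝ) ∈ GF S := by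
    refine Subfield.sum_mem _ fun q hq => ?_
    exact Subfield.mul_mem _ (intCast_mem _ _) (sqrt_mem_GF (by rw [hS]; simp [hq]))
  have hsplit := Finset.add_sum_erase D (fun q : ℕ => (e q : ℝ) * √(q : ℝ)) hpD
  have hsS : s ∈ GF S := by
    rcases hs with rfl | rfl
    · exact Subfield.one_mem _
    · exact Subfield.neg_mem _ (Subfield.one_mem _)
  have hepS : (e p : ℝ) ∈ GF S := intCast_mem _ _
  have hep0 : (e p : ℝ) ≠ 0 := by
    rcases hep with h1 | h1 <;> rw [h1] <;> norm_num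
  rcases Nat.even_or_odd' v with ⟨w, hw | hw⟩
  · -- even case: impossible
    exfalso
    have hsq : √((p ^ v * k' : ℕ) : ℝ) = (p : ℝ) ^ w * √(k' : ℝ) := by
      rw [hw]
      push_cast
      rw [Real.sqrt_mul (by positivity), pow_mul', Real.sqrt_sq (by positivity)]
    have hmem : (e p : ℝ) * √(p : ℝ) ∈ GF S := by
      have : (e p : ℝ) * √(p : ℝ) = x - ∑ q ∈ D.erase p, (e q : ℝ) * √(q : ℝ)
          - s * ((p : ℝ) ^ w * √(k' : ℝ)) := by
        rw [← hsq]
        linarith
      rw [this]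
      exact Subfield.sub_mem _ (Subfield.sub_mem _ hxS hrest)
        (Subfield.mul_mem _ hsS (Subfield.mul_mem _ (Subfield.pow_mem _ (natCast_mem_GF S p) w) hk'S))
    apply hnot
    have : √(p : ℝ) = (e p : ℝ)⁻¹ * ((e p : ℝ) * √(p : ℝ)) := by field_simp
    rw [this]
    exact Subfield.mul_mem _ (Subfield.inv_mem _ hepS) hmem
  · -- odd case
    set c : ℝ := (p : ℝ) ^ w * √(k' : ℝ) with hc
    have hc0 : 0 < c := by
      have : (0 : ℝ) < k' := by exact_mod_cast Nat.pos_of_ne_zero hk'0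
      have : (0 : ℝ) < p := by exact_mod_cast hp.pos
      positivity
    have hcS : c ∈ GF S :=
      Subfield.mul_mem _ (Subfield.pow_mem _ (natCast_mem_GF S p) w) hk'S
    have hsq : √((p ^ v * k' : ℕ) : ℝ) = c * √(p : ℝ) := by
      rw [hw, hc]
      push_cast
      rw [Real.sqrt_mul (by positivity), pow_succ, Real.sqrt_mul (by positivity), pow_mul',
        Real.sqrt_sq (by positivity)]
      ring
    have hmem : ((e p : ℝ) + s * c) * √(p : ℝ) ∈ GF S := by
      have : ((e p : ℝ) + s * c) * √(p : ℝ) = x - ∑ q ∈ D.erase p, (e q : ℝ) * √(q : ℝ) := by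
        have : s * √((p ^ v * k' : ℕ) : ℝ) = s * c * √(p : ℝ) := by rw [hsq]; ring
        linarith
      rw [this]
      exact Subfield.sub_mem _ hxS hrest
    have hzero : (e p : ℝ) + s * c = 0 := by
      by_contra hne
      apply hnot
      have : √(p : ℝ) = ((e p : ℝ) + s * c)⁻¹ * (((e p : ℝ) + s * c) * √(p : ℝ)) := by field_simp
      rw [this]
      exact Subfield.mul_mem _ (Subfield.inv_mem _
        (Subfield.add_mem _ hepS (Subfield.mul_mem _ hsS hcS))) hmem
    have hc1 : c = 1 := by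
      rcases hs with rfl | rfl <;> rcases hep with h1 | h1 <;> rw [h1] at hzero <;>
        push_cast at hzero <;> linarith
    constructor
    · have h1 : √((p ^ v * k' : ℕ) : ℝ) = √(p : ℝ) := by rw [hsq, hc1, one_mul]
      have h2 := (Real.sqrt_inj (Nat.cast_nonneg _) (Nat.cast_nonneg _)).mp h1
      exact_mod_cast h2
    · rw [hc1] at hzero
      linarith

/-- No resonance without the extra term. -/
lemma resonance_core0 {S₀ D : Finset ℕ} {p : ℕ} {e : ℕ → ℤ} {x : ℝ}
    (hS₀ : ∀ q ∈ S₀, q.Prime) (hD : ∀ q ∈ D, q.Prime) (hpS : p ∉ S₀) (hpD : p ∈ D)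
    (hx : x ∈ GF S₀) (hep : e p ≠ 0) :
    ∑ q ∈ D, (e q : ℝ) * √(q : ℝ) ≠ x := by
  classical
  intro h
  have hp := hD p hpD
  set S : Finset ℕ := S₀ ∪ (D.erase p) with hS
  have hSp : ∀ q ∈ S, q.Prime := by
    intro q hq
    rw [hS, Finset.mem_union] at hq
    rcases hq with hq | hq
    · exact hS₀ q hq
    · exact hD q (Finset.mem_of_mem_erase hq)
  have hpS' : p ∉ S := by
    rw [hS, Finset.mem_union]
    rintro (hq | hq)
    · exact hpS hq
    · exact Finset.notMem_erase p D hq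
  have hnot := sqrt_prime_notMem hSp hp hpS'
  have hxS : x ∈ GF S := GF_mono (by rw [hS]; intro q hq; simp [hq]) hx
  have hrest : ∑ q ∈ D.erase p, (e q : ℝ) * √(q : ℝ) ∈ GF S := by
    refine Subfield.sum_mem _ fun q hq => ?_
    exact Subfield.mul_mem _ (intCast_mem _ _) (sqrt_mem_GF (by rw [hS]; simp [hq]))
  have hsplit := Finset.add_sum_erase D (fun q : ℕ => (e q : ℝ) * √(q : ℝ)) hpD
  have hep0 : (e p : ℝ) ≠ 0 := by exact_mod_cast hep
  have hmem : (e p : ℝ) * √(p : ℝ) ∈ GF S := by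
    have : (e p : ℝ) * √(p : ℝ) = x - ∑ q ∈ D.erase p, (e q : ℝ) * √(q : ℝ) := by linarith
    rw [this]
    exact Subfield.sub_mem _ hxS hrest
  apply hnot
  have : √(p : ℝ) = (e p : ℝ)⁻¹ * ((e p : ℝ) * √(p : ℝ)) := by field_simp
  rw [this]
  exact Subfield.mul_mem _ (Subfield.inv_mem _ (intCast_mem _ _)) hmem

end

end Pool.Agent.Helper22.GC
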