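import Mathlib
import Pool.Agent.Helper22.GC.SqrtIndep
import Pool.Agent.Helper22.GC.Bridge

/-!
# Resonances and mean values along arithmetic progressions
-/

open Set Filter
open scoped Real ComplexConjugate Topology

namespace Pool.Agent.Helper22.GC

noncomputable section

/-- Outside a finite set of primes the only resonances are the obvious ones. -/
lemma exists_bad_set {α : ℝ} (hα : 0 < α) : ∃ S₀ : Finset ℕ, (∀ q ∈ S₀, q.Prime) ∧
    ∀ (D : Finset ℕ) (e : ℕ → ℤ), (∀ q ∈ D, q.Prime) → Disjoint S₀ D →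
      (∀ q ∈ D, e q = -1 ∨ e q = 0 ∨ e q = 1) →
      (∀ (m : ℤ) (k : ℕ) (s : ℝ), k ≠ 0 → (s = 1 ∨ s = -1) →
        α * (∑ q ∈ D, (e q : ℝ) * √(q : ℝ) + s * √(k : ℝ)) = m → (∃ q ∈ D, e q ≠ 0) →
        k ∈ D ∧ (e k : ℝ) = -s ∧ ∀ q ∈ D, q ≠ k → e q = 0) ∧
      (∀ m : ℤ, α * ∑ q ∈ D, (e q : ℝ) * √(q : ℝ) = m → ∀ q ∈ D, e q = 0) := by
  classical
  -- first find the set together with membership of the right-hand side
  obtain ⟨S₀, hS₀, hmem⟩ : ∃ S₀ : Finset ℕ, (∀ q ∈ S₀, q.Prime) ∧
      ∀ (S : Finset ℕ) (y : ℝ) (m : ℤ), (∀ q ∈ S, q.Prime) → y ∈ GF S → α * y = m → y ∈ GF S₀ := by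
    by_cases h : ∃ S₀ : Finset ℕ, (∀ q ∈ S₀, q.Prime) ∧ 1 / α ∈ GF S₀
    · obtain ⟨S₀, h1, h2⟩ := h
      refine ⟨S₀, h1, fun S y m _ _ hy => ?_⟩
      have : y = m * (1 / α) := by
        field_simp
        linarith
      rw [this]
      exact Subfield.mul_mem _ (intCast_mem _ _) h2
    · refine ⟨∅, by simp, fun S y m hS hyS hy => ?_⟩
      by_cases hm : m = 0
      · subst hm
        have : y = 0 := by
          have : α * y = 0 := by simpa using hy
          rcases mul_eq_zero.mp this with h' | h'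
          · exact absurd h' hα.ne'
          · exact h'
        rw [this]
        exact Subfield.zero_mem _
      · exfalso
        apply h
        refine ⟨S, hS, ?_⟩
        have hm' : (m : ℝ) ≠ 0 := by exact_mod_cast hm
        have : 1 / α = y / m := by
          field_simp
          linarith
        rw [this]
        exact Subfield.div_mem _ hyS (intCast_mem _ _)
  refine ⟨S₀, hS₀, ?_⟩
  intro D e hD hdis he
  have hnotS₀ : ∀ p ∈ D, p ∉ S₀ := fun p hp hp' => Finset.disjoint_left.mp hdis hp' hp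
  have hsumD : ∀ S : Finset ℕ, D ⊆ S → ∑ q ∈ D, (e q : ℝ) * √(q : ℝ) ∈ GF S := by
    intro S hDS
    refine Subfield.sum_mem _ fun q hq => ?_
    exact Subfield.mul_mem _ (intCast_mem _ _) (sqrt_mem_GF (hDS hq))
  constructor
  · intro m k s hk hs h hne
    have hx : ∑ q ∈ D, (e q : ℝ) * √(q : ℝ) + s * √(k : ℝ) ∈ GF S₀ := by
      refine hmem (D ∪ k.primeFactors) _ m ?_ ?_ h
      · intro q hq
        rcases Finset.mem_union.mp hq with hq | hq
        · exact hD q hq
        · exact Nat.prime_of_mem_primeFactors hq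
      · refine Subfield.add_mem _ (hsumD _ Finset.subset_union_left) (Subfield.mul_mem _ ?_
          (sqrt_nat_mem_GF k hk Finset.subset_union_right))
        rcases hs with rfl | rfl
        · exact Subfield.one_mem _
        · exact Subfield.neg_mem _ (Subfield.one_mem _)
    have key : ∀ p ∈ D, e p ≠ 0 → k = p ∧ (e p : ℝ) = -s := by
      intro p hp hep
      have hep' : e p = 1 ∨ e p = -1 := by
        rcases he p hp with h1 | h1 | h1
        · exact Or.inr h1
        · exact absurd h1 hep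
        · exact Or.inl h1
      exact resonance_core hS₀ hD (hnotS₀ p hp) hp hx hk hs hep' rfl
    obtain ⟨p, hp, hep⟩ := hne
    obtain ⟨h1, h2⟩ := key p hp hep
    subst h1
    refine ⟨hp, h2, fun q hq hqk => ?_⟩
    by_contra hcon
    exact hqk (key q hq hcon).1.symm
  · intro m h p hp
    by_contra hep
    have hx : ∑ q ∈ D, (e q : ℝ) * √(q : ℝ) ∈ GF S₀ := hmem D _ m hD (hsumD D subset_rfl) h
    exact resonance_core0 hS₀ hD (hnotS₀ p hp) hp hx hep rfl

/-- The mean over the segment `(M, 2M]`. -/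
def mean (M : ℕ) (u : ℕ → ℂ) : ℂ := (1 / M : ℂ) * ∑ n ∈ Finset.Ioc M (2 * M), u n

lemma mean_add (M : ℕ) (u v : ℕ → ℂ) : mean M (fun n => u n + v n) = mean M u + mean M v := by
  rw [mean, mean, mean, Finset.sum_add_distrib, mul_add]

lemma mean_const_mul (M : ℕ) (a : ℂ) (u : ℕ → ℂ) : mean M (fun n => a * u n) = a * mean M u := by
  rw [mean, mean, ← Finset.mul_sum]
  ring

lemma mean_sum {ι : Type*} (M : ℕ) (S : Finset ι) (u : ι → ℕ → ℂ) :
    mean M (fun n => ∑ i ∈ S, u i n) = ∑ i ∈ S, mean M (u i) := by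
  simp only [mean]
  rw [Finset.sum_comm, Finset.mul_sum]

/-- The limiting mean of `e((α n + β) φ)`. -/
def mu (α β φ : ℝ) : ℂ := by
  classical
  exact if ∃ m : ℤ, α * φ = m then ee (β * φ) else 0

lemma tendsto_mean_ee (α β φ : ℝ) :
    Tendsto (fun M : ℕ => mean M (fun n => ee ((α * n + β) * φ))) atTop (𝓝 (mu α β φ)) := by
  classical
  unfold mu
  split_ifs with h
  · obtain ⟨m, hm⟩ := h
    have h1 : ∀ n : ℕ, ee ((α * n + β) * φ) = ee (β * φ) := by
      intro n
      have : (α * n + β) * φ = β * φ + ((m * n : ℤ) : ℝ) := by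
        push_cast
        rw [← hm]; ring
      rw [this, ee_add, ee_int, mul_one]
    refine tendsto_const_nhds.congr' ?_
    filter_upwards [eventually_ge_atTop 1] with M hM
    have hM' : (M : ℂ) ≠ 0 := by exact_mod_cast (by omega : M ≠ 0)
    simp only [mean, h1, Finset.sum_const, Nat.card_Ioc, nsmul_eq_mul]
    have : 2 * M - M = M := by omega
    rw [this]
    field_simp
  · -- geometric sum
    have hne : ee (α * φ) ≠ 1 := by
      intro h1
      apply h
      rw [ee, Complex.exp_eq_one_iff] at h1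
      obtain ⟨m, hm⟩ := h1
      refine ⟨m, ?_⟩
      have h2 : (2 * π * Complex.I : ℂ) ≠ 0 := Complex.two_pi_I_ne_zero
      have h3 : ((α * φ : ℝ) : ℂ) = ((m : ℝ) : ℂ) := by
        have : (2 * π * Complex.I : ℂ) * ((α * φ : ℝ) : ℂ) = (2 * π * Complex.I : ℂ) * m := by
          rw [hm]; ring
        have := mul_left_cancel₀ h2 this
        rw [this]; push_cast; rfl
      exact_mod_cast h3
    have hgeo : ∀ M : ℕ, ∑ n ∈ Finset.Ioc M (2 * M), ee ((α * n + β) * φ)
        = ee ((α * (M + 1) + β) * φ) * ((ee (α * φ) ^ M - 1) / (ee (α * φ) - 1)) := by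
      intro M
      have hI : Finset.Ioc M (2 * M) = Finset.Ico (M + 1) (M + 1 + M) := by
        ext n; rw [Finset.mem_Ioc, Finset.mem_Ico]; omega
      rw [hI, Finset.sum_Ico_eq_sum_range, ← geom_sum_eq hne, Finset.mul_sum]
      have : M + 1 + M - (M + 1) = M := by omega
      rw [this]
      refine Finset.sum_congr rfl fun i _ => ?_
      have hp : ∀ i : ℕ, ee (α * φ) ^ i = ee (i * (α * φ)) := by
        intro i
        induction i with
        | zero => simp [ee_zero]
        | succ i ih =>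
          rw [pow_succ, ih, ← ee_add]
          congr 1; push_cast; ring
      rw [hp, ← ee_add]
      congr 1; push_cast; ring
    have hb : ∀ M : ℕ, ‖mean M (fun n => ee ((α * n + β) * φ))‖
        ≤ (2 / ‖ee (α * φ) - 1‖) * (1 / (M : ℝ)) := by
      intro M
      rw [mean, hgeo, norm_mul, norm_mul, norm_ee, one_mul, norm_div, norm_div, norm_one,
        Complex.norm_natCast, mul_comm]
      refine mul_le_mul_of_nonneg_right ?_ (by positivity)
      refine div_le_div_of_nonneg_right ?_ (norm_nonneg _)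
      refine (norm_sub_le _ _).trans ?_
      rw [norm_pow, norm_ee, one_pow, norm_one]
      norm_num
    have h0 : Tendsto (fun M : ℕ => (2 / ‖ee (α * φ) - 1‖) * (1 / (M : ℝ))) atTop (𝓝 0) := by
      have := tendsto_one_div_atTop_nhds_zero_nat (𝕜 := ℝ)
      have h2 := this.const_mul (2 / ‖ee (α * φ) - 1‖)
      rwa [mul_zero] at h2
    exact squeeze_zero_norm hb h0

end

end Pool.Agent.Helper22.GC
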