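import Mathlib
import Pool.Agent.Helper22.GC.Reson

/-!
# Riesz products along arithmetic progressions
-/

open Set Filter
open scoped Real ComplexConjugate Topology

namespace Pool.Agent.Helper22.GC

noncomputable section

/-- The Riesz product. -/
def Wr (σ : ℝ) (D : Finset ℕ) (R : ℝ) : ℝ :=
  ∏ p ∈ D, (1 + σ * Real.cos (2 * π * (R * √(p : ℝ)) - 3 * π / 4))

lemma Wr_nonneg {σ : ℝ} (hσ : |σ| ≤ 1) (D : Finset ℕ) (R : ℝ) : 0 ≤ Wr σ D R := by
  refine Finset.prod_nonneg fun p _ => ?_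
  have h1 : |σ * Real.cos (2 * π * (R * √(p : ℝ)) - 3 * π / 4)| ≤ 1 := by
    rw [abs_mul]
    exact mul_le_one₀ hσ (abs_nonneg _) (Real.abs_cos_le_one _)
  linarith [(abs_le.mp h1).1]

lemma Wr_le {σ : ℝ} (hσ : |σ| ≤ 1) (D : Finset ℕ) (R : ℝ) : Wr σ D R ≤ 2 ^ D.card := by
  refine (Finset.prod_le_prod (fun p _ => ?_) (fun p _ => ?_)).trans (b := ∏ _p ∈ D, (2 : ℝ)) ?_
  · have h1 : |σ * Real.cos (2 * π * (R * √(p : ℝ)) - 3 * π / 4)| ≤ 1 := by
      rw [abs_mul]
      exact mul_le_one₀ hσ (abs_nonneg _) (Real.abs_cos_le_one _)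
    linarith [(abs_le.mp h1).1]
  · have h1 : |σ * Real.cos (2 * π * (R * √(p : ℝ)) - 3 * π / 4)| ≤ 1 := by
      rw [abs_mul]
      exact mul_le_one₀ hσ (abs_nonneg _) (Real.abs_cos_le_one _)
    linarith [(abs_le.mp h1).2]
  · simp

/-- The coefficients of the Riesz product. -/
def Ar (σ : ℝ) (j : ℤ) : ℂ := if j = 0 then 1 else (σ / 2 : ℂ) * ee (-(3 / 8) * j)

lemma Wr_factor (σ : ℝ) (p : ℕ) (R : ℝ) :
    ((1 + σ * Real.cos (2 * π * (R * √(p : ℝ)) - 3 * π / 4) : ℝ) : ℂ)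
      = ∑ j ∈ ({-1, 0, 1} : Finset ℤ), Ar σ j * ee (R * (j * √(p : ℝ))) := by
  have h1 : ∀ t : ℝ, ((Real.cos (2 * π * t) : ℝ) : ℂ) = (ee t + ee (-t)) / 2 := by
    intro t
    have e1 : ee t = Complex.exp (((2 * π * t : ℝ) : ℂ) * Complex.I) := by
      rw [ee]; congr 1; push_cast; ring
    have e2 : ee (-t) = Complex.exp (-((2 * π * t : ℝ) : ℂ) * Complex.I) := by
      rw [ee]; congr 1; push_cast; ring
    rw [e1, e2, Complex.ofReal_cos, Complex.cos]
  have h2 : 2 * π * (R * √(p : ℝ)) - 3 * π / 4 = 2 * π * (R * √(p : ℝ) - 3 / 8) := by ring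
  rw [h2]
  push_cast
  have h3 := h1 (R * √(p : ℝ) - 3 / 8)
  push_cast at h3
  rw [h3]
  have e3 : ee (R * √(p : ℝ) - 3 / 8) = ee (-(3 / 8) * ((1 : ℤ) : ℝ)) * ee (R * (((1 : ℤ) : ℝ) * √(p : ℝ))) := by
    rw [← ee_add]; congr 1; push_cast; ring
  have e4 : ee (-(R * √(p : ℝ) - 3 / 8)) = ee (-(3 / 8) * ((-1 : ℤ) : ℝ)) * ee (R * (((-1 : ℤ) : ℝ) * √(p : ℝ))) := by
    rw [← ee_add]; congr 1; push_cast; ring
  rw [Finset.sum_insert (by decide), Finset.sum_insert (by decide), Finset.sum_singleton, e3, e4]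
  have e5 : ee (R * (((0 : ℤ) : ℝ) * √(p : ℝ))) = 1 := by simp [ee_zero]
  rw [e5]
  simp only [Ar]
  norm_num
  ring

/-- The index set of the expansion. -/
def idx (D : Finset ℕ) : Finset (D → ℤ) := Fintype.piFinset fun _ => ({-1, 0, 1} : Finset ℤ)

lemma Wr_expand (σ : ℝ) (D : Finset ℕ) (R : ℝ) :
    ((Wr σ D R : ℝ) : ℂ) = ∑ x ∈ idx D, (∏ q : D, Ar σ (x q)) * ee (R * ∑ q : D, (x q : ℝ) * √((q : ℕ) : ℝ)) := by
  classical
  have h1 : ((Wr σ D R : ℝ) : ℂ) = ∏ q : D, ∑ j ∈ ({-1, 0, 1} : Finset ℤ), Ar σ j * ee (R * (j * √((q : ℕ) : ℝ))) := by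
    rw [Wr, Complex.ofReal_prod, ← Finset.prod_coe_sort]
    exact Finset.prod_congr rfl fun q _ => Wr_factor σ q R
  rw [h1, Finset.prod_univ_sum]
  refine Finset.sum_congr rfl fun x _ => ?_
  rw [Finset.prod_mul_distrib]
  congr 1
  have hexp : ∀ (S : Finset D), ∏ q ∈ S, ee (R * (x q * √((q : ℕ) : ℝ)))
      = ee (R * ∑ q ∈ S, (x q : ℝ) * √((q : ℕ) : ℝ)) := by
    intro S
    induction S using Finset.induction_on with
    | empty => simp [ee_zero]
    | insert a S ha ih =>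
      rw [Finset.prod_insert ha, Finset.sum_insert ha, ih, ← ee_add]
      congr 1; ring
  exact hexp Finset.univ

/-- Extension of an exponent vector by zero. -/
def ext0 (D : Finset ℕ) (x : D → ℤ) (q : ℕ) : ℤ := if h : q ∈ D then x ⟨q, h⟩ else 0

lemma ext0_coe {D : Finset ℕ} (x : D → ℤ) (q : D) : ext0 D x q = x q := by
  simp [ext0]

lemma sum_ext0 (D : Finset ℕ) (x : D → ℤ) :
    ∑ q ∈ D, (ext0 D x q : ℝ) * √(q : ℝ) = ∑ q : D, (x q : ℝ) * √((q : ℕ) : ℝ) := by
  rw [← Finset.sum_coe_sort]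
  exact Finset.sum_congr rfl fun q _ => by rw [ext0_coe]

lemma mem_idx {D : Finset ℕ} {x : D → ℤ} : x ∈ idx D ↔ ∀ q, x q = -1 ∨ x q = 0 ∨ x q = 1 := by
  rw [idx, Fintype.mem_piFinset]
  simp

/-- The property of the bad set. -/
def Good (α : ℝ) (D : Finset ℕ) : Prop :=
  ∀ (e : ℕ → ℤ), (∀ q ∈ D, e q = -1 ∨ e q = 0 ∨ e q = 1) →
      (∀ (m : ℤ) (k : ℕ) (s : ℝ), k ≠ 0 → (s = 1 ∨ s = -1) →
        α * (∑ q ∈ D, (e q : ℝ) * √(q : ℝ) + s * √(k : ℝ)) = m → (∃ q ∈ D, e q ≠ 0) →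
        k ∈ D ∧ (e k : ℝ) = -s ∧ ∀ q ∈ D, q ≠ k → e q = 0) ∧
      (∀ m : ℤ, α * ∑ q ∈ D, (e q : ℝ) * √(q : ℝ) = m → ∀ q ∈ D, e q = 0)

lemma tendsto_mean_W {α β σ : ℝ} {D : Finset ℕ} (hD : Good α D) :
    Tendsto (fun M : ℕ => mean M (fun n => ((Wr σ D (α * n + β) : ℝ) : ℂ))) atTop (𝓝 1) := by
  classical
  have h1 : Tendsto (fun M : ℕ => mean M (fun n => ((Wr σ D (α * n + β) : ℝ) : ℂ))) atTop
      (𝓝 (∑ x ∈ idx D, (∏ q : D, Ar σ (x q)) * mu α β (∑ q : D, (x q : ℝ) * √((q : ℕ) : ℝ)))) := by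
    have h2 : ∀ M : ℕ, mean M (fun n => ((Wr σ D (α * n + β) : ℝ) : ℂ))
        = ∑ x ∈ idx D, (∏ q : D, Ar σ (x q)) *
          mean M (fun n => ee ((α * n + β) * ∑ q : D, (x q : ℝ) * √((q : ℕ) : ℝ))) := by
      intro M
      simp only [Wr_expand]
      rw [mean_sum]
      exact Finset.sum_congr rfl fun x _ => mean_const_mul _ _ _
    simp only [h2]
    exact tendsto_finsetSum _ fun x _ => (tendsto_mean_ee α β _).const_mul _
  have h3 : ∑ x ∈ idx D, (∏ q : D, Ar σ (x q)) * mu α β (∑ q : D, (x q : ℝ) * √((q : ℕ) : ℝ)) = 1 := by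
    rw [Finset.sum_eq_single (0 : D → ℤ)]
    · simp [Ar, mu, ee_zero]
      exact ⟨0, by simp⟩
    · intro x hx hx0
      have hmu : mu α β (∑ q : D, (x q : ℝ) * √((q : ℕ) : ℝ)) = 0 := by
        unfold mu
        rw [if_neg]
        rintro ⟨m, hm⟩
        apply hx0
        have hg := (hD (ext0 D x) (fun q hq => by
          simp only [ext0, dif_pos hq]
          exact mem_idx.mp hx _)).2 m (by rw [sum_ext0]; exact hm)
        funext q
        rw [← ext0_coe x q]
        exact hg q q.2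
      rw [hmu, mul_zero]
    · intro h
      exact absurd (mem_idx.mpr fun q => by simp) h
  rwa [h3] at h1

/-- Mean of the Riesz product against one frequency of Hardy's series. -/
lemma tendsto_mean_W_ee {α β σ : ℝ} {D : Finset ℕ} (hD : Good α D) {k : ℕ} (hk : k ≠ 0) {s : ℤ}
    (hs : s = 1 ∨ s = -1) :
    Tendsto (fun M : ℕ => mean M (fun n => ((Wr σ D (α * n + β) - 1 : ℝ) : ℂ)
      * ee ((α * n + β) * (s * √(k : ℝ))))) atTop (𝓝 (if k ∈ D then Ar σ (-s) else 0)) := by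
  classical
  have hsR : (s : ℝ) = 1 ∨ (s : ℝ) = -1 := by
    rcases hs with rfl | rfl
    · left; norm_num
    · right; norm_num
  have h1 : Tendsto (fun M : ℕ => mean M (fun n => ((Wr σ D (α * n + β) : ℝ) : ℂ)
      * ee ((α * n + β) * (s * √(k : ℝ))))) atTop
      (𝓝 (∑ x ∈ idx D, (∏ q : D, Ar σ (x q)) *
        mu α β (∑ q : D, (x q : ℝ) * √((q : ℕ) : ℝ) + s * √(k : ℝ)))) := by
    have h2 : ∀ M : ℕ, mean M (fun n => ((Wr σ D (α * n + β) : ℝ) : ℂ)
        * ee ((α * n + β) * (s * √(k : ℝ))))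
        = ∑ x ∈ idx D, (∏ q : D, Ar σ (x q)) *
          mean M (fun n => ee ((α * n + β) * (∑ q : D, (x q : ℝ) * √((q : ℕ) : ℝ) + s * √(k : ℝ)))) := by
      intro M
      simp only [Wr_expand, Finset.sum_mul]
      rw [mean_sum]
      refine Finset.sum_congr rfl fun x _ => ?_
      rw [← mean_const_mul]
      congr 1
      funext n
      rw [mul_add (α * n + β), ee_add]
      ring
    simp only [h2]
    exact tendsto_finsetSum _ fun x _ => (tendsto_mean_ee α β _).const_mul _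
  have hgood : ∀ x ∈ idx D, x ≠ 0 → mu α β (∑ q : D, (x q : ℝ) * √((q : ℕ) : ℝ) + s * √(k : ℝ)) ≠ 0 →
      ∃ h : k ∈ D, x = Function.update (0 : D → ℤ) ⟨k, h⟩ (-s) := by
    intro x hx hx0 hmu
    unfold mu at hmu
    have hres : ∃ m : ℤ, α * (∑ q : D, (x q : ℝ) * √((q : ℕ) : ℝ) + s * √(k : ℝ)) = m := by
      by_contra hcon
      rw [if_neg hcon] at hmu
      exact hmu rfl
    obtain ⟨m, hm⟩ := hres
    have hex : ∃ q ∈ D, ext0 D x q ≠ 0 := by
      by_contra hcon
      push Not at hcon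
      apply hx0
      funext q
      rw [← ext0_coe x q]
      exact hcon q q.2
    obtain ⟨g1, g2, g3⟩ := (hD (ext0 D x) (fun q hq => by
          simp only [ext0, dif_pos hq]
          exact mem_idx.mp hx _)).1 m k s hk hsR (by rw [sum_ext0]; exact hm) hex
    refine ⟨g1, ?_⟩
    funext q
    by_cases hq : q = ⟨k, g1⟩
    · subst hq
      rw [Function.update_self]
      rw [ext0, dif_pos g1] at g2
      exact_mod_cast g2
    · rw [Function.update_of_ne hq, ← ext0_coe x q]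
      exact g3 q q.2 fun h => hq (Subtype.ext h)
  have h3 : ∑ x ∈ idx D, (∏ q : D, Ar σ (x q)) *
        mu α β (∑ q : D, (x q : ℝ) * √((q : ℕ) : ℝ) + s * √(k : ℝ))
      = mu α β (s * √(k : ℝ)) + (if k ∈ D then Ar σ (-s) else 0) := by
    have h0 : (∏ q : D, Ar σ ((0 : D → ℤ) q)) *
        mu α β (∑ q : D, (((0 : D → ℤ) q : ℤ) : ℝ) * √((q : ℕ) : ℝ) + s * √(k : ℝ))
        = mu α β (s * √(k : ℝ)) := by
      simp [Ar]
    have h0mem : (0 : D → ℤ) ∈ idx D := mem_idx.mpr fun q => by simp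
    by_cases hkD : k ∈ D
    · rw [if_pos hkD]
      set y : D → ℤ := Function.update (0 : D → ℤ) ⟨k, hkD⟩ (-s) with hy
      have hs0 : s ≠ 0 := by rcases hs with rfl | rfl <;> norm_num
      have hy0 : (0 : D → ℤ) ≠ y := by
        intro h
        have := congrFun h ⟨k, hkD⟩
        rw [hy, Function.update_self] at this
        simp at this
        exact hs0 this
      have hymem : y ∈ idx D := by
        refine mem_idx.mpr fun q => ?_
        by_cases hq : q = ⟨k, hkD⟩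
        · rw [hq, hy, Function.update_self]
          rcases hs with rfl | rfl <;> simp
        · rw [hy, Function.update_of_ne hq]
          simp
      rw [Finset.sum_eq_add (0 : D → ℤ) y hy0]
      · rw [h0]
        congr 1
        have e1 : ∏ q : D, Ar σ (y q) = Ar σ (-s) := by
          rw [Finset.prod_eq_single (⟨k, hkD⟩ : D)]
          · rw [hy, Function.update_self]
          · intro q _ hq
            rw [hy, Function.update_of_ne hq]
            simp [Ar]
          · intro h; exact absurd (Finset.mem_univ _) h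
        have e2 : ∑ q : D, (y q : ℝ) * √((q : ℕ) : ℝ) = -(s * √(k : ℝ)) := by
          rw [Finset.sum_eq_single (⟨k, hkD⟩ : D)]
          · rw [hy, Function.update_self]
            push_cast
            ring
          · intro q _ hq
            rw [hy, Function.update_of_ne hq]
            simp
          · intro h; exact absurd (Finset.mem_univ _) h
        rw [e1, e2]
        have e3 : mu α β (-(s * √(k : ℝ)) + s * √(k : ℝ)) = 1 := by
          unfold mu
          rw [if_pos ⟨0, by simp⟩]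
          simp [ee_zero]
        rw [e3, mul_one]
      · intro x hx hne
        by_contra hcon
        have hmu := right_ne_zero_of_mul hcon
        obtain ⟨g1, g2⟩ := hgood x hx hne.1 hmu
        exact hne.2 g2
      · intro h; exact absurd h0mem h
      · intro h; exact absurd hymem h
    · rw [if_neg hkD, add_zero, Finset.sum_eq_single (0 : D → ℤ)]
      · exact h0
      · intro x hx hne
        by_contra hcon
        have hmu := right_ne_zero_of_mul hcon
        obtain ⟨g1, _⟩ := hgood x hx hne hmu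
        exact hkD g1
      · intro h; exact absurd h0mem h
  rw [h3] at h1
  have h4 := h1.sub (tendsto_mean_ee α β (s * √(k : ℝ)))
  rw [add_sub_cancel_left] at h4
  refine h4.congr fun M => ?_
  have h5 : (fun n : ℕ => ((Wr σ D (α * n + β) : ℝ) : ℂ) * ee ((α * n + β) * (s * √(k : ℝ))))
      = fun n : ℕ => ((Wr σ D (α * n + β) - 1 : ℝ) : ℂ) * ee ((α * n + β) * (s * √(k : ℝ)))
        + ee ((α * n + β) * (s * √(k : ℝ))) := by
    funext n
    push_cast
    ring
  rw [h5, mean_add]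
  ring

end

end Pool.Agent.Helper22.GC
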