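import Mathlib
import Pool.Agent.Helper22.GC.Riesz

/-!
# Unboundedness of the normalised error along arithmetic progressions
-/

open Set Filter
open scoped Real ComplexConjugate Topology

namespace Pool.Agent.Helper22.GC

noncomputable section

lemma g0_eq : g0 = ee (-(3 / 8)) / (4 * π : ℝ) := by
  have h1 : ee (-(3 / 8)) = ((Real.cos (3 * π / 4) : ℝ) : ℂ) - ((Real.sin (3 * π / 4) : ℝ) : ℂ) * Complex.I := by
    have : ee (-(3 / 8)) = Complex.exp (((-(3 * π / 4) : ℝ) : ℂ) * Complex.I) := by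
      rw [ee]; congr 1; push_cast; ring
    rw [this, Complex.exp_mul_I, ← Complex.ofReal_cos, ← Complex.ofReal_sin, Real.cos_neg,
      Real.sin_neg]
    push_cast
    ring
  have h5 : Real.cos (3 * π / 4) = -(√2 / 2) := by
    have : 3 * π / 4 = π - π / 4 := by ring
    rw [this, Real.cos_pi_sub, Real.cos_pi_div_four]
  have h6 : Real.sin (3 * π / 4) = √2 / 2 := by
    have : 3 * π / 4 = π - π / 4 := by ring
    rw [this, Real.sin_pi_sub, Real.sin_pi_div_four]
  rw [h1, h5, h6, g0]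
  have h7 : ((√2 : ℝ) : ℂ) ^ 2 = 2 := by
    rw [← Complex.ofReal_pow, Real.sq_sqrt (by norm_num)]; norm_num
  have h8 : ((√2 : ℝ) : ℂ) ≠ 0 := by
    have : √2 ≠ 0 := by positivity
    exact_mod_cast this
  have hpi : ((π : ℝ) : ℂ) ≠ 0 := by exact_mod_cast Real.pi_ne_zero
  push_cast
  field_simp
  rw [h7]

/-- The weight of `k` in Hardy's series. -/
def rho (k : ℕ) : ℝ := gr k * (k : ℝ) ^ (-(3 / 4) : ℝ)

lemma TK_complex (K : ℕ) (R : ℝ) : ((TK K R : ℝ) : ℂ) = ∑ k ∈ Finset.Icc 1 K,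
    ((rho k : ℂ) * (2 * g0) * ee (R * (((1 : ℤ) : ℝ) * √k))
      + (rho k : ℂ) * (2 * conj g0) * ee (R * (((-1 : ℤ) : ℝ) * √k))) := by
  have h1 : ∀ z : ℂ, ((4 * z.re : ℝ) : ℂ) = 2 * (z + conj z) := by
    intro z
    rw [Complex.add_conj]
    push_cast
    ring
  rw [TK, h1, Finset.mul_sum, map_sum, ← Finset.sum_add_distrib, Finset.mul_sum]
  refine Finset.sum_congr rfl fun k _ => ?_
  rw [map_mul, map_mul, Complex.conj_ofReal, conj_ee]
  have e1 : R * (((1 : ℤ) : ℝ) * √(k : ℝ)) = R * √k := by push_cast; ring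
  have e2 : R * (((-1 : ℤ) : ℝ) * √(k : ℝ)) = -(R * √k) := by push_cast; ring
  rw [e1, e2, rho]
  ring

lemma coef_eq (σ : ℝ) : 2 * g0 * Ar σ (-1) + 2 * conj g0 * Ar σ 1 = ((σ / (2 * π) : ℝ) : ℂ) := by
  have h1 : Ar σ (-1) = (σ / 2 : ℂ) * ee (3 / 8) := by
    rw [Ar, if_neg (by norm_num)]
    congr 2
    push_cast
    ring
  have h2 : Ar σ 1 = (σ / 2 : ℂ) * ee (-(3 / 8)) := by
    rw [Ar, if_neg (by norm_num)]
    congr 2
    push_cast
    ring
  have h3 : conj g0 = ee (3 / 8) / (4 * π : ℝ) := by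
    rw [g0_eq, map_div₀, conj_ee, Complex.conj_ofReal, neg_neg]
  have h4 : ee (-(3 / 8)) * ee (3 / 8) = 1 := by
    rw [← ee_add]; simp [ee_zero]
  rw [h1, h2, h3, g0_eq]
  have hpi : ((π : ℝ) : ℂ) ≠ 0 := by exact_mod_cast Real.pi_ne_zero
  push_cast
  field_simp
  linear_combination (4 * (σ : ℂ)) * h4

lemma tendsto_mean_W_TK {α β σ : ℝ} {D : Finset ℕ} (hD : Good α D) {K : ℕ}
    (hDK : ∀ p ∈ D, 1 ≤ p ∧ p ≤ K) :
    Tendsto (fun M : ℕ => mean M (fun n => (((Wr σ D (α * n + β) - 1) * TK K (α * n + β) : ℝ) : ℂ)))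
      atTop (𝓝 ((σ / (2 * π) * ∑ p ∈ D, rho p : ℝ) : ℂ)) := by
  classical
  have h1 : ∀ M : ℕ, mean M (fun n => (((Wr σ D (α * n + β) - 1) * TK K (α * n + β) : ℝ) : ℂ))
      = ∑ k ∈ Finset.Icc 1 K, ((rho k : ℂ) * (2 * g0) * mean M (fun n =>
          ((Wr σ D (α * n + β) - 1 : ℝ) : ℂ) * ee ((α * n + β) * (((1 : ℤ) : ℝ) * √(k : ℝ))))
        + (rho k : ℂ) * (2 * conj g0) * mean M (fun n =>
          ((Wr σ D (α * n + β) - 1 : ℝ) : ℂ) * ee ((α * n + β) * (((-1 : ℤ) : ℝ) * √(k : ℝ))))) := by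
    intro M
    have h2 : (fun n : ℕ => (((Wr σ D (α * n + β) - 1) * TK K (α * n + β) : ℝ) : ℂ))
        = fun n : ℕ => ∑ k ∈ Finset.Icc 1 K, ((rho k : ℂ) * (2 * g0) *
          (((Wr σ D (α * n + β) - 1 : ℝ) : ℂ) * ee ((α * n + β) * (((1 : ℤ) : ℝ) * √(k : ℝ))))
        + (rho k : ℂ) * (2 * conj g0) *
          (((Wr σ D (α * n + β) - 1 : ℝ) : ℂ) * ee ((α * n + β) * (((-1 : ℤ) : ℝ) * √(k : ℝ))))) := by
      funext n
      rw [Complex.ofReal_mul, TK_complex, Finset.mul_sum]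
      refine Finset.sum_congr rfl fun k _ => ?_
      ring
    rw [h2, mean_sum]
    refine Finset.sum_congr rfl fun k _ => ?_
    rw [mean_add, mean_const_mul, mean_const_mul]
  simp only [h1]
  have h3 : Tendsto (fun M : ℕ => ∑ k ∈ Finset.Icc 1 K, ((rho k : ℂ) * (2 * g0) * mean M (fun n =>
          ((Wr σ D (α * n + β) - 1 : ℝ) : ℂ) * ee ((α * n + β) * (((1 : ℤ) : ℝ) * √(k : ℝ))))
        + (rho k : ℂ) * (2 * conj g0) * mean M (fun n =>
          ((Wr σ D (α * n + β) - 1 : ℝ) : ℂ) * ee ((α * n + β) * (((-1 : ℤ) : ℝ) * √(k : ℝ))))))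
      atTop (𝓝 (∑ k ∈ Finset.Icc 1 K, ((rho k : ℂ) * (2 * g0) * (if k ∈ D then Ar σ (-1) else 0)
        + (rho k : ℂ) * (2 * conj g0) * (if k ∈ D then Ar σ (-(-1)) else 0)))) := by
    refine tendsto_finsetSum _ fun k hk => ?_
    rw [Finset.mem_Icc] at hk
    exact ((tendsto_mean_W_ee hD (by omega) (Or.inl rfl)).const_mul _).add
      ((tendsto_mean_W_ee hD (by omega) (Or.inr rfl)).const_mul _)
  have h4 : ∑ k ∈ Finset.Icc 1 K, ((rho k : ℂ) * (2 * g0) * (if k ∈ D then Ar σ (-1) else 0)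
        + (rho k : ℂ) * (2 * conj g0) * (if k ∈ D then Ar σ (-(-1)) else 0))
      = ((σ / (2 * π) * ∑ p ∈ D, rho p : ℝ) : ℂ) := by
    have h5 : ∀ k ∈ Finset.Icc 1 K, ((rho k : ℂ) * (2 * g0) * (if k ∈ D then Ar σ (-1) else 0)
        + (rho k : ℂ) * (2 * conj g0) * (if k ∈ D then Ar σ (-(-1)) else 0))
        = if k ∈ D then (rho k : ℂ) * ((σ / (2 * π) : ℝ) : ℂ) else 0 := by
      intro k _
      split_ifs
      · rw [← coef_eq σ, neg_neg]
        ring
      · simp
    rw [Finset.sum_congr rfl h5, ← Finset.sum_filter]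
    have h6 : (Finset.Icc 1 K).filter (· ∈ D) = D := by
      ext p
      rw [Finset.mem_filter, Finset.mem_Icc]
      exact ⟨fun h => h.2, fun h => ⟨hDK p h, h⟩⟩
    rw [h6, ← Finset.sum_mul]
    push_cast
    ring
  rwa [h4] at h3

/-- The normalised error along a progression. -/
def uu (α β : ℝ) (n : ℕ) : ℝ := Pe (α * n + β) / √(α * n + β)

/-- Mean absolute deviation from the partial sums. -/
lemma mean_abs_bound (α β : ℝ) (hα : 0 < α) : ∃ C : ℝ, 0 < C ∧ ∀ K : ℕ, 1 ≤ K →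
    ∀ᶠ M : ℕ in atTop, (∀ n ∈ Finset.Ioc M (2 * M), 0 < α * n + β) ∧
      (1 / (M : ℝ)) * ∑ n ∈ Finset.Ioc M (2 * M), |uu α β n - TK K (α * n + β)|
        ≤ C * ((K : ℝ) ^ (-(1 / 16) : ℝ) + (M : ℝ) ^ (-(1 / 24) : ℝ)) := by
  obtain ⟨C, M₀, hC, hmain⟩ := approx_main α β hα (ε := 1 / 16) (by norm_num) (by norm_num)
  refine ⟨C, hC, fun K hK => ?_⟩
  filter_upwards [eventually_ge_atTop M₀, eventually_ge_atTop K, eventually_ge_atTop 1]
    with M hM hMK hM1
  have hMr : (1 : ℝ) ≤ M := by exact_mod_cast hM1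
  have hM0 : (0 : ℝ) < M := by linarith
  have hKM : (K : ℝ) ≤ ((M : ℝ) * M) ^ (2 / 3 : ℝ) := by
    have h1 : (K : ℝ) ≤ M := by exact_mod_cast hMK
    have h2 : ((M : ℝ) * M) ^ (2 / 3 : ℝ) = (M : ℝ) ^ (4 / 3 : ℝ) := by
      rw [← pow_two, ← Real.rpow_natCast, ← Real.rpow_mul hM0.le]; norm_num
    rw [h2]
    refine h1.trans ?_
    calc (M : ℝ) = (M : ℝ) ^ (1 : ℝ) := (Real.rpow_one _).symm
      _ ≤ _ := Real.rpow_le_rpow_of_exponent_le hMr (by norm_num)
  obtain ⟨hpos, hN⟩ := hmain M M K hM hM1 le_rfl hK hKM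
  have hcast : ∀ i : ℕ, α * ((M + 1 + i : ℕ) : ℝ) + β = α * (M + 1) + β + α * i := by
    intro i; push_cast; ring
  have hI : Finset.Ioc M (2 * M) = Finset.Ico (M + 1) (M + 1 + M) := by
    ext n; rw [Finset.mem_Ioc, Finset.mem_Ico]; omega
  constructor
  · intro n hn
    rw [hI, Finset.mem_Ico] at hn
    obtain ⟨i, rfl⟩ := Nat.exists_eq_add_of_le hn.1
    rw [hcast]
    linarith [hpos i]
  · set w : ℕ → ℝ := fun n => Pe (α * (M + 1) + β + α * n) / √(α * (M + 1) + β + α * n)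
        - TK K (α * (M + 1) + β + α * n) with hw
    have hsum : ∑ n ∈ Finset.Ioc M (2 * M), |uu α β n - TK K (α * n + β)|
        = ∑ i ∈ Finset.range M, |w i| := by
      rw [hI, Finset.sum_Ico_eq_sum_range]
      have : M + 1 + M - (M + 1) = M := by omega
      rw [this]
      refine Finset.sum_congr rfl fun i _ => ?_
      simp only [uu, hw, hcast]
    have hCS : ∑ i ∈ Finset.range M, |w i| ≤ √M * N2 M (fun n => ((w n : ℝ) : ℂ)) := by
      have h1 := Finset.sum_mul_sq_le_sq_mul_sq (Finset.range M) (fun _ => (1 : ℝ)) (fun i => |w i|)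
      simp only [one_mul, one_pow, Finset.sum_const, Finset.card_range, nsmul_eq_mul, mul_one] at h1
      have h2 : N2 M (fun n => ((w n : ℝ) : ℂ)) ^ 2 = ∑ i ∈ Finset.range M, |w i| ^ 2 := by
        rw [N2_sq]
        refine Finset.sum_congr rfl fun i _ => ?_
        rw [Complex.norm_real, Real.norm_eq_abs]
      rw [← h2] at h1
      have h3 : (√(M : ℝ) * N2 M (fun n => ((w n : ℝ) : ℂ))) ^ 2
          = M * N2 M (fun n => ((w n : ℝ) : ℂ)) ^ 2 := by
        rw [mul_pow, Real.sq_sqrt (Nat.cast_nonneg M)]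
      rw [← h3] at h1
      exact le_of_sq_le_sq h1 (mul_nonneg (Real.sqrt_nonneg _) (N2_nonneg _ _))
    rw [hsum]
    have hsM : 0 < √(M : ℝ) := Real.sqrt_pos.mpr hM0
    have hsM2 : √(M : ℝ) * √M = M := Real.mul_self_sqrt hM0.le
    have hP : ((M : ℝ) * M) ^ (1 / 6 + 1 / 16 : ℝ) = √M * (M : ℝ) ^ (-(1 / 24) : ℝ) := by
      rw [← pow_two, ← Real.rpow_natCast, ← Real.rpow_mul hM0.le, Real.sqrt_eq_rpow,
        ← Real.rpow_add hM0]
      norm_num
    have hKe : (-(1 / 8) + 1 / 16 : ℝ) = -(1 / 16) := by norm_num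
    rw [hP, hKe] at hN
    calc (1 / (M : ℝ)) * ∑ i ∈ Finset.range M, |w i|
        ≤ (1 / (M : ℝ)) * (√M * (C * (√M * (K : ℝ) ^ (-(1 / 16) : ℝ)
          + √M * (M : ℝ) ^ (-(1 / 24) : ℝ)))) := by
          refine mul_le_mul_of_nonneg_left (hCS.trans ?_) (by positivity)
          exact mul_le_mul_of_nonneg_left hN hsM.le
      _ = (√M * √M) * (1 / M) * (C * ((K : ℝ) ^ (-(1 / 16) : ℝ) + (M : ℝ) ^ (-(1 / 24) : ℝ))) := by
          ring
      _ = C * ((K : ℝ) ^ (-(1 / 16) : ℝ) + (M : ℝ) ^ (-(1 / 24) : ℝ)) := by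
          rw [hsM2]; field_simp

lemma norm_mean_le (M : ℕ) (u : ℕ → ℂ) {v : ℕ → ℝ} (h : ∀ n ∈ Finset.Ioc M (2 * M), ‖u n‖ ≤ v n) :
    ‖mean M u‖ ≤ (1 / (M : ℝ)) * ∑ n ∈ Finset.Ioc M (2 * M), v n := by
  rw [mean, norm_mul, norm_div, norm_one, Complex.norm_natCast]
  refine mul_le_mul_of_nonneg_left ?_ (by positivity)
  exact (norm_sum_le _ _).trans (Finset.sum_le_sum h)

lemma rho_nonneg (k : ℕ) : 0 ≤ rho k := by
  unfold rho
  positivity

lemma one_le_gr_prime {p : ℕ} (hp : p.Prime) (h4 : ((p : ℕ) : ZMod 4) = 1) : 1 ≤ gr p := by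
  have := Fact.mk hp
  have hmod : p % 4 = 1 := by
    have := (ZMod.natCast_eq_natCast_iff p 1 4).mp (by simpa using h4)
    exact this
  obtain ⟨a, b, hab⟩ := Nat.Prime.sq_add_sq (p := p) (by omega)
  have hmem : (⟨a, b⟩ : GaussianInt) ∈ gS p := by
    show (⟨a, b⟩ : GaussianInt).norm = p
    rw [Zsqrtd.norm_def]
    have : (a : ℤ) ^ 2 + (b : ℤ) ^ 2 = p := by exact_mod_cast hab
    simp only
    linarith
  exact Nat.one_le_iff_ne_zero.mpr (Set.ncard_ne_zero_of_mem hmem (gS_finite p))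

open ArithmeticFunction in
/-- Finite sets of primes outside `S₀` with large total weight. -/
lemma exists_large_D (S₀ : Finset ℕ) (B : ℝ) : ∃ D : Finset ℕ, (∀ p ∈ D, p.Prime) ∧
    Disjoint S₀ D ∧ B < ∑ p ∈ D, rho p := by
  classical
  set A : Set ℕ := {p | p.Prime ∧ p ∉ S₀} with hA
  have hns : ¬ Summable (A.indicator rho) := by
    intro hsum
    have h1 := vonMangoldt.not_summable_residueClass_prime_div (q := 4) (a := 1) isUnit_one
    apply h1
    have hfin : Summable ((S₀ : Set ℕ).indicator fun n : ℕ => (vonMangoldt n : ℝ)) := by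
      refine summable_of_ne_finset_zero (s := S₀) fun n hn => ?_
      rw [Set.indicator_of_notMem (by exact_mod_cast hn)]
    refine Summable.of_nonneg_of_le (fun n => ?_) (fun n => ?_) ((hsum.mul_left 4).add hfin)
    · split_ifs
      · exact div_nonneg (vonMangoldt.residueClass_nonneg _ n) (Nat.cast_nonneg n)
      · simp
    · have hi1 : 0 ≤ A.indicator rho n := Set.indicator_nonneg (fun _ _ => rho_nonneg _) n
      have hi2 : 0 ≤ (S₀ : Set ℕ).indicator (fun n : ℕ => (vonMangoldt n : ℝ)) n :=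
        Set.indicator_nonneg (fun _ _ => vonMangoldt_nonneg) n
      by_cases hp : n.Prime
      · rw [if_pos hp]
        have hn1 : (1 : ℝ) ≤ n := by exact_mod_cast hp.one_lt.le
        have hn0 : (0 : ℝ) < n := by linarith
        by_cases hS : n ∈ S₀
        · have : (S₀ : Set ℕ).indicator (fun n : ℕ => (vonMangoldt n : ℝ)) n = vonMangoldt n :=
            Set.indicator_of_mem (by exact_mod_cast hS) _
          rw [this]
          have h2 := vonMangoldt.residueClass_le (1 : ZMod 4) n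
          have h3 : vonMangoldt.residueClass (1 : ZMod 4) n / n ≤ vonMangoldt n := by
            rw [div_le_iff₀ hn0]
            have : vonMangoldt n ≤ vonMangoldt n * (n : ℝ) :=
              le_mul_of_one_le_right vonMangoldt_nonneg hn1
            linarith
          linarith
        · have hnA : n ∈ A := ⟨hp, hS⟩
          rw [Set.indicator_of_mem hnA] at hi1 ⊢
          by_cases h4 : ((n : ℕ) : ZMod 4) = 1
          · have h2 := vonMangoldt.residueClass_le (1 : ZMod 4) n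
            rw [vonMangoldt_apply_prime hp] at h2
            have h3 : Real.log n ≤ 4 * (n : ℝ) ^ (1 / 4 : ℝ) := by
              have := Real.log_le_rpow_div hn0.le (show (0 : ℝ) < 1 / 4 by norm_num)
              linarith
            have h5 : 1 ≤ (gr n : ℝ) := by exact_mod_cast one_le_gr_prime hp h4
            have h6 : vonMangoldt.residueClass (1 : ZMod 4) n / n ≤ 4 * rho n := by
              rw [div_le_iff₀ hn0]
              have h7 : (n : ℝ) ^ (1 / 4 : ℝ) = (n : ℝ) ^ (-(3 / 4) : ℝ) * n := by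
                conv_rhs => rw [← Real.rpow_one (n : ℝ)]
                rw [Real.rpow_one, ← Real.rpow_add_one hn0.ne']
                norm_num
              rw [h7] at h3
              have h8 : 0 ≤ (n : ℝ) ^ (-(3 / 4) : ℝ) * n := by positivity
              have h9 : rho n * n = gr n * ((n : ℝ) ^ (-(3 / 4) : ℝ) * n) := by
                rw [rho]; ring
              nlinarith
            linarith
          · have h2 : vonMangoldt.residueClass (1 : ZMod 4) n = 0 := by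
              rw [vonMangoldt.residueClass]
              exact Set.indicator_of_notMem (by simpa using h4) _
            rw [h2, zero_div]
            linarith
      · rw [if_neg hp, zero_div]
        linarith
  have hnn : ∀ n, 0 ≤ A.indicator rho n := fun n =>
    Set.indicator_nonneg (fun _ _ => rho_nonneg _) n
  have ht := (not_summable_iff_tendsto_nat_atTop_of_nonneg hnn).mp hns
  obtain ⟨N, hN⟩ := (ht.eventually_gt_atTop B).exists
  refine ⟨(Finset.range N).filter (· ∈ A), ?_, ?_, ?_⟩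
  · intro p hp
    exact (Finset.mem_filter.mp hp).2.1
  · rw [Finset.disjoint_right]
    intro p hp
    exact (Finset.mem_filter.mp hp).2.2
  · rw [Finset.sum_filter]
    have h : ∑ a ∈ Finset.range N, (if a ∈ A then rho a else 0)
        = ∑ i ∈ Finset.range N, A.indicator rho i := by
      refine Finset.sum_congr rfl fun i _ => ?_
      by_cases hi : i ∈ A
      · rw [if_pos hi, Set.indicator_of_mem hi]
      · rw [if_neg hi, Set.indicator_of_notMem hi]
    rw [h]
    exact hN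

lemma mean_ofReal (M : ℕ) (f : ℕ → ℝ) : mean M (fun n => ((f n : ℝ) : ℂ))
    = (((1 / (M : ℝ)) * ∑ n ∈ Finset.Ioc M (2 * M), f n : ℝ) : ℂ) := by
  rw [mean]
  push_cast
  rfl

/-- Mean square of the normalised error. -/
lemma mean_sq_bound (α β : ℝ) (hα : 0 < α) : ∃ C : ℝ, 0 < C ∧
    ∀ᶠ M : ℕ in atTop, ∑ n ∈ Finset.Ioc M (2 * M), (uu α β n) ^ 2 ≤ C * M := by
  obtain ⟨C, M₀, hC, hmain⟩ := approx_main α β hα (ε := 1 / 16) (by norm_num) (by norm_num)
  obtain ⟨A, hA, hTK⟩ := abs_TK_le (ε := 1 / 16) (by norm_num) (by norm_num)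
  refine ⟨(2 * C + A) ^ 2, by positivity, ?_⟩
  filter_upwards [eventually_ge_atTop M₀, eventually_ge_atTop 1] with M hM hM1
  have hMr : (1 : ℝ) ≤ M := by exact_mod_cast hM1
  have hM0 : (0 : ℝ) < M := by linarith
  have hKM : ((1 : ℕ) : ℝ) ≤ ((M : ℝ) * M) ^ (2 / 3 : ℝ) := by
    rw [Nat.cast_one]
    exact Real.one_le_rpow (one_le_mul_of_one_le_of_one_le hMr hMr) (by norm_num)
  obtain ⟨hpos, hN⟩ := hmain M M 1 hM hM1 le_rfl le_rfl hKM
  have hcast : ∀ i : ℕ, α * ((M + 1 + i : ℕ) : ℝ) + β = α * (M + 1) + β + α * i := by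
    intro i; push_cast; ring
  have hI : Finset.Ioc M (2 * M) = Finset.Ico (M + 1) (M + 1 + M) := by
    ext n; rw [Finset.mem_Ioc, Finset.mem_Ico]; omega
  set R : ℕ → ℝ := fun n => α * (M + 1) + β + α * n with hR
  have hsum : ∑ n ∈ Finset.Ioc M (2 * M), (uu α β n) ^ 2
      = N2 M (fun n => ((Pe (R n) / √(R n) : ℝ) : ℂ)) ^ 2 := by
    rw [N2_sq, hI, Finset.sum_Ico_eq_sum_range]
    have : M + 1 + M - (M + 1) = M := by omega
    rw [this]
    refine Finset.sum_congr rfl fun i _ => ?_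
    rw [Complex.norm_real, Real.norm_eq_abs, sq_abs]
    simp only [uu, hR, hcast]
  have h1 : N2 M (fun n => ((Pe (R n) / √(R n) : ℝ) : ℂ))
      ≤ N2 M (fun n => ((Pe (R n) / √(R n) - TK 1 (R n) : ℝ) : ℂ)) + √M * A := by
    have e : (fun n => ((Pe (R n) / √(R n) : ℝ) : ℂ))
        = fun n => ((Pe (R n) / √(R n) - TK 1 (R n) : ℝ) : ℂ) + ((TK 1 (R n) : ℝ) : ℂ) := by
      funext n; push_cast; ring
    rw [e]
    refine (N2_add_le _ _ _).trans ?_
    have h2 : N2 M (fun n => ((TK 1 (R n) : ℝ) : ℂ)) ≤ √M * A := by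
      refine N2_le_of_bound hA.le fun n _ => ?_
      rw [Complex.norm_real, Real.norm_eq_abs]
      have := hTK 1 (R n)
      simpa using this
    linarith
  have hP : ((M : ℝ) * M) ^ (1 / 6 + 1 / 16 : ℝ) ≤ √M := by
    rw [← pow_two, ← Real.rpow_natCast, ← Real.rpow_mul hM0.le, Real.sqrt_eq_rpow]
    exact Real.rpow_le_rpow_of_exponent_le hMr (by norm_num)
  have hN' : N2 M (fun n => ((Pe (R n) / √(R n) - TK 1 (R n) : ℝ) : ℂ)) ≤ C * (2 * √M) := by
    refine hN.trans ?_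
    rw [Nat.cast_one, Real.one_rpow, mul_one]
    exact mul_le_mul_of_nonneg_left (by linarith) hC.le
  have h3 : N2 M (fun n => ((Pe (R n) / √(R n) : ℝ) : ℂ)) ≤ (2 * C + A) * √M := by linarith
  rw [hsum]
  have h4 := pow_le_pow_left₀ (N2_nonneg _ _) h3 2
  rwa [mul_pow, Real.sq_sqrt hM0.le] at h4

/-- The normalised error exceeds any given bound, in both directions, for a positive proportion of
the terms of every arithmetic progression of radii. -/
theorem omega_main (α β : ℝ) (hα : 0 < α) {σ : ℝ} (hσ : σ = 1 ∨ σ = -1) (B : ℝ) :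
    ∃ c : ℝ, 0 < c ∧ ∀ᶠ M : ℕ in atTop,
      c * M ≤ ((Finset.Ioc M (2 * M)).filter (fun n => B < σ * uu α β n)).card := by
  classical
  set B' : ℝ := max B 0 with hB'
  have hB0 : 0 ≤ B' := le_max_right _ _
  have hσ1 : |σ| ≤ 1 := by rcases hσ with rfl | rfl <;> norm_num
  have hσ2 : σ * σ = 1 := by rcases hσ with rfl | rfl <;> norm_num
  obtain ⟨C, hC, hmean⟩ := mean_abs_bound α β hα
  obtain ⟨C3, hC3, hsq⟩ := mean_sq_bound α β hα
  obtain ⟨A, hA, hTK⟩ := abs_TK_le (ε := 1 / 16) (by norm_num) (by norm_num)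
  obtain ⟨S₀, hS₀, hbad⟩ := exists_bad_set hα
  obtain ⟨D, hDp, hDS, hDsum⟩ := exists_large_D S₀ (2 * π * (2 * B' + 2 * C + A + 4))
  have hgood : Good α D := fun e he => hbad D e hDp hDS he
  set L : ℝ := 1 / (2 * π) * ∑ p ∈ D, rho p with hL
  have hLbig : 2 * B' + 2 * C + A + 4 < L := by
    rw [hL, one_div, inv_mul_eq_div, lt_div_iff₀ (by positivity)]
    linarith
  -- choose `K`
  set Q : ℝ := ((2 : ℝ) ^ D.card + 1) * C with hQ
  have hQ0 : 0 < Q := by positivity
  have hpow : Tendsto (fun x : ℕ => (x : ℝ) ^ (-(1 / 16) : ℝ)) atTop (𝓝 0) :=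
    (tendsto_rpow_neg_atTop (by norm_num : (0 : ℝ) < 1 / 16)).comp tendsto_natCast_atTop_atTop
  have hpow2 : Tendsto (fun x : ℕ => (x : ℝ) ^ (-(1 / 24) : ℝ)) atTop (𝓝 0) :=
    (tendsto_rpow_neg_atTop (by norm_num : (0 : ℝ) < 1 / 24)).comp tendsto_natCast_atTop_atTop
  have hsmall : (0 : ℝ) < 1 / (2 * Q) := by positivity
  obtain ⟨K, hKpow, hKD, hK1⟩ := ((hpow.eventually_lt_const hsmall).and
    ((eventually_ge_atTop (D.sup id)).and (eventually_ge_atTop 1))).exists
  have hDK : ∀ p ∈ D, 1 ≤ p ∧ p ≤ K := fun p hp =>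
    ⟨(hDp p hp).one_lt.le, (Finset.le_sup (f := id) hp).trans hKD⟩
  -- limits
  have l1 := tendsto_mean_W_TK (β := β) (σ := σ) hgood hDK
  have l2 := tendsto_mean_W (β := β) (σ := σ) hgood
  have l1' : ∀ᶠ M : ℕ in atTop, ‖mean M (fun n => (((Wr σ D (α * n + β) - 1) * TK K (α * n + β) : ℝ) : ℂ))
      - ((σ / (2 * π) * ∑ p ∈ D, rho p : ℝ) : ℂ)‖ < 1 := by
    have := (tendsto_iff_norm_sub_tendsto_zero.mp l1)
    exact this.eventually_lt_const (by norm_num)
  have l2' : ∀ᶠ M : ℕ in atTop, ‖mean M (fun n => ((Wr σ D (α * n + β) : ℝ) : ℂ)) - 1‖ < 1 := by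
    have := (tendsto_iff_norm_sub_tendsto_zero.mp l2)
    exact this.eventually_lt_const (by norm_num)
  set E : ℝ := (2 : ℝ) ^ D.card with hE
  have hE0 : 0 < E := by positivity
  refine ⟨1 / (E ^ 2 * C3), by positivity, ?_⟩
  filter_upwards [l1', l2', hpow2.eventually_lt_const hsmall,
    hpow2.eventually_lt_const (by norm_num : (0 : ℝ) < 1), hmean K hK1, hmean 1 le_rfl, hsq,
    eventually_ge_atTop 1] with M h1 h2 h3 h4 ⟨hpos, h5⟩ ⟨_, h6⟩ h7 hM1
  have hM0 : (0 : ℝ) < M := by exact_mod_cast hM1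
  set mr : (ℕ → ℝ) → ℝ := fun f => (1 / (M : ℝ)) * ∑ n ∈ Finset.Ioc M (2 * M), f n with hmr
  -- real forms
  have r1 : |mr (fun n => (Wr σ D (α * n + β) - 1) * TK K (α * n + β)) - σ * L| < 1 := by
    rw [mean_ofReal, ← Complex.ofReal_sub, Complex.norm_real, Real.norm_eq_abs] at h1
    have e : σ / (2 * π) * ∑ p ∈ D, rho p = σ * L := by rw [hL]; ring
    rw [e] at h1
    exact h1
  have r2 : mr (fun n => Wr σ D (α * n + β)) < 2 := by
    rw [mean_ofReal, ← Complex.ofReal_one, ← Complex.ofReal_sub, Complex.norm_real,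
      Real.norm_eq_abs] at h2
    have := (abs_lt.mp h2).2
    simp only [hmr]
    linarith
  have hWb : ∀ n : ℕ, |Wr σ D (α * n + β) - 1| ≤ E + 1 := by
    intro n
    have a1 := Wr_nonneg hσ1 D (α * n + β)
    have a2 := Wr_le hσ1 D (α * n + β)
    rw [abs_le]
    constructor <;> linarith
  have r3 : |mr (fun n => (Wr σ D (α * n + β) - 1) * (uu α β n - TK K (α * n + β)))| ≤ 1 := by
    have e1 : |mr (fun n => (Wr σ D (α * n + β) - 1) * (uu α β n - TK K (α * n + β)))|
        ≤ (E + 1) * mr (fun n => |uu α β n - TK K (α * n + β)|) := by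
      simp only [hmr]
      rw [abs_mul, abs_of_nonneg (by positivity : (0 : ℝ) ≤ 1 / M), mul_left_comm, Finset.mul_sum]
      refine mul_le_mul_of_nonneg_left ?_ (by positivity)
      refine (Finset.abs_sum_le_sum_abs _ _).trans (Finset.sum_le_sum fun n _ => ?_)
      rw [abs_mul]
      exact mul_le_mul_of_nonneg_right (hWb n) (abs_nonneg _)
    refine e1.trans ?_
    have e2 : (E + 1) * mr (fun n => |uu α β n - TK K (α * n + β)|)
        ≤ Q * ((K : ℝ) ^ (-(1 / 16) : ℝ) + (M : ℝ) ^ (-(1 / 24) : ℝ)) := by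
      rw [hQ, mul_assoc]
      exact mul_le_mul_of_nonneg_left h5 (by positivity)
    refine e2.trans ?_
    calc Q * ((K : ℝ) ^ (-(1 / 16) : ℝ) + (M : ℝ) ^ (-(1 / 24) : ℝ))
        ≤ Q * (1 / (2 * Q) + 1 / (2 * Q)) := by
          refine mul_le_mul_of_nonneg_left ?_ hQ0.le
          linarith
      _ = 1 := by field_simp; norm_num
  have r4 : |mr (fun n => uu α β n)| ≤ 2 * C + A := by
    have e1 : mr (fun n => uu α β n) = mr (fun n => uu α β n - TK 1 (α * n + β))
        + mr (fun n => TK 1 (α * n + β)) := by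
      simp only [hmr]
      rw [← mul_add, ← Finset.sum_add_distrib]
      congr 1
      exact Finset.sum_congr rfl fun n _ => by ring
    have e2 : |mr (fun n => uu α β n - TK 1 (α * n + β))| ≤ 2 * C := by
      have : |mr (fun n => uu α β n - TK 1 (α * n + β))|
          ≤ mr (fun n => |uu α β n - TK 1 (α * n + β)|) := by
        simp only [hmr]
        rw [abs_mul, abs_of_nonneg (by positivity : (0 : ℝ) ≤ 1 / M)]
        exact mul_le_mul_of_nonneg_left (Finset.abs_sum_le_sum_abs _ _) (by positivity)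
      refine this.trans (h6.trans ?_)
      rw [Nat.cast_one, Real.one_rpow]
      nlinarith
    have e3 : |mr (fun n => TK 1 (α * n + β))| ≤ A := by
      simp only [hmr]
      rw [abs_mul, abs_of_nonneg (by positivity : (0 : ℝ) ≤ 1 / M)]
      have : ∑ n ∈ Finset.Ioc M (2 * M), |TK 1 (α * n + β)| ≤ M * A := by
        refine (Finset.sum_le_card_nsmul _ _ A fun n _ => ?_).trans ?_
        · have := hTK 1 (α * n + β)
          simpa using this
        · rw [Nat.card_Ioc, nsmul_eq_mul]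
          have : 2 * M - M = M := by omega
          rw [this]
      calc 1 / (M : ℝ) * |∑ n ∈ Finset.Ioc M (2 * M), TK 1 (α * n + β)|
          ≤ 1 / (M : ℝ) * (M * A) := by
            refine mul_le_mul_of_nonneg_left ?_ (by positivity)
            exact (Finset.abs_sum_le_sum_abs _ _).trans this
        _ = A := by field_simp
    rw [e1]
    exact (abs_add_le _ _).trans (by linarith)
  -- the decomposition
  have dec : mr (fun n => Wr σ D (α * n + β) * uu α β n)
      = mr (fun n => (Wr σ D (α * n + β) - 1) * TK K (α * n + β))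
        + mr (fun n => (Wr σ D (α * n + β) - 1) * (uu α β n - TK K (α * n + β)))
        + mr (fun n => uu α β n) := by
    simp only [hmr]
    rw [← mul_add, ← mul_add, ← Finset.sum_add_distrib, ← Finset.sum_add_distrib]
    congr 1
    exact Finset.sum_congr rfl fun n _ => by ring
  set T : Finset ℕ := (Finset.Ioc M (2 * M)).filter (fun n => B < σ * uu α β n) with hT
  have up : σ * mr (fun n => Wr σ D (α * n + β) * uu α β n)
      ≤ B' * mr (fun n => Wr σ D (α * n + β)) + (1 / (M : ℝ)) * (E * ∑ n ∈ T, |uu α β n|) := by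
    have e1 : σ * mr (fun n => Wr σ D (α * n + β) * uu α β n)
        = (1 / (M : ℝ)) * ∑ n ∈ Finset.Ioc M (2 * M), σ * (Wr σ D (α * n + β) * uu α β n) := by
      simp only [hmr]
      rw [← Finset.mul_sum]; ring
    have e2 : B' * mr (fun n => Wr σ D (α * n + β)) + (1 / (M : ℝ)) * (E * ∑ n ∈ T, |uu α β n|)
        = (1 / (M : ℝ)) * ∑ n ∈ Finset.Ioc M (2 * M), (B' * Wr σ D (α * n + β)
          + if B < σ * uu α β n then E * |uu α β n| else 0) := by
      simp only [hmr]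
      rw [Finset.sum_add_distrib, ← Finset.sum_filter, ← hT, ← Finset.mul_sum, ← Finset.mul_sum]
      ring
    rw [e1, e2]
    refine mul_le_mul_of_nonneg_left (Finset.sum_le_sum fun n hn => ?_) (by positivity)
    have b3 := Wr_nonneg hσ1 D (α * n + β)
    have b4 := Wr_le hσ1 D (α * n + β)
    have b5 : σ * (Wr σ D (α * n + β) * uu α β n) = Wr σ D (α * n + β) * (σ * uu α β n) := by ring
    rw [b5]
    split_ifs with hlt
    · have b6 : σ * uu α β n ≤ |uu α β n| := by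
        refine (le_abs_self _).trans ?_
        rw [abs_mul]
        exact mul_le_of_le_one_left (abs_nonneg _) hσ1
      have b7 : Wr σ D (α * n + β) * (σ * uu α β n) ≤ E * |uu α β n| :=
        (mul_le_mul_of_nonneg_left b6 b3).trans (mul_le_mul_of_nonneg_right b4 (abs_nonneg _))
      have b8 : 0 ≤ B' * Wr σ D (α * n + β) := mul_nonneg hB0 b3
      linarith
    · have b1 : σ * uu α β n ≤ B := not_lt.mp hlt
      have b2 : σ * uu α β n ≤ B' := b1.trans (le_max_left _ _)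
      have b6 : Wr σ D (α * n + β) * (σ * uu α β n) ≤ Wr σ D (α * n + β) * B' :=
        mul_le_mul_of_nonneg_left b2 b3
      linarith
  have hW2 : B' * mr (fun n => Wr σ D (α * n + β)) ≤ B' * 2 :=
    mul_le_mul_of_nonneg_left r2.le hB0
  rw [dec] at up
  have c1 := abs_le.mp r1.le
  have c3 := abs_le.mp r3
  have c4 := abs_le.mp r4
  have hlow : 1 ≤ (1 / (M : ℝ)) * (E * ∑ n ∈ T, |uu α β n|) := by
    rcases hσ with rfl | rfl
    · linarith [c1.1, c3.1, c4.1]
    · linarith [c1.2, c3.2, c4.2]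
  -- Cauchy-Schwarz
  have hCS : (∑ n ∈ T, |uu α β n|) ^ 2 ≤ T.card * (C3 * M) := by
    have e1 := Finset.sum_mul_sq_le_sq_mul_sq T (fun _ => (1 : ℝ)) (fun i => |uu α β i|)
    simp only [one_mul, one_pow, Finset.sum_const, nsmul_eq_mul, mul_one, sq_abs] at e1
    refine e1.trans (mul_le_mul_of_nonneg_left ?_ (Nat.cast_nonneg _))
    refine le_trans ?_ h7
    exact Finset.sum_le_sum_of_subset_of_nonneg (Finset.filter_subset _ _) fun _ _ _ => sq_nonneg _
  have hS0 : (M : ℝ) / E ≤ ∑ n ∈ T, |uu α β n| := by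
    rw [div_le_iff₀ hE0]
    have e1 : (1 / (M : ℝ)) * (E * ∑ n ∈ T, |uu α β n|) = (∑ n ∈ T, |uu α β n|) * E / M := by ring
    rw [e1, le_div_iff₀ hM0] at hlow
    linarith
  have hfin : ((M : ℝ) / E) ^ 2 ≤ T.card * (C3 * M) :=
    (pow_le_pow_left₀ (by positivity) hS0 2).trans hCS
  rw [div_pow, div_le_iff₀ (by positivity)] at hfin
  rw [div_mul_eq_mul_div, one_mul, div_le_iff₀ (by positivity)]
  have e2 : (M : ℝ) * M ≤ ((T.card : ℝ) * (E ^ 2 * C3)) * M := by
    calc (M : ℝ) * M = (M : ℝ) ^ 2 := (pow_two _).symm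
      _ ≤ _ := hfin
      _ = _ := by ring
  exact le_of_mul_le_mul_right e2 hM0

end

end Pool.Agent.Helper22.GC
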