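import Mathlib
import Pool.Agent.Helper22.GC.Approx

/-!
# Large values of the error over well spaced radii
-/

open MeasureTheory Set Filter
open scoped Real ComplexConjugate Topology

namespace Pool.Agent.Helper22.GC

noncomputable section

/-- The block exponential sum. -/
def EK (K : ℕ) (t : ℝ) : ℂ := ∑ k ∈ Finset.Ico K (2 * K), ee (t * √k)

lemma EK_neg (K : ℕ) (t : ℝ) : ‖EK K (-t)‖ = ‖EK K t‖ := by
  have : EK K (-t) = conj (EK K t) := by
    rw [EK, EK, map_sum]
    refine Finset.sum_congr rfl fun k _ => ?_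
    rw [conj_ee]; congr 1; ring
  rw [this, Complex.norm_conj]

lemma EK_trivial (K : ℕ) (t : ℝ) : ‖EK K t‖ ≤ K := by
  refine (norm_sum_le _ _).trans ?_
  simp only [norm_ee, Finset.sum_const, Nat.card_Ico, nsmul_eq_mul, mul_one]
  have : 2 * K - K = K := by omega
  rw [this]

/-- Kusmin-Landau range. -/
lemma EK_small {K : ℕ} (hK : 1 ≤ K) {t : ℝ} (ht : 0 < t) (htK : t ≤ √K) :
    ‖EK K t‖ ≤ 3 * √K / t := by
  have hK0 : (0 : ℝ) < K := by exact_mod_cast hK
  have hsK : 0 < √(K : ℝ) := Real.sqrt_pos.mpr hK0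
  have hconj : ‖EK K t‖ = ‖∑ k ∈ Finset.Ico K (2 * K), ee (-(t * √k))‖ := by
    rw [← EK_neg, EK]
    congr 1
    refine Finset.sum_congr rfl fun k _ => ?_
    congr 1; ring
  rw [hconj]
  set θ : ℝ := t / (2 * (√2 * √K)) with hθ
  have hs2 : 0 < √(2 : ℝ) := by positivity
  have hs2' : √(2 : ℝ) ≤ 3 / 2 := by
    rw [Real.sqrt_le_left (by norm_num)]; norm_num
  have hs2'' : 1 ≤ √(2 : ℝ) := by rw [Real.one_le_sqrt]; norm_num
  have hθ0 : 0 < θ := by positivity
  have hθ1 : θ ≤ 1 / 2 := by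
    rw [hθ, div_le_iff₀ (by positivity)]
    nlinarith
  have key := kusmin_landau (f := fun k : ℕ => -(t * √k)) (a := K) (b := 2 * K) (m := -1) hθ0 ?_ ?_ ?_
  · refine key.trans ?_
    rw [hθ, one_div_div]
    apply div_le_div_of_nonneg_right _ ht.le
    nlinarith
  · intro n h1 h2
    have h3 := sqrt_second_diff (n : ℝ) (Nat.cast_nonneg n)
    have h4 : 0 ≤ 1 / (4 * ((n : ℝ) + 2) * √((n : ℝ) + 2)) := by positivity
    push_cast
    nlinarith
  · intro n h1 h2
    push_cast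
    have e1 := sqrt_diff (n : ℝ) (Nat.cast_nonneg n)
    have hn : (K : ℝ) ≤ n := by exact_mod_cast h1
    have i1 : √(K : ℝ) ≤ √(n : ℝ) := Real.sqrt_le_sqrt hn
    have i2 : √(K : ℝ) ≤ √((n : ℝ) + 1) := Real.sqrt_le_sqrt (by linarith)
    have h5 : √((n : ℝ) + 1) - √n ≤ 1 / (2 * √K) := by
      rw [e1]
      apply one_div_le_one_div_of_le (by positivity)
      linarith
    have h6 : t * (√((n : ℝ) + 1) - √n) ≤ 1 / 2 := by
      calc t * (√((n : ℝ) + 1) - √n) ≤ √K * (1 / (2 * √K)) := by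
            have : 0 ≤ √((n : ℝ) + 1) - √n := sub_nonneg.mpr (Real.sqrt_le_sqrt (by linarith))
            gcongr
        _ = 1 / 2 := by field_simp
    linarith
  · intro n h1 h2
    push_cast
    have e1 := sqrt_diff (n : ℝ) (Nat.cast_nonneg n)
    have hn : (n : ℝ) + 1 ≤ 2 * K := by exact_mod_cast (by omega : n + 1 ≤ 2 * K)
    have hs : √(2 * (K : ℝ)) = √2 * √K := Real.sqrt_mul (by norm_num) _
    have i1 : √(n : ℝ) ≤ √2 * √K := by rw [← hs]; exact Real.sqrt_le_sqrt (by linarith)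
    have i2 : √((n : ℝ) + 1) ≤ √2 * √K := by rw [← hs]; exact Real.sqrt_le_sqrt hn
    have h5 : 1 / (2 * (√2 * √K)) ≤ √((n : ℝ) + 1) - √n := by
      rw [e1]
      have : 0 < √((n : ℝ) + 1) := Real.sqrt_pos.mpr (by positivity)
      have := Real.sqrt_nonneg (n : ℝ)
      apply one_div_le_one_div_of_le (by positivity)
      linarith
    have h6 : θ ≤ t * (√((n : ℝ) + 1) - √n) := by
      rw [hθ, div_eq_mul_one_div]
      exact mul_le_mul_of_nonneg_left h5 ht.le
    linarith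

/-- The range of the second derivative test. -/
lemma EK_large {K : ℕ} (hK : 1 ≤ K) {t T : ℝ} (htK : √K ≤ t) (htT : t ≤ T) :
    ‖EK K t‖ ≤ 70 * (√T * √(√K)) := by
  have hK0 : (0 : ℝ) < K := by exact_mod_cast hK
  have hsK : 0 < √(K : ℝ) := Real.sqrt_pos.mpr hK0
  have ht : 0 < t := lt_of_lt_of_le hsK htK
  have h1 := sqrt_sum_bound ht hK
  have h2 : (K : ℝ) * √K / t ≤ t * √K := by
    rw [div_le_iff₀ ht]
    have : (K : ℝ) = √K * √K := (Real.mul_self_sqrt hK0.le).symm
    have h3 : √(K : ℝ) * √K ≤ t * t := mul_self_le_mul_self hsK.le htK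
    nlinarith
  have h3 : ‖EK K t‖ ^ 2 ≤ (70 * (√T * √(√K))) ^ 2 := by
    rw [mul_pow, mul_pow, Real.sq_sqrt (by linarith), Real.sq_sqrt hsK.le]
    have h4 : ‖EK K t‖ ^ 2 ≤ 2400 * (t * √K + K * √K / t) := h1
    have h5 : t * √K ≤ T * √K := mul_le_mul_of_nonneg_right htT hsK.le
    nlinarith
  exact le_of_sq_le_sq h3 (by positivity)

lemma sum_inj_le {S : Finset ℕ} {φ : ℕ → ℕ} {N : ℕ} {f : ℕ → ℝ} (hf : ∀ i, 0 ≤ f i)
    (hφ : Set.InjOn φ S) (hr : ∀ n ∈ S, φ n < N) :
    ∑ n ∈ S, f (φ n) ≤ ∑ i ∈ Finset.range N, f i := by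
  classical
  rw [← Finset.sum_image hφ]
  refine Finset.sum_le_sum_of_subset_of_nonneg ?_ fun _ _ _ => hf _
  intro i hi
  obtain ⟨n, hn, rfl⟩ := Finset.mem_image.mp hi
  exact Finset.mem_range.mpr (hr n hn)

/-- Sum of the block sums over differences of well spaced points. -/
lemma sum_EK_le {S : Finset ℕ} {x : ℕ → ℝ} {T : ℝ} {K : ℕ} (hK : 1 ≤ K)
    (hsep : ∀ m ∈ S, ∀ n ∈ S, |(m : ℝ) - n| - 1 ≤ |x m - x n|)
    (hdiam : ∀ m ∈ S, ∀ n ∈ S, |x m - x n| ≤ T) {m : ℕ} (hm : m ∈ S) :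
    ∑ n ∈ S, ‖EK K (x m - x n)‖ ≤ 40 * K + S.card * (70 * (√T * √(√K))) := by
  classical
  have hK0 : (1 : ℝ) ≤ K := by exact_mod_cast hK
  have hsK : 1 ≤ √(K : ℝ) := by rw [Real.one_le_sqrt]; exact hK0
  have hsK2 : √(K : ℝ) * √K = K := Real.mul_self_sqrt (by linarith)
  set Dn : ℕ := ⌊2 * √(K : ℝ)⌋₊ with hDn
  have hDn1 : (Dn : ℝ) ≤ 2 * √K := Nat.floor_le (by positivity)
  set f : ℕ → ℝ := fun i => 6 * √K * (1 / ((i + 1 : ℕ) : ℝ)) with hf
  have hf0 : ∀ i, 0 ≤ f i := fun i => by positivity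
  set A : ℕ → ℝ := fun n => if n = m ∨ n = m + 1 ∨ n + 1 = m then (K : ℝ) else 0 with hA
  set B1 : ℕ → ℝ := fun n => if n < m ∧ m - n ≤ Dn then f (m - n - 1) else 0 with hB1
  set B2 : ℕ → ℝ := fun n => if m < n ∧ n - m ≤ Dn then f (n - m - 1) else 0 with hB2
  have hA0 : ∀ n, 0 ≤ A n := fun n => by simp only [hA]; split_ifs <;> linarith
  have hB10 : ∀ n, 0 ≤ B1 n := fun n => by simp only [hB1]; split_ifs <;> [exact hf0 _; exact le_rfl]
  have hB20 : ∀ n, 0 ≤ B2 n := fun n => by simp only [hB2]; split_ifs <;> [exact hf0 _; exact le_rfl]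
  have hL : 0 ≤ 70 * (√T * √(√(K : ℝ))) := by positivity
  have key : ∀ n ∈ S, ‖EK K (x m - x n)‖ ≤ A n + (B1 n + B2 n) + 70 * (√T * √(√K)) := by
    intro n hn
    by_cases hnear : n = m ∨ n = m + 1 ∨ n + 1 = m
    · have h1 := EK_trivial K (x m - x n)
      have : A n = K := by simp only [hA]; rw [if_pos hnear]
      rw [this]
      linarith [hB10 n, hB20 n]
    · push Not at hnear
      have habs : ‖EK K (x m - x n)‖ = ‖EK K |x m - x n|‖ := by
        rcases abs_cases (x m - x n) with ⟨h, _⟩ | ⟨h, _⟩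
        · rw [h]
        · rw [h, EK_neg]
      rw [habs]
      have hs := hsep m hm n hn
      have hd := hdiam m hm n hn
      set t : ℝ := |x m - x n| with ht
      rcases Nat.lt_or_ge n m with hlt | hge
      · -- n < m, m - n ≥ 2
        obtain ⟨d, hd2⟩ : ∃ d, m = n + d := ⟨m - n, by omega⟩
        have hd3 : 2 ≤ d := by omega
        have hdr : (2 : ℝ) ≤ d := by exact_mod_cast hd3
        have habs2 : |(m : ℝ) - n| = d := by
          rw [hd2]; push_cast; rw [add_sub_cancel_left]; exact abs_of_nonneg (by linarith)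
        rw [habs2] at hs
        have ht2 : (d : ℝ) / 2 ≤ t := by linarith
        have ht0 : 0 < t := by linarith
        rcases le_or_gt t (√K) with htK | htK
        · have h1 := EK_small hK ht0 htK
          have hdD : d ≤ Dn := by
            rw [hDn]
            refine Nat.le_floor ?_
            linarith
          have hcond : n < m ∧ m - n ≤ Dn := ⟨hlt, by omega⟩
          have hB : B1 n = 6 * √K * (1 / (d : ℝ)) := by
            simp only [hB1]
            rw [if_pos hcond]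
            simp only [hf]
            have : m - n - 1 + 1 = d := by omega
            rw [this]
          have h2 : 3 * √(K : ℝ) / t ≤ 6 * √K * (1 / (d : ℝ)) := by
            rw [mul_one_div, div_le_div_iff₀ ht0 (by linarith)]
            nlinarith
          rw [hB]
          linarith [hA0 n, hB20 n]
        · have h1 := EK_large hK htK.le hd
          linarith [hA0 n, hB10 n, hB20 n]
      · -- n > m
        obtain ⟨d, hd2⟩ : ∃ d, n = m + d := ⟨n - m, by omega⟩
        have hd3 : 2 ≤ d := by omega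
        have hdr : (2 : ℝ) ≤ d := by exact_mod_cast hd3
        have habs2 : |(m : ℝ) - n| = d := by
          rw [hd2]; push_cast
          have : (m : ℝ) - (m + d) = -(d : ℝ) := by ring
          rw [this, abs_neg]; exact abs_of_nonneg (by linarith)
        rw [habs2] at hs
        have ht2 : (d : ℝ) / 2 ≤ t := by linarith
        have ht0 : 0 < t := by linarith
        rcases le_or_gt t (√K) with htK | htK
        · have h1 := EK_small hK ht0 htK
          have hdD : d ≤ Dn := by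
            rw [hDn]
            refine Nat.le_floor ?_
            linarith
          have hcond : m < n ∧ n - m ≤ Dn := ⟨by omega, by omega⟩
          have hB : B2 n = 6 * √K * (1 / (d : ℝ)) := by
            simp only [hB2]
            rw [if_pos hcond]
            simp only [hf]
            have : n - m - 1 + 1 = d := by omega
            rw [this]
          have h2 : 3 * √(K : ℝ) / t ≤ 6 * √K * (1 / (d : ℝ)) := by
            rw [mul_one_div, div_le_div_iff₀ ht0 (by linarith)]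
            nlinarith
          rw [hB]
          linarith [hA0 n, hB10 n]
        · have h1 := EK_large hK htK.le hd
          linarith [hA0 n, hB10 n, hB20 n]
  refine (Finset.sum_le_sum key).trans ?_
  rw [Finset.sum_add_distrib, Finset.sum_add_distrib, Finset.sum_add_distrib, Finset.sum_const,
    nsmul_eq_mul]
  have hharm : ∑ i ∈ Finset.range Dn, f i ≤ 18 * K := by
    simp only [hf]
    rw [← Finset.mul_sum]
    have h1 := harmonic_le_sqrt Dn
    have h2 : √(Dn : ℝ) ≤ 3 / 2 * √K := by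
      rw [show (3 / 2 : ℝ) * √K = √((3 / 2) ^ 2 * K) by
        rw [Real.sqrt_mul (by positivity), Real.sqrt_sq (by norm_num)]]
      apply Real.sqrt_le_sqrt
      nlinarith
    calc 6 * √(K : ℝ) * ∑ i ∈ Finset.range Dn, (1 : ℝ) / ((i + 1 : ℕ) : ℝ)
        ≤ 6 * √K * (2 * (3 / 2 * √K)) := by
          refine mul_le_mul_of_nonneg_left ?_ (by positivity)
          linarith
      _ = 18 * (√K * √K) := by ring
      _ = 18 * K := by rw [hsK2]
  have hAs : ∑ n ∈ S, A n ≤ 3 * K := by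
    simp only [hA]
    rw [← Finset.sum_filter, Finset.sum_const, nsmul_eq_mul]
    have hc : (S.filter (fun n => n = m ∨ n = m + 1 ∨ n + 1 = m)).card ≤ 3 := by
      have hsub : S.filter (fun n => n = m ∨ n = m + 1 ∨ n + 1 = m) ⊆ {m, m + 1, m - 1} := by
        intro n hn
        rw [Finset.mem_filter] at hn
        simp only [Finset.mem_insert, Finset.mem_singleton]
        omega
      exact (Finset.card_le_card hsub).trans Finset.card_le_three
    have : ((S.filter (fun n => n = m ∨ n = m + 1 ∨ n + 1 = m)).card : ℝ) ≤ 3 := by exact_mod_cast hc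
    nlinarith
  have hB1s : ∑ n ∈ S, B1 n ≤ 18 * K := by
    simp only [hB1]
    rw [← Finset.sum_filter]
    refine (sum_inj_le (N := Dn) (φ := fun n => m - n - 1) hf0 ?_ ?_).trans hharm
    · intro a ha b hb hab
      rw [Finset.mem_coe, Finset.mem_filter] at ha hb
      simp only at hab
      omega
    · intro n hn
      rw [Finset.mem_filter] at hn
      omega
  have hB2s : ∑ n ∈ S, B2 n ≤ 18 * K := by
    simp only [hB2]
    rw [← Finset.sum_filter]
    refine (sum_inj_le (N := Dn) (φ := fun n => n - m - 1) hf0 ?_ ?_).trans hharm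
    · intro a ha b hb hab
      rw [Finset.mem_coe, Finset.mem_filter] at ha hb
      simp only at hab
      omega
    · intro n hn
      rw [Finset.mem_filter] at hn
      omega
  linarith

/-- Duality: a large value inequality for one block. -/
lemma block_large {S : Finset ℕ} {x : ℕ → ℝ} {T W ρ : ℝ} {K : ℕ} (hK : 1 ≤ K)
    (hsep : ∀ m ∈ S, ∀ n ∈ S, |(m : ℝ) - n| - 1 ≤ |x m - x n|)
    (hdiam : ∀ m ∈ S, ∀ n ∈ S, |x m - x n| ≤ T) (c : ℕ → ℂ)
    (hc : ∀ k ∈ Finset.Ico K (2 * K), ‖c k‖ ≤ ρ) (hW : 0 ≤ W)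
    (hlarge : ∀ n ∈ S, W ≤ ‖∑ k ∈ Finset.Ico K (2 * K), c k * ee (x n * √k)‖) :
    (S.card : ℝ) * W ^ 2 ≤ K * ρ ^ 2 * (40 * K + S.card * (70 * (√T * √(√K)))) := by
  classical
  rcases S.eq_empty_or_nonempty with rfl | hne
  · simp
    positivity
  have hN0 : (0 : ℝ) < S.card := by exact_mod_cast Finset.card_pos.mpr hne
  -- unimodular signs
  set b : ℕ → ℂ := fun n => ∑ k ∈ Finset.Ico K (2 * K), c k * ee (x n * √k) with hb
  set ε : ℕ → ℂ := fun n => if b n = 0 then 0 else conj (b n) / ‖b n‖ with hε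
  have hε1 : ∀ n, ‖ε n‖ ≤ 1 := by
    intro n
    simp only [hε]
    split_ifs with h
    · simp
    · rw [norm_div, Complex.norm_conj, Complex.norm_real, norm_norm, div_self (norm_ne_zero_iff.mpr h)]
  have hεb : ∀ n, ε n * b n = ‖b n‖ := by
    intro n
    simp only [hε]
    split_ifs with h
    · simp [h]
    · have h1 : ((‖b n‖ : ℝ) : ℂ) ≠ 0 := by exact_mod_cast norm_ne_zero_iff.mpr h
      rw [div_mul_eq_mul_div, mul_comm, Complex.mul_conj, Complex.normSq_eq_norm_sq, div_eq_iff h1]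
      push_cast
      ring
  have hsum : (((∑ n ∈ S, ‖b n‖ : ℝ)) : ℂ) = ∑ k ∈ Finset.Ico K (2 * K), c k *
      ∑ n ∈ S, ε n * ee (x n * √k) := by
    have h1 : (((∑ n ∈ S, ‖b n‖ : ℝ)) : ℂ) = ∑ n ∈ S, ε n * b n := by
      rw [Complex.ofReal_sum]
      exact Finset.sum_congr rfl fun n _ => (hεb n).symm
    rw [h1]
    simp only [hb, Finset.mul_sum]
    rw [Finset.sum_comm]
    refine Finset.sum_congr rfl fun k _ => Finset.sum_congr rfl fun n _ => ?_
    ring
  set g : ℕ → ℂ := fun k => ∑ n ∈ S, ε n * ee (x n * √k) with hg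
  have hdual : ∑ k ∈ Finset.Ico K (2 * K), ‖g k‖ ^ 2
      ≤ S.card * (40 * K + S.card * (70 * (√T * √(√K)))) := by
    have h1 : ((∑ k ∈ Finset.Ico K (2 * K), ‖g k‖ ^ 2 : ℝ) : ℂ)
        = ∑ m ∈ S, ∑ n ∈ S, ε m * conj (ε n) * EK K (x m - x n) := by
      have hsq : ∀ z : ℂ, ((‖z‖ ^ 2 : ℝ) : ℂ) = z * conj z := by
        intro z
        rw [Complex.mul_conj, Complex.normSq_eq_norm_sq]
      simp only [Complex.ofReal_sum, hsq]
      have h2 : ∀ k : ℕ, g k * conj (g k) = ∑ m ∈ S, ∑ n ∈ S, ε m * conj (ε n) *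
          ee ((x m - x n) * √k) := by
        intro k
        simp only [hg]
        rw [map_sum, Finset.sum_mul_sum]
        refine Finset.sum_congr rfl fun m _ => Finset.sum_congr rfl fun n _ => ?_
        rw [map_mul, conj_ee]
        have : ee ((x m - x n) * √(k : ℝ)) = ee (x m * √k) * ee (-(x n * √k)) := by
          rw [← ee_add]; congr 1; ring
        rw [this]
        ring
      simp only [h2]
      rw [Finset.sum_comm]
      refine Finset.sum_congr rfl fun m _ => ?_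
      rw [Finset.sum_comm]
      refine Finset.sum_congr rfl fun n _ => ?_
      rw [EK, Finset.mul_sum]
    have h0 : 0 ≤ ∑ k ∈ Finset.Ico K (2 * K), ‖g k‖ ^ 2 := Finset.sum_nonneg fun _ _ => by positivity
    have h3 : ∑ k ∈ Finset.Ico K (2 * K), ‖g k‖ ^ 2
        = ‖((∑ k ∈ Finset.Ico K (2 * K), ‖g k‖ ^ 2 : ℝ) : ℂ)‖ := by
      rw [Complex.norm_real, Real.norm_of_nonneg h0]
    rw [h3, h1]
    refine (norm_sum_le _ _).trans ?_
    refine (Finset.sum_le_card_nsmul _ _ (40 * K + S.card * (70 * (√T * √(√K)))) fun m hm => ?_).trans ?_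
    · refine (norm_sum_le _ _).trans ((Finset.sum_le_sum fun n _ => ?_).trans
        (sum_EK_le hK hsep hdiam hm))
      rw [norm_mul, norm_mul, Complex.norm_conj]
      calc ‖ε m‖ * ‖ε n‖ * ‖EK K (x m - x n)‖ ≤ 1 * 1 * ‖EK K (x m - x n)‖ := by
            gcongr <;> exact hε1 _
        _ = _ := by ring
    · rw [nsmul_eq_mul]
  have hlow : (S.card : ℝ) * W ≤ ∑ n ∈ S, ‖b n‖ := by
    have := Finset.card_nsmul_le_sum S (fun n => ‖b n‖) W (fun n hn => hlarge n hn)
    rwa [nsmul_eq_mul] at this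
  have hup : ∑ n ∈ S, ‖b n‖ ≤ ∑ k ∈ Finset.Ico K (2 * K), ‖c k‖ * ‖g k‖ := by
    have h0 : 0 ≤ ∑ n ∈ S, ‖b n‖ := Finset.sum_nonneg fun _ _ => norm_nonneg _
    have h1 : ∑ n ∈ S, ‖b n‖ = ‖(((∑ n ∈ S, ‖b n‖ : ℝ)) : ℂ)‖ := by
      rw [Complex.norm_real, Real.norm_of_nonneg h0]
    rw [h1, hsum]
    refine (norm_sum_le _ _).trans (Finset.sum_le_sum fun k _ => ?_)
    rw [norm_mul]
  have hCS := Finset.sum_mul_sq_le_sq_mul_sq (Finset.Ico K (2 * K)) (fun k => ‖c k‖) (fun k => ‖g k‖)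
  have hc2 : ∑ k ∈ Finset.Ico K (2 * K), ‖c k‖ ^ 2 ≤ K * ρ ^ 2 := by
    refine (Finset.sum_le_card_nsmul _ _ (ρ ^ 2) fun k hk =>
      pow_le_pow_left₀ (norm_nonneg _) (hc k hk) 2).trans ?_
    rw [Nat.card_Ico, nsmul_eq_mul]
    have : 2 * K - K = K := by omega
    rw [this]
  set Z : ℝ := 40 * K + S.card * (70 * (√T * √(√K))) with hZ
  have hZ0 : 0 ≤ Z := by positivity
  have h1 : ((S.card : ℝ) * W) ^ 2 ≤ (K * ρ ^ 2) * (S.card * Z) := by
    calc ((S.card : ℝ) * W) ^ 2 ≤ (∑ k ∈ Finset.Ico K (2 * K), ‖c k‖ * ‖g k‖) ^ 2 :=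
          pow_le_pow_left₀ (by positivity) (hlow.trans hup) 2
      _ ≤ _ := hCS
      _ ≤ (K * ρ ^ 2) * (S.card * Z) := by
          exact mul_le_mul hc2 hdual (Finset.sum_nonneg fun _ _ => by positivity) (by positivity)
  have h2 : (S.card : ℝ) * ((S.card : ℝ) * W ^ 2) ≤ (S.card : ℝ) * (K * ρ ^ 2 * Z) := by
    calc (S.card : ℝ) * ((S.card : ℝ) * W ^ 2) = ((S.card : ℝ) * W) ^ 2 := by ring
      _ ≤ _ := h1
      _ = _ := by ring
  exact le_of_mul_le_mul_left h2 hN0

end

end Pool.Agent.Helper22.GC
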