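import Mathlib
import Pool.Agent.Helper22.GC.Large

/-!
# Counting large values of one block over a long segment
-/

open MeasureTheory Set Filter
open scoped Real ComplexConjugate Topology

namespace Pool.Agent.Helper22.GC

noncomputable section

/-- Cutting a set of integers into short pieces. -/
lemma seg_count {S : Finset ℕ} {M H L : ℕ} (hL : 1 ≤ L) (hS : ∀ m ∈ S, M < m ∧ m ≤ M + H)
    {B : ℝ} (hB : 0 ≤ B)
    (hpc : ∀ S' ⊆ S, (∀ m ∈ S', ∀ n ∈ S', m < n + L) → (S'.card : ℝ) ≤ B) :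
    (S.card : ℝ) ≤ ((H : ℝ) / L + 1) * B := by
  classical
  have hmap : ∀ m ∈ S, (m - M - 1) / L ∈ Finset.range (H / L + 1) := by
    intro m hm
    obtain ⟨h1, h2⟩ := hS m hm
    rw [Finset.mem_range]
    have : (m - M - 1) / L ≤ H / L := Nat.div_le_div_right (by omega)
    omega
  rw [Finset.card_eq_sum_card_fiberwise hmap]
  push_cast
  have h1 : ∀ q ∈ Finset.range (H / L + 1),
      ((S.filter (fun m => (m - M - 1) / L = q)).card : ℝ) ≤ B := by
    intro q _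
    refine hpc _ (Finset.filter_subset _ _) ?_
    intro m hm n hn
    rw [Finset.mem_filter] at hm hn
    obtain ⟨h1, _⟩ := hS m hm.1
    obtain ⟨h2, _⟩ := hS n hn.1
    have h3 := Nat.div_add_mod (m - M - 1) L
    have h4 := Nat.div_add_mod (n - M - 1) L
    have h5 := Nat.mod_lt (m - M - 1) (by omega : 0 < L)
    have h6 := Nat.mod_lt (n - M - 1) (by omega : 0 < L)
    rw [hm.2] at h3
    rw [hn.2] at h4
    omega
  refine (Finset.sum_le_card_nsmul _ _ _ h1).trans ?_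
  rw [Finset.card_range, nsmul_eq_mul]
  refine mul_le_mul_of_nonneg_right ?_ hB
  push_cast
  have : ((H / L : ℕ) : ℝ) ≤ (H : ℝ) / L := Nat.cast_div_le
  linarith

/-- The algebra of the block count. -/
lemma block_algebra_one {A b e v W Hr : ℝ} (hA : 0 < A) (hb : 1 ≤ b) (he : 1 ≤ e) (hv : 0 < v)
    (hW : 0 < W) (hH : 0 ≤ Hr) (hT : (W ^ 2 / (140 * (A ^ 2 * v ^ 2 * e ^ 2 / b ^ 2) * b)) < 1) :
    Hr ≤ 140 ^ 3 * A ^ 6 * (Hr * (e ^ 6 * v ^ 6) / W ^ 6) := by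
  have hb0 : 0 < b := by linarith
  have he0 : 0 < e := by linarith
  set Z : ℝ := 140 * (A ^ 2 * v ^ 2 * e ^ 2 / b ^ 2) * b with hZ
  have hZ0 : 0 < Z := by positivity
  have h1 : W ^ 2 < Z := by rwa [div_lt_one hZ0] at hT
  have hZ2 : Z ≤ 140 * A ^ 2 * v ^ 2 * e ^ 2 := by
    rw [hZ]
    have : 140 * (A ^ 2 * v ^ 2 * e ^ 2 / b ^ 2) * b = 140 * A ^ 2 * v ^ 2 * e ^ 2 / b := by
      field_simp
    rw [this, div_le_iff₀ hb0]
    exact le_mul_of_one_le_right (by positivity) hb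
  have h2 : W ^ 6 ≤ (140 * A ^ 2 * v ^ 2 * e ^ 2) ^ 3 := by
    have : W ^ 6 = (W ^ 2) ^ 3 := by ring
    rw [this]
    exact pow_le_pow_left₀ (by positivity) (h1.le.trans hZ2) 3
  have h3 : 140 ^ 3 * A ^ 6 * (Hr * (e ^ 6 * v ^ 6) / W ^ 6)
      = Hr * ((140 * A ^ 2 * v ^ 2 * e ^ 2) ^ 3 / W ^ 6) := by
    field_simp
  rw [h3]
  refine le_mul_of_one_le_right hH ?_
  rw [one_le_div (by positivity)]
  exact h2

lemma block_algebra_two {A b e v W Hr T : ℝ} (hA : 0 < A) (hb : 1 ≤ b) (he : 1 ≤ e) (hv : 0 < v)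
    (hW : 0 < W) (hH : 0 ≤ Hr) (hT : T = (W ^ 2 / (140 * (A ^ 2 * v ^ 2 * e ^ 2 / b ^ 2) * b)) ^ 2) :
    (2 * Hr / T + 1) * (80 * (A ^ 2 * v ^ 2 * e ^ 2 / b ^ 2) * b ^ 4 / W ^ 2)
      = 160 * 140 ^ 2 * A ^ 6 * (Hr * (e ^ 6 * v ^ 6) / W ^ 6)
        + 80 * A ^ 2 * (b ^ 2 * e ^ 2 * v ^ 2 / W ^ 2) := by
  have hb0 : 0 < b := by linarith
  have he0 : 0 < e := by linarith
  rw [hT]
  field_simp
  ring

/-- Large values of one block over a long segment. -/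
theorem block_count {A : ℝ} (hA : 0 < A) : ∃ C : ℝ, 0 < C ∧ ∀ (S : Finset ℕ) (x : ℕ → ℝ)
    (M H K : ℕ) (c : ℕ → ℂ) (e v W : ℝ), 1 ≤ K → 1 ≤ e → 0 < v → 0 < W →
    (∀ m ∈ S, M < m ∧ m ≤ M + H) →
    (∀ m ∈ S, ∀ n ∈ S, |(m : ℝ) - n| - 1 ≤ |x m - x n| ∧ |x m - x n| ≤ |(m : ℝ) - n| + 1) →
    (∀ k ∈ Finset.Ico K (2 * K), ‖c k‖ ≤ A * ((K : ℝ) ^ (-(3 / 4) : ℝ) * e) * v) →
    (∀ m ∈ S, W ≤ ‖∑ k ∈ Finset.Ico K (2 * K), c k * ee (x m * √k)‖) →
    (S.card : ℝ) ≤ C * (H * (e ^ 6 * v ^ 6) / W ^ 6 + √K * e ^ 2 * v ^ 2 / W ^ 2) := by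
  refine ⟨160 * 140 ^ 2 * A ^ 6 + 80 * A ^ 2, by positivity, ?_⟩
  intro S x M H K c e v W hK he hv hW hS hx hc hlarge
  have hK0 : (0 : ℝ) < K := by exact_mod_cast hK
  have hK1 : (1 : ℝ) ≤ K := by exact_mod_cast hK
  have he0 : 0 < e := by linarith
  set b : ℝ := √(√(K : ℝ)) with hb
  have hb1 : 1 ≤ b := by
    rw [hb, Real.one_le_sqrt, Real.one_le_sqrt]; exact hK1
  have hb0 : 0 < b := by linarith
  have hb2 : b ^ 2 = √K := Real.sq_sqrt (Real.sqrt_nonneg _)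
  have hb4 : b ^ 4 = K := by
    have : b ^ 4 = (b ^ 2) ^ 2 := by ring
    rw [this, hb2, Real.sq_sqrt hK0.le]
  have hbr : b = (K : ℝ) ^ (1 / 4 : ℝ) := by
    rw [hb, Real.sqrt_eq_rpow, Real.sqrt_eq_rpow, ← Real.rpow_mul hK0.le]; norm_num
  have hK34 : (K : ℝ) ^ (-(3 / 4) : ℝ) = 1 / b ^ 3 := by
    rw [hbr, ← Real.rpow_natCast, ← Real.rpow_mul hK0.le, one_div, ← Real.rpow_neg hK0.le]
    norm_num
  set ρ : ℝ := A * ((K : ℝ) ^ (-(3 / 4) : ℝ) * e) * v with hρ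
  have hKρ : (K : ℝ) * ρ ^ 2 = A ^ 2 * v ^ 2 * e ^ 2 / b ^ 2 := by
    rw [hρ, hK34, ← hb4]
    field_simp
  set B0 : ℝ := A ^ 2 * v ^ 2 * e ^ 2 / b ^ 2 with hB0
  have hB00 : 0 < B0 := by positivity
  set T : ℝ := (W ^ 2 / (140 * B0 * b)) ^ 2 with hT
  have hsT : √T = W ^ 2 / (140 * B0 * b) := Real.sqrt_sq (by positivity)
  have hT0 : 0 < T := by positivity
  have hterm1 : 0 ≤ (H : ℝ) * (e ^ 6 * v ^ 6) / W ^ 6 := by positivity
  have hterm2 : 0 ≤ √(K : ℝ) * e ^ 2 * v ^ 2 / W ^ 2 := by positivity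
  rcases lt_or_ge T 1 with hT1 | hT1
  · have hcard : (S.card : ℝ) ≤ H := by
      have hsub : S ⊆ Finset.Ioc M (M + H) := by
        intro m hm
        rw [Finset.mem_Ioc]
        exact hS m hm
      have := Finset.card_le_card hsub
      rw [Nat.card_Ioc, Nat.add_sub_cancel_left] at this
      exact_mod_cast this
    have h1 : W ^ 2 / (140 * B0 * b) < 1 := by
      by_contra hcon
      push Not at hcon
      have : 1 ≤ T := by
        rw [hT]; exact one_le_pow₀ hcon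
      linarith
    have h2 := block_algebra_one hA hb1 he hv hW (Nat.cast_nonneg H) h1
    have h3 : 140 ^ 3 * A ^ 6 * ((H : ℝ) * (e ^ 6 * v ^ 6) / W ^ 6)
        ≤ (160 * 140 ^ 2 * A ^ 6) * ((H : ℝ) * (e ^ 6 * v ^ 6) / W ^ 6) := by
      refine mul_le_mul_of_nonneg_right ?_ hterm1
      have : 0 < A ^ 6 := by positivity
      nlinarith
    have h4 : 0 ≤ 80 * A ^ 2 * ((H : ℝ) * (e ^ 6 * v ^ 6) / W ^ 6) := by positivity
    have h5 : 0 ≤ (160 * 140 ^ 2 * A ^ 6 + 80 * A ^ 2) * (√(K : ℝ) * e ^ 2 * v ^ 2 / W ^ 2) := by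
      positivity
    rw [mul_add]
    linarith
  · set L : ℕ := ⌊T⌋₊ with hL
    have hL1 : 1 ≤ L := Nat.le_floor (by simpa using hT1)
    have hLT : (L : ℝ) ≤ T := Nat.floor_le hT0.le
    have hTL : T ≤ 2 * L := by
      have h1 := Nat.lt_floor_add_one T
      have h2 : (1 : ℝ) ≤ L := by exact_mod_cast hL1
      rw [← hL] at h1
      linarith
    have hL0 : (0 : ℝ) < L := by exact_mod_cast hL1
    have key := seg_count hL1 hS (B := 80 * B0 * b ^ 4 / W ^ 2) (by positivity) ?_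
    · refine key.trans ?_
      have h1 : (H : ℝ) / L ≤ 2 * H / T := by
        rw [div_le_div_iff₀ hL0 hT0]
        have : (H : ℝ) * T ≤ H * (2 * L) := mul_le_mul_of_nonneg_left hTL (Nat.cast_nonneg _)
        linarith
      have h2 : ((H : ℝ) / L + 1) * (80 * B0 * b ^ 4 / W ^ 2)
          ≤ (2 * H / T + 1) * (80 * B0 * b ^ 4 / W ^ 2) :=
        mul_le_mul_of_nonneg_right (by linarith) (by positivity)
      refine h2.trans ?_
      have h3 := block_algebra_two hA hb1 he hv hW (Nat.cast_nonneg H) hT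
      rw [h3, hb2, mul_add, add_mul, add_mul]
      have h4 : 0 ≤ 80 * A ^ 2 * ((H : ℝ) * (e ^ 6 * v ^ 6) / W ^ 6) := by positivity
      have h5 : 0 ≤ 160 * 140 ^ 2 * A ^ 6 * (√(K : ℝ) * e ^ 2 * v ^ 2 / W ^ 2) := by positivity
      linarith
    · intro S' hS' hdiam
      have h1 := block_large (S := S') (x := x) (T := T) (W := W) (ρ := ρ) hK
        (fun m hm n hn => (hx m (hS' hm) n (hS' hn)).1) ?_ c hc hW.le
        (fun m hm => hlarge m (hS' hm))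
      · rw [hsT, ← hb, hKρ] at h1
        rw [le_div_iff₀ (by positivity)]
        have h2 : B0 * (40 * K + (S'.card : ℝ) * (70 * (W ^ 2 / (140 * B0 * b) * b)))
            = 40 * B0 * b ^ 4 + (S'.card : ℝ) * W ^ 2 / 2 := by
          rw [← hb4]
          field_simp
          ring
        rw [h2] at h1
        linarith
      · intro m hm n hn
        refine (hx m (hS' hm) n (hS' hn)).2.trans ?_
        have h2 := hdiam m hm n hn
        have h3 := hdiam n hn m hm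
        have h4 : (m : ℝ) + 1 ≤ n + L := by exact_mod_cast h2
        have h5 : (n : ℝ) + 1 ≤ m + L := by exact_mod_cast h3
        have h6 : |(m : ℝ) - n| ≤ L - 1 := by
          rw [abs_le]; constructor <;> linarith
        linarith

end

end Pool.Agent.Helper22.GC
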