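import Mathlib
import Pool.Agent.Helper22.GC.Large2

/-!
# Large values of the error term over unit intervals
-/

open MeasureTheory Set Filter
open scoped Real ComplexConjugate Topology

namespace Pool.Agent.Helper22.GC

noncomputable section

/-- The size of the smoothed coefficients in a dyadic block. -/
lemma coeff_le {ε : ℝ} (hε : 0 < ε) : ∃ A : ℝ, 0 < A ∧ ∀ (δ : ℝ) (K k : ℕ), 0 < δ → 1 ≤ K →
    k ∈ Finset.Ico K (2 * K) →
    ‖((aw δ k * (k : ℝ) ^ (-(3 / 4) : ℝ) : ℝ) : ℂ)‖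
      ≤ A * ((K : ℝ) ^ (-(3 / 4) : ℝ) * (K : ℝ) ^ ε) * min 1 (1 / δ ^ 2 / K) := by
  obtain ⟨C, hC, hgr⟩ := gr_le hε
  refine ⟨C * 2 ^ ε, by positivity, ?_⟩
  intro δ K k hδ hK hk
  rw [Finset.mem_Ico] at hk
  have hk1 : 1 ≤ k := by omega
  have hK0 : (0 : ℝ) < K := by exact_mod_cast hK
  have hk0 : (0 : ℝ) < k := by exact_mod_cast hk1
  have hKk : (K : ℝ) ≤ k := by exact_mod_cast hk.1
  have hk2 : (k : ℝ) ≤ 2 * K := by exact_mod_cast hk.2.le
  have haw0 := aw_nonneg δ k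
  rw [Complex.norm_real, Real.norm_of_nonneg (by positivity)]
  have h1 : aw δ k ≤ gr k * min 1 (1 / δ ^ 2 / K) := by
    rcases le_total 1 (1 / δ ^ 2 / (K : ℝ)) with h | h
    · rw [min_eq_left h, mul_one]; exact aw_le δ k
    · rw [min_eq_right h]
      refine (aw_upper hδ hk1).trans ?_
      have : 1 / δ ^ 2 / (k : ℝ) ≤ 1 / δ ^ 2 / K :=
        div_le_div_of_nonneg_left (by positivity) hK0 hKk
      exact mul_le_mul_of_nonneg_left this (Nat.cast_nonneg _)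
  have hmin : 0 ≤ min 1 (1 / δ ^ 2 / (K : ℝ)) := by positivity
  have h2 : (gr k : ℝ) ≤ C * (2 ^ ε * (K : ℝ) ^ ε) := by
    refine (hgr k hk1).trans (mul_le_mul_of_nonneg_left ?_ hC.le)
    rw [← Real.mul_rpow (by norm_num) hK0.le]
    exact Real.rpow_le_rpow hk0.le hk2 hε.le
  have h3 : (k : ℝ) ^ (-(3 / 4) : ℝ) ≤ (K : ℝ) ^ (-(3 / 4) : ℝ) :=
    Real.rpow_le_rpow_of_nonpos hK0 hKk (by norm_num)
  calc aw δ k * (k : ℝ) ^ (-(3 / 4) : ℝ)
      ≤ (C * (2 ^ ε * (K : ℝ) ^ ε) * min 1 (1 / δ ^ 2 / K)) * (K : ℝ) ^ (-(3 / 4) : ℝ) := by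
        refine mul_le_mul (h1.trans (mul_le_mul_of_nonneg_right h2 hmin)) h3 (by positivity)
          (by positivity)
    _ = _ := by ring

lemma min_pow_le {X K θ : ℝ} (hX : 0 < X) (hK : 0 < K) (hθ : 0 ≤ θ) (n : ℕ) (hn : θ ≤ n) :
    (min 1 (X / K)) ^ n ≤ X ^ θ * K ^ (-θ) := by
  have h0 : X ^ θ * K ^ (-θ) = (X / K) ^ θ := by
    rw [Real.div_rpow hX.le hK.le, Real.rpow_neg hK.le]; rfl
  rw [h0]
  rcases le_total 1 (X / K) with h | h
  · rw [min_eq_left h, one_pow]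
    exact Real.one_le_rpow h hθ
  · rw [min_eq_right h, ← Real.rpow_natCast]
    exact Real.rpow_le_rpow_of_exponent_ge (by positivity) h hn

lemma geom_lt {p : ℝ} (hp0 : 0 < p) (hp1 : p < 1) (J : ℕ) :
    ∑ j ∈ Finset.range J, (1 - p) * p ^ j < 1 := by
  rw [← Finset.mul_sum]
  have h := geom_sum_eq hp1.ne J
  rw [h]
  have h1 : 0 < 1 - p := by linarith
  have h2 : (1 - p) * ((p ^ J - 1) / (p - 1)) = 1 - p ^ J := by
    have : p - 1 ≠ 0 := by linarith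
    field_simp
    ring
  rw [h2]
  have : 0 < p ^ J := by positivity
  linarith

/-- The one-sided count. -/
theorem one_side {ε : ℝ} (hε : 0 < ε) (hε' : ε < 1 / 8) : ∃ C C1 : ℝ, 0 < C ∧ 0 < C1 ∧
    ∀ (S : Finset ℕ) (y : ℕ → ℝ) (M H : ℕ) (δ W0 : ℝ), 0 < δ → δ ≤ 1 / 2 → 0 < W0 →
    (∀ m ∈ S, M < m ∧ m ≤ M + H) →
    (∀ m ∈ S, ∀ n ∈ S, |(m : ℝ) - n| - 1 ≤ |y m - y n| ∧ |y m - y n| ≤ |(m : ℝ) - n| + 1) →
    (∀ m ∈ S, 0 < y m ∧ C1 ≤ W0 * y m) →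
    (∀ m ∈ S, W0 ≤ |Qs δ (y m)|) →
    (S.card : ℝ) ≤ C * (H * (1 / δ ^ 2) ^ (13 * ε) / W0 ^ 6
      + (1 / δ ^ 2) ^ (1 / 2 + 5 * ε) / W0 ^ 2) := by
  classical
  obtain ⟨A, hA, hcoeff⟩ := coeff_le hε
  obtain ⟨C0, hC0, hblock⟩ := block_count hA
  obtain ⟨C2, hC2, hPT⟩ := PT_approx
  obtain ⟨p, hp⟩ : ∃ p : ℝ, p = (2 : ℝ) ^ (-ε) := ⟨_, rfl⟩
  have hp0 : 0 < p := by rw [hp]; positivity
  have hp1 : p < 1 := by
    rw [hp]; exact Real.rpow_lt_one_of_one_lt_of_neg (by norm_num) (by linarith)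
  have h1p : 0 < 1 - p := by linarith
  refine ⟨C0 * (64 / (1 - p) ^ 7), 4 * C2, by positivity, by positivity, ?_⟩
  intro S y M H δ W0 hδ hδ' hW0 hS hsp hy hlarge
  obtain ⟨X, hX⟩ : ∃ X : ℝ, X = 1 / δ ^ 2 := ⟨_, rfl⟩
  have hX0 : 0 < X := by rw [hX]; positivity
  -- truncation
  have htrunc : ∃ J : ℕ, ∀ m ∈ S, W0 / 2 ≤ ‖V δ (2 ^ J - 1) (y m)‖ := by
    have hTt : Tendsto (fun J : ℕ => 2 ^ J - 1) atTop atTop := by
      refine tendsto_atTop_mono (f := fun J => J) (fun J => ?_) tendsto_id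
      have : J < 2 ^ J := Nat.lt_two_pow_self
      omega
    have hev : ∀ m ∈ S, ∀ᶠ J : ℕ in atTop, W0 / 2 ≤ ‖V δ (2 ^ J - 1) (y m)‖ := by
      intro m hm
      obtain ⟨hy0, hy1⟩ := hy m hm
      have hsy : 0 < √(y m) := Real.sqrt_pos.mpr hy0
      have h1 := ((tendsto_PT hδ hδ' hy0).comp hTt).norm
      have h2 : W0 * √(y m) ≤ ‖((Sm δ (y m) - π * (y m) ^ 2 : ℝ) : ℂ)‖ := by
        have := hlarge m hm
        rw [Qs, abs_div, abs_of_pos hsy, le_div_iff₀ hsy] at this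
        rw [Complex.norm_real, Real.norm_eq_abs]
        exact this
      have h3 : 3 / 4 * W0 * √(y m) < ‖((Sm δ (y m) - π * (y m) ^ 2 : ℝ) : ℂ)‖ := by
        have : 0 < W0 * √(y m) := by positivity
        linarith
      filter_upwards [h1.eventually (lt_mem_nhds h3)] with J hJ
      have h4 := hPT δ (2 ^ J - 1) (y m) hy0
      have h5 : ‖PT δ (2 ^ J - 1) (y m)‖ ≤ ‖((√(y m) * (4 * (g0 * V δ (2 ^ J - 1) (y m)).re) : ℝ) : ℂ)‖
          + C2 / √(y m) := by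
        have := norm_sub_norm_le (PT δ (2 ^ J - 1) (y m))
          (((√(y m) * (4 * (g0 * V δ (2 ^ J - 1) (y m)).re) : ℝ) : ℂ))
        linarith
      have h6 : ‖((√(y m) * (4 * (g0 * V δ (2 ^ J - 1) (y m)).re) : ℝ) : ℂ)‖
          ≤ √(y m) * ‖V δ (2 ^ J - 1) (y m)‖ := by
        rw [Complex.norm_real, Real.norm_eq_abs, abs_mul, abs_of_pos hsy]
        exact mul_le_mul_of_nonneg_left (abs_four_re_le _) hsy.le
      have h7 : C2 / √(y m) ≤ W0 / 4 * √(y m) := by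
        rw [div_le_iff₀ hsy, mul_assoc, Real.mul_self_sqrt hy0.le]
        linarith
      have hJ' : 3 / 4 * W0 * √(y m) < ‖PT δ (2 ^ J - 1) (y m)‖ := hJ
      have h8 : W0 / 2 * √(y m) ≤ √(y m) * ‖V δ (2 ^ J - 1) (y m)‖ := by linarith
      rw [mul_comm] at h8
      exact le_of_mul_le_mul_left h8 hsy
    have hall := (Filter.eventually_all_finset S).mpr hev
    exact hall.exists
  obtain ⟨J, hJ⟩ := htrunc
  -- blocks
  set c : ℕ → ℂ := fun k => ((aw δ k * (k : ℝ) ^ (-(3 / 4) : ℝ) : ℝ) : ℂ) with hc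
  set B : ℕ → ℕ → ℂ := fun j m => ∑ k ∈ Finset.Ico (2 ^ j) (2 * 2 ^ j), c k * ee (y m * √k) with hB
  have hsplit : ∀ m, V δ (2 ^ J - 1) (y m) = ∑ j ∈ Finset.range J, B j m := by
    intro m
    have hI : Finset.Icc 1 (2 ^ J - 1) = Finset.Ico 1 (2 ^ J) := by
      ext n
      rw [Finset.mem_Icc, Finset.mem_Ico]
      have : 1 ≤ 2 ^ J := Nat.one_le_two_pow
      omega
    rw [V, hI, dyadic_split]
  obtain ⟨w, hw⟩ : ∃ w : ℝ, w = W0 / 2 * (1 - p) := ⟨_, rfl⟩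
  have hw0 : 0 < w := by rw [hw]; positivity
  have hcover : S ⊆ (Finset.range J).biUnion (fun j => S.filter (fun m => w * p ^ j ≤ ‖B j m‖)) := by
    intro m hm
    rw [Finset.mem_biUnion]
    by_contra hcon
    push Not at hcon
    have h1 : ∀ j ∈ Finset.range J, ‖B j m‖ ≤ w * p ^ j := by
      intro j hj
      have := hcon j hj
      rw [Finset.mem_filter, not_and, not_le] at this
      exact (this hm).le
    have h2 : ‖V δ (2 ^ J - 1) (y m)‖ ≤ ∑ j ∈ Finset.range J, w * p ^ j := by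
      rw [hsplit m]
      exact (norm_sum_le _ _).trans (Finset.sum_le_sum h1)
    have h3 : ∑ j ∈ Finset.range J, w * p ^ j = W0 / 2 * ∑ j ∈ Finset.range J, (1 - p) * p ^ j := by
      rw [Finset.mul_sum]
      refine Finset.sum_congr rfl fun j _ => ?_
      rw [hw]; ring
    have h4 := geom_lt hp0 hp1 J
    have h5 := hJ m hm
    rw [h3] at h2
    have h6 : W0 / 2 * ∑ j ∈ Finset.range J, (1 - p) * p ^ j < W0 / 2 * 1 :=
      mul_lt_mul_of_pos_left h4 (by positivity)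
    linarith
  have hcard : (S.card : ℝ) ≤ ∑ j ∈ Finset.range J,
      ((S.filter (fun m => w * p ^ j ≤ ‖B j m‖)).card : ℝ) := by
    have h1 := (Finset.card_le_card hcover).trans Finset.card_biUnion_le
    exact_mod_cast h1
  have hterm : ∀ j ∈ Finset.range J, ((S.filter (fun m => w * p ^ j ≤ ‖B j m‖)).card : ℝ)
      ≤ C0 * ((H * X ^ (13 * ε) / w ^ 6 + X ^ (1 / 2 + 5 * ε) / w ^ 2) * p ^ j) := by
    intro j _
    have hK1 : 1 ≤ 2 ^ j := Nat.one_le_two_pow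
    have hKr : (((2 ^ j : ℕ)) : ℝ) = (2 : ℝ) ^ j := by push_cast; rfl
    have hK0 : (0 : ℝ) < (2 : ℝ) ^ j := by positivity
    obtain ⟨e, he⟩ : ∃ e : ℝ, e = ((2 : ℝ) ^ j) ^ ε := ⟨_, rfl⟩
    obtain ⟨v, hv⟩ : ∃ v : ℝ, v = min 1 (X / (2 : ℝ) ^ j) := ⟨_, rfl⟩
    have he1 : 1 ≤ e := by
      rw [he]; exact Real.one_le_rpow (one_le_pow₀ (by norm_num)) hε.le
    have he0 : 0 < e := by linarith
    have hv0 : 0 < v := by rw [hv]; positivity
    have hep : e * p ^ j = 1 := by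
      rw [he, two_pow_rpow, hp, ← mul_pow, ← Real.rpow_add (by norm_num)]
      simp
    have hpe : p ^ j = 1 / e := by
      rw [eq_div_iff he0.ne']; linarith
    have h1 := hblock (S.filter (fun m => w * p ^ j ≤ ‖B j m‖)) y M H (2 ^ j) c e v (w * p ^ j)
      hK1 he1 hv0 (by positivity)
      (fun m hm => hS m (Finset.mem_filter.mp hm).1)
      (fun m hm n hn => hsp m (Finset.mem_filter.mp hm).1 n (Finset.mem_filter.mp hn).1)
      (fun k hk => by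
        have := hcoeff δ (2 ^ j) k hδ hK1 hk
        rw [hKr, ← he, ← hX, ← hv] at this
        rw [hKr]
        exact this)
      (fun m hm => (Finset.mem_filter.mp hm).2)
    refine h1.trans (mul_le_mul_of_nonneg_left ?_ hC0.le)
    rw [hKr, add_mul, hpe]
    have hv6 : v ^ 6 ≤ X ^ (13 * ε) * (1 / e) ^ 13 := by
      have := min_pow_le hX0 hK0 (θ := 13 * ε) (by positivity) 6 (by norm_num; linarith)
      rw [← hv] at this
      refine this.trans (le_of_eq ?_)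
      congr 1
      rw [one_div, inv_pow, he, ← Real.rpow_natCast _ 13, ← Real.rpow_mul hK0.le,
        ← Real.rpow_neg hK0.le]
      congr 1
      push_cast; ring
    have hv2 : v ^ 2 ≤ X ^ (1 / 2 + 5 * ε) * (1 / √((2 : ℝ) ^ j) * (1 / e) ^ 5) := by
      have := min_pow_le hX0 hK0 (θ := 1 / 2 + 5 * ε) (by positivity) 2 (by norm_num; linarith)
      rw [← hv] at this
      refine this.trans (le_of_eq ?_)
      congr 1
      rw [one_div (√((2 : ℝ) ^ j)), one_div e, inv_pow, he, Real.sqrt_eq_rpow,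
        ← Real.rpow_natCast _ 5, ← Real.rpow_mul hK0.le,
        ← Real.rpow_neg hK0.le, ← Real.rpow_neg hK0.le, ← Real.rpow_add hK0]
      congr 1
      push_cast; ring
    have hsK : 0 < √((2 : ℝ) ^ j) := Real.sqrt_pos.mpr hK0
    refine add_le_add ?_ ?_
    · calc (H : ℝ) * (e ^ 6 * v ^ 6) / (w * (1 / e)) ^ 6
          ≤ (H : ℝ) * (e ^ 6 * (X ^ (13 * ε) * (1 / e) ^ 13)) / (w * (1 / e)) ^ 6 := by gcongr
        _ = H * X ^ (13 * ε) / w ^ 6 * (1 / e) := by field_simp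
    · calc √((2 : ℝ) ^ j) * e ^ 2 * v ^ 2 / (w * (1 / e)) ^ 2
          ≤ √((2 : ℝ) ^ j) * e ^ 2 * (X ^ (1 / 2 + 5 * ε) * (1 / √((2 : ℝ) ^ j) * (1 / e) ^ 5))
            / (w * (1 / e)) ^ 2 := by gcongr
        _ = X ^ (1 / 2 + 5 * ε) / w ^ 2 * (1 / e) := by field_simp
  refine hcard.trans ((Finset.sum_le_sum hterm).trans ?_)
  rw [← Finset.mul_sum, ← Finset.mul_sum, ← hX]
  have hgeo : ∑ j ∈ Finset.range J, p ^ j ≤ 1 / (1 - p) := by
    rw [le_div_iff₀ h1p, mul_comm, Finset.mul_sum]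
    exact (geom_lt hp0 hp1 J).le
  have hZ1 : 0 ≤ (H : ℝ) * X ^ (13 * ε) / W0 ^ 6 := by positivity
  have hZ2 : 0 ≤ X ^ (1 / 2 + 5 * ε) / W0 ^ 2 := by positivity
  have hw6 : (H : ℝ) * X ^ (13 * ε) / w ^ 6 = 64 / (1 - p) ^ 6 * (H * X ^ (13 * ε) / W0 ^ 6) := by
    rw [hw]; field_simp; norm_num
  have hw2 : X ^ (1 / 2 + 5 * ε) / w ^ 2 = 4 / (1 - p) ^ 2 * (X ^ (1 / 2 + 5 * ε) / W0 ^ 2) := by
    rw [hw]; field_simp; norm_num
  have hq : 4 / (1 - p) ^ 2 ≤ 64 / (1 - p) ^ 6 := by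
    rw [div_le_div_iff₀ (by positivity) (by positivity)]
    have : (1 - p) ^ 6 ≤ (1 - p) ^ 2 := pow_le_pow_of_le_one h1p.le (by linarith) (by norm_num)
    have h2 : 0 < (1 - p) ^ 2 := by positivity
    linarith
  calc C0 * ((H * X ^ (13 * ε) / w ^ 6 + X ^ (1 / 2 + 5 * ε) / w ^ 2)
        * ∑ j ∈ Finset.range J, p ^ j)
      ≤ C0 * ((64 / (1 - p) ^ 6 * (H * X ^ (13 * ε) / W0 ^ 6
          + X ^ (1 / 2 + 5 * ε) / W0 ^ 2)) * (1 / (1 - p))) := by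
        refine mul_le_mul_of_nonneg_left ?_ hC0.le
        refine mul_le_mul ?_ hgeo (Finset.sum_nonneg fun _ _ => by positivity) (by positivity)
        rw [hw6, hw2, mul_add]
        have := mul_le_mul_of_nonneg_right hq hZ2
        linarith
    _ = C0 * (64 / (1 - p) ^ 7) * (H * X ^ (13 * ε) / W0 ^ 6
          + X ^ (1 / 2 + 5 * ε) / W0 ^ 2) := by
        field_simp

end

end Pool.Agent.Helper22.GC
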