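import Mathlib
import Pool.Agent.Helper22.GC.Large3

/-!
# Large values of the error term over unit intervals: conclusion
-/

open MeasureTheory Set Filter
open scoped Real ComplexConjugate Topology

namespace Pool.Agent.Helper22.GC

noncomputable section

/-- One of the two smoothed errors is large. -/
lemma one_of_two {M R V : ℝ} (hM : 1 ≤ M) (hV : 0 < V) (hVM : V ≤ M) (hR2 : 2 ≤ R)
    (hR : R ≤ 4 * M) (hR3 : R ≤ 3 * M) (hP : V ≤ |Pe R|) :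
    V / (16 * √M) ≤ |Qs (V / (156 * M)) (R + 2 * (V / (156 * M)))|
      ∨ V / (16 * √M) ≤ |Qs (V / (156 * M)) (R - 2 * (V / (156 * M)))| := by
  have hM0 : 0 < M := by linarith
  have hR0 : 0 < R := by linarith
  have hsM : 0 < √M := Real.sqrt_pos.mpr hM0
  have hsR : 0 < √R := Real.sqrt_pos.mpr hR0
  obtain ⟨δ, hδ⟩ : ∃ δ : ℝ, δ = V / (156 * M) := ⟨_, rfl⟩
  have hδ0 : 0 < δ := by rw [hδ]; positivity
  have hδ1 : δ ≤ 1 / 2 := by
    rw [hδ, div_le_div_iff₀ (by positivity) (by norm_num)]; linarith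
  rw [← hδ]
  by_contra hcon
  push Not at hcon
  obtain ⟨h1, h2⟩ := hcon
  have h3 := sandwich hR2 hδ0 hδ1 0
  simp only [sub_zero, abs_zero, mul_zero, add_zero] at h3
  have h4 : V / √R ≤ |Pe R / √R| := by
    rw [abs_div, abs_of_pos hsR]
    exact div_le_div_of_nonneg_right hP hsR.le
  have h5 : 26 * δ * √R ≤ V / √R / 2 := by
    have e1 : 26 * δ * √R = V / √R * (R / (6 * M)) := by
      rw [hδ]
      have : √R * √R = R := Real.mul_self_sqrt hR0.le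
      field_simp
      nlinarith
    rw [e1, div_eq_mul_inv (V / √R) 2]
    refine mul_le_mul_of_nonneg_left ?_ (by positivity)
    rw [div_le_iff₀ (by positivity)]
    linarith
  have h6 : V / (4 * √M) ≤ V / √R / 2 := by
    rw [div_div]
    apply div_le_div_of_nonneg_left hV.le (by positivity)
    have : √R ≤ 2 * √M := by
      rw [Real.sqrt_le_left (by positivity), mul_pow, Real.sq_sqrt hM0.le]
      linarith
    linarith
  have h7 : V / (4 * √M) = 4 * (V / (16 * √M)) := by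
    field_simp; norm_num
  linarith

/-- Large values over unit intervals, main range. -/
theorem unit_large {ε : ℝ} (hε : 0 < ε) (hε' : ε < 1 / 8) : ∃ (C : ℝ) (M₀ : ℕ), 0 < C ∧
    ∀ (M H : ℕ) (V : ℝ) (S : Finset ℕ) (R : ℕ → ℝ), M₀ ≤ M → H ≤ M → √(M : ℝ) ≤ V → V ≤ M →
    (∀ m ∈ S, M < m ∧ m ≤ M + H) →
    (∀ m ∈ S, (m : ℝ) ≤ R m ∧ R m ≤ m + 1 ∧ V ≤ |Pe (R m)|) →
    (S.card : ℝ) ≤ C * (M : ℝ) ^ (13 * ε) * (H * (M : ℝ) ^ 3 / V ^ 6 + (M : ℝ) ^ 2 / V ^ 3) := by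
  classical
  obtain ⟨C, C1, hC, hC1, hone⟩ := one_side hε hε'
  obtain ⟨N, hN⟩ := exists_nat_ge (16 * C1)
  refine ⟨2 * (C * (156 ^ 5 * 16 ^ 6)), N + 1, by positivity, ?_⟩
  intro M H V S R hM hHM hsV hVM hS hR
  have hM1 : (1 : ℝ) ≤ M := by exact_mod_cast (by omega : 1 ≤ M)
  have hM0 : (0 : ℝ) < M := by linarith
  have hNM : (N : ℝ) ≤ M := by exact_mod_cast (by omega : N ≤ M)
  have hsM : 0 < √(M : ℝ) := Real.sqrt_pos.mpr hM0
  have hV0 : 0 < V := by linarith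
  have hHr : (H : ℝ) ≤ M := by exact_mod_cast hHM
  have hRr : ∀ m ∈ S, (M : ℝ) + 1 ≤ R m ∧ R m ≤ 3 * M := by
    intro m hm
    obtain ⟨h1, h2⟩ := hS m hm
    obtain ⟨h3, h4, _⟩ := hR m hm
    have h5 : (M : ℝ) + 1 ≤ m := by exact_mod_cast h1
    have h6 : (m : ℝ) ≤ M + H := by exact_mod_cast h2
    constructor <;> linarith
  obtain ⟨δ, hδ⟩ : ∃ δ : ℝ, δ = V / (156 * M) := ⟨_, rfl⟩
  obtain ⟨W0, hW0⟩ : ∃ W0 : ℝ, W0 = V / (16 * √M) := ⟨_, rfl⟩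
  have hδ0 : 0 < δ := by rw [hδ]; positivity
  have hδ1 : δ ≤ 1 / 2 := by
    rw [hδ, div_le_div_iff₀ (by positivity) (by norm_num)]; linarith
  have hW00 : 0 < W0 := by rw [hW0]; positivity
  have hW01 : 1 / 16 ≤ W0 := by
    rw [hW0, div_le_div_iff₀ (by norm_num) (by positivity)]; linarith
  have hsp : ∀ s : ℝ, ∀ m ∈ S, ∀ n ∈ S, |(m : ℝ) - n| - 1 ≤ |(R m + s) - (R n + s)| ∧
      |(R m + s) - (R n + s)| ≤ |(m : ℝ) - n| + 1 := by
    intro s m hm n hn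
    obtain ⟨h1, h2, _⟩ := hR m hm
    obtain ⟨h3, h4, _⟩ := hR n hn
    have e1 : (R m + s) - (R n + s) = ((m : ℝ) - n) + ((R m - m) - (R n - n)) := by ring
    have e2 : |(R m - m) - (R n - n)| ≤ 1 := by
      rw [abs_le]; constructor <;> linarith
    rw [e1]
    constructor
    · have := abs_sub_abs_le_abs_sub ((m : ℝ) - n) (-((R m - m) - (R n - n)))
      rw [abs_neg, sub_neg_eq_add] at this
      linarith
    · have := abs_add_le ((m : ℝ) - n) ((R m - m) - (R n - n))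
      linarith
  have hside : ∀ s : ℝ, |s| ≤ 1 → ((S.filter (fun m => W0 ≤ |Qs δ (R m + s)|)).card : ℝ)
      ≤ C * (H * (1 / δ ^ 2) ^ (13 * ε) / W0 ^ 6 + (1 / δ ^ 2) ^ (1 / 2 + 5 * ε) / W0 ^ 2) := by
    intro s hs
    refine hone _ (fun m => R m + s) M H δ W0 hδ0 hδ1 hW00 ?_ ?_ ?_ ?_
    · exact fun m hm => hS m (Finset.mem_filter.mp hm).1
    · exact fun m hm n hn => hsp s m (Finset.mem_filter.mp hm).1 n (Finset.mem_filter.mp hn).1
    · intro m hm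
      obtain ⟨h1, h2⟩ := hRr m (Finset.mem_filter.mp hm).1
      have h3 := (abs_le.mp hs).1
      have h4 : (M : ℝ) ≤ R m + s := by linarith
      refine ⟨by linarith, ?_⟩
      calc C1 ≤ 1 / 16 * (M : ℝ) := by linarith
        _ ≤ W0 * (R m + s) := mul_le_mul hW01 h4 hM0.le hW00.le
    · exact fun m hm => (Finset.mem_filter.mp hm).2
  have hcov : S ⊆ S.filter (fun m => W0 ≤ |Qs δ (R m + 2 * δ)|)
      ∪ S.filter (fun m => W0 ≤ |Qs δ (R m + (-(2 * δ)))|) := by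
    intro m hm
    obtain ⟨h1, h2⟩ := hRr m hm
    obtain ⟨_, _, h3⟩ := hR m hm
    rw [Finset.mem_union, Finset.mem_filter, Finset.mem_filter, ← sub_eq_add_neg]
    rcases one_of_two hM1 hV0 hVM (by linarith) (by linarith) h2 h3 with h | h
    · left; exact ⟨hm, by rw [hδ, hW0]; exact h⟩
    · right; exact ⟨hm, by rw [hδ, hW0]; exact h⟩
  have hcard : (S.card : ℝ) ≤ ((S.filter (fun m => W0 ≤ |Qs δ (R m + 2 * δ)|)).card : ℝ)
      + ((S.filter (fun m => W0 ≤ |Qs δ (R m + (-(2 * δ)))|)).card : ℝ) := by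
    have := (Finset.card_le_card hcov).trans (Finset.card_union_le _ _)
    exact_mod_cast this
  have hs1 := hside (2 * δ) (by rw [abs_of_pos (by positivity)]; linarith)
  have hs2 := hside (-(2 * δ)) (by rw [abs_neg, abs_of_pos (by positivity)]; linarith)
  obtain ⟨X, hX⟩ : ∃ X : ℝ, X = 1 / δ ^ 2 := ⟨_, rfl⟩
  have hXeq : X = (156 * M / V) ^ 2 := by
    rw [hX, hδ]; field_simp
  have hX1 : 1 ≤ X := by
    rw [hXeq]
    refine one_le_pow₀ ?_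
    rw [one_le_div hV0]; linarith
  have hXM : X ≤ 156 ^ 2 * M := by
    rw [hXeq, div_pow, div_le_iff₀ (by positivity), mul_pow]
    have : (M : ℝ) ≤ V ^ 2 := by
      have h := pow_le_pow_left₀ hsM.le hsV 2
      rwa [Real.sq_sqrt hM0.le] at h
    calc (156 : ℝ) ^ 2 * (M : ℝ) ^ 2 = 156 ^ 2 * M * M := by ring
      _ ≤ 156 ^ 2 * M * V ^ 2 := by gcongr
  have hXp : X ^ (13 * ε) ≤ 156 ^ 4 * (M : ℝ) ^ (13 * ε) := by
    calc X ^ (13 * ε) ≤ (156 ^ 2 * M) ^ (13 * ε) := Real.rpow_le_rpow (by linarith) hXM (by positivity)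
      _ = (156 ^ 2 : ℝ) ^ (13 * ε) * (M : ℝ) ^ (13 * ε) := Real.mul_rpow (by positivity) hM0.le
      _ ≤ (156 ^ 2 : ℝ) ^ (2 : ℝ) * (M : ℝ) ^ (13 * ε) := by
          refine mul_le_mul_of_nonneg_right ?_ (by positivity)
          exact Real.rpow_le_rpow_of_exponent_le (by norm_num) (by linarith)
      _ = 156 ^ 4 * (M : ℝ) ^ (13 * ε) := by
          congr 1
          rw [Real.rpow_two]; norm_num
  have hXp2 : X ^ (1 / 2 + 5 * ε) ≤ (156 * M / V) * (156 ^ 4 * (M : ℝ) ^ (13 * ε)) := by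
    rw [Real.rpow_add (by linarith), ← Real.sqrt_eq_rpow]
    have h1 : √X = 156 * M / V := by rw [hXeq, Real.sqrt_sq (by positivity)]
    rw [h1]
    refine mul_le_mul_of_nonneg_left ?_ (by positivity)
    exact (Real.rpow_le_rpow_of_exponent_le hX1 (by linarith)).trans hXp
  rw [← hX] at hs1 hs2
  obtain ⟨P, hP⟩ : ∃ P : ℝ, P = (M : ℝ) ^ (13 * ε) := ⟨_, rfl⟩
  have hP0 : 0 < P := by rw [hP]; positivity
  rw [← hP] at hXp hXp2 ⊢
  have hsM2 : √(M : ℝ) ^ 2 = M := Real.sq_sqrt hM0.le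
  have hW2 : W0 ^ 2 = V ^ 2 / (256 * M) := by
    rw [hW0, div_pow, mul_pow, hsM2]; norm_num
  have hW6 : W0 ^ 6 = V ^ 6 / (16 ^ 6 * (M : ℝ) ^ 3) := by
    have : W0 ^ 6 = (W0 ^ 2) ^ 3 := by ring
    rw [this, hW2, div_pow, mul_pow]
    congr 1
    · ring
    · congr 1; norm_num
  have hbound : (H : ℝ) * X ^ (13 * ε) / W0 ^ 6 + X ^ (1 / 2 + 5 * ε) / W0 ^ 2
      ≤ (156 ^ 5 * 16 ^ 6) * (P * (H * (M : ℝ) ^ 3 / V ^ 6 + (M : ℝ) ^ 2 / V ^ 3)) := by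
    have t1 : (H : ℝ) * X ^ (13 * ε) / W0 ^ 6 ≤ (156 ^ 5 * 16 ^ 6) * (P * (H * (M : ℝ) ^ 3 / V ^ 6)) := by
      calc (H : ℝ) * X ^ (13 * ε) / W0 ^ 6 ≤ (H : ℝ) * (156 ^ 4 * P) / W0 ^ 6 := by gcongr
        _ = (156 ^ 4 * 16 ^ 6) * (P * (H * (M : ℝ) ^ 3 / V ^ 6)) := by
            rw [hW6]; field_simp
        _ ≤ (156 ^ 5 * 16 ^ 6) * (P * (H * (M : ℝ) ^ 3 / V ^ 6)) := by
            refine mul_le_mul_of_nonneg_right (by norm_num) (by positivity)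
    have t2 : X ^ (1 / 2 + 5 * ε) / W0 ^ 2 ≤ (156 ^ 5 * 16 ^ 6) * (P * ((M : ℝ) ^ 2 / V ^ 3)) := by
      calc X ^ (1 / 2 + 5 * ε) / W0 ^ 2 ≤ (156 * M / V) * (156 ^ 4 * P) / W0 ^ 2 := by gcongr
        _ = (156 ^ 5 * 256) * (P * ((M : ℝ) ^ 2 / V ^ 3)) := by
            rw [hW2]; field_simp
        _ ≤ (156 ^ 5 * 16 ^ 6) * (P * ((M : ℝ) ^ 2 / V ^ 3)) := by
            refine mul_le_mul_of_nonneg_right (by norm_num) (by positivity)
    rw [mul_add, mul_add]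
    exact add_le_add t1 t2
  have hfin := mul_le_mul_of_nonneg_left hbound hC.le
  calc (S.card : ℝ) ≤ 2 * (C * ((H : ℝ) * X ^ (13 * ε) / W0 ^ 6 + X ^ (1 / 2 + 5 * ε) / W0 ^ 2)) := by
        linarith
    _ ≤ 2 * (C * ((156 ^ 5 * 16 ^ 6) * (P * (H * (M : ℝ) ^ 3 / V ^ 6 + (M : ℝ) ^ 2 / V ^ 3)))) := by
        linarith
    _ = _ := by ring

/-- The set of large unit intervals. -/
def LS (M H : ℕ) (V : ℝ) : Set ℕ :=
  {m : ℕ | M < m ∧ m ≤ M + H ∧ ∃ R : ℝ, (m : ℝ) ≤ R ∧ R ≤ m + 1 ∧ V ≤ |Pe R|}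

lemma LS_sub (M H : ℕ) (V : ℝ) : LS M H V ⊆ (Finset.Ioc M (M + H) : Set ℕ) := by
  intro m hm
  rw [Finset.mem_coe, Finset.mem_Ioc]
  exact ⟨hm.1, hm.2.1⟩

lemma LS_finite (M H : ℕ) (V : ℝ) : (LS M H V).Finite :=
  (Finset.finite_toSet _).subset (LS_sub M H V)

lemma LS_ncard_le (M H : ℕ) (V : ℝ) : (LS M H V).ncard ≤ H := by
  have h := Set.ncard_le_ncard (LS_sub M H V) (Finset.finite_toSet _)
  rwa [Set.ncard_coe_finset, Nat.card_Ioc, Nat.add_sub_cancel_left] at h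

/-- Large values over unit intervals. -/
theorem unit_large_final {ε : ℝ} (hε : 0 < ε) : ∃ (C : ℝ) (M₀ : ℕ),
    ∀ (M H : ℕ) (V : ℝ), M₀ ≤ M → 1 ≤ H → H ≤ M → 0 < V →
    ((LS M H V).ncard : ℝ)
      ≤ C * (M : ℝ) ^ ε * (H * (M : ℝ) ^ 3 / V ^ 6 + (M : ℝ) ^ 2 / V ^ 3) := by
  classical
  obtain ⟨η, hη⟩ : ∃ η : ℝ, η = min (ε / 13) (1 / 26) := ⟨_, rfl⟩
  have hη0 : 0 < η := by rw [hη]; positivity
  have hη1 : 13 * η ≤ ε := by
    have : η ≤ ε / 13 := hη ▸ min_le_left _ _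
    linarith
  have hη2 : 13 * η ≤ 1 / 2 := by
    have : η ≤ 1 / 26 := hη ▸ min_le_right _ _
    linarith
  obtain ⟨C, M₀, hC, hmain⟩ := unit_large hη0 (by linarith)
  obtain ⟨N, hN⟩ := exists_nat_ge ((2 * C + 1) ^ 2)
  refine ⟨max C 1, M₀ + N + 1, ?_⟩
  intro M H V hM hH hHM hV
  have hM1 : (1 : ℝ) ≤ M := by exact_mod_cast (by omega : 1 ≤ M)
  have hM0 : (0 : ℝ) < M := by linarith
  have hNM : (N : ℝ) ≤ M := by exact_mod_cast (by omega : N ≤ M)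
  have hHr : (H : ℝ) ≤ M := by exact_mod_cast hHM
  have hH0 : (0 : ℝ) ≤ H := Nat.cast_nonneg _
  have hMε1 : 1 ≤ (M : ℝ) ^ ε := Real.one_le_rpow hM1 hε.le
  have hMε2 : (M : ℝ) ^ (13 * η) ≤ (M : ℝ) ^ ε := Real.rpow_le_rpow_of_exponent_le hM1 hη1
  -- the main range
  have hmid : ∀ V' : ℝ, √(M : ℝ) ≤ V' → V' ≤ M → ((LS M H V').ncard : ℝ)
      ≤ C * (M : ℝ) ^ (13 * η) * (H * (M : ℝ) ^ 3 / V' ^ 6 + (M : ℝ) ^ 2 / V' ^ 3) := by
    intro V' h1 h2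
    have hch : ∀ m : ℕ, ∃ R : ℝ, m ∈ LS M H V' → ((m : ℝ) ≤ R ∧ R ≤ m + 1 ∧ V' ≤ |Pe R|) := by
      intro m
      by_cases hm : m ∈ LS M H V'
      · obtain ⟨_, _, R, hR⟩ := hm
        exact ⟨R, fun _ => hR⟩
      · exact ⟨0, fun h => absurd h hm⟩
    choose R hR using hch
    have h3 := hmain M H V' (LS_finite M H V').toFinset R (by omega) hHM h1 h2
      (fun m hm => by
        rw [Set.Finite.mem_toFinset] at hm
        exact ⟨hm.1, hm.2.1⟩)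
      (fun m hm => hR m ((Set.Finite.mem_toFinset _).mp hm))
    rwa [← Set.ncard_eq_toFinset_card (LS M H V') (LS_finite M H V')] at h3
  rcases lt_or_ge V (√(M : ℝ)) with hcase | hcase
  · have h1 : ((LS M H V).ncard : ℝ) ≤ H := by exact_mod_cast LS_ncard_le M H V
    have h2 : V ^ 6 ≤ (M : ℝ) ^ 3 := by
      have h3 : V ^ 2 ≤ M := by
        have := pow_le_pow_left₀ hV.le hcase.le 2
        rwa [Real.sq_sqrt hM0.le] at this
      calc V ^ 6 = (V ^ 2) ^ 3 := by ring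
        _ ≤ (M : ℝ) ^ 3 := pow_le_pow_left₀ (by positivity) h3 3
    have h3 : (H : ℝ) ≤ H * (M : ℝ) ^ 3 / V ^ 6 := by
      rw [le_div_iff₀ (by positivity)]
      exact mul_le_mul_of_nonneg_left h2 hH0
    have h4 : (1 : ℝ) ≤ max C 1 * (M : ℝ) ^ ε := by
      have : (1 : ℝ) ≤ max C 1 := le_max_right _ _
      nlinarith
    have h5 : 0 ≤ (M : ℝ) ^ 2 / V ^ 3 := by positivity
    calc ((LS M H V).ncard : ℝ) ≤ 1 * (H * (M : ℝ) ^ 3 / V ^ 6 + (M : ℝ) ^ 2 / V ^ 3) := by linarith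
      _ ≤ _ := mul_le_mul_of_nonneg_right h4 (by positivity)
  rcases le_or_gt V (M : ℝ) with hcase2 | hcase2
  · refine (hmid V hcase hcase2).trans ?_
    refine mul_le_mul_of_nonneg_right ?_ (by positivity)
    exact mul_le_mul (le_max_left _ _) hMε2 (by positivity) (by positivity)
  · -- the count vanishes
    have hsM : √(M : ℝ) ≤ M := by
      rw [Real.sqrt_le_left hM0.le]; nlinarith
    have h1 := hmid M hsM le_rfl
    have h2 : (M : ℝ) ^ (13 * η) ≤ √M := by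
      rw [Real.sqrt_eq_rpow]
      exact Real.rpow_le_rpow_of_exponent_le hM1 hη2
    have h3 : (H : ℝ) * (M : ℝ) ^ 3 / (M : ℝ) ^ 6 + (M : ℝ) ^ 2 / (M : ℝ) ^ 3 ≤ 2 / M := by
      have e1 : (H : ℝ) * (M : ℝ) ^ 3 / (M : ℝ) ^ 6 ≤ 1 / M := by
        rw [div_le_div_iff₀ (by positivity) hM0]
        have h5 : (H : ℝ) * (M : ℝ) ^ 3 * M ≤ M * (M : ℝ) ^ 3 * M := by gcongr
        have h6 : (M : ℝ) * (M : ℝ) ^ 3 * M = (M : ℝ) ^ 5 := by ring
        have h7 : (M : ℝ) ^ 5 ≤ (M : ℝ) ^ 6 := pow_le_pow_right₀ hM1 (by norm_num)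
        linarith
      have e2 : (M : ℝ) ^ 2 / (M : ℝ) ^ 3 = 1 / M := by field_simp
      have e3 : 2 / (M : ℝ) = 1 / M + 1 / M := by ring
      linarith
    have h4 : ((LS M H M).ncard : ℝ) < 1 := by
      have hsM0 : 0 < √(M : ℝ) := Real.sqrt_pos.mpr hM0
      have h5 : 2 * C < √(M : ℝ) := by
        have : 2 * C + 1 ≤ √(M : ℝ) := by
          exact Real.le_sqrt_of_sq_le (hN.trans hNM)
        linarith
      calc ((LS M H M).ncard : ℝ)
          ≤ C * (M : ℝ) ^ (13 * η) * (H * (M : ℝ) ^ 3 / (M : ℝ) ^ 6 + (M : ℝ) ^ 2 / (M : ℝ) ^ 3) := h1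
        _ ≤ C * √M * (2 / M) := by gcongr
        _ = 2 * C / √M := by
            have : (M : ℝ) = √M * √M := (Real.mul_self_sqrt hM0.le).symm
            rw [eq_div_iff hsM0.ne']
            field_simp
            nlinarith
        _ < 1 := by rw [div_lt_one hsM0]; exact h5
    have h5 : (LS M H M).ncard = 0 := by
      have : (LS M H M).ncard < 1 := by exact_mod_cast h4
      omega
    have h6 : LS M H V ⊆ LS M H M := by
      intro m hm
      obtain ⟨a, b, R, c, d, e⟩ := hm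
      exact ⟨a, b, R, c, d, by linarith⟩
    have h7 := Set.ncard_le_ncard h6 (LS_finite M H M)
    have h8 : (LS M H V).ncard = 0 := by omega
    rw [h8, Nat.cast_zero]
    positivity

end

end Pool.Agent.Helper22.GC
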